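import Pool.Agent.Helper59K9.CY.Par
import Pool.Agent.Helper59K9.CY.Bet

/-!
Weighted Bergman spaces `A²_α` inside `L²`: Parseval, point evaluations, closedness.
-/

set_option autoImplicit false

namespace Pool.Agent.L5helper77.Berg

open MeasureTheory Metric Filter Topology ComplexConjugate
open Pool.Agent.Helper59K9.CY

noncomputable section

/-- the measure of the weighted Bergman space -/
def muA (α : ℝ) : Measure ℂ := (volume.restrict (Metric.ball (0 : ℂ) 1)).withDensity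
  (fun z : ℂ => ENNReal.ofReal ((1 + α) * (1 - ‖z‖ ^ 2) ^ α / Real.pi))

variable {α : ℝ}

lemma muA_eq (hα : 0 ≤ α) : muA α = ENNReal.ofReal ((1 + α) / Real.pi) • mu α := by
  unfold muA mu
  rw [← withDensity_smul _ (by fun_prop)]
  congr 1
  funext z
  rw [Pi.smul_apply, smul_eq_mul, ← ENNReal.ofReal_mul (by positivity)]
  congr 1
  ring

lemma fin_muA (hα : 0 ≤ α) : IsFiniteMeasure (muA α) := by
  rw [muA_eq hα]
  have := ParL.fin_mu hα
  exact MeasureTheory.Measure.smul_finite _ ENNReal.ofReal_ne_top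

lemma ae_lt (hα : 0 ≤ α) : ∀ᵐ z ∂(muA α), ‖z‖ < 1 := by
  rw [muA_eq hα]
  exact Measure.ae_smul_measure (ParL.ae_ball α) _

/-- weights -/
def wt (α : ℝ) (n : ℕ) : ℝ := (1 + α) * B α n

lemma wt_pos (hα : 0 ≤ α) (n : ℕ) : 0 < wt α n := by
  have := BetL.pos α hα n
  unfold wt
  positivity

lemma hasSum_of_ofReal {x : ℕ → ℝ} (hx : ∀ n, 0 ≤ x n) {s : ℝ} (hs : 0 ≤ s)
    (h : ENNReal.ofReal s = ∑' n, ENNReal.ofReal (x n)) : HasSum x s := by
  have h1 : Summable x := by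
    have h2 : ∑' n, ENNReal.ofReal (x n) ≠ ⊤ := by rw [← h]; exact ENNReal.ofReal_ne_top
    have h3 := ENNReal.summable_toReal h2
    refine h3.congr fun n => ?_
    rw [ENNReal.toReal_ofReal (hx n)]
  rw [← ENNReal.ofReal_tsum_of_nonneg hx h1] at h
  have h4 : s = ∑' n, x n := by
    have := congrArg ENNReal.toReal h
    rwa [ENNReal.toReal_ofReal hs, ENNReal.toReal_ofReal (tsum_nonneg hx)] at this
  rw [h4]
  exact h1.hasSum

lemma hasSum_cg {f g : ℕ → ℂ} {s : ℂ} (hf : HasSum f s) (h : ∀ n, f n = g n) : HasSum g s := by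
  have e : g = f := funext fun n => (h n).symm
  rw [e]; exact hf

lemma norm_sq_eq (f : Lp ℂ 2 (muA α)) : ‖f‖ ^ 2 = ∫ z, ‖f z‖ ^ 2 ∂(muA α) := by
  have h1 : inner ℂ f f = ((‖f‖ : ℂ)) ^ 2 := inner_self_eq_norm_sq_to_K f
  rw [L2.inner_def] at h1
  have h2 : ∀ z, inner ℂ (f z) (f z) = ((‖f z‖ ^ 2 : ℝ) : ℂ) := fun z => by
    rw [inner_self_eq_norm_sq_to_K]; push_cast; rfl
  simp only [h2] at h1
  rw [integral_complex_ofReal] at h1
  exact_mod_cast h1.symm

/-- Parseval -/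
lemma hasSum_norm (hα : 0 ≤ α) {f : Lp ℂ 2 (muA α)} {u : ℂ → ℂ} {a : ℕ → ℂ}
    (hfu : (f : ℂ → ℂ) =ᵐ[muA α] u) (hu : Co u a) :
    HasSum (fun n => wt α n * ‖a n‖ ^ 2) (‖f‖ ^ 2) := by
  refine hasSum_of_ofReal (fun n => by have := wt_pos hα n; positivity) (by positivity) ?_
  have hint : Integrable (fun z => ‖f z‖ ^ 2) (muA α) :=
    (Lp.memLp f).integrable_norm_pow two_ne_zero
  rw [norm_sq_eq, ofReal_integral_eq_lintegral_ofReal hint (ae_of_all _ fun z => by positivity)]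
  have h1 : ∫⁻ z, ENNReal.ofReal (‖f z‖ ^ 2) ∂(muA α) =
      ∫⁻ z, ENNReal.ofReal (‖u z‖ ^ 2) ∂(muA α) := by
    refine lintegral_congr_ae ?_
    filter_upwards [hfu] with z hz
    rw [hz]
  rw [h1, muA_eq hα, lintegral_smul_measure, parl α hα u a hu, smul_eq_mul, ← ENNReal.tsum_mul_left]
  refine tsum_congr fun n => ?_
  rw [← ENNReal.ofReal_mul (by positivity)]
  congr 1
  unfold wt
  field_simp

/-- uniqueness of analytic representatives -/
lemma rep_unique (hα : 0 ≤ α) {f : Lp ℂ 2 (muA α)} {u v : ℂ → ℂ}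
    (hu : (f : ℂ → ℂ) =ᵐ[muA α] u) (hv : (f : ℂ → ℂ) =ᵐ[muA α] v)
    (du : DifferentiableOn ℂ u (ball 0 1)) (dv : DifferentiableOn ℂ v (ball 0 1)) :
    ∀ z ∈ ball (0 : ℂ) 1, u z = v z := by
  have h1 : ((0 : Lp ℂ 2 (muA α)) : ℂ → ℂ) =ᵐ[muA α] fun z => u z - v z := by
    filter_upwards [Lp.coeFn_zero ℂ 2 (muA α), hu, hv] with z h0 h1 h2
    rw [h0, ← h1, ← h2, sub_self]; rfl
  obtain ⟨a, ha⟩ := (dco.1 (fun z => u z - v z)).1 (du.sub dv)
  have h2 := hasSum_norm hα h1 ha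
  rw [norm_zero, zero_pow two_ne_zero] at h2
  have h3 : ∀ n, wt α n * ‖a n‖ ^ 2 = 0 := by
    have := (hasSum_zero_iff_of_nonneg (f := fun n => wt α n * ‖a n‖ ^ 2)
      (fun n => by have := wt_pos hα n; positivity)).1 h2
    exact fun n => congrFun this n
  have h4 : ∀ n, a n = 0 := fun n => by
    have := (mul_eq_zero.1 (h3 n)).resolve_left (wt_pos hα n).ne'
    exact norm_eq_zero.1 (pow_eq_zero_iff two_ne_zero |>.1 this)
  intro z hz
  have h5 := ha z (by simpa using hz)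
  simp only [h4, zero_mul] at h5
  exact sub_eq_zero.1 (h5.unique hasSum_zero)

/-- Polarised Parseval -/
lemma hasSum_inner (hα : 0 ≤ α) {f g : Lp ℂ 2 (muA α)} {u v : ℂ → ℂ} {a b : ℕ → ℂ}
    (hfu : (f : ℂ → ℂ) =ᵐ[muA α] u) (hgv : (g : ℂ → ℂ) =ᵐ[muA α] v) (hu : Co u a) (hv : Co v b) :
    HasSum (fun n => (wt α n : ℂ) * (conj (a n) * b n)) (inner ℂ f g) := by
  have key : ∀ c : ℂ, HasSum (fun n => ((wt α n * ‖a n + c * b n‖ ^ 2 : ℝ) : ℂ))
      ((‖f + c • g‖ ^ 2 : ℝ) : ℂ) := by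
    intro c
    refine Complex.hasSum_ofReal.2 (hasSum_norm hα (u := fun z => u z + c * v z) ?_ ?_)
    · filter_upwards [Lp.coeFn_add f (c • g), Lp.coeFn_smul c g, hfu, hgv] with z h1 h2 h3 h4
      rw [h1, Pi.add_apply, h2, Pi.smul_apply, h3, h4, smul_eq_mul]
    · intro z hz
      have := (hu z hz).add ((hv z hz).mul_left c)
      refine hasSum_cg this fun n => ?_
      ring
  have k1 := key 1
  have k2 := key (-1)
  have k3 := key (-Complex.I)
  have k4 := key Complex.I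
  have h := ((k1.sub k2).add ((k3.sub k4).mul_right Complex.I)).div_const 4
  have e := inner_eq_sum_norm_sq_div_four (𝕜 := ℂ) f g
  have e2 : inner ℂ f g = (((‖f + (1 : ℂ) • g‖ ^ 2 : ℝ) : ℂ) - ((‖f + (-1 : ℂ) • g‖ ^ 2 : ℝ) : ℂ) +
      (((‖f + (-Complex.I) • g‖ ^ 2 : ℝ) : ℂ) - ((‖f + Complex.I • g‖ ^ 2 : ℝ) : ℂ)) * Complex.I) / 4 := by
    rw [e]
    simp only [one_smul, neg_smul, RCLike.I_to_complex]
    push_cast
    rw [← sub_eq_add_neg, ← sub_eq_add_neg]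
    rfl
  rw [e2]
  refine hasSum_cg h fun n => ?_
  have hs : ∀ x y : ℂ, ‖x + y‖ ^ 2 = ‖x‖ ^ 2 + 2 * (conj x * y).re + ‖y‖ ^ 2 := by
    intro x y
    rw [← Complex.normSq_eq_norm_sq, ← Complex.normSq_eq_norm_sq, ← Complex.normSq_eq_norm_sq,
      Complex.normSq_apply, Complex.normSq_apply, Complex.normSq_apply]
    simp only [Complex.add_re, Complex.add_im, Complex.mul_re, Complex.conj_re, Complex.conj_im]
    ring
  rw [hs, hs, hs, hs]
  simp only [norm_mul, norm_neg, Complex.norm_I, one_mul, neg_mul, mul_neg,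
    Complex.neg_re]
  have e3 : (conj (a n) * (Complex.I * b n)).re = -(conj (a n) * b n).im := by
    simp only [Complex.mul_re, Complex.mul_im, Complex.conj_re, Complex.conj_im, Complex.I_re,
      Complex.I_im]
    ring
  rw [e3]
  apply Complex.ext
  · simp
    ring
  · simp
    ring

end

end Pool.Agent.L5helper77.Berg
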