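import Pool.Agent.L5helper77.Berg

/-!
Weighted Bergman spaces: point evaluations, closedness of the subspaces of functions vanishing at
a point, and the extraneous zero.
-/

set_option autoImplicit false

namespace Pool.Agent.L5helper77.Berg

open MeasureTheory Metric Filter Topology ComplexConjugate
open Pool.Agent.Helper59K9.CY

noncomputable section

variable {α : ℝ}

/-- Bound of the Taylor coefficients. -/
lemma coeff_le (hα : 0 ≤ α) {f : Lp ℂ 2 (muA α)} {u : ℂ → ℂ} {a : ℕ → ℂ}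
    (hfu : (f : ℂ → ℂ) =ᵐ[muA α] u) (hu : Co u a) (n : ℕ) :
    ‖a n‖ ≤ ((n : ℝ) + 1) ^ (1 + α) * ‖f‖ := by
  have h := hasSum_norm hα hfu hu
  have h1 : wt α n * ‖a n‖ ^ 2 ≤ ‖f‖ ^ 2 :=
    le_hasSum h n fun m _ => by have := wt_pos hα m; positivity
  have h2 := BetL.lower α hα n
  have hp : (1 : ℝ) ≤ ((n : ℝ) + 1) ^ (1 + α) :=
    Real.one_le_rpow (by have : (0 : ℝ) ≤ n := Nat.cast_nonneg n; linarith) (by linarith)
  have h3 : 1 ≤ wt α n * ((n : ℝ) + 1) ^ (1 + α) := by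
    unfold wt
    rw [mul_assoc]
    rw [div_le_iff₀ (by linarith)] at h2
    linarith
  have h4 : ‖a n‖ ^ 2 ≤ ((n : ℝ) + 1) ^ (1 + α) * ‖f‖ ^ 2 := by
    calc ‖a n‖ ^ 2 = 1 * ‖a n‖ ^ 2 := (one_mul _).symm
      _ ≤ (wt α n * ((n : ℝ) + 1) ^ (1 + α)) * ‖a n‖ ^ 2 := by gcongr
      _ = ((n : ℝ) + 1) ^ (1 + α) * (wt α n * ‖a n‖ ^ 2) := by ring
      _ ≤ _ := by gcongr
  have h5 : ‖a n‖ ^ 2 ≤ (((n : ℝ) + 1) ^ (1 + α) * ‖f‖) ^ 2 := by
    refine h4.trans ?_
    rw [mul_pow]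
    gcongr
    nlinarith
  exact le_of_sq_le_sq h5 (by positivity)

lemma summable_w (α : ℝ) {ρ : ℝ} (h0 : 0 ≤ ρ) (h1 : ρ < 1) :
    Summable fun n : ℕ => ((n : ℝ) + 1) ^ (1 + α) * ρ ^ n := by
  obtain ⟨k, hk⟩ := exists_nat_ge (1 + α)
  have h2 : Summable fun n : ℕ => ((n : ℝ) + 1) ^ k * ρ ^ n := by
    rcases eq_or_lt_of_le h0 with h | h
    · refine summable_of_ne_finset_zero (s := {0}) fun n hn => ?_
      rw [Finset.mem_singleton] at hn
      rw [← h, zero_pow hn, mul_zero]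
    · have h3 := summable_pow_mul_geometric_of_norm_lt_one (R := ℝ) k (r := ρ)
        (by rw [Real.norm_of_nonneg h0]; exact h1)
      have h4 := (summable_nat_add_iff 1).2 h3
      refine (h4.mul_left ρ⁻¹).congr fun n => ?_
      rw [pow_succ]
      push_cast
      field_simp
  refine Summable.of_nonneg_of_le (fun n => by positivity) (fun n => ?_) h2
  gcongr
  rw [← Real.rpow_natCast]
  exact Real.rpow_le_rpow_of_exponent_le (by have : (0 : ℝ) ≤ n := Nat.cast_nonneg n; linarith) hk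

/-- Local bound of analytic representatives. -/
lemma eval_le (hα : 0 ≤ α) {f : Lp ℂ 2 (muA α)} {u : ℂ → ℂ}
    (hfu : (f : ℂ → ℂ) =ᵐ[muA α] u) (hu : DifferentiableOn ℂ u (ball 0 1)) {ρ : ℝ}
    (h0 : 0 ≤ ρ) (h1 : ρ < 1) {z : ℂ} (hz : ‖z‖ ≤ ρ) :
    ‖u z‖ ≤ (∑' n : ℕ, ((n : ℝ) + 1) ^ (1 + α) * ρ ^ n) * ‖f‖ := by
  obtain ⟨a, ha⟩ := (dco.1 u).1 hu
  have h2 := ha z (lt_of_le_of_lt hz h1)
  have h3 := summable_w α h0 h1
  rw [← h2.tsum_eq, ← tsum_mul_right]
  have hb : ∀ n, ‖a n * z ^ n‖ ≤ ((n : ℝ) + 1) ^ (1 + α) * ρ ^ n * ‖f‖ := by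
    intro n
    rw [norm_mul, norm_pow]
    have := coeff_le hα hfu ha n
    calc ‖a n‖ * ‖z‖ ^ n ≤ (((n : ℝ) + 1) ^ (1 + α) * ‖f‖) * ρ ^ n := by gcongr
      _ = _ := by ring
  exact tsum_of_norm_bounded (h3.mul_right ‖f‖).hasSum hb

/-- The functions of the Bergman space which vanish at `c`. -/
def W (α : ℝ) (c : ℂ) : Submodule ℂ (Lp ℂ 2 (muA α)) where
  carrier := {f | ∃ g : ℂ → ℂ, DifferentiableOn ℂ g (ball 0 1) ∧ (f : ℂ → ℂ) =ᵐ[muA α] g ∧ g c = 0}
  add_mem' := by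
    rintro a b ⟨g, hg, hg2, hg3⟩ ⟨k, hk, hk2, hk3⟩
    refine ⟨fun z => g z + k z, hg.add hk, ?_, by simp [hg3, hk3]⟩
    filter_upwards [Lp.coeFn_add a b, hg2, hk2] with z h1 h2 h3
    rw [h1, Pi.add_apply, h2, h3]
  zero_mem' := by
    refine ⟨fun _ => 0, differentiableOn_const _, ?_, rfl⟩
    filter_upwards [Lp.coeFn_zero ℂ 2 (muA α)] with z hz
    rw [hz]; rfl
  smul_mem' := by
    rintro c a ⟨g, hg, hg2, hg3⟩
    refine ⟨fun z => c * g z, hg.const_mul c, ?_, by simp [hg3]⟩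
    filter_upwards [Lp.coeFn_smul c a, hg2] with z h1 h2
    rw [h1, Pi.smul_apply, h2, smul_eq_mul]

lemma mem_W {c : ℂ} {f : Lp ℂ 2 (muA α)} : f ∈ W α c ↔ ∃ g : ℂ → ℂ,
    DifferentiableOn ℂ g (ball 0 1) ∧ (f : ℂ → ℂ) =ᵐ[muA α] g ∧ g c = 0 := Iff.rfl

lemma isClosed_W (hα : 0 ≤ α) {c : ℂ} (hc : ‖c‖ < 1) :
    IsClosed (W α c : Set (Lp ℂ 2 (muA α))) := by
  refine IsSeqClosed.isClosed fun F f hF hlim => ?_
  choose u hud hFu huc using hF
  -- uniform Cauchy on compact discs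
  have hcau : ∀ ρ : ℝ, 0 ≤ ρ → ρ < 1 → UniformCauchySeqOn u atTop (closedBall 0 ρ) := by
    intro ρ h0 h1
    set C := ∑' n : ℕ, ((n : ℝ) + 1) ^ (1 + α) * ρ ^ n with hC
    have hC0 : 0 ≤ C := tsum_nonneg fun n => by positivity
    rw [Metric.uniformCauchySeqOn_iff]
    intro ε hε
    have hcf : CauchySeq F := hlim.cauchySeq
    obtain ⟨N, hN⟩ := Metric.cauchySeq_iff.1 hcf (ε / (C + 1)) (by positivity)
    refine ⟨N, fun m hm n hn z hz => ?_⟩
    rw [mem_closedBall_zero_iff] at hz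
    have h3 : ((F m - F n : Lp ℂ 2 (muA α)) : ℂ → ℂ) =ᵐ[muA α] fun z => u m z - u n z := by
      filter_upwards [Lp.coeFn_sub (F m) (F n), hFu m, hFu n] with z h1 h2 h3
      rw [h1, Pi.sub_apply, h2, h3]
    have h4 := eval_le hα h3 ((hud m).sub (hud n)) h0 h1 hz
    rw [← hC] at h4
    have h5 := hN m hm n hn
    rw [dist_eq_norm] at h5 ⊢
    calc ‖u m z - u n z‖ ≤ C * ‖F m - F n‖ := h4
      _ ≤ (C + 1) * ‖F m - F n‖ := by gcongr; linarith
      _ < (C + 1) * (ε / (C + 1)) := by gcongr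
      _ = ε := by field_simp
  -- pointwise limit
  have hpt : ∀ z : ℂ, ‖z‖ < 1 → ∃ l, Tendsto (fun n => u n z) atTop (𝓝 l) := by
    intro z hz
    have h1 := (hcau ‖z‖ (norm_nonneg z) hz).cauchySeq (x := z) (by simp)
    exact cauchySeq_tendsto_of_complete h1
  classical
  set v : ℂ → ℂ := fun z => if h : ‖z‖ < 1 then (hpt z h).choose else 0 with hv
  have hvt : ∀ z : ℂ, ‖z‖ < 1 → Tendsto (fun n => u n z) atTop (𝓝 (v z)) := by
    intro z hz
    simp only [hv, dif_pos hz]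
    exact (hpt z hz).choose_spec
  have hunif : ∀ ρ : ℝ, 0 ≤ ρ → ρ < 1 → TendstoUniformlyOn u v atTop (closedBall 0 ρ) := by
    intro ρ h0 h1
    refine (hcau ρ h0 h1).tendstoUniformlyOn_of_tendsto fun z hz => ?_
    rw [mem_closedBall_zero_iff] at hz
    exact hvt z (lt_of_le_of_lt hz h1)
  have hloc : TendstoLocallyUniformlyOn u v atTop (ball 0 1) := by
    rw [tendstoLocallyUniformlyOn_iff_forall_isCompact isOpen_ball]
    intro K hK hKc
    obtain ⟨ρ, hρ0, hρ1, hρ⟩ : ∃ ρ : ℝ, 0 ≤ ρ ∧ ρ < 1 ∧ K ⊆ closedBall 0 ρ := by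
      rcases K.eq_empty_or_nonempty with rfl | hne
      · exact ⟨0, le_rfl, one_pos, by simp⟩
      · obtain ⟨x, hx, hmax⟩ := hKc.exists_isMaxOn hne continuous_norm.continuousOn
        refine ⟨‖x‖, norm_nonneg x, by simpa using hK hx, fun y hy => ?_⟩
        rw [mem_closedBall_zero_iff]
        exact hmax hy
    exact (hunif ρ hρ0 hρ1).mono hρ
  have hvd : DifferentiableOn ℂ v (ball 0 1) :=
    hloc.differentiableOn (Eventually.of_forall hud) isOpen_ball
  refine ⟨v, hvd, ?_, ?_⟩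
  · obtain ⟨ns, hns, hae⟩ := (tendstoInMeasure_of_tendsto_Lp hlim).exists_seq_tendsto_ae
    have hall : ∀ᵐ z ∂(muA α), ∀ n, F n z = u n z := ae_all_iff.2 fun n => hFu n
    filter_upwards [hae, hall, ae_lt hα] with z h1 h2 h3
    have h4 := (hvt z h3).comp hns.tendsto_atTop
    refine tendsto_nhds_unique h1 ?_
    refine h4.congr fun n => ?_
    rw [Function.comp, h2]
  · have h1 := hvt c hc
    simp only [huc] at h1
    exact (tendsto_nhds_unique h1 tendsto_const_nhds)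

/-- polynomials in `L²` -/
lemma memLp_cont (hα : 0 ≤ α) {g : ℂ → ℂ} (hg : Continuous g) : MemLp g 2 (muA α) := by
  have := fin_muA hα
  obtain ⟨C, hC⟩ := (isCompact_closedBall (0 : ℂ) 1).exists_bound_of_continuousOn hg.continuousOn
  refine MemLp.of_bound hg.aestronglyMeasurable C ?_
  filter_upwards [ae_lt hα] with z hz
  exact hC z (by simpa using hz.le)

lemma mul_z (hα : 0 ≤ α) (f : Lp ℂ 2 (muA α)) : MemLp (fun z => z * f z) 2 (muA α) := by
  refine MemLp.of_le (Lp.memLp f) ?_ ?_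
  · exact (continuous_id.aestronglyMeasurable).mul (Lp.aestronglyMeasurable f)
  · filter_upwards [ae_lt hα] with z hz
    rw [norm_mul]
    exact mul_le_of_le_one_left (norm_nonneg _) hz.le

/-- coefficients of `z^k (z - l)` -/
lemma co_poly (l : ℂ) (k : ℕ) : Co (fun z => z ^ k * (z - l))
    (fun n => if n = k + 1 then 1 else if n = k then -l else 0) := by
  intro z _
  have h1 : HasSum (fun n => (if n = k + 1 then (1 : ℂ) else 0) * z ^ n) (z ^ (k + 1)) := by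
    have := hasSum_single (f := fun n => (if n = k + 1 then (1 : ℂ) else 0) * z ^ n) (k + 1)
      (fun n hn => by simp [hn])
    simpa using this
  have h2 : HasSum (fun n => (if n = k then -l else 0) * z ^ n) (-l * z ^ k) := by
    have := hasSum_single (f := fun n => (if n = k then -l else 0) * z ^ n) k
      (fun n hn => by simp [hn])
    simpa using this
  have h3 := h1.add h2
  have e : z ^ (k + 1) + -l * z ^ k = z ^ k * (z - l) := by ring
  rw [e] at h3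
  refine hasSum_cg h3 fun n => ?_
  by_cases hn : n = k + 1
  · subst hn; simp
  · simp [hn]

/-- The recursion for the coefficients of a function orthogonal to `z V`. -/
lemma rec_orth (hα : 0 ≤ α) {l : ℂ} {w : Lp ℂ 2 (muA α)} {v : ℂ → ℂ} {b : ℕ → ℂ}
    (hw : (w : ℂ → ℂ) =ᵐ[muA α] v) (hb : Co v b)
    (horth : ∀ f ∈ W α l, ∀ g ∈ W α l, (g : ℂ → ℂ) =ᵐ[muA α] (fun z => z * f z) → inner ℂ g w = 0)
    (n : ℕ) (hn : 1 ≤ n) : ((n : ℂ) + 1) * b (n + 1) = conj l * ((n : ℂ) + α + 2) * b n := by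
  obtain ⟨k, rfl⟩ : ∃ k, n = k + 1 := ⟨n - 1, by omega⟩
  have c1 : Continuous fun z : ℂ => z ^ k * (z - l) := by fun_prop
  have c2 : Continuous fun z : ℂ => z ^ (k + 1) * (z - l) := by fun_prop
  set f := (memLp_cont hα c1).toLp _ with hf
  set g := (memLp_cont hα c2).toLp _ with hg
  have hfe : (f : ℂ → ℂ) =ᵐ[muA α] fun z => z ^ k * (z - l) := MemLp.coeFn_toLp _
  have hge : (g : ℂ → ℂ) =ᵐ[muA α] fun z => z ^ (k + 1) * (z - l) := MemLp.coeFn_toLp _
  have hfW : f ∈ W α l := ⟨_, by fun_prop, hfe, by simp⟩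
  have hgW : g ∈ W α l := ⟨_, by fun_prop, hge, by simp⟩
  have h1 := horth f hfW g hgW (by
    filter_upwards [hfe, hge] with z h1 h2
    rw [h1, h2]; ring)
  have h2 := hasSum_inner hα hge hw (co_poly l (k + 1)) hb
  rw [h1] at h2
  have h3 : HasSum (fun n => (wt α n : ℂ) *
      (conj (if n = k + 1 + 1 then (1 : ℂ) else if n = k + 1 then -l else 0) * b n))
      (∑ n ∈ ({k + 1, k + 2} : Finset ℕ), (wt α n : ℂ) *
      (conj (if n = k + 1 + 1 then (1 : ℂ) else if n = k + 1 then -l else 0) * b n)) :=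
    hasSum_sum_of_ne_finset_zero (fun n hn => by
      simp only [Finset.mem_insert, Finset.mem_singleton, not_or] at hn
      rw [if_neg (by omega), if_neg hn.1]; simp)
  have h4 := h3.unique h2
  rw [Finset.sum_pair (by omega), if_neg (by omega), if_pos rfl, if_pos rfl] at h4
  simp only [map_neg, map_one, one_mul, neg_mul, mul_neg] at h4
  -- the recursion of the weights
  have h5 := BetL.rec_ α hα (k + 1)
  have h6 := BetL.pos α hα (k + 1)
  have h7 : (wt α (k + 2) : ℂ) * ((k : ℂ) + 1 + α + 2) = wt α (k + 1) * ((k : ℂ) + 1 + 1) := by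
    unfold wt
    push_cast at h5 ⊢
    have h8 : (B α (k + 1 + 1) : ℂ) * ((k : ℂ) + 1 + α + 2) = B α (k + 1) * ((k : ℂ) + 1 + 1) := by
      exact_mod_cast h5
    linear_combination (1 + (α : ℂ)) * h8
  have h9 : (wt α (k + 2) : ℂ) ≠ 0 := by
    exact_mod_cast (wt_pos hα (k + 2)).ne'
  have h10 : (wt α (k + 1) : ℂ) ≠ 0 := by
    exact_mod_cast (wt_pos hα (k + 1)).ne'
  push_cast
  have h11 : (wt α (k + 2) : ℂ) * b (k + 2) = wt α (k + 1) * (conj l * b (k + 1)) := by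
    have e : k + 1 + 1 = k + 2 := rfl
    rw [e] at h4
    linear_combination h4
  apply mul_left_cancel₀ h10
  have h12 : (wt α (k + 1) : ℂ) * (((k : ℂ) + 1 + 1) * b (k + 1 + 1)) =
      ((k : ℂ) + 1 + α + 2) * (wt α (k + 2) * b (k + 2)) := by
    have e : k + 1 + 1 = k + 2 := rfl
    rw [e]
    linear_combination (-b (k + 2)) * h7
  rw [h12, h11]
  ring

end

end Pool.Agent.L5helper77.Berg
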