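import Pool.Agent.L5helper77.Berg2

/-!
The extraneous zero of functions orthogonal to `z V`.
-/

set_option autoImplicit false

namespace Pool.Agent.L5helper77.Berg

open MeasureTheory Metric Filter Topology ComplexConjugate
open Pool.Agent.Helper59K9.CY

noncomputable section

variable {α : ℝ}

lemma one_sub_mem {l : ℝ} (h0 : 0 ≤ l) (h1 : l < 1) {z : ℂ} (hz : z ∈ ball (0 : ℂ) 1) :
    1 - (l : ℂ) * z ∈ Complex.slitPlane := by
  left
  rw [mem_ball_zero_iff] at hz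
  have h2 : ((l : ℂ) * z).re ≤ ‖(l : ℂ) * z‖ := Complex.re_le_norm _
  have h3 : ‖(l : ℂ) * z‖ < 1 := by
    rw [norm_mul, Complex.norm_real, Real.norm_of_nonneg h0]
    nlinarith [norm_nonneg z]
  rw [Complex.sub_re, Complex.one_re]
  linarith

/-- the differential equation -/
lemma ode {l : ℝ} {v : ℂ → ℂ} {b : ℕ → ℂ} (hb : Co v b)
    (hrec : ∀ n : ℕ, 1 ≤ n → ((n : ℂ) + 1) * b (n + 1) = (l : ℂ) * ((n : ℂ) + α + 2) * b n)
    {z : ℂ} (hz : z ∈ ball (0 : ℂ) 1) :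
    (1 - (l : ℂ) * z) * deriv v z = ((α : ℂ) + 2) * l * v z + (b 1 - ((α : ℂ) + 2) * l * b 0) := by
  rw [mem_ball_zero_iff] at hz
  have h1 := (dco.2.2 v b hb) z hz
  have h2 := hb z hz
  have h3 : HasSum (fun n : ℕ => (n : ℂ) * b n * z ^ n) (z * deriv v z) := by
    have h4 := h1.mul_left z
    have h5 : HasSum (fun n : ℕ => ((n + 1 : ℕ) : ℂ) * b (n + 1) * z ^ (n + 1)) (z * deriv v z) :=
      hasSum_cg h4 fun n => by push_cast; ring
    have h6 := (hasSum_nat_add_iff (f := fun n : ℕ => (n : ℂ) * b n * z ^ n) 1).1 h5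
    simpa using h6
  have h4 := (h1.sub (h3.mul_left (l : ℂ))).sub (h2.mul_left (((α : ℂ) + 2) * l))
  have h5 : HasSum (fun n : ℕ => if n = 0 then b 1 - ((α : ℂ) + 2) * l * b 0 else 0)
      (deriv v z - l * (z * deriv v z) - ((α : ℂ) + 2) * l * v z) := by
    refine hasSum_cg h4 fun n => ?_
    by_cases hn : n = 0
    · subst hn
      simp
    · rw [if_neg hn]
      have := hrec n (Nat.one_le_iff_ne_zero.2 hn)
      linear_combination (z ^ n) * this
  have h6 := (hasSum_ite_eq (0 : ℕ) (b 1 - ((α : ℂ) + 2) * l * b 0)).unique h5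
  linear_combination -h6

lemma eq_of_cpow (hα : 0 ≤ α) {l : ℝ} (h0 : 0 < l) (h1 : l < 1) {v : ℂ → ℂ} {b : ℕ → ℂ}
    (hv : DifferentiableOn ℂ v (ball 0 1)) (hb : Co v b)
    (hrec : ∀ n : ℕ, 1 ≤ n → ((n : ℂ) + 1) * b (n + 1) = (l : ℂ) * ((n : ℂ) + α + 2) * b n)
    {z z' : ℂ} (hz : z ∈ ball (0 : ℂ) 1) (hz' : z' ∈ ball (0 : ℂ) 1)
    (hpow : (1 - (l : ℂ) * z) ^ ((α : ℂ) + 2) = (1 - (l : ℂ) * z') ^ ((α : ℂ) + 2)) :
    v z = v z' := by
  set κ := b 1 - ((α : ℂ) + 2) * l * b 0 with hκ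
  set H : ℂ → ℂ := fun z => (((α : ℂ) + 2) * l * v z + κ) * (1 - (l : ℂ) * z) ^ ((α : ℂ) + 2) with hH
  have hd : ∀ x ∈ ball (0 : ℂ) 1, HasDerivAt H 0 x := by
    intro x hx
    have d1 : HasDerivAt v (deriv v x) x := (hv.differentiableAt (isOpen_ball.mem_nhds hx)).hasDerivAt
    have d2 : HasDerivAt (fun z : ℂ => 1 - (l : ℂ) * z) (-(l : ℂ)) x := by
      simpa using ((hasDerivAt_id x).const_mul (l : ℂ)).const_sub 1
    have hs := one_sub_mem h0.le h1 hx
    have d3 := d2.cpow_const (c := (α : ℂ) + 2) hs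
    have d4 := ((d1.const_mul (((α : ℂ) + 2) * l)).add_const κ).mul d3
    refine d4.congr_deriv ?_
    have e := ode hb hrec hx
    rw [← hκ] at e
    have hne : 1 - (l : ℂ) * x ≠ 0 := Complex.slitPlane_ne_zero hs
    have e2 : (1 - (l : ℂ) * x) ^ ((α : ℂ) + 2) =
        (1 - (l : ℂ) * x) ^ ((α : ℂ) + 2 - 1) * (1 - (l : ℂ) * x) := by
      have h7 := Complex.cpow_add ((α : ℂ) + 2 - 1) 1 hne
      rw [Complex.cpow_one, sub_add_cancel] at h7
      exact h7
    rw [e2]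
    linear_combination (((α : ℂ) + 2) * l * (1 - (l : ℂ) * x) ^ ((α : ℂ) + 2 - 1)) * e
  have hc : H z = H z' := by
    refine isOpen_ball.is_const_of_deriv_eq_zero (𝕜 := ℂ) (convex_ball (0 : ℂ) 1).isPreconnected
      (fun x hx => (hd x hx).differentiableAt.differentiableWithinAt)
      (fun x hx => (hd x hx).deriv) hz hz'
  simp only [hH] at hc
  rw [← hpow] at hc
  have hne : (1 - (l : ℂ) * z) ^ ((α : ℂ) + 2) ≠ 0 := by
    rw [Complex.cpow_def_of_ne_zero (Complex.slitPlane_ne_zero (one_sub_mem h0.le h1 hz))]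
    exact Complex.exp_ne_zero _
  have h2 := mul_right_cancel₀ hne hc
  have h3 : ((α : ℂ) + 2) * l ≠ 0 := by
    refine mul_ne_zero ?_ (by exact_mod_cast h0.ne')
    have : (α + 2 : ℝ) ≠ 0 := by linarith
    exact_mod_cast this
  exact mul_left_cancel₀ h3 (add_right_cancel h2)

/-- the two points -/
lemma exists_points (hα : 4 < α) : ∃ (l : ℝ) (z' : ℂ), 0 < l ∧ l < 1 ∧ ‖z'‖ < 1 ∧ z' ≠ l ∧
    (1 - (l : ℂ) * l) ^ ((α : ℂ) + 2) = (1 - (l : ℂ) * z') ^ ((α : ℂ) + 2) := by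
  set φ : ℝ := 2 * Real.pi / (α + 2) with hφ
  have hα2 : (0 : ℝ) < α + 2 := by linarith
  have hφ0 : 0 < φ := by have := Real.pi_pos; positivity
  have hφ3 : φ < Real.pi / 3 := by
    rw [hφ, div_lt_div_iff₀ hα2 (by norm_num)]
    nlinarith [Real.pi_pos]
  set c := Real.cos φ with hc
  have hc1 : 1 / 2 < c := by
    rw [← Real.cos_pi_div_three]
    exact Real.cos_lt_cos_of_nonneg_of_le_pi hφ0.le (by linarith [Real.pi_pos]) hφ3
  have hc2 : c ≤ 1 := Real.cos_le_one φ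
  set s : ℝ := c - 1 / 2 with hs
  have hs0 : 0 < s := by linarith
  have hs1 : s ≤ 1 / 2 := by linarith
  set l : ℝ := Real.sqrt (1 - s) with hl
  have hl2 : l ^ 2 = 1 - s := Real.sq_sqrt (by linarith)
  have hl0 : 0 < l := Real.sqrt_pos.2 (by linarith)
  have hl1 : l < 1 := by nlinarith
  set e : ℂ := Complex.exp (φ * Complex.I) with he
  have hlc : (l : ℂ) ≠ 0 := by exact_mod_cast hl0.ne'
  have hsin : 0 < Real.sin φ := Real.sin_pos_of_pos_of_lt_pi hφ0 (by linarith [Real.pi_pos])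
  have hee : e = (c : ℂ) + (Real.sin φ : ℂ) * Complex.I := by
    rw [he, Complex.exp_mul_I, hc, Complex.ofReal_cos, Complex.ofReal_sin]
  have hl2c : (l : ℂ) * l = 1 - s := by
    have : ((l ^ 2 : ℝ) : ℂ) = ((1 - s : ℝ) : ℂ) := by rw [hl2]
    push_cast at this
    rw [← this]; ring
  refine ⟨l, (1 - s * e) / l, hl0, hl1, ?_, ?_, ?_⟩
  · rw [norm_div, Complex.norm_real, Real.norm_of_nonneg hl0.le, div_lt_one hl0]
    have h1 : ‖1 - (s : ℂ) * e‖ ^ 2 = 1 - s - s ^ 2 := by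
      rw [← Complex.normSq_eq_norm_sq, Complex.normSq_apply, hee]
      simp only [Complex.sub_re, Complex.one_re, Complex.mul_re, Complex.ofReal_re,
        Complex.ofReal_im, Complex.add_re, Complex.add_im, Complex.mul_im, Complex.I_re,
        Complex.I_im, Complex.sub_im, Complex.one_im]
      have h2 := Real.sin_sq_add_cos_sq φ
      rw [← hc] at h2
      ring_nf
      have h3 : Real.sin φ ^ 2 = 1 - c ^ 2 := by linarith
      rw [h3]
      have h4 : c = s + 1 / 2 := by rw [hs]; ring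
      rw [h4]
      ring
    have h3 : ‖1 - (s : ℂ) * e‖ ^ 2 < l ^ 2 := by rw [h1, hl2]; nlinarith
    exact lt_of_pow_lt_pow_left₀ 2 hl0.le h3
  · intro h
    rw [div_eq_iff hlc, hl2c] at h
    have h1 := congrArg Complex.im h
    rw [hee] at h1
    simp only [Complex.sub_im, Complex.one_im, Complex.mul_im, Complex.ofReal_re,
      Complex.ofReal_im, Complex.add_re, Complex.add_im, Complex.I_re,
      Complex.I_im] at h1
    ring_nf at h1
    have : 0 < s * Real.sin φ := by positivity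
    linarith
  · have h1 : 1 - (l : ℂ) * ((1 - s * e) / l) = (s : ℂ) * e := by field_simp; ring
    have h2 : 1 - (l : ℂ) * l = (s : ℂ) := by rw [hl2c]; ring
    rw [h1, h2]
    have hsc : (s : ℂ) ≠ 0 := by exact_mod_cast hs0.ne'
    have hene : e ≠ 0 := Complex.exp_ne_zero _
    rw [Complex.cpow_def_of_ne_zero hsc, Complex.cpow_def_of_ne_zero (mul_ne_zero hsc hene),
      Complex.log_ofReal_mul hs0 hene, he, Complex.log_exp (by
        simp; linarith [Real.pi_pos]) (by simp; linarith [Real.pi_pos]), add_mul, Complex.exp_add]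
    have h3 : (φ : ℂ) * Complex.I * ((α : ℂ) + 2) = 2 * Real.pi * Complex.I := by
      have h4 : ((φ * (α + 2) : ℝ) : ℂ) = ((2 * Real.pi : ℝ) : ℂ) := by
        rw [hφ]; congr 1; field_simp
      push_cast at h4
      linear_combination Complex.I * h4
    rw [h3, Complex.exp_two_pi_mul_I, mul_one, Complex.ofReal_log hs0.le]

/-- Failure of the wandering subspace property. -/
theorem fails (hα : 4 < α) : ∃ V : Submodule ℂ (Lp ℂ 2 (muA α)),
    IsClosed (V : Set (Lp ℂ 2 (muA α))) ∧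
    (∀ f ∈ V, ∃ g : ℂ → ℂ,
        DifferentiableOn ℂ g (Metric.ball (0 : ℂ) 1) ∧ (f : ℂ → ℂ) =ᵐ[muA α] g) ∧
    (∀ f ∈ V, ∃ g ∈ V, (g : ℂ → ℂ) =ᵐ[muA α] fun z => z * f z) ∧
    ¬ (V ≤ (Submodule.span ℂ
          {h : Lp ℂ 2 (muA α) | ∃ p : Polynomial ℂ, ∃ w ∈ V,
            (∀ f ∈ V, ∀ g ∈ V,
                (g : ℂ → ℂ) =ᵐ[muA α] (fun z => z * f z) → inner ℂ g w = 0) ∧
            (h : ℂ → ℂ) =ᵐ[muA α] fun z => p.eval z * w z}).topologicalClosure) := by
  have hα0 : 0 ≤ α := by linarith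
  obtain ⟨l, z', hl0, hl1, hz', hne, hpow⟩ := exists_points hα
  have hlb : (l : ℂ) ∈ ball (0 : ℂ) 1 := by
    rw [mem_ball_zero_iff, Complex.norm_real, Real.norm_of_nonneg hl0.le]; exact hl1
  have hzb : z' ∈ ball (0 : ℂ) 1 := by rw [mem_ball_zero_iff]; exact hz'
  refine ⟨W α l, isClosed_W hα0 (by simpa using hlb), fun f hf => ?_, fun f hf => ?_, fun hle => ?_⟩
  · obtain ⟨g, hg, hfg, _⟩ := mem_W.1 hf
    exact ⟨g, hg, hfg⟩
  · obtain ⟨g, hg, hfg, hgl⟩ := mem_W.1 hf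
    refine ⟨(mul_z hα0 f).toLp _, mem_W.2 ⟨fun z => z * g z, differentiableOn_id.mul hg, ?_, ?_⟩,
      MemLp.coeFn_toLp _⟩
    · filter_upwards [MemLp.coeFn_toLp (mul_z hα0 f), hfg] with z h1 h2
      rw [h1, h2]
    · show (l : ℂ) * g l = 0
      rw [hgl, mul_zero]
  · -- the closed span is contained in the functions vanishing at `z'`
    have hcl : (Submodule.span ℂ
          {h : Lp ℂ 2 (muA α) | ∃ p : Polynomial ℂ, ∃ w ∈ W α (l : ℂ),
            (∀ f ∈ W α (l : ℂ), ∀ g ∈ W α (l : ℂ),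
                (g : ℂ → ℂ) =ᵐ[muA α] (fun z => z * f z) → inner ℂ g w = 0) ∧
            (h : ℂ → ℂ) =ᵐ[muA α] fun z => p.eval z * w z}).topologicalClosure ≤ W α z' := by
      refine Submodule.topologicalClosure_minimal _ ?_ (isClosed_W hα0 hz')
      rw [Submodule.span_le]
      rintro h ⟨p, w, hw, horth, hh⟩
      obtain ⟨v, hv, hwv, hvl⟩ := mem_W.1 hw
      obtain ⟨b, hb⟩ := (dco.1 v).1 hv
      have hrec : ∀ n : ℕ, 1 ≤ n →
          ((n : ℂ) + 1) * b (n + 1) = (l : ℂ) * ((n : ℂ) + α + 2) * b n := by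
        intro n hn
        have := rec_orth hα0 hwv hb horth n hn
        rwa [Complex.conj_ofReal] at this
      have hvz : v z' = 0 := by
        rw [← eq_of_cpow hα0 hl0 hl1 hv hb hrec hlb hzb hpow, hvl]
      refine mem_W.2 ⟨fun z => p.eval z * v z, ?_, ?_, by simp [hvz]⟩
      · exact p.differentiable.differentiableOn.mul hv
      · filter_upwards [hh, hwv] with z h1 h2
        rw [h1, h2]
    have c0 : Continuous fun z : ℂ => z - (l : ℂ) := by fun_prop
    set f0 := (memLp_cont hα0 c0).toLp _ with hf0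
    have hf0e : (f0 : ℂ → ℂ) =ᵐ[muA α] fun z => z - (l : ℂ) := MemLp.coeFn_toLp _
    have hf0W : f0 ∈ W α (l : ℂ) := mem_W.2 ⟨_, by fun_prop, hf0e, by simp⟩
    obtain ⟨g, hg, hfg, hgz⟩ := mem_W.1 (hcl (hle hf0W))
    have := rep_unique hα0 hfg hf0e hg (by fun_prop) z' hzb
    rw [hgz] at this
    exact hne (sub_eq_zero.1 this.symm)

end

end Pool.Agent.L5helper77.Berg
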