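import Mathlib

/-! # Linear combinations of the functions `⌊y / k⌋` and the distance to the constant `1` -/

set_option autoImplicit false
set_option maxHeartbeats 4000000

open Complex Filter Topology Set MeasureTheory

namespace Pool.Agent.L5helper77.Cheb

/-- `∑_{k ≤ K} a_k ⌊y / k⌋` -/
noncomputable def Fl (K : ℕ) (a : ℕ → ℝ) (y : ℝ) : ℝ := ∑ k ∈ Finset.Icc 1 K, a k * (⌊y / k⌋₊ : ℝ)

/-- `∫_1^∞ |1 - F(y)| dy / y²` -/
noncomputable def dist1 (K : ℕ) (a : ℕ → ℝ) : ENNReal :=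
  ∫⁻ y in Ioi (1 : ℝ), ENNReal.ofReal (|1 - Fl K a y| / y ^ 2)

lemma Fl_nat (K : ℕ) (a : ℕ → ℝ) (n : ℕ) : Fl K a n = ∑ k ∈ Finset.Icc 1 K, a k * ((n / k : ℕ) : ℝ) := by
  unfold Fl
  refine Finset.sum_congr rfl fun k _ => ?_
  rw [Nat.floor_div_natCast, Nat.floor_natCast]

lemma Fl_floor (K : ℕ) (a : ℕ → ℝ) (y : ℝ) : Fl K a y = Fl K a (⌊y⌋₊ : ℝ) := by
  rw [Fl_nat]
  unfold Fl
  refine Finset.sum_congr rfl fun k _ => ?_
  rw [Nat.floor_div_natCast]

lemma Fl_meas (K : ℕ) (a : ℕ → ℝ) : Measurable (Fl K a) := by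
  unfold Fl
  refine Finset.measurable_sum _ fun k _ => ?_
  refine Measurable.const_mul ?_ _
  exact (measurable_from_nat (f := fun n : ℕ => (n : ℝ))).comp (Nat.measurable_floor.comp (measurable_id.div_const _))

lemma Fl_abs_le (K : ℕ) (a : ℕ → ℝ) {y : ℝ} (hy : 0 ≤ y) :
    |Fl K a y| ≤ (∑ k ∈ Finset.Icc 1 K, |a k|) * y := by
  unfold Fl
  refine (Finset.abs_sum_le_sum_abs _ _).trans ?_
  rw [Finset.sum_mul]
  refine Finset.sum_le_sum fun k hk => ?_
  have hk1 : (1 : ℝ) ≤ k := by exact_mod_cast (Finset.mem_Icc.1 hk).1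
  rw [abs_mul, abs_of_nonneg (Nat.cast_nonneg (α := ℝ) ⌊y / k⌋₊)]
  refine mul_le_mul_of_nonneg_left ?_ (abs_nonneg _)
  refine (Nat.floor_le (by positivity)).trans ?_
  rw [div_le_iff₀ (by linarith)]
  nlinarith

/-- the values at the integers are close to one -/
lemma value_bound (K : ℕ) (a : ℕ → ℝ) (h : dist1 K a ≠ ⊤) {n : ℕ} (hn : 1 ≤ n) :
    |1 - Fl K a n| ≤ ((n : ℝ) + 1) ^ 2 * (dist1 K a).toReal := by
  have hn' : (1 : ℝ) ≤ n := by exact_mod_cast hn
  have h1 : ENNReal.ofReal (|1 - Fl K a n| / ((n : ℝ) + 1) ^ 2) ≤ dist1 K a := by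
    calc ENNReal.ofReal (|1 - Fl K a n| / ((n : ℝ) + 1) ^ 2)
        = ∫⁻ _ in Ioo (n : ℝ) (n + 1), ENNReal.ofReal (|1 - Fl K a n| / ((n : ℝ) + 1) ^ 2) := by
          rw [setLIntegral_const, Real.volume_Ioo]
          simp
      _ ≤ ∫⁻ y in Ioo (n : ℝ) (n + 1), ENNReal.ofReal (|1 - Fl K a y| / y ^ 2) := by
          refine setLIntegral_mono' measurableSet_Ioo fun y hy => ?_
          have e : Fl K a y = Fl K a n := by
            rw [Fl_floor]
            congr 2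
            rw [Nat.floor_eq_iff (by linarith [hy.1])]
            exact ⟨hy.1.le, hy.2⟩
          rw [e]
          apply ENNReal.ofReal_le_ofReal
          have hy0 : 0 < y := by linarith [hy.1]
          gcongr
          exact hy.2.le
      _ ≤ dist1 K a := by
          unfold dist1
          refine lintegral_mono_set fun y hy => ?_
          exact lt_of_le_of_lt hn' hy.1
  have h2 := ENNReal.toReal_mono h h1
  rw [ENNReal.toReal_ofReal (by positivity), div_le_iff₀ (by positivity)] at h2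
  linarith

/-- the differences of the values -/
lemma diff_eq (K : ℕ) (a : ℕ → ℝ) {n : ℕ} (hn : 1 ≤ n) :
    ∑ d ∈ n.divisors, (if d ≤ K then a d else 0) = Fl K a n - Fl K a ((n - 1 : ℕ) : ℝ) := by
  obtain ⟨m, rfl⟩ : ∃ m, n = m + 1 := ⟨n - 1, by omega⟩
  rw [Fl_nat, Fl_nat, ← Finset.sum_sub_distrib, Nat.add_sub_cancel, ← Finset.sum_filter]
  have e : ∀ k ∈ Finset.Icc 1 K, a k * (((m + 1) / k : ℕ) : ℝ) - a k * ((m / k : ℕ) : ℝ) =
      if k ∣ m + 1 then a k else 0 := by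
    intro k _
    rw [Nat.succ_div]
    split_ifs with h
    · push_cast; ring
    · simp
  rw [Finset.sum_congr rfl e, ← Finset.sum_filter]
  refine Finset.sum_congr ?_ fun _ _ => rfl
  ext k
  simp only [Finset.mem_filter, Nat.mem_divisors, Finset.mem_Icc]
  constructor
  · rintro ⟨⟨h1, h2⟩, h3⟩
    exact ⟨⟨Nat.pos_of_dvd_of_pos h1 (by omega), h3⟩, h1⟩
  · rintro ⟨⟨h1, h2⟩, h3⟩
    exact ⟨⟨h3, by omega⟩, h2⟩

/-- the coefficients are polynomially bounded -/
lemma coeff_bound (K : ℕ) (a : ℕ → ℝ) (h : dist1 K a ≤ 1) {n : ℕ} (hn : 1 ≤ n) (hnK : n ≤ K) :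
    |a n| ≤ 3 * ((K : ℝ) + 1) ^ 3 := by
  have hne : dist1 K a ≠ ⊤ := ne_top_of_le_ne_top ENNReal.one_ne_top h
  have hE : (dist1 K a).toReal ≤ 1 := by
    have := ENNReal.toReal_mono ENNReal.one_ne_top h
    simpa using this
  have hE0 : 0 ≤ (dist1 K a).toReal := ENNReal.toReal_nonneg
  set g : ℕ → ℝ := fun n => Fl K a n - Fl K a ((n - 1 : ℕ) : ℝ) with hg
  have h1 := (ArithmeticFunction.sum_eq_iff_sum_mul_moebius_eq (R := ℝ)
    (f := fun d => if d ≤ K then a d else 0) (g := g)).1 (fun n hn => diff_eq K a hn) n hn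
  simp only [hnK, if_true] at h1
  have hgb : ∀ e : ℕ, 1 ≤ e → e ≤ K → |g e| ≤ 3 * ((K : ℝ) + 1) ^ 2 := by
    intro e he heK
    have he' : (1 : ℝ) ≤ e := by exact_mod_cast he
    have heK' : (e : ℝ) ≤ K := by exact_mod_cast heK
    have h2 := value_bound K a hne he
    have h3 : |1 - Fl K a e| ≤ ((K : ℝ) + 1) ^ 2 := by
      refine h2.trans ?_
      calc ((e : ℝ) + 1) ^ 2 * (dist1 K a).toReal ≤ ((K : ℝ) + 1) ^ 2 * 1 := by gcongr
        _ = _ := mul_one _
    have h5 : (1 : ℝ) ≤ ((K : ℝ) + 1) ^ 2 := by nlinarith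
    rcases he.eq_or_lt with h4 | h4
    · simp only [hg, ← h4]
      rw [← h4] at h3
      have e0 : Fl K a ((1 - 1 : ℕ) : ℝ) = 0 := by
        rw [Fl_nat]
        simp
      rw [e0, sub_zero]
      have h6 := abs_le.1 h3
      rw [abs_le]
      constructor <;> linarith [h6.1, h6.2]
    · have h7 := value_bound K a hne (n := e - 1) (by omega)
      have h8 : |1 - Fl K a ((e - 1 : ℕ) : ℝ)| ≤ ((K : ℝ) + 1) ^ 2 := by
        refine h7.trans ?_
        have h9 : ((e - 1 : ℕ) : ℝ) + 1 ≤ (K : ℝ) + 1 := by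
          have : ((e - 1 : ℕ) : ℝ) ≤ K := by exact_mod_cast (by omega : e - 1 ≤ K)
          linarith
        calc (((e - 1 : ℕ) : ℝ) + 1) ^ 2 * (dist1 K a).toReal ≤ ((K : ℝ) + 1) ^ 2 * 1 := by gcongr
          _ = _ := mul_one _
      have h6 := abs_le.1 h3
      have h9 := abs_le.1 h8
      simp only [hg]
      rw [abs_le]
      constructor <;> linarith [h6.1, h6.2, h9.1, h9.2]
  rw [← h1]
  refine (Finset.abs_sum_le_sum_abs _ _).trans ?_
  have h3 : ∀ x ∈ n.divisorsAntidiagonal, |((ArithmeticFunction.moebius x.1 : ℤ) : ℝ) * g x.2| ≤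
      3 * ((K : ℝ) + 1) ^ 2 := by
    intro x hx
    rw [Nat.mem_divisorsAntidiagonal] at hx
    have hx2 : 1 ≤ x.2 := by
      rcases Nat.eq_zero_or_pos x.2 with h4 | h4
      · rw [h4, mul_zero] at hx; omega
      · exact h4
    have hx1 : 1 ≤ x.1 := by
      rcases Nat.eq_zero_or_pos x.1 with h4 | h4
      · rw [h4, zero_mul] at hx; omega
      · exact h4
    have hx3 : x.2 ≤ K := by
      have : x.2 ≤ n := by rw [← hx.1]; exact Nat.le_mul_of_pos_left _ hx1
      omega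
    rw [abs_mul]
    have h4 : |((ArithmeticFunction.moebius x.1 : ℤ) : ℝ)| ≤ 1 := by
      have := ArithmeticFunction.abs_moebius_le_one (n := x.1)
      exact_mod_cast this
    calc |((ArithmeticFunction.moebius x.1 : ℤ) : ℝ)| * |g x.2| ≤ 1 * (3 * ((K : ℝ) + 1) ^ 2) := by
          apply mul_le_mul h4 (hgb _ hx2 hx3) (abs_nonneg _) zero_le_one
      _ = _ := one_mul _
  refine (Finset.sum_le_sum h3).trans ?_
  rw [Finset.sum_const, nsmul_eq_mul]
  have hcard : (n.divisorsAntidiagonal.card : ℝ) ≤ (K : ℝ) + 1 := by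
    have h4 : n.divisorsAntidiagonal.card = n.divisors.card := by
      rw [← Nat.map_div_right_divisors, Finset.card_map]
    have h5 : n.divisors.card ≤ n := Nat.card_divisors_le_self n
    have h6 : (n.divisorsAntidiagonal.card : ℝ) ≤ n := by rw [h4]; exact_mod_cast h5
    have h7 : (n : ℝ) ≤ K := by exact_mod_cast hnK
    linarith
  calc (n.divisorsAntidiagonal.card : ℝ) * (3 * ((K : ℝ) + 1) ^ 2)
      ≤ ((K : ℝ) + 1) * (3 * ((K : ℝ) + 1) ^ 2) := by gcongr
    _ = 3 * ((K : ℝ) + 1) ^ 3 := by ring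

end Pool.Agent.L5helper77.Cheb
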