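import Pool.Agent.L5helper77.Cheb1

/-! # The Mellin transform of `1 - ∑ a_k ⌊y / k⌋` -/

set_option autoImplicit false
set_option maxHeartbeats 4000000

open Complex Filter Topology Set MeasureTheory

namespace Pool.Agent.L5helper77.Cheb

/-- `∑_{k ≤ K} a_k k^{-s}` -/
noncomputable def Dp (K : ℕ) (a : ℕ → ℝ) (s : ℂ) : ℂ := ∑ k ∈ Finset.Icc 1 K, (a k : ℂ) * (k : ℂ) ^ (-s)

lemma flo_zero {k : ℕ} (hk : 1 ≤ k) {t : ℝ} (ht1 : t < 1) : ⌊t / k⌋₊ = 0 := by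
  rw [Nat.floor_eq_zero]
  have hk1 : (1 : ℝ) ≤ k := by exact_mod_cast hk
  rw [div_lt_one (by linarith)]
  linarith

lemma flo_meas (k : ℕ) : Measurable fun t : ℝ => ((⌊t / k⌋₊ : ℕ) : ℂ) :=
  (measurable_from_nat (f := fun n : ℕ => (n : ℂ))).comp (Nat.measurable_floor.comp (measurable_id.div_const _))

lemma cpow_cont (s : ℂ) (c : ℝ) (hc : 0 < c) :
    ContinuousOn (fun t : ℝ => (t : ℂ) ^ s) (Ioi c) := by
  intro t ht
  have ht0 : 0 < t := hc.trans ht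
  refine ContinuousAt.continuousWithinAt ?_
  exact (continuousAt_ofReal_cpow_const _ _ (Or.inr ht0.ne'))

lemma flo_int {k : ℕ} (hk : 1 ≤ k) {s : ℂ} (hs : 1 < s.re) :
    IntegrableOn (fun t : ℝ => ((⌊t / k⌋₊ : ℕ) : ℂ) * (t : ℂ) ^ (-(s + 1))) (Ioi 1) := by
  have hk1 : (1 : ℝ) ≤ k := by exact_mod_cast hk
  have h1 : IntegrableOn (fun t : ℝ => t ^ (-s.re)) (Ioi (1 : ℝ)) :=
    integrableOn_Ioi_rpow_of_lt (by linarith) one_pos
  refine Integrable.mono' h1 ?_ ?_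
  · refine (flo_meas k).aestronglyMeasurable.mul ?_
    exact (cpow_cont _ 1 one_pos).aestronglyMeasurable measurableSet_Ioi
  · rw [ae_restrict_iff' measurableSet_Ioi]
    refine Eventually.of_forall fun t ht => ?_
    have ht0 : 0 < t := one_pos.trans ht
    rw [norm_mul, Complex.norm_natCast, Complex.norm_cpow_eq_rpow_re_of_pos ht0]
    have h2 : (⌊t / k⌋₊ : ℝ) ≤ t := by
      refine (Nat.floor_le (by positivity)).trans ?_
      rw [div_le_iff₀ (by linarith)]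
      nlinarith
    have h3 : (-(s + 1)).re = -s.re - 1 := by simp; ring
    rw [h3, Real.rpow_sub_one ht0.ne']
    have h4 : 0 ≤ t ^ (-s.re) := by positivity
    calc (⌊t / k⌋₊ : ℝ) * (t ^ (-s.re) / t) ≤ t * (t ^ (-s.re) / t) := by gcongr
      _ = t ^ (-s.re) := by field_simp

lemma ioi_zero_one {f : ℝ → ℂ} (hf : ∀ t, 0 < t → t < 1 → f t = 0) :
    ∫ t in Ioi (0 : ℝ), f t = ∫ t in Ioi (1 : ℝ), f t := by
  rw [← integral_Ici_eq_integral_Ioi (x := (1 : ℝ))]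
  refine setIntegral_eq_of_subset_of_forall_sdiff_eq_zero measurableSet_Ioi ?_ ?_
  · intro t ht
    exact mem_Ioi.2 (lt_of_lt_of_le one_pos (mem_Ici.1 ht))
  · intro t ht
    exact hf t ht.1 (not_le.1 ht.2)

lemma flo_one {s : ℂ} (hs : 1 < s.re) :
    s * ∫ t in Ioi (1 : ℝ), ((⌊t⌋₊ : ℕ) : ℂ) * (t : ℂ) ^ (-(s + 1)) = riemannZeta s := by
  have h := LSeries_eq_mul_integral' (fun _ => (1 : ℂ)) (r := 1) zero_le_one hs (by
    simp only [norm_one, Finset.sum_const, Nat.card_Icc, Nat.add_sub_cancel, nsmul_eq_mul, mul_one,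
      Real.rpow_one]
    exact Asymptotics.isBigO_refl _ _)
  have h2 : LSeries (fun _ => (1 : ℂ)) s = riemannZeta s := by
    have := LSeries_one_eq_riemannZeta hs
    rw [← this]
    rfl
  rw [h2] at h
  rw [h]
  congr 1
  refine setIntegral_congr_fun measurableSet_Ioi fun t _ => ?_
  simp

lemma flo_val {k : ℕ} (hk : 1 ≤ k) {s : ℂ} (hs : 1 < s.re) :
    s * ∫ t in Ioi (1 : ℝ), ((⌊t / k⌋₊ : ℕ) : ℂ) * (t : ℂ) ^ (-(s + 1)) =
      (k : ℂ) ^ (-s) * riemannZeta s := by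
  have hk1 : (1 : ℝ) ≤ k := by exact_mod_cast hk
  have hk0 : (0 : ℝ) < k := by linarith
  rw [← flo_one hs]
  have h1 := ioi_zero_one (f := fun t : ℝ => ((⌊t / k⌋₊ : ℕ) : ℂ) * (t : ℂ) ^ (-(s + 1)))
    (fun t _ ht1 => by rw [flo_zero hk ht1]; simp)
  have h2 := ioi_zero_one (f := fun t : ℝ => ((⌊t⌋₊ : ℕ) : ℂ) * (t : ℂ) ^ (-(s + 1)))
    (fun t _ ht1 => by
      have := flo_zero (k := 1) le_rfl ht1
      rw [Nat.cast_one, div_one] at this
      rw [this]; simp)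
  have h3 := integral_comp_mul_left_Ioi
    (fun t : ℝ => ((⌊t / k⌋₊ : ℕ) : ℂ) * (t : ℂ) ^ (-(s + 1))) 0 hk0
  rw [mul_zero] at h3
  have h4 : ∫ x in Ioi (0 : ℝ), ((⌊(k : ℝ) * x / k⌋₊ : ℕ) : ℂ) * (((k : ℝ) * x : ℝ) : ℂ) ^ (-(s + 1)) =
      (k : ℂ) ^ (-(s + 1)) * ∫ x in Ioi (0 : ℝ), ((⌊x⌋₊ : ℕ) : ℂ) * (x : ℂ) ^ (-(s + 1)) := by
    rw [← integral_const_mul]
    refine setIntegral_congr_fun measurableSet_Ioi fun x hx => ?_
    have hx0 : 0 < x := hx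
    rw [mul_div_cancel_left₀ _ hk0.ne', Complex.ofReal_mul,
      Complex.mul_cpow_ofReal_nonneg hk0.le hx0.le, Complex.ofReal_natCast]
    ring
  rw [h4] at h3
  rw [← h1, ← h2]
  have h5 : ∫ x in Ioi (0 : ℝ), ((⌊x / k⌋₊ : ℕ) : ℂ) * (x : ℂ) ^ (-(s + 1)) =
      (k : ℂ) * ((k : ℂ) ^ (-(s + 1)) *
        ∫ x in Ioi (0 : ℝ), ((⌊x⌋₊ : ℕ) : ℂ) * (x : ℂ) ^ (-(s + 1))) := by
    rw [h3, Complex.real_smul, ← mul_assoc]
    push_cast
    rw [mul_inv_cancel₀ (by exact_mod_cast hk0.ne'), one_mul]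
  rw [h5]
  have hkc : (k : ℂ) ≠ 0 := by exact_mod_cast hk0.ne'
  have h6 : (k : ℂ) * (k : ℂ) ^ (-(s + 1)) = (k : ℂ) ^ (-s) := by
    rw [show -(s + 1) = -s - 1 by ring, Complex.cpow_sub _ _ hkc, Complex.cpow_one]
    field_simp
  rw [← h6]
  ring

/-- the Mellin transform -/
lemma mellin (K : ℕ) (a : ℕ → ℝ) {s : ℂ} (hs : 1 < s.re) :
    1 - riemannZeta s * Dp K a s =
      s * ∫ t in Ioi (1 : ℝ), ((1 - Fl K a t : ℝ) : ℂ) * (t : ℂ) ^ (-(s + 1)) := by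
  have hs0 : s ≠ 0 := by
    intro h
    rw [h] at hs
    simp at hs
    linarith
  have hi1 : IntegrableOn (fun t : ℝ => (t : ℂ) ^ (-(s + 1))) (Ioi 1) :=
    integrableOn_Ioi_cpow_of_lt (by simp; linarith) one_pos
  have hv1 : ∫ t in Ioi (1 : ℝ), (t : ℂ) ^ (-(s + 1)) = 1 / s := by
    rw [integral_Ioi_cpow_of_lt (by simp; linarith) one_pos]
    simp only [ofReal_one, one_cpow]
    rw [show -(s + 1) + 1 = -s by ring, neg_div_neg_eq]
  have e : ∀ t : ℝ, ((1 - Fl K a t : ℝ) : ℂ) * (t : ℂ) ^ (-(s + 1)) = (t : ℂ) ^ (-(s + 1)) -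
      ∑ k ∈ Finset.Icc 1 K, (a k : ℂ) * (((⌊t / k⌋₊ : ℕ) : ℂ) * (t : ℂ) ^ (-(s + 1))) := by
    intro t
    unfold Fl
    push_cast
    rw [sub_mul, one_mul, Finset.sum_mul]
    congr 1
    exact Finset.sum_congr rfl fun k _ => by ring
  simp only [e]
  have hint : ∀ k ∈ Finset.Icc 1 K, IntegrableOn
      (fun t : ℝ => (a k : ℂ) * (((⌊t / k⌋₊ : ℕ) : ℂ) * (t : ℂ) ^ (-(s + 1)))) (Ioi 1) := by
    intro k hk
    exact (flo_int (Finset.mem_Icc.1 hk).1 hs).const_mul _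
  rw [integral_sub hi1 (integrable_finsetSum _ hint), integral_finsetSum _ hint, hv1, mul_sub,
    mul_one_div_cancel hs0, Finset.mul_sum]
  congr 1
  unfold Dp
  rw [Finset.mul_sum]
  refine Finset.sum_congr rfl fun k hk => ?_
  rw [integral_const_mul]
  have := flo_val (Finset.mem_Icc.1 hk).1 hs
  calc riemannZeta s * ((a k : ℂ) * (k : ℂ) ^ (-s)) = (a k : ℂ) * ((k : ℂ) ^ (-s) * riemannZeta s) := by
        ring
    _ = _ := by rw [← this]; ring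

/-- the fundamental bound -/
lemma mellin_bound (K : ℕ) (a : ℕ → ℝ) (h : dist1 K a ≠ ⊤) {s : ℂ} (hs : 1 < s.re) :
    ‖1 - riemannZeta s * Dp K a s‖ ≤ ‖s‖ * (dist1 K a).toReal := by
  rw [mellin K a hs, norm_mul]
  refine mul_le_mul_of_nonneg_left ?_ (norm_nonneg _)
  refine (norm_integral_le_lintegral_norm _).trans ?_
  refine ENNReal.toReal_mono h ?_
  unfold dist1
  refine setLIntegral_mono' measurableSet_Ioi fun t ht => ?_
  apply ENNReal.ofReal_le_ofReal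
  have ht0 : 0 < t := one_pos.trans ht
  rw [norm_mul, Complex.norm_real, Real.norm_eq_abs, Complex.norm_cpow_eq_rpow_re_of_pos ht0,
    div_eq_mul_inv]
  refine mul_le_mul_of_nonneg_left ?_ (abs_nonneg _)
  rw [← Real.rpow_natCast, ← Real.rpow_neg ht0.le]
  apply Real.rpow_le_rpow_of_exponent_le (le_of_lt ht)
  simp
  linarith

end Pool.Agent.L5helper77.Cheb
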