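import Pool.Agent.L5helper77.Cheb2
import Pool.Agent.H52R4.PZT1

/-! # Lower bound for the distance, from a zero of zeta -/

set_option autoImplicit false
set_option maxHeartbeats 4000000

open Complex Filter Topology Set MeasureTheory

namespace Pool.Agent.L5helper77.Cheb

lemma z1_eq {s : ℂ} (hs : s ≠ 1) : riemannZeta₁ s = (s - 1) * riemannZeta s := by
  have h : s - 1 ≠ 0 := sub_ne_zero.2 hs
  rw [riemannZeta_eq_inv_sub_mul hs]
  field_simp

lemma gam_le {z : ℂ} (hz : 0 < z.re) : ‖Complex.Gamma z‖ ≤ Real.Gamma z.re := by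
  rw [Complex.Gamma_eq_integral hz, Real.Gamma_eq_integral hz]
  unfold Complex.GammaIntegral
  refine (norm_integral_le_integral_norm _).trans (le_of_eq ?_)
  refine setIntegral_congr_fun measurableSet_Ioi (fun t ht => ?_)
  have ht' : (0 : ℝ) < t := ht
  simp only [norm_mul]
  rw [Complex.norm_cpow_eq_rpow_re_of_pos ht', Complex.norm_real, Real.norm_eq_abs,
    abs_of_pos (Real.exp_pos _)]
  simp

lemma cos_le (z : ℂ) : ‖Complex.cos z‖ ≤ Real.exp |z.im| := by
  unfold Complex.cos
  rw [norm_div]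
  have h1 : ‖Complex.exp (z * Complex.I) + Complex.exp (-z * Complex.I)‖ ≤
      Real.exp |z.im| + Real.exp |z.im| := by
    refine (norm_add_le _ _).trans ?_
    rw [Complex.norm_exp, Complex.norm_exp]
    refine add_le_add (Real.exp_le_exp.mpr ?_) (Real.exp_le_exp.mpr ?_)
    · have : (z * Complex.I).re = -z.im := by simp
      rw [this]; exact neg_le_abs _
    · have : (-z * Complex.I).re = z.im := by simp
      rw [this]; exact le_abs_self _
  have h2 : ‖(2 : ℂ)‖ = 2 := by norm_num
  rw [h2]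
  linarith

lemma zeta_far : ∃ C : ℝ, 0 < C ∧ ∀ s : ℂ, 3 / 2 ≤ s.re → ‖riemannZeta s‖ ≤ C := by
  have hsum : Summable fun n : ℕ => 1 / ((n : ℝ) + 1) ^ (3 / 2 : ℝ) := by
    have h := (Real.summable_one_div_nat_rpow (p := 3 / 2)).2 (by norm_num)
    have h2 := (summable_nat_add_iff 1).2 h
    refine h2.congr fun n => ?_
    push_cast
    rfl
  refine ⟨∑' n : ℕ, 1 / ((n : ℝ) + 1) ^ (3 / 2 : ℝ), ?_, fun s hs => ?_⟩
  · exact hsum.tsum_pos (fun n => by positivity) 0 (by positivity)
  · rw [zeta_eq_tsum_one_div_nat_add_one_cpow (by linarith)]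
    refine tsum_of_norm_bounded hsum.hasSum fun n => ?_
    rw [norm_div, norm_one]
    have h0 : (0 : ℝ) < (n : ℝ) + 1 := by positivity
    have h1 : ‖((n : ℂ) + 1) ^ s‖ = ((n : ℝ) + 1) ^ s.re := by
      have := Complex.norm_cpow_eq_rpow_re_of_pos h0 s
      push_cast at this
      exact this
    rw [h1]
    apply one_div_le_one_div_of_le (by positivity)
    exact Real.rpow_le_rpow_of_exponent_le (by linarith [Nat.cast_nonneg (α := ℝ) n]) hs

/-- growth of zeta in wide strips -/
lemma strip_bound (A : ℝ) (hA : 1 ≤ A) : ∃ C : ℝ, 1 ≤ C ∧ ∀ s : ℂ, -A ≤ s.re → s.re ≤ 2 →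
    ‖riemannZeta₁ s‖ ≤ C * Real.exp (4 * |s.im|) := by
  -- compact part
  have hcomp : IsCompact ((Icc (-A) 2) ×ℂ (Icc (-1 : ℝ) 1)) := isCompact_Icc.reProdIm isCompact_Icc
  obtain ⟨C1, hC1⟩ := hcomp.exists_bound_of_continuousOn
    (differentiable_riemannZeta₁.continuous.continuousOn)
  obtain ⟨C2, hC2, hst⟩ := Pool.Agent.H52R4.PZT1.zeta_strip
  obtain ⟨C3, hC3, hfar⟩ := zeta_far
  -- the Gamma function on a compact interval
  have hG : ContinuousOn Real.Gamma (Icc (3 / 2) (1 + A)) := by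
    intro x hx
    refine (Real.differentiableAt_Gamma fun m => ?_).continuousAt.continuousWithinAt
    have h1 : (0 : ℝ) ≤ m := Nat.cast_nonneg m
    have := hx.1
    intro h2
    linarith
  obtain ⟨C4, hC4⟩ := isCompact_Icc.exists_bound_of_continuousOn hG
  set G := max C4 1 with hGdef
  have hG1 : 1 ≤ G := le_max_right _ _
  refine ⟨max C1 1 + 27 * C2 + (A + 2) * (2 * G * C3), ?_, ?_⟩
  · have h1 : (1 : ℝ) ≤ max C1 1 := le_max_right _ _
    have h2 : 0 < 27 * C2 := by positivity
    have h3 : 0 < (A + 2) * (2 * G * C3) := by positivity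
    linarith
  intro s hs1 hs2
  have hp1 : 0 < max C1 1 := lt_of_lt_of_le one_pos (le_max_right _ _)
  have hp2 : 0 < 27 * C2 := by positivity
  have hp3 : 0 < (A + 2) * (2 * G * C3) := by positivity
  have hexp1 : 1 ≤ Real.exp (4 * |s.im|) := Real.one_le_exp (by positivity)
  rcases le_total |s.im| 1 with h | h
  · have h1 := hC1 s (by
      rw [Complex.mem_reProdIm]
      exact ⟨⟨hs1, hs2⟩, abs_le.1 h⟩)
    have h2 : C1 ≤ max C1 1 := le_max_left _ _
    nlinarith
  · have hne : s ≠ 1 := by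
      intro h1
      rw [h1] at h
      simp at h
      linarith
    rw [z1_eq hne, norm_mul]
    have him : |s.im| ≤ Real.exp |s.im| := by
      have := Real.add_one_le_exp |s.im|
      linarith
    have hsub : ‖s - 1‖ ≤ |s.re - 1| + |s.im| := by
      have := Complex.norm_le_abs_re_add_abs_im (s - 1)
      simpa using this
    rcases le_total (-(1 / 2)) s.re with h3 | h3
    · have h4 := hst s h3 hs2 h
      have h5 : ‖s - 1‖ ≤ 3 * |s.im| := by
        have : |s.re - 1| ≤ 3 / 2 := abs_le.2 ⟨by linarith, by linarith⟩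
        linarith
      have h6 : |s.im| ^ 3 ≤ Real.exp (3 * |s.im|) := by
        have := pow_le_pow_left₀ (abs_nonneg s.im) him 3
        rw [← Real.exp_nat_mul] at this
        push_cast at this
        exact this
      have h7 : Real.exp (3 * |s.im|) ≤ Real.exp (4 * |s.im|) := Real.exp_le_exp.2 (by linarith)
      calc ‖s - 1‖ * ‖riemannZeta s‖ ≤ (3 * |s.im|) * (C2 * |s.im| ^ 2) := by gcongr
        _ = 3 * C2 * |s.im| ^ 3 := by ring
        _ ≤ 27 * C2 * Real.exp (4 * |s.im|) := by
            have : 3 * C2 ≤ 27 * C2 := by linarith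
            have h8 := h6.trans h7
            gcongr
        _ ≤ _ := by
            have h9 := Real.exp_pos (4 * |s.im|)
            nlinarith [mul_pos hp1 h9, mul_pos hp3 h9]
    · set w : ℂ := 1 - s with hw
      have hwre : w.re = 1 - s.re := by simp [hw]
      have hwim : w.im = -s.im := by simp [hw]
      have hsw : s = 1 - w := by rw [hw]; ring
      have hw32 : 3 / 2 ≤ w.re := by rw [hwre]; linarith
      have hwA : w.re ≤ 1 + A := by rw [hwre]; linarith
      have hfe := riemannZeta_one_sub (s := w) (fun n hn => by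
        have : w.re = -(n : ℝ) := by rw [hn]; simp
        have h0 : (0 : ℝ) ≤ n := Nat.cast_nonneg n
        linarith) (fun h1 => by rw [h1] at hw32; simp at hw32; linarith)
      rw [← hsw] at hfe
      have hpow : ‖(2 * (Real.pi : ℂ)) ^ (-w)‖ ≤ 1 := by
        have h2pi : (0 : ℝ) < 2 * Real.pi := by positivity
        have := Complex.norm_cpow_eq_rpow_re_of_pos h2pi (-w)
        push_cast at this
        rw [this]
        apply Real.rpow_le_one_of_one_le_of_nonpos
        · linarith [Real.pi_gt_three]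
        · simp; linarith
      have hGam : ‖Complex.Gamma w‖ ≤ G := by
        refine (gam_le (by linarith)).trans ?_
        have h1 := hC4 w.re ⟨hw32, hwA⟩
        rw [Real.norm_eq_abs] at h1
        exact (le_abs_self _).trans (h1.trans (le_max_left _ _))
      have hcos : ‖Complex.cos (Real.pi * w / 2)‖ ≤ Real.exp (2 * |s.im|) := by
        refine (cos_le _).trans (Real.exp_le_exp.2 ?_)
        have h1 : (Real.pi * w / 2 : ℂ).im = Real.pi / 2 * w.im := by
          have : (Real.pi * w / 2 : ℂ) = ((Real.pi / 2 : ℝ) : ℂ) * w := by push_cast; ring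
          rw [this, Complex.re_ofReal_mul |> fun _ => Complex.im_ofReal_mul _ _]
        rw [h1, abs_mul, hwim, abs_neg, abs_of_pos (by positivity : (0 : ℝ) < Real.pi / 2)]
        have := Real.pi_lt_four
        have h5 := abs_nonneg s.im
        nlinarith
      have hz : ‖riemannZeta s‖ ≤ 2 * G * C3 * Real.exp (2 * |s.im|) := by
        rw [hfe]
        simp only [norm_mul]
        have h2 : ‖(2 : ℂ)‖ = 2 := by norm_num
        rw [h2]
        have hf := hfar w hw32
        calc 2 * ‖(2 * (Real.pi : ℂ)) ^ (-w)‖ * ‖Complex.Gamma w‖ * ‖Complex.cos (Real.pi * w / 2)‖ *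
              ‖riemannZeta w‖ ≤ 2 * 1 * G * Real.exp (2 * |s.im|) * C3 := by gcongr
          _ = _ := by ring
      have hs3 : ‖s - 1‖ ≤ (A + 2) * Real.exp |s.im| := by
        have h1 : |s.re - 1| ≤ A + 1 := abs_le.2 ⟨by linarith, by linarith⟩
        have h2 : 1 ≤ Real.exp |s.im| := Real.one_le_exp (abs_nonneg _)
        nlinarith
      calc ‖s - 1‖ * ‖riemannZeta s‖
          ≤ ((A + 2) * Real.exp |s.im|) * (2 * G * C3 * Real.exp (2 * |s.im|)) := by gcongr
        _ = (A + 2) * (2 * G * C3) * (Real.exp |s.im| * Real.exp (2 * |s.im|)) := by ring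
        _ ≤ (A + 2) * (2 * G * C3) * Real.exp (4 * |s.im|) := by
            rw [← Real.exp_add]
            gcongr
            linarith [abs_nonneg s.im]
        _ ≤ _ := by
            have h9 := Real.exp_pos (4 * |s.im|)
            nlinarith [mul_pos hp1 h9, mul_pos hp2 h9]

lemma gauss (R : ℝ) (ρ : ℂ) : ∃ C : ℝ, 1 ≤ C ∧ ∀ s : ℂ, |s.re| ≤ R →
    Real.exp (5 * |s.im|) * ‖Complex.exp ((s - ρ) ^ 2)‖ ≤ C := by
  refine ⟨Real.exp ((R + |ρ.re|) ^ 2 + 5 * |ρ.im| + 25 / 4), Real.one_le_exp (by positivity), ?_⟩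
  intro s hs
  rw [Complex.norm_exp, ← Real.exp_add]
  apply Real.exp_le_exp.2
  have e : ((s - ρ) ^ 2).re = (s.re - ρ.re) ^ 2 - (s.im - ρ.im) ^ 2 := by
    rw [sq, Complex.mul_re, Complex.sub_re, Complex.sub_im]; ring
  rw [e]
  have h1 : (s.re - ρ.re) ^ 2 ≤ (R + |ρ.re|) ^ 2 := by
    rw [← sq_abs (s.re - ρ.re)]
    have := abs_sub s.re ρ.re
    gcongr
    linarith
  have h2 : |s.im| ≤ |s.im - ρ.im| + |ρ.im| := by
    have := abs_add_le (s.im - ρ.im) ρ.im
    simpa using this
  have h3 : (s.im - ρ.im) ^ 2 = |s.im - ρ.im| ^ 2 := (sq_abs _).symm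
  rw [h3]
  nlinarith [sq_nonneg (|s.im - ρ.im| - 5 / 2)]

end Pool.Agent.L5helper77.Cheb
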