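import Pool.Agent.L5helper77.Cheb3

/-! # The lower bound for the distance -/

set_option autoImplicit false
set_option maxHeartbeats 4000000

open Complex Filter Topology Set MeasureTheory

namespace Pool.Agent.L5helper77.Cheb

lemma Dp_diff (K : ℕ) (a : ℕ → ℝ) : Differentiable ℂ (Dp K a) := by
  unfold Dp
  refine Differentiable.fun_sum fun k hk => ?_
  have hk0 : (k : ℂ) ≠ 0 := by
    have := (Finset.mem_Icc.1 hk).1
    exact_mod_cast (by omega : k ≠ 0)
  refine Differentiable.const_mul ?_ _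
  intro s
  exact (differentiableAt_id.neg).const_cpow (Or.inl hk0)

lemma Dp_bound (K : ℕ) (a : ℕ → ℝ) {B : ℝ} (hB : 0 ≤ B) (h : ∀ n, 1 ≤ n → n ≤ K → |a n| ≤ B) {A : ℝ}
    (hA : 0 ≤ A) {s : ℂ} (hs : -A ≤ s.re) : ‖Dp K a s‖ ≤ ((K : ℝ) + 1) * (B * ((K : ℝ) + 1) ^ A) := by
  unfold Dp
  refine (norm_sum_le _ _).trans ?_
  have h1 : ∀ k ∈ Finset.Icc 1 K, ‖(a k : ℂ) * (k : ℂ) ^ (-s)‖ ≤ B * ((K : ℝ) + 1) ^ A := by
    intro k hk
    obtain ⟨hk1, hk2⟩ := Finset.mem_Icc.1 hk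
    have hk0 : (0 : ℝ) < k := by exact_mod_cast hk1
    have hk1' : (1 : ℝ) ≤ k := by exact_mod_cast hk1
    have hk2' : (k : ℝ) ≤ K := by exact_mod_cast hk2
    rw [norm_mul, Complex.norm_real, Real.norm_eq_abs]
    have h2 : ‖(k : ℂ) ^ (-s)‖ ≤ ((K : ℝ) + 1) ^ A := by
      have := Complex.norm_cpow_eq_rpow_re_of_pos hk0 (-s)
      push_cast at this
      rw [this]
      calc (k : ℝ) ^ (-s).re ≤ (k : ℝ) ^ A := by
            apply Real.rpow_le_rpow_of_exponent_le hk1'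
            simp; linarith
        _ ≤ ((K : ℝ) + 1) ^ A := by
            apply Real.rpow_le_rpow hk0.le (by linarith) hA
    have := h k hk1 hk2
    gcongr
  refine (Finset.sum_le_sum h1).trans ?_
  rw [Finset.sum_const, Nat.card_Icc, nsmul_eq_mul, Nat.add_sub_cancel]
  have : 0 ≤ B * ((K : ℝ) + 1) ^ A := by positivity
  nlinarith

lemma cpow_nat (x : ℝ) (hx : 0 < x) (A : ℝ) : x * (3 * x ^ 3 * x ^ A) = 3 * x ^ (4 + A) := by
  rw [Real.rpow_add hx, show (4 : ℝ) = ((4 : ℕ) : ℝ) by norm_num, Real.rpow_natCast]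
  ring

/-- **A zero of zeta keeps the distance large.** -/
theorem lower {ρ : ℂ} (hρ : riemannZeta ρ = 0) (hβ : 0 ≤ ρ.re) {ε : ℝ} (hε : 0 < ε) :
    ∃ c : ℝ, 0 < c ∧ c ≤ 1 ∧ ∀ K : ℕ, 1 ≤ K → ∀ a : ℕ → ℝ,
      ENNReal.ofReal (c * ((K : ℝ) + 1) ^ (-(1 - ρ.re) - ε)) ≤ dist1 K a := by
  have hβ1 : ρ.re < 1 := by
    by_contra h
    push Not at h
    exact riemannZeta_ne_zero_of_one_le_re h hρ
  have hρ1 : ρ ≠ 1 := by
    intro h
    rw [h] at hβ1
    simp at hβ1
  set η : ℝ := min (ε / 2) 1 with hη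
  have hη0 : 0 < η := lt_min (by linarith) one_pos
  have hη1 : η ≤ 1 := min_le_right _ _
  have hηε : η ≤ ε / 2 := min_le_left _ _
  set A : ℝ := max 1 (16 / ε) with hAdef
  have hA1 : 1 ≤ A := le_max_left _ _
  have hAε : 16 / ε ≤ A := le_max_right _ _
  set x : ℝ := (ρ.re - (-A)) / ((1 + η) - (-A)) with hx
  have hden : 0 < (1 + η) - (-A) := by linarith
  have hx0 : 0 < x := div_pos (by linarith) hden
  have hx1 : x < 1 := by rw [hx, div_lt_one hden]; linarith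
  -- the exponents
  have hexpo : (4 + A) * (1 - x) ≤ (1 - ρ.re + ε) * x := by
    have e1 : 1 - x = (1 + η - ρ.re) / ((1 + η) - (-A)) := by
      rw [hx, eq_div_iff hden.ne', sub_mul, div_mul_cancel₀ _ hden.ne']
      ring
    rw [e1, hx, ← mul_div_assoc, ← mul_div_assoc]
    apply div_le_div_of_nonneg_right _ hden.le
    have h16 : 16 ≤ A * ε := by
      rw [div_le_iff₀ hε] at hAε
      exact hAε
    nlinarith [mul_nonneg hβ hε.le, mul_nonneg hβ hβ]
  obtain ⟨CA, hCA, hstrip⟩ := strip_bound A hA1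
  set R : ℝ := A + 2 with hR
  obtain ⟨Cg, hCg, hgauss⟩ := gauss R ρ
  set M0 : ℝ := (R + 1 + 3 * CA) * Cg with hM0
  have hM01 : 1 ≤ M0 := by
    rw [hM0]
    nlinarith
  set C1 : ℝ := (R + 1) ^ 2 * Cg with hC1
  have hC11 : 1 ≤ C1 := by
    rw [hC1]
    have : 1 ≤ (R + 1) ^ 2 := by nlinarith
    nlinarith
  set r : ℝ := ‖ρ - 1‖ with hr
  have hr0 : 0 < r := norm_pos_iff.2 (sub_ne_zero.2 hρ1)
  set c : ℝ := min 1 ((r / (2 * M0 * C1)) ^ (1 / x)) with hc
  have hc0 : 0 < c := lt_min one_pos (by positivity)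
  have hc1 : c ≤ 1 := min_le_left _ _
  have hcx : c ^ x ≤ r / (2 * M0 * C1) := by
    calc c ^ x ≤ ((r / (2 * M0 * C1)) ^ (1 / x)) ^ x :=
          Real.rpow_le_rpow hc0.le (min_le_right _ _) hx0.le
      _ = r / (2 * M0 * C1) := by
          rw [← Real.rpow_mul (by positivity), one_div_mul_cancel hx0.ne', Real.rpow_one]
  refine ⟨c, hc0, hc1, fun K hK a => ?_⟩
  have hK1 : (1 : ℝ) ≤ (K : ℝ) + 1 := by
    have : (0 : ℝ) ≤ K := Nat.cast_nonneg K
    linarith
  have hK0 : (0 : ℝ) < (K : ℝ) + 1 := by linarith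
  have hle1 : c * ((K : ℝ) + 1) ^ (-(1 - ρ.re) - ε) ≤ 1 := by
    have h1 : ((K : ℝ) + 1) ^ (-(1 - ρ.re) - ε) ≤ 1 :=
      Real.rpow_le_one_of_one_le_of_nonpos hK1 (by linarith)
    have h2 : 0 < ((K : ℝ) + 1) ^ (-(1 - ρ.re) - ε) := by positivity
    nlinarith
  by_contra hcon
  push Not at hcon
  have hd1 : dist1 K a ≤ 1 := by
    refine hcon.le.trans ?_
    rw [← ENNReal.ofReal_one]
    exact ENNReal.ofReal_le_ofReal hle1
  have hne : dist1 K a ≠ ⊤ := ne_top_of_le_ne_top ENNReal.one_ne_top hd1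
  set E : ℝ := (dist1 K a).toReal with hE
  have hE0 : 0 ≤ E := ENNReal.toReal_nonneg
  have hElt : E < c * ((K : ℝ) + 1) ^ (-(1 - ρ.re) - ε) := by
    have := ENNReal.toReal_lt_of_lt_ofReal hcon
    exact this
  have hcoef : ∀ n, 1 ≤ n → n ≤ K → |a n| ≤ 3 * ((K : ℝ) + 1) ^ 3 := fun n h1 h2 =>
    coeff_bound K a hd1 h1 h2
  -- the function
  set H : ℂ → ℂ := fun s => ((s - 1) - riemannZeta₁ s * Dp K a s) * Complex.exp ((s - ρ) ^ 2) with hH
  have hHd : Differentiable ℂ H := by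
    have h1 := differentiable_riemannZeta₁
    have h2 := Dp_diff K a
    simp only [hH]
    fun_prop
  have hHρ : ‖H ρ‖ = r := by
    have h1 : riemannZeta₁ ρ = 0 := by rw [z1_eq hρ1, hρ, mul_zero]
    simp only [hH]
    rw [h1, zero_mul, sub_zero, sub_self, zero_pow two_ne_zero, Complex.exp_zero, mul_one]
  have hDb : ∀ s : ℂ, -A ≤ s.re → ‖Dp K a s‖ ≤ 3 * ((K : ℝ) + 1) ^ (4 + A) := by
    intro s hs
    have h1 := Dp_bound K a (by positivity) hcoef (by linarith) hs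
    rwa [cpow_nat _ hK0] at h1
  have hstripb : ∀ s : ℂ, -A ≤ s.re → s.re ≤ 1 + η →
      ‖H s‖ ≤ M0 * ((K : ℝ) + 1) ^ (4 + A) := by
    intro s h1 h2
    have h3 : |s.re| ≤ R := abs_le.2 ⟨by linarith, by linarith⟩
    have h4 := hgauss s h3
    have h5 : ‖s - 1‖ ≤ (R + 1) * Real.exp (5 * |s.im|) := by
      have h6 := Complex.norm_le_abs_re_add_abs_im (s - 1)
      simp only [Complex.sub_re, Complex.one_re, Complex.sub_im, Complex.one_im, sub_zero] at h6
      have h7 : |s.re - 1| ≤ R := abs_le.2 ⟨by linarith, by linarith⟩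
      have h8 := Real.add_one_le_exp (5 * |s.im|)
      have h9 := abs_nonneg s.im
      nlinarith
    have h6 := hstrip s h1 (by linarith)
    have h7 : Real.exp (4 * |s.im|) ≤ Real.exp (5 * |s.im|) :=
      Real.exp_le_exp.2 (by linarith [abs_nonneg s.im])
    have h8 := hDb s h1
    have h9 : 1 ≤ ((K : ℝ) + 1) ^ (4 + A) := Real.one_le_rpow hK1 (by linarith)
    simp only [hH]
    rw [norm_mul]
    have h10 : ‖(s - 1) - riemannZeta₁ s * Dp K a s‖ ≤
        (R + 1 + 3 * CA) * ((K : ℝ) + 1) ^ (4 + A) * Real.exp (5 * |s.im|) := by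
      refine (norm_sub_le _ _).trans ?_
      rw [norm_mul]
      calc ‖s - 1‖ + ‖riemannZeta₁ s‖ * ‖Dp K a s‖
          ≤ (R + 1) * Real.exp (5 * |s.im|) + (CA * Real.exp (5 * |s.im|)) *
            (3 * ((K : ℝ) + 1) ^ (4 + A)) := by
            gcongr
            exact h6.trans (by gcongr)
        _ ≤ (R + 1) * ((K : ℝ) + 1) ^ (4 + A) * Real.exp (5 * |s.im|) +
            (CA * Real.exp (5 * |s.im|)) * (3 * ((K : ℝ) + 1) ^ (4 + A)) := by
            have h11 : (R + 1) * Real.exp (5 * |s.im|) ≤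
                (R + 1) * ((K : ℝ) + 1) ^ (4 + A) * Real.exp (5 * |s.im|) := by
              have h12 : R + 1 ≤ (R + 1) * ((K : ℝ) + 1) ^ (4 + A) := by
                have : 0 < R + 1 := by linarith
                nlinarith
              gcongr
            linarith
        _ = _ := by ring
    calc ‖(s - 1) - riemannZeta₁ s * Dp K a s‖ * ‖Complex.exp ((s - ρ) ^ 2)‖
        ≤ ((R + 1 + 3 * CA) * ((K : ℝ) + 1) ^ (4 + A) * Real.exp (5 * |s.im|)) *
          ‖Complex.exp ((s - ρ) ^ 2)‖ := by gcongr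
      _ = (R + 1 + 3 * CA) * ((K : ℝ) + 1) ^ (4 + A) *
          (Real.exp (5 * |s.im|) * ‖Complex.exp ((s - ρ) ^ 2)‖) := by ring
      _ ≤ (R + 1 + 3 * CA) * ((K : ℝ) + 1) ^ (4 + A) * Cg := by gcongr
      _ = M0 * ((K : ℝ) + 1) ^ (4 + A) := by rw [hM0]; ring
  have hright : ∀ s : ℂ, s.re = 1 + η → ‖H s‖ ≤ C1 * E := by
    intro s hs
    have hne1 : s ≠ 1 := by
      intro h
      rw [h] at hs
      simp at hs
      linarith
    have h1 := mellin_bound K a hne (s := s) (by rw [hs]; linarith)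
    have h3 : |s.re| ≤ R := abs_le.2 ⟨by linarith, by linarith⟩
    have h4 := hgauss s h3
    have e : (s - 1) - riemannZeta₁ s * Dp K a s = (s - 1) * (1 - riemannZeta s * Dp K a s) := by
      rw [z1_eq hne1]; ring
    simp only [hH]
    rw [e, norm_mul, norm_mul]
    have h6 := Complex.norm_le_abs_re_add_abs_im (s - 1)
    simp only [Complex.sub_re, Complex.one_re, Complex.sub_im, Complex.one_im, sub_zero] at h6
    have h7 : |s.re - 1| ≤ R := abs_le.2 ⟨by linarith, by linarith⟩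
    have h8 := Complex.norm_le_abs_re_add_abs_im s
    have h9 := Real.add_one_le_exp |s.im|
    have h10 := abs_nonneg s.im
    have h11 : ‖s - 1‖ ≤ (R + 1) * Real.exp |s.im| := by nlinarith
    have h12 : ‖s‖ ≤ (R + 1) * Real.exp |s.im| := by nlinarith
    calc ‖s - 1‖ * ‖1 - riemannZeta s * Dp K a s‖ * ‖Complex.exp ((s - ρ) ^ 2)‖
        ≤ ((R + 1) * Real.exp |s.im|) * (((R + 1) * Real.exp |s.im|) * E) *
          ‖Complex.exp ((s - ρ) ^ 2)‖ := by
          gcongr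
          exact h1.trans (by gcongr)
      _ = (R + 1) ^ 2 * E * (Real.exp (2 * |s.im|) * ‖Complex.exp ((s - ρ) ^ 2)‖) := by
          rw [show 2 * |s.im| = |s.im| + |s.im| by ring, Real.exp_add]; ring
      _ ≤ (R + 1) ^ 2 * E * Cg := by
          have h13 : Real.exp (2 * |s.im|) * ‖Complex.exp ((s - ρ) ^ 2)‖ ≤ Cg := by
            refine le_trans ?_ h4
            gcongr
            norm_num
          gcongr
      _ = C1 * E := by rw [hC1]; ring
  have h3l := Complex.HadamardThreeLines.norm_le_interp_of_mem_verticalClosedStrip' (f := H)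
    (z := ρ) (a := M0 * ((K : ℝ) + 1) ^ (4 + A)) (b := C1 * E) (l := -A) (u := 1 + η) (by linarith)
    (by
      show ρ.re ∈ Icc (-A) (1 + η)
      exact ⟨by linarith, by linarith⟩)
    hHd.diffContOnCl
    (by
      refine ⟨M0 * ((K : ℝ) + 1) ^ (4 + A), ?_⟩
      rintro _ ⟨s, hs, rfl⟩
      exact hstripb s hs.1 hs.2)
    (fun s hs => by
      have h1 : s.re = -A := hs
      exact hstripb s h1.ge (by linarith))
    (fun s hs => hright s hs)
  rw [hHρ, ← hx] at h3l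
  -- the contradiction
  have hfin : (M0 * ((K : ℝ) + 1) ^ (4 + A)) ^ (1 - x) * (C1 * E) ^ x ≤ r / 2 := by
    have h1 : (M0 * ((K : ℝ) + 1) ^ (4 + A)) ^ (1 - x) ≤
        M0 * ((K : ℝ) + 1) ^ ((4 + A) * (1 - x)) := by
      rw [Real.mul_rpow (by linarith) (by positivity), ← Real.rpow_mul hK0.le]
      have : M0 ^ (1 - x) ≤ M0 := by
        calc M0 ^ (1 - x) ≤ M0 ^ (1 : ℝ) := Real.rpow_le_rpow_of_exponent_le hM01 (by linarith)
          _ = M0 := Real.rpow_one _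
      gcongr
    have h2 : (C1 * E) ^ x ≤ C1 * (c ^ x * ((K : ℝ) + 1) ^ (-((1 - ρ.re + ε) * x))) := by
      rw [Real.mul_rpow (by linarith) hE0]
      have h3 : C1 ^ x ≤ C1 := by
        calc C1 ^ x ≤ C1 ^ (1 : ℝ) := Real.rpow_le_rpow_of_exponent_le hC11 hx1.le
          _ = C1 := Real.rpow_one _
      have h4 : E ^ x ≤ (c * ((K : ℝ) + 1) ^ (-(1 - ρ.re) - ε)) ^ x :=
        Real.rpow_le_rpow hE0 hElt.le hx0.le
      have h5 : (c * ((K : ℝ) + 1) ^ (-(1 - ρ.re) - ε)) ^ x =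
          c ^ x * ((K : ℝ) + 1) ^ (-((1 - ρ.re + ε) * x)) := by
        rw [Real.mul_rpow hc0.le (by positivity), ← Real.rpow_mul hK0.le]
        congr 2
        ring
      rw [h5] at h4
      have hE' : 0 ≤ E ^ x := Real.rpow_nonneg hE0 _
      gcongr
    have hC1' : 0 < C1 := by linarith
    have hM0' : 0 < M0 := by linarith
    calc (M0 * ((K : ℝ) + 1) ^ (4 + A)) ^ (1 - x) * (C1 * E) ^ x
        ≤ (M0 * ((K : ℝ) + 1) ^ ((4 + A) * (1 - x))) *
          (C1 * (c ^ x * ((K : ℝ) + 1) ^ (-((1 - ρ.re + ε) * x)))) := by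
          have : 0 ≤ (C1 * E) ^ x := by positivity
          gcongr
      _ = M0 * C1 * c ^ x * (((K : ℝ) + 1) ^ ((4 + A) * (1 - x)) *
            ((K : ℝ) + 1) ^ (-((1 - ρ.re + ε) * x))) := by ring
      _ ≤ M0 * C1 * c ^ x * 1 := by
          rw [← Real.rpow_add hK0]
          have : ((K : ℝ) + 1) ^ ((4 + A) * (1 - x) + -((1 - ρ.re + ε) * x)) ≤ 1 :=
            Real.rpow_le_one_of_one_le_of_nonpos hK1 (by linarith)
          gcongr
      _ ≤ M0 * C1 * (r / (2 * M0 * C1)) * 1 := by gcongr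
      _ = r / 2 := by field_simp
  linarith

end Pool.Agent.L5helper77.Cheb
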