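import Pool.Agent.L5helper77.Cheb1

/-! # The Moebius coefficients -/

set_option autoImplicit false
set_option maxHeartbeats 4000000

open Filter Topology Set MeasureTheory

namespace Pool.Agent.L5helper77.Cheb

/-- the Moebius function -/
noncomputable def mu (n : ℕ) : ℝ := (ArithmeticFunction.moebius n : ℝ)

lemma mu_abs (n : ℕ) : |mu n| ≤ 1 := by
  unfold mu
  have := ArithmeticFunction.abs_moebius_le_one (n := n)
  exact_mod_cast this

lemma sum_mu_div {n : ℕ} (hn : 1 ≤ n) : ∑ d ∈ n.divisors, mu d = if n = 1 then 1 else 0 := by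
  have h := congrArg (fun f : ArithmeticFunction ℤ => f n) ArithmeticFunction.moebius_mul_coe_zeta
  simp only [ArithmeticFunction.coe_mul_zeta_apply, ArithmeticFunction.one_apply] at h
  unfold mu
  have h2 : ((∑ d ∈ n.divisors, ArithmeticFunction.moebius d : ℤ) : ℝ) = ((if n = 1 then 1 else 0 : ℤ) : ℝ) := by
    rw [h]
  push_cast at h2
  exact h2

/-- `∑_{k ≤ K} μ(k) ⌊n / k⌋ = 1` for `1 ≤ n ≤ K` -/
lemma Fl_mu_small {K n : ℕ} (hn : 1 ≤ n) (hnK : n ≤ K) : Fl K mu n = 1 := by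
  induction n with
  | zero => omega
  | succ m ih =>
    have h1 := diff_eq K mu (n := m + 1) (by omega)
    have h2 : ∑ d ∈ (m + 1).divisors, (if d ≤ K then mu d else 0) = ∑ d ∈ (m + 1).divisors, mu d := by
      refine Finset.sum_congr rfl fun d hd => ?_
      have := Nat.divisor_le hd
      rw [if_pos (by omega)]
    rw [h2, sum_mu_div (by omega), Nat.add_sub_cancel] at h1
    rcases Nat.eq_zero_or_pos m with h3 | h3
    · subst h3
      simp only [zero_add, if_true] at h1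
      have h0 : Fl K mu ((0 : ℕ) : ℝ) = 0 := by
        rw [Fl_nat]; simp
      rw [h0] at h1
      simp only [zero_add]
      linarith
    · have h4 := ih h3 (by omega)
      rw [if_neg (by omega)] at h1
      linarith

lemma div_card {n k : ℕ} (hk : 1 ≤ k) : ((n / k : ℕ) : ℝ) = ∑ j ∈ Finset.Icc 1 n, if j * k ≤ n then (1 : ℝ) else 0 := by
  rw [← Finset.sum_filter, Finset.sum_const, nsmul_eq_mul, mul_one]
  congr 1
  have : (Finset.Icc 1 n).filter (fun j => j * k ≤ n) = Finset.Icc 1 (n / k) := by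
    ext j
    simp only [Finset.mem_filter, Finset.mem_Icc]
    rw [Nat.le_div_iff_mul_le hk]
    constructor
    · rintro ⟨⟨h1, _⟩, h3⟩
      exact ⟨h1, h3⟩
    · rintro ⟨h1, h3⟩
      refine ⟨⟨h1, ?_⟩, h3⟩
      nlinarith
  rw [this, Nat.card_Icc, Nat.add_sub_cancel]

/-- the sum over `K < k ≤ n` -/
lemma tail_bound {C κ : ℝ} (hC : 0 ≤ C) (hκ0 : 0 < κ) (hκ1 : κ < 1)
    (hM : ∀ n : ℕ, 1 ≤ n → |∑ k ∈ Finset.Icc 1 n, mu k| ≤ C * (n : ℝ) ^ κ) {K n : ℕ} (hK : 1 ≤ K)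
    (hn : 1 ≤ n) :
    |∑ k ∈ Finset.Ioc K n, mu k * ((n / k : ℕ) : ℝ)| ≤
      2 * C * n * (K : ℝ) ^ (κ - 1) * (1 + Real.log n) := by
  have hK0 : (0 : ℝ) < K := by exact_mod_cast hK
  have e1 : ∑ k ∈ Finset.Ioc K n, mu k * ((n / k : ℕ) : ℝ) =
      ∑ j ∈ Finset.Icc 1 n, ∑ k ∈ Finset.Ioc K n, if j * k ≤ n then mu k else 0 := by
    rw [Finset.sum_comm]
    refine Finset.sum_congr rfl fun k hk => ?_
    rw [div_card (by have := (Finset.mem_Ioc.1 hk).1; omega), Finset.mul_sum]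
    refine Finset.sum_congr rfl fun j _ => ?_
    split_ifs <;> simp
  rw [e1]
  refine (Finset.abs_sum_le_sum_abs _ _).trans ?_
  have h1 : ∀ j ∈ Finset.Icc 1 n, |∑ k ∈ Finset.Ioc K n, if j * k ≤ n then mu k else 0| ≤
      2 * C * n * (K : ℝ) ^ (κ - 1) * ((j : ℝ))⁻¹ := by
    intro j hj
    obtain ⟨hj1, hj2⟩ := Finset.mem_Icc.1 hj
    have hj0 : (0 : ℝ) < j := by exact_mod_cast hj1
    have e2 : (Finset.Ioc K n).filter (fun k => j * k ≤ n) = Finset.Ioc K (n / j) := by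
      ext k
      simp only [Finset.mem_filter, Finset.mem_Ioc]
      rw [Nat.le_div_iff_mul_le hj1, mul_comm k j]
      constructor
      · rintro ⟨⟨h1, _⟩, h3⟩
        exact ⟨h1, h3⟩
      · rintro ⟨h1, h3⟩
        refine ⟨⟨h1, ?_⟩, h3⟩
        nlinarith
    rw [← Finset.sum_filter, e2]
    rcases le_or_gt (n / j) K with h2 | h2
    · rw [Finset.Ioc_eq_empty_of_le h2, Finset.sum_empty, abs_zero]
      positivity
    · have e3 : ∑ k ∈ Finset.Ioc K (n / j), mu k =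
          ∑ k ∈ Finset.Icc 1 (n / j), mu k - ∑ k ∈ Finset.Icc 1 K, mu k := by
        rw [eq_sub_iff_add_eq, add_comm]
        have hd : Disjoint (Finset.Icc 1 K) (Finset.Ioc K (n / j)) := by
          rw [Finset.disjoint_left]
          intro k hk1 hk2
          have := (Finset.mem_Icc.1 hk1).2
          have := (Finset.mem_Ioc.1 hk2).1
          omega
        rw [← Finset.sum_union hd]
        refine Finset.sum_congr ?_ fun _ _ => rfl
        ext k
        simp only [Finset.mem_union, Finset.mem_Icc, Finset.mem_Ioc]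
        omega
      rw [e3]
      have h3 := hM (n / j) (by omega)
      have h4 := hM K hK
      have hx : (K : ℝ) ≤ ((n / j : ℕ) : ℝ) := by exact_mod_cast h2.le
      have hx0 : (0 : ℝ) < ((n / j : ℕ) : ℝ) := lt_of_lt_of_le hK0 hx
      have hxn : ((n / j : ℕ) : ℝ) ≤ n * (j : ℝ)⁻¹ := by
        have := Nat.cast_div_le (α := ℝ) (m := n) (n := j)
        rwa [div_eq_mul_inv] at this
      have h5 : ((n / j : ℕ) : ℝ) ^ κ ≤ n * (j : ℝ)⁻¹ * (K : ℝ) ^ (κ - 1) := by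
        have e : ((n / j : ℕ) : ℝ) ^ κ = ((n / j : ℕ) : ℝ) * ((n / j : ℕ) : ℝ) ^ (κ - 1) := by
          rw [Real.rpow_sub_one hx0.ne']; field_simp
        rw [e]
        have h6 : ((n / j : ℕ) : ℝ) ^ (κ - 1) ≤ (K : ℝ) ^ (κ - 1) :=
          Real.rpow_le_rpow_of_nonpos hK0 hx (by linarith)
        have h7 : 0 ≤ ((n / j : ℕ) : ℝ) ^ (κ - 1) := by positivity
        exact mul_le_mul hxn h6 h7 (hx0.le.trans hxn)
      have h6 : (K : ℝ) ^ κ ≤ n * (j : ℝ)⁻¹ * (K : ℝ) ^ (κ - 1) := by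
        have e : (K : ℝ) ^ κ = (K : ℝ) * (K : ℝ) ^ (κ - 1) := by
          rw [Real.rpow_sub_one hK0.ne']; field_simp
        rw [e]
        have h7 : 0 ≤ (K : ℝ) ^ (κ - 1) := by positivity
        exact mul_le_mul_of_nonneg_right (hx.trans hxn) h7
      calc |∑ k ∈ Finset.Icc 1 (n / j), mu k - ∑ k ∈ Finset.Icc 1 K, mu k|
          ≤ |∑ k ∈ Finset.Icc 1 (n / j), mu k| + |∑ k ∈ Finset.Icc 1 K, mu k| := abs_sub _ _
        _ ≤ C * (n * (j : ℝ)⁻¹ * (K : ℝ) ^ (κ - 1)) + C * (n * (j : ℝ)⁻¹ * (K : ℝ) ^ (κ - 1)) := by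
            refine add_le_add (h3.trans ?_) (h4.trans ?_)
            · exact mul_le_mul_of_nonneg_left h5 hC
            · exact mul_le_mul_of_nonneg_left h6 hC
        _ = _ := by ring
  refine (Finset.sum_le_sum h1).trans ?_
  rw [← Finset.mul_sum]
  have h2 : ∑ j ∈ Finset.Icc 1 n, ((j : ℝ))⁻¹ ≤ 1 + Real.log n := by
    have h3 := harmonic_le_one_add_log n
    rw [harmonic_eq_sum_Icc] at h3
    push_cast at h3
    exact h3
  have h3 : 0 ≤ 2 * C * n * (K : ℝ) ^ (κ - 1) := by positivity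
  exact mul_le_mul_of_nonneg_left h2 h3

/-- `∑_{k ≤ K} μ(k) ⌊n / k⌋` for all `n` -/
lemma Fl_mu_bound {C κ : ℝ} (hC : 0 ≤ C) (hκ0 : 0 < κ) (hκ1 : κ < 1)
    (hM : ∀ n : ℕ, 1 ≤ n → |∑ k ∈ Finset.Icc 1 n, mu k| ≤ C * (n : ℝ) ^ κ) {K n : ℕ} (hK : 1 ≤ K)
    (hn : 1 ≤ n) :
    |1 - Fl K mu n| ≤ 2 * C * n * (K : ℝ) ^ (κ - 1) * (1 + Real.log n) := by
  rcases le_total n K with h | h
  · rw [Fl_mu_small hn h, sub_self, abs_zero]
    have := Real.log_nonneg (show (1 : ℝ) ≤ n by exact_mod_cast hn)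
    positivity
  · have h1 := Fl_mu_small (K := n) hn le_rfl
    have e : Fl n mu n = Fl K mu n + ∑ k ∈ Finset.Ioc K n, mu k * ((n / k : ℕ) : ℝ) := by
      rw [Fl_nat, Fl_nat]
      have hd : Disjoint (Finset.Icc 1 K) (Finset.Ioc K n) := by
        rw [Finset.disjoint_left]
        intro k hk1 hk2
        have := (Finset.mem_Icc.1 hk1).2
        have := (Finset.mem_Ioc.1 hk2).1
        omega
      rw [← Finset.sum_union hd]
      refine Finset.sum_congr ?_ fun _ _ => rfl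
      ext k
      simp only [Finset.mem_union, Finset.mem_Icc, Finset.mem_Ioc]
      omega
    have e2 : 1 - Fl K mu n = ∑ k ∈ Finset.Ioc K n, mu k * ((n / k : ℕ) : ℝ) := by
      rw [← h1, e]; ring
    rw [e2]
    exact tail_bound hC hκ0 hκ1 hM hK hn

/-- for slope zero the function is bounded -/
lemma Fl_slope (K : ℕ) (a : ℕ → ℝ) {y : ℝ} (hy : 0 ≤ y) :
    |Fl K a y - y * ∑ k ∈ Finset.Icc 1 K, a k / k| ≤ ∑ k ∈ Finset.Icc 1 K, |a k| := by
  unfold Fl
  rw [Finset.mul_sum, ← Finset.sum_sub_distrib]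
  refine (Finset.abs_sum_le_sum_abs _ _).trans (Finset.sum_le_sum fun k hk => ?_)
  have hk1 : (1 : ℝ) ≤ k := by exact_mod_cast (Finset.mem_Icc.1 hk).1
  have e : a k * (⌊y / k⌋₊ : ℝ) - y * (a k / k) = a k * ((⌊y / k⌋₊ : ℝ) - y / k) := by ring
  rw [e, abs_mul]
  have h1 : |(⌊y / k⌋₊ : ℝ) - y / k| ≤ 1 := by
    have h2 := Nat.floor_le (show 0 ≤ y / k by positivity)
    have h3 := Nat.lt_floor_add_one (y / k)
    rw [abs_le]
    constructor <;> linarith
  calc |a k| * |(⌊y / k⌋₊ : ℝ) - y / k| ≤ |a k| * 1 := by gcongr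
    _ = _ := mul_one _

/-- the sum of `μ(k) / k`, a partial sum -/
noncomputable def mm (K : ℕ) : ℝ := ∑ k ∈ Finset.Icc 1 K, mu k / k

lemma mm_bound {C κ : ℝ} (hC : 0 ≤ C) (hκ0 : 0 < κ) (hκ1 : κ < 1)
    (hM : ∀ n : ℕ, 1 ≤ n → |∑ k ∈ Finset.Icc 1 n, mu k| ≤ C * (n : ℝ) ^ κ) {K : ℕ} (hK : 1 ≤ K) :
    |mm K| ≤ (2 + 4 * C) * (K : ℝ) ^ (κ - 1) * (1 + Real.log K) := by
  have hK1 : (1 : ℝ) ≤ K := by exact_mod_cast hK
  have hK0 : (0 : ℝ) < K := by linarith
  have hlog := Real.log_nonneg hK1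
  have h1 := Fl_mu_bound hC hκ0 hκ1 hM hK (n := K ^ 2) (Nat.one_le_pow _ _ hK)
  have h2 := Fl_slope K mu (y := ((K ^ 2 : ℕ) : ℝ)) (Nat.cast_nonneg _)
  have h3 : ∑ k ∈ Finset.Icc 1 K, |mu k| ≤ K := by
    refine (Finset.sum_le_sum fun k _ => mu_abs k).trans ?_
    simp
  have e : ∑ k ∈ Finset.Icc 1 K, mu k / k = mm K := rfl
  rw [e] at h2
  push_cast at h1 h2
  rw [Real.log_pow] at h1
  push_cast at h1
  have h4 : |(K : ℝ) ^ 2 * mm K| ≤ 1 + K + 2 * C * K ^ 2 * (K : ℝ) ^ (κ - 1) * (1 + 2 * Real.log K) := by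
    have e5 : (K : ℝ) ^ 2 * mm K = -(Fl K mu ((K : ℝ) ^ 2) - K ^ 2 * mm K) -
      (1 - Fl K mu ((K : ℝ) ^ 2)) + 1 := by ring
    rw [e5]
    refine (abs_add_le _ _).trans ?_
    refine (add_le_add (abs_sub _ _) le_rfl).trans ?_
    rw [abs_neg, abs_one]
    linarith
  rw [abs_mul, abs_of_nonneg (by positivity : (0 : ℝ) ≤ (K : ℝ) ^ 2)] at h4
  have hpow : (1 : ℝ) ≤ K * (K : ℝ) ^ (κ - 1) := by
    have e6 : (K : ℝ) * (K : ℝ) ^ (κ - 1) = (K : ℝ) ^ κ := by
      rw [Real.rpow_sub_one hK0.ne']; field_simp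
    rw [e6]
    exact Real.one_le_rpow hK1 hκ0.le
  set x := (K : ℝ) ^ (κ - 1) with hx
  have hx0 : 0 < x := by positivity
  have h5 : (1 : ℝ) + K ≤ 2 * K ^ 2 * x := by
    have : (1 : ℝ) + K ≤ 2 * K := by linarith
    calc (1 : ℝ) + K ≤ 2 * K * 1 := by linarith
      _ ≤ 2 * K * (K * x) := by gcongr
      _ = _ := by ring
  have h6 : (K : ℝ) ^ 2 * |mm K| ≤ K ^ 2 * ((2 + 4 * C) * x * (1 + Real.log K)) := by
    refine h4.trans ?_
    have h7 : (2 : ℝ) * K ^ 2 * x ≤ 2 * K ^ 2 * x * (1 + Real.log K) := by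
      have : 0 ≤ 2 * (K : ℝ) ^ 2 * x := by positivity
      nlinarith
    have h8 : 2 * C * K ^ 2 * x * (1 + 2 * Real.log K) ≤ 4 * C * K ^ 2 * x * (1 + Real.log K) := by
      have : 0 ≤ C * (K : ℝ) ^ 2 * x := by positivity
      nlinarith
    linarith
  exact le_of_mul_le_mul_left h6 (by positivity)

/-- the coefficients: the Moebius function, corrected at `K` -/
noncomputable def aa (K k : ℕ) : ℝ := mu k - if k = K then K * mm K else 0

lemma aa_slope {K : ℕ} (hK : 1 ≤ K) : ∑ k ∈ Finset.Icc 1 K, aa K k / k = 0 := by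
  have hK0 : (K : ℝ) ≠ 0 := by
    have : (0 : ℝ) < K := by exact_mod_cast hK
    exact this.ne'
  have e : ∀ k ∈ Finset.Icc 1 K, aa K k / k = mu k / k - if k = K then mm K else 0 := by
    intro k _
    unfold aa
    split_ifs with h
    · rw [h]; field_simp
    · simp
  rw [Finset.sum_congr rfl e, Finset.sum_sub_distrib, Finset.sum_ite_eq' (Finset.Icc 1 K) K,
    if_pos (Finset.mem_Icc.2 ⟨hK, le_rfl⟩)]
  unfold mm
  exact sub_self _

lemma mm_triv (K : ℕ) : |mm K| ≤ K := by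
  unfold mm
  refine (Finset.abs_sum_le_sum_abs _ _).trans ?_
  have h : ∀ k ∈ Finset.Icc 1 K, |mu k / k| ≤ 1 := by
    intro k hk
    have hk1 : (1 : ℝ) ≤ k := by exact_mod_cast (Finset.mem_Icc.1 hk).1
    rw [abs_div, abs_of_nonneg (by linarith : (0 : ℝ) ≤ k), div_le_one (by linarith)]
    exact (mu_abs k).trans hk1
  refine (Finset.sum_le_sum h).trans ?_
  simp

lemma aa_abs {K : ℕ} (hK : 1 ≤ K) : ∑ k ∈ Finset.Icc 1 K, |aa K k| ≤ 2 * (K : ℝ) ^ 2 := by
  have hK1 : (1 : ℝ) ≤ K := by exact_mod_cast hK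
  have h : ∀ k ∈ Finset.Icc 1 K, |aa K k| ≤ 1 + if k = K then (K : ℝ) * K else 0 := by
    intro k _
    unfold aa
    refine (abs_sub _ _).trans (add_le_add (mu_abs k) ?_)
    split_ifs
    · rw [abs_mul, abs_of_nonneg (by linarith : (0 : ℝ) ≤ K)]
      exact mul_le_mul_of_nonneg_left (mm_triv K) (by linarith)
    · simp
  refine (Finset.sum_le_sum h).trans ?_
  rw [Finset.sum_add_distrib, Finset.sum_ite_eq' (Finset.Icc 1 K) K,
    if_pos (Finset.mem_Icc.2 ⟨hK, le_rfl⟩)]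
  simp only [Finset.sum_const, Nat.card_Icc, Nat.add_sub_cancel, nsmul_eq_mul, mul_one]
  nlinarith

lemma aa_Fl {K : ℕ} (hK : 1 ≤ K) (n : ℕ) : Fl K (aa K) n = Fl K mu n - K * mm K * ((n / K : ℕ) : ℝ) := by
  rw [Fl_nat, Fl_nat]
  have e : ∀ k ∈ Finset.Icc 1 K, aa K k * ((n / k : ℕ) : ℝ) =
      mu k * ((n / k : ℕ) : ℝ) - if k = K then K * mm K * ((n / K : ℕ) : ℝ) else 0 := by
    intro k _
    unfold aa
    split_ifs with h
    · rw [h]; ring
    · simp
  rw [Finset.sum_congr rfl e, Finset.sum_sub_distrib, Finset.sum_ite_eq' (Finset.Icc 1 K) K,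
    if_pos (Finset.mem_Icc.2 ⟨hK, le_rfl⟩)]

lemma aa_small {K n : ℕ} (hn : 1 ≤ n) (hnK : n < K) : Fl K (aa K) n = 1 := by
  rw [aa_Fl (by omega), Fl_mu_small hn hnK.le, Nat.div_eq_of_lt hnK]
  simp

/-- **the upper bound, pointwise** -/
theorem aa_bound {C κ τ : ℝ} (hC : 0 ≤ C) (hκ0 : 0 < κ) (hκ1 : κ < 1)
    (hM : ∀ n : ℕ, 1 ≤ n → |∑ k ∈ Finset.Icc 1 n, mu k| ≤ C * (n : ℝ) ^ κ) (hτ : 0 < τ)
    (hτ1 : τ ≤ 1 / 4) {K : ℕ} (hK : 1 ≤ K) {y : ℝ} (hy : 1 ≤ y) :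
    |1 - Fl K (aa K) y| ≤
      (12 * C + 5) * (1 + 1 / τ) * (K : ℝ) ^ (κ - 1 + 5 * τ) * y ^ (1 - τ) := by
  have hK1 : (1 : ℝ) ≤ K := by exact_mod_cast hK
  have hK0 : (0 : ℝ) < K := by linarith
  have hlog := Real.log_nonneg hK1
  set n := ⌊y⌋₊ with hn
  have hn1 : 1 ≤ n := by
    rw [hn, Nat.one_le_floor_iff]
    exact hy
  have hny : (n : ℝ) ≤ y := Nat.floor_le (by linarith)
  have hn1' : (1 : ℝ) ≤ n := by exact_mod_cast hn1
  have hn0 : (0 : ℝ) < n := by linarith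
  rw [Fl_floor, ← hn]
  have hmono : (n : ℝ) ^ (1 - τ) ≤ y ^ (1 - τ) := Real.rpow_le_rpow hn0.le hny (by linarith)
  set x := (K : ℝ) ^ (κ - 1) with hx
  have hx0 : 0 < x := by positivity
  set L := 1 + Real.log K with hL
  have hL1 : 1 ≤ L := by linarith
  have hpow : (1 : ℝ) ≤ K * x := by
    have e6 : (K : ℝ) * (K : ℝ) ^ (κ - 1) = (K : ℝ) ^ κ := by
      rw [Real.rpow_sub_one hK0.ne']; field_simp
    rw [hx, e6]
    exact Real.one_le_rpow hK1 hκ0.le
  have hK4 : 1 ≤ (K : ℝ) ^ (4 * τ) := Real.one_le_rpow hK1 (by linarith)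
  have hLτ : L ≤ (1 + 1 / τ) * (K : ℝ) ^ τ := by
    have h1 := Real.log_le_rpow_div hK0.le hτ
    have h2 : 1 ≤ (K : ℝ) ^ τ := Real.one_le_rpow hK1 hτ.le
    have e : (1 + 1 / τ) * (K : ℝ) ^ τ = (K : ℝ) ^ τ + (K : ℝ) ^ τ / τ := by ring
    rw [e]
    linarith
  have hmain : |1 - Fl K (aa K) n| ≤ (12 * C + 5) * x * L * (K : ℝ) ^ (4 * τ) * (n : ℝ) ^ (1 - τ) := by
    rcases lt_or_ge n K with h | h
    · rw [aa_small hn1 h, sub_self, abs_zero]
      positivity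
    · rcases le_or_gt (n : ℝ) ((K : ℝ) ^ 4) with h4 | h4
      · have h1 := Fl_mu_bound hC hκ0 hκ1 hM hK hn1
        have h2 := mm_bound hC hκ0 hκ1 hM hK
        rw [← hx] at h1 h2
        have h3 : 1 + Real.log n ≤ 4 * L := by
          have h5 : Real.log n ≤ Real.log ((K : ℝ) ^ 4) := Real.log_le_log hn0 h4
          rw [Real.log_pow] at h5
          push_cast at h5
          linarith
        have h6 : (K : ℝ) * ((n / K : ℕ) : ℝ) ≤ n := by
          have := Nat.mul_div_le n K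
          exact_mod_cast this
        rw [aa_Fl hK]
        have e : 1 - (Fl K mu n - K * mm K * ((n / K : ℕ) : ℝ)) =
            (1 - Fl K mu n) + mm K * (K * ((n / K : ℕ) : ℝ)) := by ring
        rw [e]
        refine (abs_add_le _ _).trans ?_
        have h7 : |mm K * (K * ((n / K : ℕ) : ℝ))| ≤ (2 + 4 * C) * x * L * n := by
          rw [abs_mul, abs_of_nonneg (by positivity : 0 ≤ (K : ℝ) * ((n / K : ℕ) : ℝ))]
          calc |mm K| * (K * ((n / K : ℕ) : ℝ)) ≤ ((2 + 4 * C) * x * L) * n := by gcongr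
            _ = _ := rfl
        have h8 : |1 - Fl K mu n| ≤ 8 * C * x * L * n := by
          refine h1.trans ?_
          have : 0 ≤ 2 * C * n * x := by positivity
          calc 2 * C * n * x * (1 + Real.log n) ≤ 2 * C * n * x * (4 * L) := by gcongr
            _ = _ := by ring
        have h9 : (n : ℝ) ≤ (K : ℝ) ^ (4 * τ) * (n : ℝ) ^ (1 - τ) := by
          have e1 : (n : ℝ) = (n : ℝ) ^ τ * (n : ℝ) ^ (1 - τ) := by
            rw [← Real.rpow_add hn0]
            simp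
          have e2 : (n : ℝ) ^ τ ≤ (K : ℝ) ^ (4 * τ) := by
            calc (n : ℝ) ^ τ ≤ ((K : ℝ) ^ 4) ^ τ := Real.rpow_le_rpow hn0.le h4 hτ.le
              _ = (K : ℝ) ^ (4 * τ) := by
                  rw [← Real.rpow_natCast, ← Real.rpow_mul hK0.le]
                  norm_num
          calc (n : ℝ) = (n : ℝ) ^ τ * (n : ℝ) ^ (1 - τ) := e1
            _ ≤ _ := by gcongr
        have h10 : 0 ≤ (12 * C + 5) * x * L := by positivity
        calc |1 - Fl K mu n| + |mm K * (K * ((n / K : ℕ) : ℝ))|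
            ≤ 8 * C * x * L * n + (2 + 4 * C) * x * L * n := add_le_add h8 h7
          _ = (12 * C + 2) * x * L * n := by ring
          _ ≤ (12 * C + 5) * x * L * n := by gcongr; norm_num
          _ ≤ (12 * C + 5) * x * L * ((K : ℝ) ^ (4 * τ) * (n : ℝ) ^ (1 - τ)) := by gcongr
          _ = _ := by ring
      · have h1 := Fl_slope K (aa K) (y := (n : ℝ)) hn0.le
        rw [aa_slope hK, mul_zero, sub_zero] at h1
        have h2 := h1.trans (aa_abs hK)
        have h3 : |1 - Fl K (aa K) n| ≤ 3 * (K : ℝ) ^ 2 := by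
          refine (abs_sub _ _).trans ?_
          rw [abs_one]
          nlinarith
        have h5 : (K : ℝ) ^ 3 ≤ (n : ℝ) ^ (1 - τ) := by
          calc (K : ℝ) ^ 3 = ((K : ℝ) ^ 4) ^ (3 / 4 : ℝ) := by
                rw [← Real.rpow_natCast, ← Real.rpow_natCast, ← Real.rpow_mul hK0.le]
                norm_num
            _ ≤ (n : ℝ) ^ (3 / 4 : ℝ) := Real.rpow_le_rpow (by positivity) h4.le (by norm_num)
            _ ≤ (n : ℝ) ^ (1 - τ) := Real.rpow_le_rpow_of_exponent_le hn1' (by linarith)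
        have h6 : 3 * (K : ℝ) ^ 2 ≤ 3 * (x * (n : ℝ) ^ (1 - τ)) := by
          have : (K : ℝ) ^ 2 ≤ x * (n : ℝ) ^ (1 - τ) := by
            calc (K : ℝ) ^ 2 ≤ (K : ℝ) ^ 2 * (K * x) := by
                  have : (0 : ℝ) ≤ (K : ℝ) ^ 2 := by positivity
                  nlinarith
              _ = x * (K : ℝ) ^ 3 := by ring
              _ ≤ x * (n : ℝ) ^ (1 - τ) := by gcongr
          linarith
        refine h3.trans (h6.trans ?_)
        have h7 : 0 ≤ x * (n : ℝ) ^ (1 - τ) := by positivity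
        have h8 : (3 : ℝ) ≤ (12 * C + 5) * L * (K : ℝ) ^ (4 * τ) := by
          have h9 : (5 : ℝ) ≤ (12 * C + 5) * L := by nlinarith
          nlinarith
        calc 3 * (x * (n : ℝ) ^ (1 - τ)) ≤ ((12 * C + 5) * L * (K : ℝ) ^ (4 * τ)) * (x * (n : ℝ) ^ (1 - τ)) := by
              gcongr
          _ = _ := by ring
  refine hmain.trans ?_
  have e7 : (K : ℝ) ^ (κ - 1 + 5 * τ) = x * (K : ℝ) ^ τ * (K : ℝ) ^ (4 * τ) := by
    rw [hx, ← Real.rpow_add hK0, ← Real.rpow_add hK0]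
    congr 1
    ring
  rw [e7]
  calc (12 * C + 5) * x * L * (K : ℝ) ^ (4 * τ) * (n : ℝ) ^ (1 - τ)
      ≤ (12 * C + 5) * x * ((1 + 1 / τ) * (K : ℝ) ^ τ) * (K : ℝ) ^ (4 * τ) * y ^ (1 - τ) := by gcongr
    _ = _ := by ring

/-- a pointwise bound gives a bound for the distance -/
lemma dist_le {K : ℕ} {a : ℕ → ℝ} {B τ : ℝ} (hB : 0 ≤ B) (hτ : 0 < τ)
    (h : ∀ y : ℝ, 1 ≤ y → |1 - Fl K a y| ≤ B * y ^ (1 - τ)) : dist1 K a ≤ ENNReal.ofReal (B / τ) := by
  have hi : IntegrableOn (fun y : ℝ => B * y ^ (-1 - τ)) (Ioi (1 : ℝ)) :=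
    (integrableOn_Ioi_rpow_of_lt (by linarith) one_pos).const_mul B
  have hv : ∫ y in Ioi (1 : ℝ), B * y ^ (-1 - τ) = B / τ := by
    rw [integral_const_mul, integral_Ioi_rpow_of_lt (by linarith) one_pos]
    rw [Real.one_rpow]
    have : -1 - τ + 1 = -τ := by ring
    rw [this, neg_div_neg_eq, mul_one_div]
  unfold dist1
  calc ∫⁻ y in Ioi (1 : ℝ), ENNReal.ofReal (|1 - Fl K a y| / y ^ 2)
      ≤ ∫⁻ y in Ioi (1 : ℝ), ENNReal.ofReal (B * y ^ (-1 - τ)) := by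
        refine setLIntegral_mono' measurableSet_Ioi fun y hy => ?_
        apply ENNReal.ofReal_le_ofReal
        have hy1 : (1 : ℝ) < y := hy
        have hy0 : 0 < y := by linarith
        rw [div_le_iff₀ (by positivity)]
        refine (h y hy1.le).trans (le_of_eq ?_)
        rw [mul_assoc, ← Real.rpow_natCast, ← Real.rpow_add hy0]
        congr 2
        push_cast
        ring
    _ = ENNReal.ofReal (∫ y in Ioi (1 : ℝ), B * y ^ (-1 - τ)) := by
        rw [ofReal_integral_eq_lintegral_ofReal hi]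
        rw [EventuallyLE, ae_restrict_iff' measurableSet_Ioi]
        refine Eventually.of_forall fun y hy => ?_
        have hy1 : (1 : ℝ) < y := hy
        have : 0 ≤ y ^ (-1 - τ) := Real.rpow_nonneg (by linarith) _
        exact mul_nonneg hB this
    _ = _ := by rw [hv]

end Pool.Agent.L5helper77.Cheb
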