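import Pool.Agent.L5helper77.Cheb5

/-! # One-sided approximation -/

set_option autoImplicit false
set_option maxHeartbeats 4000000

open Filter Topology Set MeasureTheory

namespace Pool.Agent.L5helper77.Cheb

/-- the coefficients of `⌊y / m⌋ - B ⌊y / (m B)⌋` -/
noncomputable def ss (m B k : ℕ) : ℝ := (if k = m then 1 else 0) - (if k = m * B then (B : ℝ) else 0)

lemma ss_sum {K m B : ℕ} (hm : 1 ≤ m) (hB : 1 ≤ B) (hK : m * B ≤ K) (g : ℕ → ℝ) :
    ∑ k ∈ Finset.Icc 1 K, ss m B k * g k = g m - B * g (m * B) := by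
  have hmB : m ≤ m * B := Nat.le_mul_of_pos_right _ hB
  have e : ∀ k ∈ Finset.Icc 1 K, ss m B k * g k =
      (if k = m then g m else 0) - (if k = m * B then B * g (m * B) else 0) := by
    intro k _
    unfold ss
    split_ifs with h1 h2 h2
    · rw [← h2, ← h1]; ring
    · rw [h1]; ring
    · rw [h2]; ring
    · ring
  rw [Finset.sum_congr rfl e, Finset.sum_sub_distrib, Finset.sum_ite_eq' (Finset.Icc 1 K) m,
    Finset.sum_ite_eq' (Finset.Icc 1 K) (m * B), if_pos (Finset.mem_Icc.2 ⟨hm, by omega⟩),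
    if_pos (Finset.mem_Icc.2 ⟨by omega, hK⟩)]

/-- the coefficients of the one-sided approximation -/
noncomputable def os (N : ℕ) (c : ℝ) (k : ℕ) : ℝ :=
  (if k ≤ N then aa N k else 0) - 2 * c * N * ss N N k - 3 * (N : ℝ) * ss (N * N) N k -
    3 * (N : ℝ) * ∑ q ∈ Finset.Icc 1 N, ss (N * N * N) q k

lemma os_sum {K N : ℕ} (hN : 1 ≤ N) (hK : N ^ 4 ≤ K) (c : ℝ) (g : ℕ → ℝ) :
    ∑ k ∈ Finset.Icc 1 K, os N c k * g k =
      ∑ k ∈ Finset.Icc 1 N, aa N k * g k - 2 * c * N * (g N - (N : ℕ) * g (N * N)) -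
      3 * (N : ℝ) * (g (N * N) - (N : ℕ) * g (N * N * N)) -
      3 * (N : ℝ) * ∑ q ∈ Finset.Icc 1 N,
        (g (N * N * N) - q * g (N * N * N * q)) := by
  have hN2 : 1 ≤ N := hN
  have h35 : N * N * N * N = N ^ 4 := by ring
  have h33 : N * N ≤ N * N * N := Nat.le_mul_of_pos_right _ hN2
  have h55 : N * N * N ≤ N * N * N * N := Nat.le_mul_of_pos_right _ hN
  have hN3 : 1 ≤ N * N := Nat.mul_pos hN hN2
  have hN5 : 1 ≤ N * N * N := Nat.mul_pos hN3 hN2
  have hNN : N ≤ N * N := Nat.le_mul_of_pos_right _ hN2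
  have hNK : N ≤ K := by omega
  have e : ∀ k ∈ Finset.Icc 1 K, os N c k * g k = (if k ≤ N then aa N k * g k else 0) -
      2 * c * N * (ss N N k * g k) - 3 * (N : ℝ) * (ss (N * N) N k * g k) -
      3 * (N : ℝ) * ∑ q ∈ Finset.Icc 1 N, ss (N * N * N) q k * g k := by
    intro k _
    unfold os
    rw [← Finset.sum_mul]
    split_ifs <;> ring
  rw [Finset.sum_congr rfl e, Finset.sum_sub_distrib, Finset.sum_sub_distrib, Finset.sum_sub_distrib,
    ← Finset.mul_sum, ← Finset.mul_sum, ← Finset.mul_sum, ss_sum hN hN2 (by omega),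
    ss_sum hN3 hN2 (by omega), Finset.sum_comm]
  have e2 : ∑ k ∈ Finset.Icc 1 K, (if k ≤ N then aa N k * g k else 0) =
      ∑ k ∈ Finset.Icc 1 N, aa N k * g k := by
    rw [← Finset.sum_filter]
    refine Finset.sum_congr ?_ fun _ _ => rfl
    ext k
    simp only [Finset.mem_filter, Finset.mem_Icc]
    omega
  have e3 : ∀ q ∈ Finset.Icc 1 N, ∑ k ∈ Finset.Icc 1 K, ss (N * N * N) q k * g k =
      g (N * N * N) - q * g (N * N * N * q) := by
    intro q hq
    obtain ⟨hq1, hq2⟩ := Finset.mem_Icc.1 hq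
    refine ss_sum hN5 hq1 ?_ g
    calc N * N * N * q ≤ N * N * N * N := Nat.mul_le_mul_left _ hq2
      _ = N ^ 4 := h35
      _ ≤ K := hK
  rw [e2, Finset.sum_congr rfl e3]

lemma mod_eq (n m B : ℕ) : ((n / m : ℕ) : ℝ) - (B : ℝ) * ((n / (m * B) : ℕ) : ℝ) = (((n / m) % B : ℕ) : ℝ) := by
  have h := Nat.mod_add_div (n / m) B
  rw [Nat.div_div_eq_div_mul] at h
  have h2 : (((n / m) % B : ℕ) : ℝ) + (B : ℝ) * ((n / (m * B) : ℕ) : ℝ) = ((n / m : ℕ) : ℝ) := by
    exact_mod_cast h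
  linarith

lemma os_Fl {K N : ℕ} (hN : 1 ≤ N) (hK : N ^ 4 ≤ K) (c : ℝ) (n : ℕ) :
    Fl K (os N c) n = Fl N (aa N) n - 2 * c * N * (((n / N) % N : ℕ) : ℝ) -
      3 * (N : ℝ) * (((n / (N * N)) % N : ℕ) : ℝ) -
      3 * (N : ℝ) * ∑ q ∈ Finset.Icc 1 N, (((n / (N * N * N)) % q : ℕ) : ℝ) := by
  rw [Fl_nat, Fl_nat, os_sum hN hK c (fun k => ((n / k : ℕ) : ℝ))]
  simp only [mod_eq]

lemma aa_abs3 {N : ℕ} (hN : 1 ≤ N) : ∑ k ∈ Finset.Icc 1 N, |aa N k| ≤ 3 * (N : ℝ) := by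
  have hN1 : (1 : ℝ) ≤ N := by exact_mod_cast hN
  have hmu : ∑ k ∈ Finset.Icc 1 N, |mu k| ≤ N := by
    refine (Finset.sum_le_sum fun k _ => mu_abs k).trans ?_
    simp
  have h1 := Fl_mu_small (K := N) hN le_rfl
  have h2 := Fl_slope N mu (y := (N : ℝ)) (by linarith)
  have e : ∑ k ∈ Finset.Icc 1 N, mu k / k = mm N := rfl
  rw [e, h1] at h2
  have h3 : N * |mm N| ≤ 2 * N := by
    have h4 : |(N : ℝ) * mm N| ≤ 1 + N := by
      have e2 : (N : ℝ) * mm N = 1 - (1 - N * mm N) := by ring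
      rw [e2]
      refine (abs_sub _ _).trans ?_
      rw [abs_one]
      linarith
    rw [abs_mul, abs_of_nonneg (by linarith : (0 : ℝ) ≤ N)] at h4
    linarith
  have h : ∀ k ∈ Finset.Icc 1 N, |aa N k| ≤ |mu k| + if k = N then (N : ℝ) * |mm N| else 0 := by
    intro k _
    unfold aa
    refine (abs_sub _ _).trans (add_le_add le_rfl ?_)
    split_ifs
    · rw [abs_mul, abs_of_nonneg (by linarith : (0 : ℝ) ≤ N)]
    · simp
  refine (Finset.sum_le_sum h).trans ?_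
  rw [Finset.sum_add_distrib, Finset.sum_ite_eq' (Finset.Icc 1 N) N,
    if_pos (Finset.mem_Icc.2 ⟨hN, le_rfl⟩)]
  linarith

/-- **the one-sided bound** -/
theorem os_le {K N : ℕ} (hN : 1 ≤ N) (hK : N ^ 4 ≤ K) {c : ℝ} (hc : 0 ≤ c)
    (hb : ∀ n : ℕ, 1 ≤ n → |1 - Fl N (aa N) n| ≤ c * n) (n : ℕ) : Fl K (os N c) n ≤ 1 := by
  rw [os_Fl hN hK]
  have hN' : (1 : ℝ) ≤ N := by exact_mod_cast hN
  have hN2 : 1 ≤ N := hN
  have hN3 : 1 ≤ N * N := Nat.mul_pos hN hN2
  have hF : Fl N (aa N) n ≤ 3 * (N : ℝ) := by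
    have h1 := Fl_slope N (aa N) (y := (n : ℝ)) (Nat.cast_nonneg _)
    rw [aa_slope hN, mul_zero, sub_zero] at h1
    exact (le_abs_self _).trans (h1.trans (aa_abs3 hN))
  have p1 : 0 ≤ 2 * c * N * (((n / N) % N : ℕ) : ℝ) := by positivity
  have p2 : 0 ≤ 3 * (N : ℝ) * (((n / (N * N)) % N : ℕ) : ℝ) := by positivity
  have p3 : 0 ≤ ∑ q ∈ Finset.Icc 1 N, (((n / (N * N * N)) % q : ℕ) : ℝ) :=
    Finset.sum_nonneg fun _ _ => Nat.cast_nonneg _
  have p3' : 0 ≤ 3 * (N : ℝ) * ∑ q ∈ Finset.Icc 1 N, (((n / (N * N * N)) % q : ℕ) : ℝ) := by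
    positivity
  rcases Nat.eq_zero_or_pos ((n / (N * N)) % N) with hu | hu
  swap
  · have hu' : (1 : ℝ) ≤ (((n / (N * N)) % N : ℕ) : ℝ) := by exact_mod_cast hu
    nlinarith
  by_cases hv : ∃ q ∈ Finset.Icc 1 N, 1 ≤ (n / (N * N * N)) % q
  · obtain ⟨q, hq, hv⟩ := hv
    have hv' : (1 : ℝ) ≤ (((n / (N * N * N)) % q : ℕ) : ℝ) := by exact_mod_cast hv
    have h1 : (1 : ℝ) ≤ ∑ q ∈ Finset.Icc 1 N, (((n / (N * N * N)) % q : ℕ) : ℝ) :=
      hv'.trans (Finset.single_le_sum (f := fun q : ℕ => (((n / (N * N * N)) % q : ℕ) : ℝ))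
        (fun _ _ => Nat.cast_nonneg _) hq)
    nlinarith
  push Not at hv
  -- the exceptional positions
  set M := n / (N * N * N) with hM
  set r := n % (N * N * N) with hr
  have hn : n = N * N * N * M + r := (Nat.div_add_mod n _).symm
  have hdvd : ∀ q, 1 ≤ q → q ≤ N → q ∣ M := by
    intro q h1 h2
    have := hv q (Finset.mem_Icc.2 ⟨h1, h2⟩)
    exact Nat.dvd_of_mod_eq_zero (by omega)
  have hrlt : r < N * N := by
    have h1 : n / (N * N) = N * M + r / (N * N) := by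
      conv_lhs => rw [hn]
      rw [show N * N * N * M + r = r + (N * N) * (N * M) by ring,
        Nat.add_mul_div_left _ _ hN3]
      ring
    have h2 : r / (N * N) < N := by
      rw [Nat.div_lt_iff_lt_mul hN3]
      have h3 : r < N * N * N := Nat.mod_lt _ (Nat.mul_pos hN3 hN2)
      linarith [h3, Nat.mul_comm N (N * N)]
    rw [h1, Nat.mul_add_mod, Nat.mod_eq_of_lt h2] at hu
    rcases (Nat.div_eq_zero_iff).1 hu with h3 | h3
    · omega
    · exact h3
  have hF0 : Fl N (aa N) n = Fl N (aa N) r := by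
    rw [Fl_nat, Fl_nat]
    have e : ∀ k ∈ Finset.Icc 1 N, aa N k * ((n / k : ℕ) : ℝ) =
        ((N * N * N * M : ℕ) : ℝ) * (aa N k / k) + aa N k * ((r / k : ℕ) : ℝ) := by
      intro k hk
      obtain ⟨hk1, hk2⟩ := Finset.mem_Icc.1 hk
      obtain ⟨m', hm'⟩ := hdvd k hk1 hk2
      have hk0 : (k : ℝ) ≠ 0 := by
        have : (0 : ℝ) < k := by exact_mod_cast hk1
        exact this.ne'
      have h1 : n / k = N * N * N * m' + r / k := by
        conv_lhs => rw [hn]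
        rw [hm', show N * N * N * (k * m') + r = r + k * (N * N * N * m') by ring,
          Nat.add_mul_div_left _ _ hk1]
        ring
      rw [h1, hm']
      push_cast
      field_simp
    rw [Finset.sum_congr rfl e, Finset.sum_add_distrib, ← Finset.mul_sum, aa_slope hN]
    ring
  have hS : (n / N) % N = r / N := by
    have h1 : n / N = N * (N * M) + r / N := by
      conv_lhs => rw [hn]
      rw [show N * N * N * M + r = r + N * (N * (N * M)) by ring,
        Nat.add_mul_div_left _ _ hN]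
      ring
    have h2 : r / N < N := by
      rw [Nat.div_lt_iff_lt_mul hN]
      linarith [hrlt, Nat.mul_comm N N]
    rw [h1, Nat.mul_add_mod, Nat.mod_eq_of_lt h2]
  have hgoal : Fl N (aa N) n - 2 * c * N * (((n / N) % N : ℕ) : ℝ) ≤ 1 := by
    rw [hF0, hS]
    rcases Nat.eq_zero_or_pos r with h0 | h0
    · rw [h0]
      have e0 : Fl N (aa N) ((0 : ℕ) : ℝ) = 0 := by rw [Fl_nat]; simp
      rw [e0]
      simp
    · rcases lt_or_ge r N with h1 | h1
      · rw [aa_small h0 h1, Nat.div_eq_of_lt h1]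
        simp
      · have h2 := (abs_le.1 (hb r h0)).1
        have h3 : (r : ℝ) ≤ 2 * N * ((r / N : ℕ) : ℝ) := by
          have h4 := Nat.div_add_mod r N
          have h5 := Nat.mod_lt r hN
          have h6 : 1 ≤ r / N := (Nat.one_le_div_iff hN).2 h1
          have h7 : r ≤ 2 * N * (r / N) := by nlinarith
          exact_mod_cast h7
        have h8 : c * (r : ℝ) ≤ c * (2 * N * ((r / N : ℕ) : ℝ)) := mul_le_mul_of_nonneg_left h3 hc
        nlinarith
  linarith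

/-- the slope of the one-sided approximation is zero -/
lemma os_slope {K N : ℕ} (hN : 1 ≤ N) (hK : N ^ 4 ≤ K) (c : ℝ) :
    ∑ k ∈ Finset.Icc 1 K, os N c k / k = 0 := by
  have hN' : (0 : ℝ) < N := by exact_mod_cast hN
  have e : ∀ k ∈ Finset.Icc 1 K, os N c k / k = os N c k * ((k : ℝ))⁻¹ := fun k _ => div_eq_mul_inv _ _
  rw [Finset.sum_congr rfl e, os_sum hN hK c (fun k => ((k : ℝ))⁻¹)]
  have e1 : ∑ k ∈ Finset.Icc 1 N, aa N k * ((k : ℝ))⁻¹ = 0 := by
    rw [← aa_slope hN]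
    exact Finset.sum_congr rfl fun k _ => (div_eq_mul_inv _ _).symm
  have e2 : ∀ q ∈ Finset.Icc 1 N, (((N * N * N : ℕ) : ℝ))⁻¹ -
      (q : ℝ) * (((N * N * N * q : ℕ) : ℝ))⁻¹ = 0 := by
    intro q hq
    have hq0 : (0 : ℝ) < q := by exact_mod_cast (Finset.mem_Icc.1 hq).1
    push_cast
    field_simp
    ring
  rw [e1, Finset.sum_congr rfl e2]
  push_cast
  field_simp
  simp

/-- the constant of the one-sided approximation -/
lemma os_const {K N : ℕ} (hN : 1 ≤ N) (hK : N ^ 4 ≤ K) {c : ℝ} :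
    ∑ k ∈ Finset.Icc 1 K, os N c k * (Real.log k / k) ≤
      ∑ k ∈ Finset.Icc 1 N, aa N k * (Real.log k / k) + 2 * c * Real.log N + 6 * Real.log N / N := by
  have hN1 : (1 : ℝ) ≤ N := by exact_mod_cast hN
  have hN' : (0 : ℝ) < N := by linarith
  have hlog := Real.log_nonneg hN1
  rw [os_sum hN hK c (fun k => Real.log k / k)]
  have e : ∀ m B : ℕ, 1 ≤ m → 1 ≤ B → Real.log m / m - (B : ℝ) * (Real.log ((m * B : ℕ) : ℝ) / ((m * B : ℕ) : ℝ)) =
      -(Real.log B / m) := by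
    intro m B hm hB
    have hm0 : (0 : ℝ) < m := by exact_mod_cast hm
    have hB0 : (0 : ℝ) < B := by exact_mod_cast hB
    push_cast
    rw [Real.log_mul hm0.ne' hB0.ne']
    field_simp
    ring
  have hN2 : 1 ≤ N := hN
  have hN3 : 1 ≤ N * N := Nat.mul_pos hN hN2
  have hN5 : 1 ≤ N * N * N := Nat.mul_pos hN3 hN2
  rw [e N N hN hN2, e (N * N) N hN3 hN2]
  have e2 : ∑ q ∈ Finset.Icc 1 N, (Real.log ((N * N * N : ℕ) : ℝ) / ((N * N * N : ℕ) : ℝ) -
      (q : ℝ) * (Real.log ((N * N * N * q : ℕ) : ℝ) / ((N * N * N * q : ℕ) : ℝ))) =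
      -∑ q ∈ Finset.Icc 1 N, Real.log q / ((N * N * N : ℕ) : ℝ) := by
    rw [← Finset.sum_neg_distrib]
    exact Finset.sum_congr rfl fun q hq => e _ q hN5 (Finset.mem_Icc.1 hq).1
  rw [e2]
  have e3 : ∑ q ∈ Finset.Icc 1 N, Real.log q / ((N * N * N : ℕ) : ℝ) ≤
      N * (Real.log N / ((N * N * N : ℕ) : ℝ)) := by
    calc ∑ q ∈ Finset.Icc 1 N, Real.log q / ((N * N * N : ℕ) : ℝ)
        ≤ ∑ _q ∈ Finset.Icc 1 N, Real.log N / ((N * N * N : ℕ) : ℝ) := by
          refine Finset.sum_le_sum fun q hq => ?_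
          obtain ⟨hq1, hq2⟩ := Finset.mem_Icc.1 hq
          have hq0 : (0 : ℝ) < q := by exact_mod_cast hq1
          have : Real.log q ≤ Real.log N := Real.log_le_log hq0 (by exact_mod_cast hq2)
          gcongr
      _ = _ := by simp
  have e4 : 3 * (N : ℝ) * (N * (Real.log N / ((N * N * N : ℕ) : ℝ))) = 3 * Real.log N / N := by
    push_cast
    field_simp
  have e6 : 2 * c * N * -(Real.log N / N) = -(2 * c * Real.log N) := by
    field_simp
  have e7 : 3 * (N : ℝ) * -(Real.log N / ((N * N : ℕ) : ℝ)) = -(3 * Real.log N / N) := by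
    push_cast
    field_simp
  rw [e6, e7]
  have e8 : 3 * (N : ℝ) * ∑ q ∈ Finset.Icc 1 N, Real.log q / ((N * N * N : ℕ) : ℝ) ≤
      3 * Real.log N / N := (mul_le_mul_of_nonneg_left e3 (by positivity)).trans (le_of_eq e4)
  have e9 : 6 * Real.log N / N = 3 * Real.log N / N + 3 * Real.log N / N := by ring
  rw [e9]
  linarith

end Pool.Agent.L5helper77.Cheb
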