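import Pool.Agent.L5helper77.Cheb4
import Pool.Agent.L5helper77.Cheb6

/-! # The constant of Chebyshev's method as an integral -/

set_option autoImplicit false
set_option maxHeartbeats 4000000

open Complex Filter Topology Set MeasureTheory

namespace Pool.Agent.L5helper77.Cheb

lemma Dp_one (K : ℕ) (a : ℕ → ℝ) (h : ∑ k ∈ Finset.Icc 1 K, a k / k = 0) : Dp K a 1 = 0 := by
  have e : Dp K a 1 = ((∑ k ∈ Finset.Icc 1 K, a k / k : ℝ) : ℂ) := by
    unfold Dp
    push_cast
    refine Finset.sum_congr rfl fun k _ => ?_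
    rw [Complex.cpow_neg_one, div_eq_mul_inv]
  rw [e, h]
  simp

lemma Dp_deriv (K : ℕ) (a : ℕ → ℝ) :
    HasDerivAt (Dp K a) (-((∑ k ∈ Finset.Icc 1 K, a k * (Real.log k / k) : ℝ) : ℂ)) 1 := by
  have h : HasDerivAt (Dp K a) (∑ k ∈ Finset.Icc 1 K, (a k : ℂ) * ((k : ℂ) ^ (-(1 : ℂ)) * Complex.log k * (-1))) 1 := by
    unfold Dp
    refine HasDerivAt.fun_sum fun k hk => ?_
    have hk0 : (k : ℂ) ≠ 0 := by
      have := (Finset.mem_Icc.1 hk).1
      exact_mod_cast (by omega : k ≠ 0)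
    refine HasDerivAt.const_mul _ ?_
    have h1 : HasDerivAt (fun s : ℂ => -s) (-1) 1 := hasDerivAt_neg 1
    exact h1.const_cpow (Or.inl hk0)
  convert h using 1
  push_cast
  rw [← Finset.sum_neg_distrib]
  refine Finset.sum_congr rfl fun k hk => ?_
  rw [Complex.cpow_neg_one]
  have : ((Real.log k : ℝ) : ℂ) = Complex.log (k : ℂ) := by
    rw [Complex.ofReal_log (Nat.cast_nonneg k)]
    simp
  rw [← this]
  ring

/-- the constant -/
theorem cheb_const (K : ℕ) (a : ℕ → ℝ) (h : ∑ k ∈ Finset.Icc 1 K, a k / k = 0) :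
    ∫ t in Ioi (1 : ℝ), (1 - Fl K a t) / t ^ 2 = 1 + ∑ k ∈ Finset.Icc 1 K, a k * (Real.log k / k) := by
  set S : ℝ := ∑ k ∈ Finset.Icc 1 K, |a k| with hS
  have hS0 : 0 ≤ S := Finset.sum_nonneg fun _ _ => abs_nonneg _
  have hF : ∀ t : ℝ, 0 ≤ t → |Fl K a t| ≤ S := by
    intro t ht
    have := Fl_slope K a ht
    rwa [h, mul_zero, sub_zero] at this
  -- the limit of the integrals
  have hlim : Tendsto (fun s : ℝ => ∫ t in Ioi (1 : ℝ), ((1 - Fl K a t : ℝ) : ℂ) * (t : ℂ) ^ (-((s : ℂ) + 1)))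
      (𝓝[>] 1) (𝓝 (∫ t in Ioi (1 : ℝ), ((1 - Fl K a t : ℝ) : ℂ) * (t : ℂ) ^ (-((1 : ℂ) + 1)))) := by
    refine tendsto_integral_filter_of_dominated_convergence (fun t : ℝ => (1 + S) * t ^ (-2 : ℝ)) ?_ ?_ ?_ ?_
    · refine Eventually.of_forall fun s => ?_
      refine AEStronglyMeasurable.mul ?_ ?_
      · exact ((Complex.measurable_ofReal.comp (measurable_const.sub (Fl_meas K a)))).aestronglyMeasurable
      · exact (cpow_cont _ 1 one_pos).aestronglyMeasurable measurableSet_Ioi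
    · filter_upwards [self_mem_nhdsWithin] with s hs
      have hs1 : (1 : ℝ) < s := hs
      rw [ae_restrict_iff' measurableSet_Ioi]
      refine Eventually.of_forall fun t ht => ?_
      have ht1 : (1 : ℝ) < t := ht
      have ht0 : 0 < t := by linarith
      rw [norm_mul, Complex.norm_real, Real.norm_eq_abs, Complex.norm_cpow_eq_rpow_re_of_pos ht0]
      have h1 : |1 - Fl K a t| ≤ 1 + S := by
        refine (abs_sub _ _).trans ?_
        rw [abs_one]
        linarith [hF t ht0.le]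
      have h2 : t ^ (-((s : ℂ) + 1)).re ≤ t ^ (-2 : ℝ) := by
        apply Real.rpow_le_rpow_of_exponent_le ht1.le
        simp
        linarith
      gcongr
    · exact (integrableOn_Ioi_rpow_of_lt (by norm_num) one_pos).const_mul _
    · rw [ae_restrict_iff' measurableSet_Ioi]
      refine Eventually.of_forall fun t ht => ?_
      have ht0 : (0 : ℝ) < t := one_pos.trans ht
      have htc : (t : ℂ) ≠ 0 := by exact_mod_cast ht0.ne'
      refine Tendsto.const_mul _ ?_
      have hc : ContinuousAt (fun s : ℝ => (t : ℂ) ^ (-((s : ℂ) + 1))) 1 := by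
        have h1 : ContinuousAt (fun s : ℝ => -((s : ℂ) + 1)) 1 := by fun_prop
        exact h1.const_cpow (Or.inl htc)
      have := hc.tendsto
      simp only [Complex.ofReal_one] at this
      exact this.mono_left nhdsWithin_le_nhds
  have hcast : Tendsto (fun s : ℝ => (s : ℂ)) (𝓝[>] 1) (𝓝[≠] 1) := by
    rw [tendsto_nhdsWithin_iff]
    constructor
    · have : ContinuousAt (fun s : ℝ => (s : ℂ)) 1 := Complex.continuous_ofReal.continuousAt
      have h1 := this.tendsto
      simp only [Complex.ofReal_one] at h1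
      exact h1.mono_left nhdsWithin_le_nhds
    · filter_upwards [self_mem_nhdsWithin] with s hs
      have hs1 : (1 : ℝ) < s := hs
      intro h1
      have h2 : (s : ℂ) = 1 := h1
      have : s = 1 := by exact_mod_cast h2
      linarith
  -- the other limit
  have hslope : Tendsto (fun s : ℝ => riemannZeta₁ (s : ℂ) * (((s : ℂ) - 1)⁻¹ * Dp K a (s : ℂ))) (𝓝[>] 1)
      (𝓝 (riemannZeta₁ 1 * -((∑ k ∈ Finset.Icc 1 K, a k * (Real.log k / k) : ℝ) : ℂ))) := by
    refine Tendsto.mul ?_ ?_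
    · have h1 : Tendsto riemannZeta₁ (𝓝[≠] 1) (𝓝 (riemannZeta₁ 1)) :=
        (differentiable_riemannZeta₁.continuous.tendsto 1).mono_left nhdsWithin_le_nhds
      exact h1.comp hcast
    · have h1 := (hasDerivAt_iff_tendsto_slope.1 (Dp_deriv K a)).comp hcast
      refine h1.congr fun s => ?_
      simp only [Function.comp, slope_def_field]
      rw [Dp_one K a h]
      ring
  rw [riemannZeta₁_one, one_mul] at hslope
  have hL : Tendsto (fun s : ℝ => (s : ℂ) * ∫ t in Ioi (1 : ℝ), ((1 - Fl K a t : ℝ) : ℂ) *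
      (t : ℂ) ^ (-((s : ℂ) + 1))) (𝓝[>] 1)
      (𝓝 (1 + ((∑ k ∈ Finset.Icc 1 K, a k * (Real.log k / k) : ℝ) : ℂ))) := by
    have h1 := (tendsto_const_nhds (x := (1 : ℂ)) (f := 𝓝[>] (1 : ℝ))).sub hslope
    rw [sub_neg_eq_add] at h1
    refine h1.congr' ?_
    filter_upwards [self_mem_nhdsWithin] with s hs
    have hs1 : (1 : ℝ) < s := hs
    have hsc : (s : ℂ) ≠ 1 := by
      intro h2
      have : s = 1 := by exact_mod_cast h2
      linarith
    have h2 := mellin K a (s := (s : ℂ)) (by simpa using hs1)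
    rw [← h2, riemannZeta_eq_inv_sub_mul hsc]
    ring
  have hR : Tendsto (fun s : ℝ => (s : ℂ) * ∫ t in Ioi (1 : ℝ), ((1 - Fl K a t : ℝ) : ℂ) *
      (t : ℂ) ^ (-((s : ℂ) + 1))) (𝓝[>] 1)
      (𝓝 (1 * ∫ t in Ioi (1 : ℝ), ((1 - Fl K a t : ℝ) : ℂ) * (t : ℂ) ^ (-((1 : ℂ) + 1)))) :=
    (tendsto_nhds_of_tendsto_nhdsWithin hcast).mul hlim
  have huniq := tendsto_nhds_unique hR hL
  rw [one_mul] at huniq
  have e : ∫ t in Ioi (1 : ℝ), ((1 - Fl K a t : ℝ) : ℂ) * (t : ℂ) ^ (-((1 : ℂ) + 1)) =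
      ((∫ t in Ioi (1 : ℝ), (1 - Fl K a t) / t ^ 2 : ℝ) : ℂ) := by
    rw [← integral_complex_ofReal]
    refine setIntegral_congr_fun measurableSet_Ioi fun t ht => ?_
    have ht0 : (0 : ℝ) < t := one_pos.trans ht
    rw [show -((1 : ℂ) + 1) = -(2 : ℂ) by norm_num, Complex.cpow_neg, div_eq_mul_inv]
    push_cast
    congr 2
    exact_mod_cast Complex.cpow_natCast (t : ℂ) 2
  rw [e] at huniq
  exact_mod_cast huniq

/-- the function `(1 - F) / t ^ 2` is integrable -/
lemma cheb_int (K : ℕ) (a : ℕ → ℝ) (h : ∑ k ∈ Finset.Icc 1 K, a k / k = 0) :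
    IntegrableOn (fun t : ℝ => (1 - Fl K a t) / t ^ 2) (Ioi 1) := by
  set S : ℝ := ∑ k ∈ Finset.Icc 1 K, |a k| with hS
  have hS0 : 0 ≤ S := Finset.sum_nonneg fun _ _ => abs_nonneg _
  have h1 : IntegrableOn (fun t : ℝ => (1 + S) * t ^ (-2 : ℝ)) (Ioi 1) :=
    (integrableOn_Ioi_rpow_of_lt (by norm_num) one_pos).const_mul _
  refine Integrable.mono' h1 ?_ ?_
  · exact ((measurable_const.sub (Fl_meas K a)).div (measurable_id.pow_const 2)).aestronglyMeasurable
  · rw [ae_restrict_iff' measurableSet_Ioi]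
    refine Eventually.of_forall fun t ht => ?_
    have ht0 : (0 : ℝ) < t := one_pos.trans ht
    have h2 := Fl_slope K a ht0.le
    rw [h, mul_zero, sub_zero] at h2
    rw [Real.norm_eq_abs, abs_div, abs_of_pos (by positivity : 0 < t ^ 2), Real.rpow_neg ht0.le,
      div_eq_mul_inv]
    have h3 : |1 - Fl K a t| ≤ 1 + S := by
      refine (abs_sub _ _).trans ?_
      rw [abs_one]
      linarith
    have e : t ^ (2 : ℝ) = t ^ 2 := by exact_mod_cast Real.rpow_natCast t 2
    rw [e]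
    gcongr

/-- for a one-sided approximation the distance is given by the constant -/
theorem dist_eq_const (K : ℕ) (a : ℕ → ℝ) (h : ∑ k ∈ Finset.Icc 1 K, a k / k = 0)
    (h1 : ∀ n : ℕ, Fl K a n ≤ 1) :
    dist1 K a = ENNReal.ofReal (1 + ∑ k ∈ Finset.Icc 1 K, a k * (Real.log k / k)) := by
  rw [← cheb_const K a h]
  unfold dist1
  rw [ofReal_integral_eq_lintegral_ofReal (cheb_int K a h)]
  · refine setLIntegral_congr_fun measurableSet_Ioi fun t _ => ?_
    rw [abs_of_nonneg]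
    rw [Fl_floor]
    linarith [h1 ⌊t⌋₊]
  · refine Eventually.of_forall fun t => ?_
    simp only [Pi.zero_apply]
    rw [Fl_floor]
    have := h1 ⌊t⌋₊
    apply div_nonneg (by linarith) (by positivity)

/-- the constant is bounded by the distance -/
theorem const_le_dist (K : ℕ) (a : ℕ → ℝ) (h : ∑ k ∈ Finset.Icc 1 K, a k / k = 0) :
    ENNReal.ofReal (1 + ∑ k ∈ Finset.Icc 1 K, a k * (Real.log k / k)) ≤ dist1 K a := by
  rw [← cheb_const K a h]
  have h1 : ∫ t in Ioi (1 : ℝ), (1 - Fl K a t) / t ^ 2 ≤ ∫ t in Ioi (1 : ℝ), |(1 - Fl K a t) / t ^ 2| :=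
    integral_mono (cheb_int K a h) (cheb_int K a h).abs fun t => le_abs_self _
  refine (ENNReal.ofReal_le_ofReal h1).trans (le_of_eq ?_)
  unfold dist1
  rw [ofReal_integral_eq_lintegral_ofReal (cheb_int K a h).abs (Eventually.of_forall fun t => abs_nonneg _)]
  refine setLIntegral_congr_fun measurableSet_Ioi fun t ht => ?_
  have ht0 : (0 : ℝ) < t := one_pos.trans ht
  rw [abs_div, abs_of_pos (by positivity : 0 < t ^ 2)]

end Pool.Agent.L5helper77.Cheb
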