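import Pool.Agent.L5helper77.Cheb7
import Pool.Agent.H353R3.S8
import Pool.Agent.H332R2.FL.ZeroExists

/-! # Chebyshev's method and zero-free half-planes: the exponents -/

set_option autoImplicit false
set_option maxHeartbeats 4000000

open Complex Filter Topology Set MeasureTheory

namespace Pool.Agent.L5helper77.Cheb

/-- the least distance at level `K` -/
noncomputable def DD (K : ℕ) : ℝ := (⨅ a : ℕ → ℝ, dist1 K a).toReal

/-- `-∑ a_k log k / k` -/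
noncomputable def VV (K : ℕ) (a : ℕ → ℝ) : ℝ := -∑ k ∈ Finset.Icc 1 K, a k * (Real.log k / k)

/-- minorants of the constant `1` -/
def Mino (K : ℕ) (a : ℕ → ℝ) : Prop :=
  ∑ k ∈ Finset.Icc 1 K, a k / k = 0 ∧ ∀ n : ℕ, Fl K a n ≤ 1

/-- the defect of Chebyshev's method at level `K` -/
noncomputable def QQ (K : ℕ) : ℝ := sInf {x : ℝ | ∃ a : ℕ → ℝ, Mino K a ∧ x = 1 - VV K a}

/-- the supremum of the real parts of the zeros -/
noncomputable def Th : ℝ := sSup {x : ℝ | ∃ s : ℂ, riemannZeta s = 0 ∧ s.re = x}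

lemma th_bdd : BddAbove {x : ℝ | ∃ s : ℂ, riemannZeta s = 0 ∧ s.re = x} := by
  refine ⟨1, ?_⟩
  rintro x ⟨s, hs, rfl⟩
  by_contra h
  push Not at h
  exact riemannZeta_ne_zero_of_one_le_re h.le hs

lemma th_half : 1 / 2 ≤ Th := by
  obtain ⟨ρ, h0, h1, _⟩ := H332.FL.exists_zero_re_ge_half 0
  exact h1.trans (le_csSup th_bdd ⟨ρ, h0, rfl⟩)

lemma th_one : Th ≤ 1 := by
  obtain ⟨ρ, h0, h1, _⟩ := H332.FL.exists_zero_re_ge_half 0
  refine csSup_le ⟨ρ.re, ρ, h0, rfl⟩ ?_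
  rintro x ⟨s, hs, rfl⟩
  by_contra h
  push Not at h
  exact riemannZeta_ne_zero_of_one_le_re h.le hs

lemma th_free {s : ℂ} (hs : Th < s.re) : riemannZeta s ≠ 0 := fun h =>
  absurd (le_csSup th_bdd ⟨s, h, rfl⟩) (not_le.2 hs)

lemma th_zero {x : ℝ} (hx : x < Th) : ∃ ρ : ℂ, riemannZeta ρ = 0 ∧ x < ρ.re := by
  obtain ⟨ρ0, h0, _⟩ := H332.FL.exists_zero_re_ge_half 0
  have hne : {x : ℝ | ∃ s : ℂ, riemannZeta s = 0 ∧ s.re = x}.Nonempty := ⟨ρ0.re, ρ0, h0, rfl⟩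
  obtain ⟨y, ⟨s, hs, rfl⟩, hy⟩ := exists_lt_of_lt_csSup hne hx
  exact ⟨s, hs, hy⟩

lemma inf_le_one (K : ℕ) : ⨅ a : ℕ → ℝ, dist1 K a ≤ 1 := by
  refine (iInf_le _ (fun _ => 0)).trans ?_
  have h := dist_le (K := K) (a := fun _ => 0) (B := 1) (τ := 1) zero_le_one one_pos (fun y hy => by
    unfold Fl
    simp)
  simpa using h

lemma DD_le {K : ℕ} {a : ℕ → ℝ} {B : ℝ} (hB : 0 ≤ B) (h : dist1 K a ≤ ENNReal.ofReal B) : DD K ≤ B := by
  unfold DD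
  have h1 : ⨅ a : ℕ → ℝ, dist1 K a ≤ ENNReal.ofReal B := (iInf_le _ a).trans h
  have := ENNReal.toReal_mono ENNReal.ofReal_ne_top h1
  rwa [ENNReal.toReal_ofReal hB] at this

lemma DD_le_one (K : ℕ) : DD K ≤ 1 := by
  unfold DD
  have := ENNReal.toReal_mono ENNReal.one_ne_top (inf_le_one K)
  simpa using this

lemma le_DD {K : ℕ} {b : ℝ} (h : ∀ a : ℕ → ℝ, ENNReal.ofReal b ≤ dist1 K a) : b ≤ DD K := by
  rcases le_total b 0 with hb | hb
  · exact hb.trans ENNReal.toReal_nonneg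
  · have h1 : ENNReal.ofReal b ≤ ⨅ a : ℕ → ℝ, dist1 K a := le_iInf h
    have := ENNReal.toReal_mono (ne_top_of_le_ne_top ENNReal.one_ne_top (inf_le_one K)) h1
    rwa [ENNReal.toReal_ofReal hb] at this

lemma mertens_nat {θ κ : ℝ} (h0 : 1 / 2 ≤ θ) (hz : ∀ s : ℂ, θ < s.re → riemannZeta s ≠ 0) (hκ : θ < κ) :
    ∃ C : ℝ, 0 ≤ C ∧ ∀ n : ℕ, 1 ≤ n → |∑ k ∈ Finset.Icc 1 n, mu k| ≤ C * (n : ℝ) ^ κ := by
  obtain ⟨C, hC⟩ := H353.mertens_of_free θ h0 hz κ hκ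
  refine ⟨|C|, abs_nonneg _, fun n hn => ?_⟩
  have h1 := hC n (by exact_mod_cast hn)
  rw [Nat.floor_natCast] at h1
  refine h1.trans ?_
  have : 0 ≤ (n : ℝ) ^ κ := by positivity
  exact mul_le_mul_of_nonneg_right (le_abs_self C) this

/-- upper bound for the distance -/
theorem upper {θ ε : ℝ} (h0 : 1 / 2 ≤ θ) (h1 : θ < 1) (hz : ∀ s : ℂ, θ < s.re → riemannZeta s ≠ 0)
    (hε : 0 < ε) : ∃ C : ℝ, 0 < C ∧ ∀ K : ℕ, 1 ≤ K → ∃ a : ℕ → ℝ,
      dist1 K a ≤ ENNReal.ofReal (C * (K : ℝ) ^ (θ - 1 + ε)) := by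
  set ε' : ℝ := min (ε / 2) ((1 - θ) / 2) with hε'
  have he0 : 0 < ε' := lt_min (by linarith) (by linarith)
  have he1 : ε' ≤ ε / 2 := min_le_left _ _
  have he2 : ε' ≤ (1 - θ) / 2 := min_le_right _ _
  set τ : ℝ := min (ε / 10) (1 / 4) with hτ
  have hτ0 : 0 < τ := lt_min (by linarith) (by norm_num)
  have hτ1 : τ ≤ 1 / 4 := min_le_right _ _
  have hτ2 : τ ≤ ε / 10 := min_le_left _ _
  obtain ⟨C, hC, hM⟩ := mertens_nat (κ := θ + ε') h0 hz (by linarith)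
  refine ⟨(12 * C + 5) * (1 + 1 / τ) / τ, by positivity, fun K hK => ⟨aa K, ?_⟩⟩
  have hK1 : (1 : ℝ) ≤ K := by exact_mod_cast hK
  have h3 := dist_le (K := K) (a := aa K) (B := (12 * C + 5) * (1 + 1 / τ) * (K : ℝ) ^ (θ + ε' - 1 + 5 * τ))
    (τ := τ) (by positivity) hτ0 (fun y hy => aa_bound hC (by linarith) (by linarith) hM hτ0 hτ1 hK hy)
  refine h3.trans (ENNReal.ofReal_le_ofReal ?_)
  have h4 : (K : ℝ) ^ (θ + ε' - 1 + 5 * τ) ≤ (K : ℝ) ^ (θ - 1 + ε) :=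
    Real.rpow_le_rpow_of_exponent_le hK1 (by linarith)
  calc (12 * C + 5) * (1 + 1 / τ) * (K : ℝ) ^ (θ + ε' - 1 + 5 * τ) / τ
      = (12 * C + 5) * (1 + 1 / τ) / τ * (K : ℝ) ^ (θ + ε' - 1 + 5 * τ) := by ring
    _ ≤ _ := by gcongr

/-- upper bound for the defect -/
theorem upper_os {θ ε : ℝ} (h0 : 1 / 2 ≤ θ) (h1 : θ < 1) (hz : ∀ s : ℂ, θ < s.re → riemannZeta s ≠ 0)
    (hε : 0 < ε) : ∃ C : ℝ, 0 < C ∧ ∀ K : ℕ, 1 ≤ K → ∃ a : ℕ → ℝ, Mino K a ∧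
      1 - VV K a ≤ C * (K : ℝ) ^ ((θ - 1) / 4 + ε) := by
  set ε' : ℝ := min ε ((1 - θ) / 4) with hε'
  have he0 : 0 < ε' := lt_min (by linarith) (by linarith)
  have he1 : ε' ≤ ε := min_le_left _ _
  have he2 : ε' ≤ (1 - θ) / 4 := min_le_right _ _
  set τ : ℝ := min (ε / 6) ((1 - θ) / 24) with hτ
  have hτ0 : 0 < τ := lt_min (by linarith) (by linarith)
  have hτ1 : τ ≤ 1 / 4 := (min_le_right _ _).trans (by linarith)
  have hτ2 : τ ≤ ε / 6 := min_le_left _ _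
  have hτ3 : τ ≤ (1 - θ) / 24 := min_le_right _ _
  obtain ⟨C, hC, hM⟩ := mertens_nat (κ := θ + ε') h0 hz (by linarith)
  set C1 : ℝ := (12 * C + 5) * (1 + 1 / τ) with hC1
  have hC10 : 0 < C1 := by positivity
  refine ⟨(3 * C1 / τ + 6 / τ) * 2, by positivity, fun K hK => ?_⟩
  have hK1 : (1 : ℝ) ≤ K := by exact_mod_cast hK
  have hK0 : (0 : ℝ) < K := by linarith
  set N : ℕ := ⌊(K : ℝ) ^ (1 / 4 : ℝ)⌋₊ with hN
  have hK4 : 1 ≤ (K : ℝ) ^ (1 / 4 : ℝ) := Real.one_le_rpow hK1 (by norm_num)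
  have hN1 : 1 ≤ N := by
    rw [hN, Nat.one_le_floor_iff]
    exact hK4
  have hN1' : (1 : ℝ) ≤ N := by exact_mod_cast hN1
  have hN0 : (0 : ℝ) < N := by linarith
  have hNK : N ^ 4 ≤ K := by
    have h2 : (N : ℝ) ≤ (K : ℝ) ^ (1 / 4 : ℝ) := Nat.floor_le (by positivity)
    have h3 : (N : ℝ) ^ 4 ≤ ((K : ℝ) ^ (1 / 4 : ℝ)) ^ 4 := by gcongr
    rw [← Real.rpow_natCast ((K : ℝ) ^ (1 / 4 : ℝ)) 4, ← Real.rpow_mul hK0.le] at h3
    norm_num at h3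
    exact_mod_cast h3
  have hNlow : (K : ℝ) ^ (1 / 4 : ℝ) / 2 ≤ N := by
    have := Nat.lt_floor_add_one ((K : ℝ) ^ (1 / 4 : ℝ))
    rw [← hN] at this
    linarith
  set c : ℝ := C1 * (N : ℝ) ^ (θ + ε' - 1 + 5 * τ) with hc
  have hc0 : 0 ≤ c := by positivity
  have hbd : ∀ y : ℝ, 1 ≤ y → |1 - Fl N (aa N) y| ≤ c * y ^ (1 - τ) := fun y hy =>
    aa_bound hC (by linarith) (by linarith) hM hτ0 hτ1 hN1 hy
  have hbn : ∀ n : ℕ, 1 ≤ n → |1 - Fl N (aa N) n| ≤ c * n := by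
    intro n hn
    have hn1 : (1 : ℝ) ≤ n := by exact_mod_cast hn
    refine (hbd n hn1).trans (mul_le_mul_of_nonneg_left ?_ hc0)
    calc (n : ℝ) ^ (1 - τ) ≤ (n : ℝ) ^ (1 : ℝ) := Real.rpow_le_rpow_of_exponent_le hn1 (by linarith)
      _ = n := Real.rpow_one _
  refine ⟨os N c, ⟨os_slope hN1 hNK c, os_le hN1 hNK hc0 hbn⟩, ?_⟩
  have h2 := os_const hN1 hNK (c := c)
  have h3 : 1 + ∑ k ∈ Finset.Icc 1 N, aa N k * (Real.log k / k) ≤ c / τ := by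
    have h4 := (const_le_dist N (aa N) (aa_slope hN1)).trans (dist_le hc0 hτ0 hbd)
    exact (ENNReal.ofReal_le_ofReal_iff (by positivity)).1 h4
  have hlog : Real.log N ≤ (N : ℝ) ^ τ / τ := Real.log_le_rpow_div hN0.le hτ0
  have hlog0 := Real.log_nonneg hN1'
  set e : ℝ := θ + ε' - 1 + 6 * τ with he
  have he3 : e ≤ 0 := by rw [he]; linarith
  have hNe : (N : ℝ) ^ (θ + ε' - 1 + 5 * τ) ≤ (N : ℝ) ^ e :=
    Real.rpow_le_rpow_of_exponent_le hN1' (by rw [he]; linarith)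
  have hce : c ≤ C1 * (N : ℝ) ^ e := mul_le_mul_of_nonneg_left hNe hC10.le
  have hcl : c * Real.log N ≤ C1 / τ * (N : ℝ) ^ e := by
    calc c * Real.log N ≤ c * ((N : ℝ) ^ τ / τ) := by gcongr
      _ = C1 / τ * ((N : ℝ) ^ (θ + ε' - 1 + 5 * τ) * (N : ℝ) ^ τ) := by rw [hc]; ring
      _ = C1 / τ * (N : ℝ) ^ e := by
          rw [← Real.rpow_add hN0]
          congr 2
          rw [he]; ring
  have hll : Real.log N / N ≤ 1 / τ * (N : ℝ) ^ e := by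
    calc Real.log N / N ≤ ((N : ℝ) ^ τ / τ) / N := by gcongr
      _ = 1 / τ * ((N : ℝ) ^ τ / N) := by ring
      _ = 1 / τ * (N : ℝ) ^ (τ - 1) := by rw [Real.rpow_sub_one hN0.ne']
      _ ≤ _ := by
          have : (N : ℝ) ^ (τ - 1) ≤ (N : ℝ) ^ e :=
            Real.rpow_le_rpow_of_exponent_le hN1' (by rw [he]; linarith)
          gcongr
  have h5 : (N : ℝ) ^ e ≤ 2 * (K : ℝ) ^ ((θ - 1) / 4 + ε) := by
    calc (N : ℝ) ^ e ≤ ((K : ℝ) ^ (1 / 4 : ℝ) / 2) ^ e :=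
          Real.rpow_le_rpow_of_nonpos (by positivity) hNlow he3
      _ = (K : ℝ) ^ (1 / 4 * e) * 2 ^ (-e) := by
          rw [Real.div_rpow (by positivity) (by norm_num), ← Real.rpow_mul hK0.le, Real.rpow_neg (by norm_num),
            div_eq_mul_inv]
      _ ≤ (K : ℝ) ^ ((θ - 1) / 4 + ε) * 2 := by
          have h6 : (2 : ℝ) ^ (-e) ≤ 2 := by
            calc (2 : ℝ) ^ (-e) ≤ 2 ^ (1 : ℝ) :=
                  Real.rpow_le_rpow_of_exponent_le (by norm_num) (by rw [he]; linarith)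
              _ = 2 := by norm_num
          have h7 : (K : ℝ) ^ (1 / 4 * e) ≤ (K : ℝ) ^ ((θ - 1) / 4 + ε) :=
            Real.rpow_le_rpow_of_exponent_le hK1 (by rw [he]; linarith)
          gcongr
      _ = _ := mul_comm _ _
  have h6 : 1 - VV K (os N c) ≤ (3 * C1 / τ + 6 / τ) * (N : ℝ) ^ e := by
    unfold VV
    have h7 : c / τ ≤ C1 / τ * (N : ℝ) ^ e := by
      calc c / τ ≤ (C1 * (N : ℝ) ^ e) / τ := by gcongr
        _ = _ := by ring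
    have h8 : 6 * Real.log N / N = 6 * (Real.log N / N) := by ring
    have h9 : (3 * C1 / τ + 6 / τ) * (N : ℝ) ^ e =
        C1 / τ * (N : ℝ) ^ e + 2 * (C1 / τ * (N : ℝ) ^ e) + 6 * (1 / τ * (N : ℝ) ^ e) := by ring
    rw [h9]
    rw [h8] at h2
    linarith
  calc 1 - VV K (os N c) ≤ (3 * C1 / τ + 6 / τ) * (N : ℝ) ^ e := h6
    _ ≤ (3 * C1 / τ + 6 / τ) * (2 * (K : ℝ) ^ ((θ - 1) / 4 + ε)) := by gcongr
    _ = _ := by ring

/-- minorants: the defect is at least the distance -/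
lemma mino_ge {K : ℕ} {a : ℕ → ℝ} (h : Mino K a) : DD K ≤ 1 - VV K a := by
  have h1 := dist_eq_const K a h.1 h.2
  have h2 : 0 ≤ 1 + ∑ k ∈ Finset.Icc 1 K, a k * (Real.log k / k) := by
    rw [← cheb_const K a h.1]
    refine setIntegral_nonneg measurableSet_Ioi fun t _ => ?_
    rw [Fl_floor]
    have := h.2 ⌊t⌋₊
    apply div_nonneg (by linarith) (by positivity)
  have e : 1 - VV K a = 1 + ∑ k ∈ Finset.Icc 1 K, a k * (Real.log k / k) := by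
    unfold VV; ring
  rw [e]
  exact DD_le h2 h1.le

lemma mino_zero (K : ℕ) : Mino K (fun _ => 0) := by
  refine ⟨by simp, fun n => ?_⟩
  unfold Fl
  simp

lemma DD_le_QQ (K : ℕ) : DD K ≤ QQ K := by
  unfold QQ
  refine le_csInf ⟨_, fun _ => 0, mino_zero K, rfl⟩ ?_
  rintro x ⟨a, ha, rfl⟩
  exact mino_ge ha

lemma QQ_le {K : ℕ} {a : ℕ → ℝ} (h : Mino K a) : QQ K ≤ 1 - VV K a := by
  unfold QQ
  refine csInf_le ⟨DD K, ?_⟩ ⟨a, h, rfl⟩
  rintro x ⟨b, hb, rfl⟩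
  exact mino_ge hb

lemma QQ_le_one (K : ℕ) : QQ K ≤ 1 := by
  refine (QQ_le (mino_zero K)).trans ?_
  unfold VV
  simp

/-- eventual comparison of constants with powers -/
lemma ev_const {C ε : ℝ} (hε : 0 < ε) : ∀ᶠ K : ℕ in atTop, C ≤ (K : ℝ) ^ ε :=
  ((tendsto_rpow_atTop hε).comp tendsto_natCast_atTop_atTop).eventually_ge_atTop C

/-- lower bound for the distance -/
theorem DD_lower {ε : ℝ} (hε : 0 < ε) : ∀ᶠ K : ℕ in atTop, (K : ℝ) ^ (Th - 1 - ε) ≤ DD K := by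
  have hT := th_half
  obtain ⟨ρ, hρ, h1⟩ := th_zero (x := max (Th - ε / 4) 0) (max_lt (by linarith) (by linarith))
  have h2 : Th - ε / 4 < ρ.re := (le_max_left _ _).trans_lt h1
  have h3 : 0 ≤ ρ.re := (le_max_right _ _).trans h1.le
  obtain ⟨c, hc, hc1, hl⟩ := lower hρ h3 (ε := ε / 4) (by linarith)
  have hp : 0 < ε / 4 := by linarith
  filter_upwards [ev_const (C := 1 / c * 2 ^ (1 + ε)) hp, eventually_ge_atTop 1] with K h4 h5
  have hK1 : (1 : ℝ) ≤ K := by exact_mod_cast h5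
  have hK0 : (0 : ℝ) < K := by linarith
  refine le_trans ?_ (le_DD (hl K h5))
  have hexp : 0 ≤ 1 - ρ.re + ε / 4 := by
    have : ρ.re < 1 := by
      by_contra h
      push Not at h
      exact riemannZeta_ne_zero_of_one_le_re h hρ
    linarith
  have h6 : (2 * (K : ℝ)) ^ (-(1 - ρ.re) - ε / 4) ≤ ((K : ℝ) + 1) ^ (-(1 - ρ.re) - ε / 4) :=
    Real.rpow_le_rpow_of_nonpos (by linarith) (by linarith) (by linarith)
  have h7 : (2 : ℝ) ^ (-(1 + ε)) ≤ (2 : ℝ) ^ (-(1 - ρ.re) - ε / 4) :=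
    Real.rpow_le_rpow_of_exponent_le (by norm_num) (by linarith)
  have h8 : (K : ℝ) ^ (Th - 1 - ε / 2) ≤ (K : ℝ) ^ (-(1 - ρ.re) - ε / 4) :=
    Real.rpow_le_rpow_of_exponent_le hK1 (by linarith)
  have h9 : (K : ℝ) ^ (Th - 1 - ε) = (K : ℝ) ^ (Th - 1 - ε / 2) * (K : ℝ) ^ (-(ε / 2)) := by
    rw [← Real.rpow_add hK0]
    congr 1
    ring
  have h10 : (K : ℝ) ^ (-(ε / 2)) ≤ c * 2 ^ (-(1 + ε)) := by
    have h11 : (K : ℝ) ^ (ε / 4) ≤ (K : ℝ) ^ (ε / 2) :=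
      Real.rpow_le_rpow_of_exponent_le hK1 (by linarith)
    rw [Real.rpow_neg hK0.le, Real.rpow_neg (by norm_num)]
    rw [inv_le_comm₀ (by positivity) (by positivity), mul_inv, inv_inv, ← one_div]
    exact h4.trans h11
  rw [h9]
  calc (K : ℝ) ^ (Th - 1 - ε / 2) * (K : ℝ) ^ (-(ε / 2))
      ≤ (K : ℝ) ^ (-(1 - ρ.re) - ε / 4) * (c * 2 ^ (-(1 - ρ.re) - ε / 4)) := by
        refine mul_le_mul h8 (h10.trans ?_) (by positivity) (by positivity)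
        gcongr
    _ = c * (2 * (K : ℝ)) ^ (-(1 - ρ.re) - ε / 4) := by
        rw [Real.mul_rpow (by norm_num) hK0.le]; ring
    _ ≤ c * ((K : ℝ) + 1) ^ (-(1 - ρ.re) - ε / 4) := by gcongr

/-- upper bound for the distance -/
theorem DD_upper {ε : ℝ} (hε : 0 < ε) : ∀ᶠ K : ℕ in atTop, DD K ≤ (K : ℝ) ^ (Th - 1 + ε) := by
  rcases th_one.lt_or_eq with h1 | h1
  · obtain ⟨C, hC, h⟩ := upper th_half h1 (fun s hs => th_free hs) (ε := ε / 2) (by linarith)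
    filter_upwards [ev_const (C := C) (show 0 < ε / 2 by linarith), eventually_ge_atTop 1] with K h2 h3
    have hK0 : (0 : ℝ) < K := by exact_mod_cast h3
    obtain ⟨a, ha⟩ := h K h3
    refine (DD_le (by positivity) ha).trans ?_
    calc C * (K : ℝ) ^ (Th - 1 + ε / 2) ≤ (K : ℝ) ^ (ε / 2) * (K : ℝ) ^ (Th - 1 + ε / 2) := by gcongr
      _ = (K : ℝ) ^ (Th - 1 + ε) := by
          rw [← Real.rpow_add hK0]
          congr 1
          ring
  · filter_upwards [eventually_ge_atTop 1] with K h3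
    have hK1 : (1 : ℝ) ≤ K := by exact_mod_cast h3
    refine (DD_le_one K).trans (Real.one_le_rpow hK1 (by rw [h1]; linarith))

/-- upper bound for the defect -/
theorem QQ_upper {ε : ℝ} (hε : 0 < ε) : ∀ᶠ K : ℕ in atTop, QQ K ≤ (K : ℝ) ^ ((Th - 1) / 4 + ε) := by
  rcases th_one.lt_or_eq with h1 | h1
  · obtain ⟨C, hC, h⟩ := upper_os th_half h1 (fun s hs => th_free hs) (ε := ε / 2) (by linarith)
    filter_upwards [ev_const (C := C) (show 0 < ε / 2 by linarith), eventually_ge_atTop 1] with K h2 h3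
    have hK0 : (0 : ℝ) < K := by exact_mod_cast h3
    obtain ⟨a, ha, ha2⟩ := h K h3
    refine (QQ_le ha).trans (ha2.trans ?_)
    calc C * (K : ℝ) ^ ((Th - 1) / 4 + ε / 2) ≤ (K : ℝ) ^ (ε / 2) * (K : ℝ) ^ ((Th - 1) / 4 + ε / 2) := by
          gcongr
      _ = (K : ℝ) ^ ((Th - 1) / 4 + ε) := by
          rw [← Real.rpow_add hK0]
          congr 1
          ring
  · filter_upwards [eventually_ge_atTop 1] with K h3
    have hK1 : (1 : ℝ) ≤ K := by exact_mod_cast h3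
    refine (QQ_le_one K).trans (Real.one_le_rpow hK1 (by rw [h1]; linarith))

/-- **the exponent of the distance** -/
theorem DD_limit : Tendsto (fun K : ℕ => Real.log (DD K) / Real.log K) atTop (𝓝 (Th - 1)) := by
  rw [Metric.tendsto_nhds]
  intro ε hε
  filter_upwards [DD_lower (ε := ε / 2) (by linarith), DD_upper (ε := ε / 2) (by linarith),
    eventually_ge_atTop 2] with K h1 h2 h3
  have hK2 : (2 : ℝ) ≤ K := by exact_mod_cast h3
  have hK0 : (0 : ℝ) < K := by linarith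
  have hlog : 0 < Real.log K := Real.log_pos (by linarith)
  have hD : 0 < DD K := lt_of_lt_of_le (by positivity) h1
  have h4 := Real.log_le_log (by positivity) h1
  have h5 := Real.log_le_log hD h2
  rw [Real.log_rpow hK0] at h4 h5
  rw [Real.dist_eq, abs_lt]
  have h6 : Th - 1 - ε / 2 ≤ Real.log (DD K) / Real.log K := by
    rw [le_div_iff₀ hlog]; exact h4
  have h7 : Real.log (DD K) / Real.log K ≤ Th - 1 + ε / 2 := by
    rw [div_le_iff₀ hlog]; exact h5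
  constructor <;> linarith

/-- zero-free half-plane -/
def HP : Prop := ∃ σ₀ : ℝ, 1 / 2 < σ₀ ∧ σ₀ < 1 ∧ ∀ s : ℂ, σ₀ ≤ s.re → riemannZeta s ≠ 0

lemma hp_iff : HP ↔ Th < 1 := by
  constructor
  · rintro ⟨σ₀, h1, h2, h3⟩
    refine lt_of_le_of_lt ?_ h2
    by_contra h
    push Not at h
    obtain ⟨ρ, hρ, h4⟩ := th_zero h
    exact h3 ρ h4.le hρ
  · intro h
    have := th_half
    exact ⟨(Th + 1) / 2, by linarith, by linarith, fun s hs => th_free (by linarith)⟩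

/-- a power saving for an infinite sequence of levels is enough -/
theorem hp_of_DD {δ C : ℝ} (hδ : 0 < δ) (h : ∃ᶠ K : ℕ in atTop, DD K ≤ C * (K : ℝ) ^ (-δ)) : HP := by
  rw [hp_iff]
  by_contra hcon
  push Not at hcon
  have h1 : Th = 1 := le_antisymm th_one hcon
  obtain ⟨K, ⟨h2, h3⟩, h4, h5⟩ := ((h.and_eventually (DD_lower (ε := δ / 2) (by linarith))).and_eventually
    ((ev_const (C := |C| + 1) (show 0 < δ / 2 by linarith)).and (eventually_ge_atTop 1))).exists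
  have hK0 : (0 : ℝ) < K := by exact_mod_cast h5
  rw [h1] at h3
  have h6 : (K : ℝ) ^ (1 - 1 - δ / 2) ≤ C * (K : ℝ) ^ (-δ) := h3.trans h2
  have e : (K : ℝ) ^ (1 - 1 - δ / 2) = (K : ℝ) ^ (δ / 2) * (K : ℝ) ^ (-δ) := by
    rw [← Real.rpow_add hK0]
    congr 1
    ring
  rw [e] at h6
  have h7 : 0 < (K : ℝ) ^ (-δ) := by positivity
  have h8 := le_of_mul_le_mul_right h6 h7
  linarith [le_abs_self C]

theorem DD_of_hp (h : HP) : ∃ δ : ℝ, 0 < δ ∧ ∃ C : ℝ, ∀ K : ℕ, 1 ≤ K → DD K ≤ C * (K : ℝ) ^ (-δ) := by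
  have h1 := hp_iff.1 h
  obtain ⟨C, hC, h2⟩ := upper th_half h1 (fun s hs => th_free hs) (ε := (1 - Th) / 2) (by linarith)
  refine ⟨(1 - Th) / 2, by linarith, C, fun K hK => ?_⟩
  obtain ⟨a, ha⟩ := h2 K hK
  have := DD_le (by positivity) ha
  rwa [show Th - 1 + (1 - Th) / 2 = -((1 - Th) / 2) by ring] at this

theorem QQ_of_hp (h : HP) : ∃ δ : ℝ, 0 < δ ∧ ∃ C : ℝ, ∀ K : ℕ, 1 ≤ K → ∃ a : ℕ → ℝ, Mino K a ∧
    1 - C * (K : ℝ) ^ (-δ) ≤ VV K a := by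
  have h1 := hp_iff.1 h
  obtain ⟨C, hC, h2⟩ := upper_os th_half h1 (fun s hs => th_free hs) (ε := (1 - Th) / 8) (by linarith)
  refine ⟨(1 - Th) / 8, by linarith, C, fun K hK => ?_⟩
  obtain ⟨a, ha, ha2⟩ := h2 K hK
  refine ⟨a, ha, ?_⟩
  rw [show (Th - 1) / 4 + (1 - Th) / 8 = -((1 - Th) / 8) by ring] at ha2
  linarith

end Pool.Agent.L5helper77.Cheb
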