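import Pool.Agent.L5helper77.Cheb4

/-! # A lower bound for the distance, uniform in the zero and in the level -/

set_option autoImplicit false
set_option maxHeartbeats 4000000

open Complex Filter Topology Set MeasureTheory

namespace Pool.Agent.L5helper77.Cheb

lemma z1_poly : ∃ C : ℝ, 1 ≤ C ∧ ∀ s : ℂ, -(1 / 2) ≤ s.re → s.re ≤ 2 →
    ‖riemannZeta₁ s‖ ≤ C * (1 + |s.im|) ^ 3 := by
  have hcomp : IsCompact ((Icc (-(1 / 2)) 2) ×ℂ (Icc (-1 : ℝ) 1)) := isCompact_Icc.reProdIm isCompact_Icc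
  obtain ⟨C1, hC1⟩ := hcomp.exists_bound_of_continuousOn
    (differentiable_riemannZeta₁.continuous.continuousOn)
  obtain ⟨C2, hC2, hst⟩ := Pool.Agent.H52R4.PZT1.zeta_strip
  refine ⟨max C1 1 + 3 * C2, ?_, ?_⟩
  · have h1 : (1 : ℝ) ≤ max C1 1 := le_max_right _ _
    linarith
  intro s hs1 hs2
  have h0 := abs_nonneg s.im
  have hp : 1 ≤ (1 + |s.im|) ^ 3 := one_le_pow₀ (by linarith)
  have hp1 : 0 < max C1 1 := lt_of_lt_of_le one_pos (le_max_right _ _)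
  rcases le_total |s.im| 1 with h | h
  · have h1 := hC1 s (by
      rw [Complex.mem_reProdIm]
      exact ⟨⟨hs1, hs2⟩, abs_le.1 h⟩)
    have h2 : C1 ≤ max C1 1 := le_max_left _ _
    nlinarith
  · have hne : s ≠ 1 := by
      intro h1
      rw [h1] at h
      simp at h
      linarith
    rw [z1_eq hne, norm_mul]
    have hsub : ‖s - 1‖ ≤ |s.re - 1| + |s.im| := by
      have := Complex.norm_le_abs_re_add_abs_im (s - 1)
      simpa using this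
    have h4 := hst s hs1 hs2 h
    have h5 : ‖s - 1‖ ≤ 3 * (1 + |s.im|) := by
      have : |s.re - 1| ≤ 3 / 2 := abs_le.2 ⟨by linarith, by linarith⟩
      linarith
    calc ‖s - 1‖ * ‖riemannZeta s‖ ≤ (3 * (1 + |s.im|)) * (C2 * |s.im| ^ 2) := by gcongr
      _ ≤ (3 * (1 + |s.im|)) * (C2 * (1 + |s.im|) ^ 2) := by
          gcongr
          linarith
      _ = 3 * C2 * (1 + |s.im|) ^ 3 := by ring
      _ ≤ _ := by nlinarith

lemma gauss2 {ρ s : ℂ} (h1 : 0 ≤ ρ.re) (h2 : ρ.re ≤ 1) (h3 : -(1 / 2) ≤ s.re) (h4 : s.re ≤ 1) :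
    (1 + |s.im|) ^ 3 * ‖Complex.exp ((s - ρ) ^ 2)‖ ≤ Real.exp 5 * (1 + |ρ.im|) ^ 3 := by
  rw [Complex.norm_exp]
  have e : ((s - ρ) ^ 2).re = (s.re - ρ.re) ^ 2 - (s.im - ρ.im) ^ 2 := by
    rw [sq, Complex.mul_re, Complex.sub_re, Complex.sub_im]; ring
  rw [e]
  set u := |s.im - ρ.im| with hu
  have hu0 : 0 ≤ u := abs_nonneg _
  have h5 : |s.im| ≤ |ρ.im| + u := by
    have := abs_add_le ρ.im (s.im - ρ.im)
    simpa using this
  have h6 : 1 + |s.im| ≤ (1 + |ρ.im|) * Real.exp u := by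
    have h7 := Real.add_one_le_exp u
    have h8 := abs_nonneg ρ.im
    nlinarith
  have h7 : (1 + |s.im|) ^ 3 ≤ (1 + |ρ.im|) ^ 3 * Real.exp (3 * u) := by
    have h8 := pow_le_pow_left₀ (by positivity : 0 ≤ 1 + |s.im|) h6 3
    rw [mul_pow, ← Real.exp_nat_mul] at h8
    push_cast at h8
    exact h8
  have h8 : (s.re - ρ.re) ^ 2 ≤ 9 / 4 := by nlinarith
  have h9 : (s.im - ρ.im) ^ 2 = u ^ 2 := (sq_abs _).symm
  rw [h9]
  calc (1 + |s.im|) ^ 3 * Real.exp ((s.re - ρ.re) ^ 2 - u ^ 2)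
      ≤ ((1 + |ρ.im|) ^ 3 * Real.exp (3 * u)) * Real.exp ((s.re - ρ.re) ^ 2 - u ^ 2) := by gcongr
    _ = (1 + |ρ.im|) ^ 3 * Real.exp (3 * u + ((s.re - ρ.re) ^ 2 - u ^ 2)) := by
        rw [mul_assoc, ← Real.exp_add]
    _ ≤ (1 + |ρ.im|) ^ 3 * Real.exp 5 := by
        have : 3 * u + ((s.re - ρ.re) ^ 2 - u ^ 2) ≤ 5 := by nlinarith [sq_nonneg (u - 3 / 2)]
        gcongr
    _ = _ := mul_comm _ _

/-- the bound on the line `Re s = 1` -/
lemma edge_bound (K : ℕ) (a : ℕ → ℝ) (h : dist1 K a ≠ ⊤) {s : ℂ} (hs : s.re = 1) :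
    ‖(s - 1) - riemannZeta₁ s * Dp K a s‖ ≤ ‖s - 1‖ * (‖s‖ * (dist1 K a).toReal) := by
  set f : ℝ → ℂ := fun η => s + η with hf
  have hfc : Tendsto f (𝓝[>] 0) (𝓝 s) := by
    have h1 : Continuous f := by simp only [hf]; fun_prop
    have h2 := h1.tendsto 0
    simp only [hf, Complex.ofReal_zero, add_zero] at h2
    exact h2.mono_left nhdsWithin_le_nhds
  have hc1 : Continuous fun z : ℂ => ‖(z - 1) - riemannZeta₁ z * Dp K a z‖ := by
    have h1 := differentiable_riemannZeta₁.continuous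
    have h2 := (Dp_diff K a).continuous
    fun_prop
  have hc2 : Continuous fun z : ℂ => ‖z - 1‖ * (‖z‖ * (dist1 K a).toReal) := by fun_prop
  refine le_of_tendsto_of_tendsto ((hc1.tendsto s).comp hfc) ((hc2.tendsto s).comp hfc) ?_
  filter_upwards [self_mem_nhdsWithin] with η hη
  have hη0 : (0 : ℝ) < η := hη
  have hre : (f η).re = 1 + η := by simp [hf, hs]
  have hne : f η ≠ 1 := by
    intro h1
    rw [h1] at hre
    simp at hre
    linarith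
  have h1 := mellin_bound K a h (s := f η) (by rw [hre]; linarith)
  simp only [Function.comp]
  have e : (f η - 1) - riemannZeta₁ (f η) * Dp K a (f η) =
      (f η - 1) * (1 - riemannZeta (f η) * Dp K a (f η)) := by
    rw [z1_eq hne]; ring
  rw [e, norm_mul]
  exact mul_le_mul_of_nonneg_left h1 (norm_nonneg _)

/-- **uniform lower bound** -/
theorem lower_unif : ∃ c : ℝ, 0 < c ∧ ∀ ρ : ℂ, riemannZeta ρ = 0 → 1 / 2 ≤ ρ.re → 1 ≤ |ρ.im| →
    ∀ K : ℕ, 1 ≤ K → ∀ a : ℕ → ℝ,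
      ENNReal.ofReal (c * |ρ.im| ^ (-3 : ℝ) * ((K : ℝ) + 1) ^ (-(9 / 2 * (1 - ρ.re)))) ≤ dist1 K a := by
  obtain ⟨C2, hC2, hz⟩ := z1_poly
  set M : ℝ := (3 + 3 * C2) * Real.exp 5 with hM
  have hexp5 : 1 ≤ Real.exp 5 := Real.one_le_exp (by norm_num)
  have hM1 : 1 ≤ M := by rw [hM]; nlinarith
  set W : ℝ := 2 * M * Real.exp 5 with hW
  have hW1 : 1 ≤ W := by rw [hW]; nlinarith
  refine ⟨W ^ (-(3 / 2) : ℝ) / 8, by positivity, ?_⟩
  intro ρ hρ hβ hγ K hK a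
  have hβ1 : ρ.re < 1 := by
    by_contra h
    push Not at h
    exact riemannZeta_ne_zero_of_one_le_re h hρ
  have hρ1 : ρ ≠ 1 := by
    intro h
    rw [h] at hβ1
    simp at hβ1
  have hK1 : (1 : ℝ) ≤ (K : ℝ) + 1 := by
    have : (0 : ℝ) ≤ K := Nat.cast_nonneg K
    linarith
  have hK0 : (0 : ℝ) < (K : ℝ) + 1 := by linarith
  set G : ℝ := 1 + |ρ.im| with hG
  have hG2 : 2 ≤ G := by rw [hG]; linarith
  have hGγ : G ≤ 2 * |ρ.im| := by rw [hG]; linarith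
  -- the main claim, for finite distance
  have hWG : 1 ≤ W * G ^ 2 * ((K : ℝ) + 1) ^ (3 * (1 - ρ.re)) := by
    have h1 : 1 ≤ G ^ 2 := by nlinarith
    have h2 : 1 ≤ ((K : ℝ) + 1) ^ (3 * (1 - ρ.re)) := Real.one_le_rpow hK1 (by linarith)
    have h3 : 1 ≤ W * G ^ 2 := by nlinarith
    nlinarith
  have hkey : ENNReal.ofReal ((W * G ^ 2 * ((K : ℝ) + 1) ^ (3 * (1 - ρ.re))) ^ (-(3 / 2) : ℝ)) ≤ dist1 K a := by
    by_contra hcon
    push Not at hcon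
    have hle1 : (W * G ^ 2 * ((K : ℝ) + 1) ^ (3 * (1 - ρ.re))) ^ (-(3 / 2) : ℝ) ≤ 1 :=
      Real.rpow_le_one_of_one_le_of_nonpos hWG (by norm_num)
    have hd1 : dist1 K a ≤ 1 := by
      refine hcon.le.trans ?_
      rw [← ENNReal.ofReal_one]
      exact ENNReal.ofReal_le_ofReal hle1
    have hne : dist1 K a ≠ ⊤ := ne_top_of_le_ne_top ENNReal.one_ne_top hd1
    set E : ℝ := (dist1 K a).toReal with hE
    have hE0 : 0 ≤ E := ENNReal.toReal_nonneg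
    have hElt : E < (W * G ^ 2 * ((K : ℝ) + 1) ^ (3 * (1 - ρ.re))) ^ (-(3 / 2) : ℝ) :=
      ENNReal.toReal_lt_of_lt_ofReal hcon
    have hcoef : ∀ n, 1 ≤ n → n ≤ K → |a n| ≤ 3 * ((K : ℝ) + 1) ^ 3 := fun n h1 h2 =>
      coeff_bound K a hd1 h1 h2
    set H : ℂ → ℂ := fun s => ((s - 1) - riemannZeta₁ s * Dp K a s) * Complex.exp ((s - ρ) ^ 2) with hH
    have hHd : Differentiable ℂ H := by
      have h1 := differentiable_riemannZeta₁
      have h2 := Dp_diff K a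
      simp only [hH]
      fun_prop
    have hHρ : ‖H ρ‖ = ‖ρ - 1‖ := by
      have h1 : riemannZeta₁ ρ = 0 := by rw [z1_eq hρ1, hρ, mul_zero]
      simp only [hH]
      rw [h1, zero_mul, sub_zero, sub_self, zero_pow two_ne_zero, Complex.exp_zero, mul_one]
    have hDb : ∀ s : ℂ, -(1 / 2) ≤ s.re → ‖Dp K a s‖ ≤ 3 * ((K : ℝ) + 1) ^ (9 / 2 : ℝ) := by
      intro s hs
      have h1 := Dp_bound K a (by positivity) hcoef (A := 1 / 2) (by norm_num) hs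
      rw [cpow_nat _ hK0] at h1
      norm_num at h1 ⊢
      exact h1
    have hstripb : ∀ s : ℂ, -(1 / 2) ≤ s.re → s.re ≤ 1 →
        ‖H s‖ ≤ M * G ^ 3 * ((K : ℝ) + 1) ^ (9 / 2 : ℝ) := by
      intro s h1 h2
      have h4 := gauss2 (ρ := ρ) (by linarith) hβ1.le h1 h2
      rw [← hG] at h4
      have h0 := abs_nonneg s.im
      have h5 : ‖s - 1‖ ≤ 3 * (1 + |s.im|) ^ 3 := by
        have h6 := Complex.norm_le_abs_re_add_abs_im (s - 1)
        simp only [Complex.sub_re, Complex.one_re, Complex.sub_im, Complex.one_im, sub_zero] at h6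
        have h7 : |s.re - 1| ≤ 3 / 2 := abs_le.2 ⟨by linarith, by linarith⟩
        have h8 : 1 + |s.im| ≤ (1 + |s.im|) ^ 3 := by
          have : 1 + |s.im| = (1 + |s.im|) ^ 1 := (pow_one _).symm
          calc 1 + |s.im| = (1 + |s.im|) ^ 1 := this
            _ ≤ (1 + |s.im|) ^ 3 := pow_le_pow_right₀ (by linarith) (by norm_num)
        linarith
      have h6 := hz s h1 (by linarith)
      have h8 := hDb s h1
      have h9 : 1 ≤ ((K : ℝ) + 1) ^ (9 / 2 : ℝ) := Real.one_le_rpow hK1 (by norm_num)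
      simp only [hH]
      rw [norm_mul]
      have h10 : ‖(s - 1) - riemannZeta₁ s * Dp K a s‖ ≤
          (3 + 3 * C2) * ((K : ℝ) + 1) ^ (9 / 2 : ℝ) * (1 + |s.im|) ^ 3 := by
        refine (norm_sub_le _ _).trans ?_
        rw [norm_mul]
        have h11 : ‖riemannZeta₁ s‖ * ‖Dp K a s‖ ≤ (C2 * (1 + |s.im|) ^ 3) * (3 * ((K : ℝ) + 1) ^ (9 / 2 : ℝ)) := by
          gcongr
        have h12 : 3 * (1 + |s.im|) ^ 3 ≤ 3 * ((K : ℝ) + 1) ^ (9 / 2 : ℝ) * (1 + |s.im|) ^ 3 := by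
          have : 0 ≤ (1 + |s.im|) ^ 3 := by positivity
          nlinarith
        nlinarith
      calc ‖(s - 1) - riemannZeta₁ s * Dp K a s‖ * ‖Complex.exp ((s - ρ) ^ 2)‖
          ≤ ((3 + 3 * C2) * ((K : ℝ) + 1) ^ (9 / 2 : ℝ) * (1 + |s.im|) ^ 3) *
            ‖Complex.exp ((s - ρ) ^ 2)‖ := by gcongr
        _ = (3 + 3 * C2) * ((K : ℝ) + 1) ^ (9 / 2 : ℝ) *
            ((1 + |s.im|) ^ 3 * ‖Complex.exp ((s - ρ) ^ 2)‖) := by ring
        _ ≤ (3 + 3 * C2) * ((K : ℝ) + 1) ^ (9 / 2 : ℝ) * (Real.exp 5 * G ^ 3) := by gcongr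
        _ = _ := by rw [hM]; ring
    have hright : ∀ s : ℂ, s.re = 1 → ‖H s‖ ≤ Real.exp 5 * G ^ 3 * E := by
      intro s hs
      have h1 := edge_bound K a hne hs
      have h4 := gauss2 (ρ := ρ) (s := s) (by linarith) hβ1.le (by linarith) hs.le
      rw [← hG] at h4
      have h0 := abs_nonneg s.im
      simp only [hH]
      rw [norm_mul]
      have h6 := Complex.norm_le_abs_re_add_abs_im (s - 1)
      simp only [Complex.sub_re, Complex.one_re, Complex.sub_im, Complex.one_im, sub_zero, hs, sub_self,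
        abs_zero, zero_add] at h6
      have h8 := Complex.norm_le_abs_re_add_abs_im s
      rw [hs, abs_one] at h8
      have h9 : ‖s - 1‖ * ‖s‖ ≤ (1 + |s.im|) ^ 3 := by
        calc ‖s - 1‖ * ‖s‖ ≤ (1 + |s.im|) * (1 + |s.im|) := by
              gcongr
              linarith
          _ = (1 + |s.im|) ^ 2 := by ring
          _ ≤ (1 + |s.im|) ^ 3 := pow_le_pow_right₀ (by linarith) (by norm_num)
      calc ‖(s - 1) - riemannZeta₁ s * Dp K a s‖ * ‖Complex.exp ((s - ρ) ^ 2)‖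
          ≤ (‖s - 1‖ * (‖s‖ * E)) * ‖Complex.exp ((s - ρ) ^ 2)‖ := by gcongr
        _ = (‖s - 1‖ * ‖s‖) * ‖Complex.exp ((s - ρ) ^ 2)‖ * E := by ring
        _ ≤ (1 + |s.im|) ^ 3 * ‖Complex.exp ((s - ρ) ^ 2)‖ * E := by gcongr
        _ ≤ Real.exp 5 * G ^ 3 * E := by gcongr
    have h3l := Complex.HadamardThreeLines.norm_le_interp_of_mem_verticalClosedStrip' (f := H)
      (z := ρ) (a := M * G ^ 3 * ((K : ℝ) + 1) ^ (9 / 2 : ℝ)) (b := Real.exp 5 * G ^ 3 * E)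
      (l := -(1 / 2)) (u := 1) (by norm_num)
      (by
        show ρ.re ∈ Icc (-(1 / 2)) 1
        exact ⟨by linarith, by linarith⟩)
      hHd.diffContOnCl
      (by
        refine ⟨M * G ^ 3 * ((K : ℝ) + 1) ^ (9 / 2 : ℝ), ?_⟩
        rintro _ ⟨s, hs, rfl⟩
        exact hstripb s hs.1 hs.2)
      (fun s hs => by
        have h1 : s.re = -(1 / 2) := hs
        exact hstripb s h1.ge (by linarith))
      (fun s hs => hright s hs)
    rw [hHρ] at h3l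
    set x : ℝ := (ρ.re - -(1 / 2)) / (1 - -(1 / 2)) with hx
    have hxe : x = 1 - 2 / 3 * (1 - ρ.re) := by rw [hx]; ring
    have hx1 : x < 1 := by rw [hxe]; linarith
    have hx23 : 2 / 3 ≤ x := by rw [hxe]; linarith
    have hr : G / 2 ≤ ‖ρ - 1‖ := by
      have h1 := Complex.abs_im_le_norm (ρ - 1)
      simp at h1
      linarith
    -- the contradiction
    have hG0 : 0 < G := by linarith
    have hXpos : 0 < W * G ^ 2 * ((K : ℝ) + 1) ^ (3 * (1 - ρ.re)) := by linarith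
    have hEx : E ^ x < (W * G ^ 2 * ((K : ℝ) + 1) ^ (3 * (1 - ρ.re)))⁻¹ := by
      have h1 : E ^ x < ((W * G ^ 2 * ((K : ℝ) + 1) ^ (3 * (1 - ρ.re))) ^ (-(3 / 2) : ℝ)) ^ x :=
        Real.rpow_lt_rpow hE0 hElt (by linarith)
      refine h1.trans_le ?_
      rw [← Real.rpow_mul hXpos.le, ← Real.rpow_neg_one]
      apply Real.rpow_le_rpow_of_exponent_le hWG
      linarith
    have h1 : (M * G ^ 3 * ((K : ℝ) + 1) ^ (9 / 2 : ℝ)) ^ (1 - x) * (Real.exp 5 * G ^ 3 * E) ^ x ≤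
        M * Real.exp 5 * G ^ 3 * ((K : ℝ) + 1) ^ (3 * (1 - ρ.re)) * E ^ x := by
      have e1 : (M * G ^ 3 * ((K : ℝ) + 1) ^ (9 / 2 : ℝ)) ^ (1 - x) =
          M ^ (1 - x) * (G ^ 3) ^ (1 - x) * ((K : ℝ) + 1) ^ (3 * (1 - ρ.re)) := by
        rw [Real.mul_rpow (by positivity) (by positivity), Real.mul_rpow (by positivity) (by positivity),
          ← Real.rpow_mul hK0.le]
        congr 2
        rw [hxe]; ring
      have e2 : (Real.exp 5 * G ^ 3 * E) ^ x = (Real.exp 5) ^ x * (G ^ 3) ^ x * E ^ x := by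
        rw [Real.mul_rpow (by positivity) hE0, Real.mul_rpow (by positivity) (by positivity)]
      have e3 : (G ^ 3) ^ (1 - x) * (G ^ 3) ^ x = G ^ 3 := by
        rw [← Real.rpow_add (by positivity)]
        simp
      have h2 : M ^ (1 - x) ≤ M := by
        calc M ^ (1 - x) ≤ M ^ (1 : ℝ) := Real.rpow_le_rpow_of_exponent_le hM1 (by linarith)
          _ = M := Real.rpow_one _
      have h3 : (Real.exp 5) ^ x ≤ Real.exp 5 := by
        calc (Real.exp 5) ^ x ≤ (Real.exp 5) ^ (1 : ℝ) := Real.rpow_le_rpow_of_exponent_le hexp5 hx1.le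
          _ = Real.exp 5 := Real.rpow_one _
      have hEx0 : 0 ≤ E ^ x := Real.rpow_nonneg hE0 _
      rw [e1, e2]
      calc M ^ (1 - x) * (G ^ 3) ^ (1 - x) * ((K : ℝ) + 1) ^ (3 * (1 - ρ.re)) *
            ((Real.exp 5) ^ x * (G ^ 3) ^ x * E ^ x)
          = M ^ (1 - x) * (Real.exp 5) ^ x * ((G ^ 3) ^ (1 - x) * (G ^ 3) ^ x) *
            ((K : ℝ) + 1) ^ (3 * (1 - ρ.re)) * E ^ x := by ring
        _ ≤ M * Real.exp 5 * ((G ^ 3) ^ (1 - x) * (G ^ 3) ^ x) *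
            ((K : ℝ) + 1) ^ (3 * (1 - ρ.re)) * E ^ x := by gcongr
        _ = _ := by rw [e3]
    have h2 : M * Real.exp 5 * G ^ 3 * ((K : ℝ) + 1) ^ (3 * (1 - ρ.re)) * E ^ x < G / 2 := by
      have h3 : 0 < M * Real.exp 5 * G ^ 3 * ((K : ℝ) + 1) ^ (3 * (1 - ρ.re)) := by positivity
      calc M * Real.exp 5 * G ^ 3 * ((K : ℝ) + 1) ^ (3 * (1 - ρ.re)) * E ^ x
          < M * Real.exp 5 * G ^ 3 * ((K : ℝ) + 1) ^ (3 * (1 - ρ.re)) *
            (W * G ^ 2 * ((K : ℝ) + 1) ^ (3 * (1 - ρ.re)))⁻¹ := by gcongr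
        _ = G / 2 := by
            rw [hW]
            field_simp
    linarith
  refine le_trans (ENNReal.ofReal_le_ofReal ?_) hkey
  have e1 : (W * G ^ 2 * ((K : ℝ) + 1) ^ (3 * (1 - ρ.re))) ^ (-(3 / 2) : ℝ) =
      W ^ (-(3 / 2) : ℝ) * G ^ (-3 : ℝ) * ((K : ℝ) + 1) ^ (-(9 / 2 * (1 - ρ.re))) := by
    have hG0 : 0 < G := by linarith
    rw [Real.mul_rpow (by positivity) (by positivity), Real.mul_rpow (by positivity) (by positivity),
      ← Real.rpow_mul hK0.le, ← Real.rpow_natCast G 2, ← Real.rpow_mul hG0.le]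
    congr 2
    · norm_num
    · ring
  rw [e1]
  have h2 : |ρ.im| ^ (-3 : ℝ) / 8 ≤ G ^ (-3 : ℝ) := by
    have hγ0 : 0 < |ρ.im| := by linarith
    calc |ρ.im| ^ (-3 : ℝ) / 8 = (2 * |ρ.im|) ^ (-3 : ℝ) := by
          rw [Real.mul_rpow (by norm_num) hγ0.le]
          norm_num
          ring
      _ ≤ G ^ (-3 : ℝ) := Real.rpow_le_rpow_of_nonpos (by linarith) hGγ (by norm_num)
  calc W ^ (-(3 / 2) : ℝ) / 8 * |ρ.im| ^ (-3 : ℝ) * ((K : ℝ) + 1) ^ (-(9 / 2 * (1 - ρ.re)))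
      = W ^ (-(3 / 2) : ℝ) * (|ρ.im| ^ (-3 : ℝ) / 8) * ((K : ℝ) + 1) ^ (-(9 / 2 * (1 - ρ.re))) := by ring
    _ ≤ _ := by gcongr

/-- **one level excludes the zeros of a rectangle** -/
theorem certificate {δ : ℝ} (hδ : 0 < δ) : ∃ K₀ : ℕ, ∀ K : ℕ, K₀ ≤ K → ∀ a : ℕ → ℝ,
    dist1 K a ≤ ENNReal.ofReal (((K : ℝ) + 1) ^ (-δ)) → ∀ ρ : ℂ, riemannZeta ρ = 0 → 1 ≤ |ρ.im| →
      |ρ.im| ≤ ((K : ℝ) + 1) ^ (δ / 6) → ρ.re < max (1 / 2) (1 - δ / 18) := by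
  obtain ⟨c, hc, hl⟩ := lower_unif
  have hp : 0 < δ / 4 := by linarith
  have hev : ∀ᶠ K : ℕ in atTop, 1 / c < ((K : ℝ) + 1) ^ (δ / 4) := by
    have h1 : Tendsto (fun K : ℕ => ((K : ℝ) + 1) ^ (δ / 4)) atTop atTop :=
      (tendsto_rpow_atTop hp).comp (tendsto_atTop_add_const_right _ _ tendsto_natCast_atTop_atTop)
    exact h1.eventually_gt_atTop _
  obtain ⟨K₀, hK₀⟩ := eventually_atTop.1 (hev.and (eventually_ge_atTop 1))
  refine ⟨K₀, fun K hK a ha ρ hρ h1 h2 => ?_⟩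
  obtain ⟨h3, h4⟩ := hK₀ K hK
  by_contra hcon
  push Not at hcon
  have h5 : 1 / 2 ≤ ρ.re := (le_max_left _ _).trans hcon
  have h6 : 1 - δ / 18 ≤ ρ.re := (le_max_right _ _).trans hcon
  have hK1 : (1 : ℝ) ≤ (K : ℝ) + 1 := by
    have : (0 : ℝ) ≤ K := Nat.cast_nonneg K
    linarith
  have hK0 : (0 : ℝ) < (K : ℝ) + 1 := by linarith
  have hγ0 : 0 < |ρ.im| := by linarith
  have h7 := (hl ρ hρ h5 h1 K h4 a).trans ha
  rw [ENNReal.ofReal_le_ofReal_iff (by positivity)] at h7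
  have h8 : ((K : ℝ) + 1) ^ (-(δ / 2)) ≤ |ρ.im| ^ (-3 : ℝ) := by
    calc ((K : ℝ) + 1) ^ (-(δ / 2)) = (((K : ℝ) + 1) ^ (δ / 6)) ^ (-3 : ℝ) := by
          rw [← Real.rpow_mul hK0.le]
          congr 1
          ring
      _ ≤ |ρ.im| ^ (-3 : ℝ) := Real.rpow_le_rpow_of_nonpos hγ0 h2 (by norm_num)
  have h9 : ((K : ℝ) + 1) ^ (-(δ / 4)) ≤ ((K : ℝ) + 1) ^ (-(9 / 2 * (1 - ρ.re))) :=
    Real.rpow_le_rpow_of_exponent_le hK1 (by linarith)
  have h10 : c * ((K : ℝ) + 1) ^ (-(δ / 2)) * ((K : ℝ) + 1) ^ (-(δ / 4)) ≤ ((K : ℝ) + 1) ^ (-δ) := by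
    refine le_trans ?_ h7
    gcongr
  rw [mul_assoc, ← Real.rpow_add hK0] at h10
  have e : ((K : ℝ) + 1) ^ (-(δ / 2) + -(δ / 4)) = ((K : ℝ) + 1) ^ (δ / 4) * ((K : ℝ) + 1) ^ (-δ) := by
    rw [← Real.rpow_add hK0]
    congr 1
    ring
  rw [e, ← mul_assoc] at h10
  have h11 : 0 < ((K : ℝ) + 1) ^ (-δ) := by positivity
  have h12 : c * ((K : ℝ) + 1) ^ (δ / 4) ≤ 1 := by
    by_contra h13
    push Not at h13
    nlinarith
  rw [div_lt_iff₀ hc] at h3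
  linarith

end Pool.Agent.L5helper77.Cheb
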