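import Pool.Agent.H437R2.A2
import Pool.Agent.H296R2.LE.Basic

/-!
A function whose logarithmic derivative is close to a given analytic function on a small disc
has no zeros in a larger disc.
-/

set_option autoImplicit false

open MeasureTheory Filter Topology Set Metric

namespace Pool.Agent.L5helper77.Edge

open Pool.Agent.H437R2

theorem landau' (F : ℂ → ℂ) (hF : Differentiable ℂ F) (c : ℂ) {r R1 R2 M : ℝ} (hr : 0 < r)
    (hr1 : r < R1) (hR : R1 < R2) (hFc : F c ≠ 0) (hM : ∀ z ∈ closedBall c R2, ‖F z‖ ≤ M) :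
    ∃ (L : List ℂ) (G : ℂ → ℂ), (∀ ρ ∈ L, F ρ = 0 ∧ ρ ∈ closedBall c R1) ∧
      (∀ ρ ∈ closedBall c R1, F ρ = 0 → ρ ∈ L) ∧ Differentiable ℂ G ∧
      (∀ z ∈ closedBall c R1, G z ≠ 0) ∧
      (∀ v, F v = (L.map (fun r => v - r)).prod * G v) ∧
      (L.length : ℝ) * Real.log (R2 / R1) ≤ Real.log (M / ‖F c‖) ∧
      ∀ z ∈ closedBall c r, ‖deriv G z / G z‖ ≤
          8 * R1 / (R1 - r) ^ 2 *
            (Real.log (M / ‖F c‖) + L.length * |Real.log (R1 / (R2 - R1))| + 1) := by
  have hR1 : 0 < R1 := hr.trans hr1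
  have hR2 : 0 < R2 := hR1.trans hR
  have hR21 : 0 < R2 - R1 := sub_pos.2 hR
  have hFc0 : 0 < ‖F c‖ := norm_pos_iff.2 hFc
  have hMc : ‖F c‖ ≤ M := hM c (mem_closedBall_self hR2.le)
  have hM0 : 0 < M := hFc0.trans_le hMc
  obtain ⟨L, G, hL1, hL2, hG, hGK, hFG⟩ :=
    entire_factor F hF ⟨c, hFc⟩ (closedBall c R1) (isCompact_closedBall c R1)
  set n := L.length with hn
  have hGc : G c ≠ 0 := hGK c (mem_closedBall_self hR1.le)
  have hGc0 : 0 < ‖G c‖ := norm_pos_iff.2 hGc
  have hprodnorm : ∀ v : ℂ, ‖F v‖ = (L.map (fun ρ => ‖v - ρ‖)).prod * ‖G v‖ := by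
    intro v
    rw [hFG v, norm_mul, norm_list_prod, List.map_map]
    rfl
  have hFcle : ‖F c‖ ≤ R1 ^ n * ‖G c‖ := by
    rw [hprodnorm c]
    refine mul_le_mul_of_nonneg_right (list_prod_le_pow L _ R1 (fun _ _ => norm_nonneg _) ?_).1
      (norm_nonneg _)
    intro ρ hρ
    have := (hL1 ρ hρ).2
    rw [mem_closedBall, dist_eq_norm] at this
    rwa [norm_sub_rev]
  -- Step 1: counting
  have hcount : R2 ^ n * ‖G c‖ ≤ M := by
    set B : ℂ → ℂ := fun v =>
      (L.map (fun ρ => ((R2:ℂ) ^ 2 - (starRingEnd ℂ) (ρ - c) * (v - c)) / R2)).prod * G v with hB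
    have hBd : Differentiable ℂ B := by
      have : ∀ L' : List ℂ, Differentiable ℂ (fun v : ℂ =>
          (L'.map (fun ρ => ((R2:ℂ) ^ 2 - (starRingEnd ℂ) (ρ - c) * (v - c)) / R2)).prod) := by
        intro L'
        induction L' with
        | nil => simp
        | cons a L' ih =>
          simp only [List.map_cons, List.prod_cons]
          refine Differentiable.mul ?_ ih
          fun_prop
      exact (this L).mul hG
    have hBc : ‖B c‖ = R2 ^ n * ‖G c‖ := by
      simp only [hB, sub_self, mul_zero, sub_zero, norm_mul]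
      congr 1
      have hR2c : (R2:ℂ) ≠ 0 := by exact_mod_cast hR2.ne'
      have h2 : (R2:ℂ) ^ 2 / R2 = R2 := by field_simp
      rw [h2, List.map_const', List.prod_replicate, norm_pow, Complex.norm_real,
        Real.norm_of_nonneg hR2.le]
    have hBs : ∀ z ∈ frontier (ball c R2), ‖B z‖ ≤ M := by
      intro z hz
      rw [frontier_ball c hR2.ne', mem_sphere, dist_eq_norm] at hz
      have h1 : ‖B z‖ = ‖F z‖ := by
        rw [hprodnorm z]
        simp only [hB, norm_mul]
        rw [norm_list_prod, List.map_map]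
        congr 2
        refine List.map_congr_left fun ρ _ => ?_
        show ‖((R2:ℂ) ^ 2 - (starRingEnd ℂ) (ρ - c) * (z - c)) / R2‖ = ‖z - ρ‖
        have h3 : (R2:ℂ) ^ 2 = (starRingEnd ℂ) (z - c) * (z - c) := by
          rw [mul_comm, Complex.mul_conj, Complex.normSq_eq_norm_sq, hz]
          push_cast
          ring
        rw [h3, ← sub_mul, ← map_sub, norm_div, norm_mul, hz, Complex.norm_real,
          Real.norm_of_nonneg hR2.le, mul_div_cancel_right₀ _ hR2.ne', RCLike.norm_conj]
        congr 1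
        ring
      rw [h1]
      refine hM z ?_
      rw [mem_closedBall, dist_eq_norm]
      exact hz.le
    have := Complex.norm_le_of_forall_mem_frontier_norm_le isBounded_ball
      (hBd.diffContOnCl (s := ball c R2)) hBs (subset_closure (mem_ball_self hR2))
    rwa [hBc] at this
  -- Step 2: sup of G
  have hGsup : ∀ z ∈ closedBall c R2, ‖G z‖ ≤ M / (R2 - R1) ^ n := by
    intro z hz
    have hs : ∀ z ∈ frontier (ball c R2), ‖G z‖ ≤ M / (R2 - R1) ^ n := by
      intro z hz
      rw [frontier_ball c hR2.ne', mem_sphere, dist_eq_norm] at hz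
      rw [le_div_iff₀ (pow_pos hR21 n)]
      have h1 : (R2 - R1) ^ n ≤ (L.map (fun ρ => ‖z - ρ‖)).prod := by
        refine pow_le_list_prod L _ _ hR21.le ?_
        intro ρ hρ
        have h2 := (hL1 ρ hρ).2
        rw [mem_closedBall, dist_eq_norm] at h2
        have h3 : ‖z - c‖ ≤ ‖z - ρ‖ + ‖ρ - c‖ := by
          have := norm_add_le (z - ρ) (ρ - c)
          rwa [sub_add_sub_cancel] at this
        linarith
      calc ‖G z‖ * (R2 - R1) ^ n ≤ ‖G z‖ * (L.map (fun ρ => ‖z - ρ‖)).prod := by gcongr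
        _ = ‖F z‖ := by rw [hprodnorm z, mul_comm]
        _ ≤ M := hM z (by rw [mem_closedBall, dist_eq_norm]; exact hz.le)
    refine Complex.norm_le_of_forall_mem_frontier_norm_le isBounded_ball
      (hG.diffContOnCl (s := ball c R2)) hs ?_
    rwa [closure_ball c hR2.ne']
  -- Step 3: logarithm of G
  have hqd : DifferentiableOn ℂ (fun z => deriv G z / G z) (ball c R1) := by
    intro z hz
    have hGz := hGK z (ball_subset_closedBall hz)
    have h1 : DifferentiableAt ℂ (deriv G) z := (hG.analyticAt z).deriv.differentiableAt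
    exact (h1.div (hG z) hGz).differentiableWithinAt
  obtain ⟨h, hc0, hh⟩ := hqd.isExactOn_ball.with_val_at c 0
  have hexp : ∀ z ∈ ball c R1, G z = G c * Complex.exp (h z) := by
    have hconst : ∀ z ∈ ball c R1, G z * Complex.exp (-h z) = G c * Complex.exp (-h c) := by
      intro z hz
      have hd : ∀ w ∈ ball c R1, HasDerivAt (fun w => G w * Complex.exp (-h w)) 0 w := by
        intro w hw
        have h1 : HasDerivAt (fun w => G w * Complex.exp (-h w))
            (deriv G w * Complex.exp (-h w) + G w * (Complex.exp (-h w) * -(deriv G w / G w))) w :=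
          (hG w).hasDerivAt.mul (hh w hw).neg.cexp
        have hGw := hGK w (ball_subset_closedBall hw)
        have h2 : deriv G w * Complex.exp (-h w) + G w * (Complex.exp (-h w) * -(deriv G w / G w)) = 0 := by
          field_simp
          ring
        rw [h2] at h1
        exact h1
      exact isOpen_ball.is_const_of_deriv_eq_zero (isConnected_ball hR1).isPreconnected
        (fun w hw => (hd w hw).differentiableAt.differentiableWithinAt)
        (fun w hw => (hd w hw).deriv) hz (mem_ball_self hR1)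
    intro z hz
    have h1 := hconst z hz
    rw [hc0, neg_zero, Complex.exp_zero, mul_one] at h1
    rw [← h1, mul_assoc, ← Complex.exp_add]
    simp
  set Λ : ℝ := Real.log (M / ‖F c‖) + n * |Real.log (R1 / (R2 - R1))| + 1 with hΛ
  have hlog0 : 0 ≤ Real.log (M / ‖F c‖) := Real.log_nonneg ((one_le_div hFc0).2 hMc)
  have hΛ0 : 0 < Λ := by positivity
  have hre : ∀ z ∈ ball c R1, (h z).re ≤ Λ := by
    intro z hz
    have h1 : Real.exp ((h z).re) = ‖G z‖ / ‖G c‖ := by
      rw [hexp z hz, norm_mul, Complex.norm_exp, mul_div_cancel_left₀ _ hGc0.ne']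
    have h2 : ‖G z‖ ≤ M / (R2 - R1) ^ n :=
      hGsup z (closedBall_subset_closedBall hR.le (ball_subset_closedBall hz))
    have h3 : ‖G z‖ / ‖G c‖ ≤ M / ‖F c‖ * (R1 / (R2 - R1)) ^ n := by
      rw [div_le_iff₀ hGc0, div_pow]
      calc ‖G z‖ ≤ M / (R2 - R1) ^ n := h2
        _ = M / ‖F c‖ * (1 / (R2 - R1) ^ n) * ‖F c‖ := by field_simp
        _ ≤ M / ‖F c‖ * (1 / (R2 - R1) ^ n) * (R1 ^ n * ‖G c‖) := by gcongr
        _ = M / ‖F c‖ * (R1 ^ n / (R2 - R1) ^ n) * ‖G c‖ := by ring
    have h4 : Real.exp ((h z).re) ≤ Real.exp (Real.log (M / ‖F c‖) + n * Real.log (R1 / (R2 - R1))) := by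
      rw [h1, Real.exp_add, Real.exp_log (by positivity), Real.exp_nat_mul,
        Real.exp_log (by positivity)]
      exact h3
    have h5 := Real.exp_le_exp.1 h4
    have h6 : (n:ℝ) * Real.log (R1 / (R2 - R1)) ≤ n * |Real.log (R1 / (R2 - R1))| := by
      gcongr
      exact le_abs_self _
    linarith
  -- Step 4: Borel-Caratheodory
  set r' : ℝ := (r + R1) / 2 with hr'
  have hr'1 : r < r' := by rw [hr']; linarith
  have hr'2 : r' < R1 := by rw [hr']; linarith
  have hbc : ∀ z ∈ closedBall c r', ‖h z‖ ≤ 2 * Λ * r' / (R1 - r') := by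
    intro z hz
    rw [mem_closedBall, dist_eq_norm] at hz
    have h1 : DifferentiableOn ℂ (fun w => h (c + w)) (ball 0 R1) := by
      intro w hw
      have hcw : c + w ∈ ball c R1 := by
        rw [mem_ball, dist_eq_norm, add_sub_cancel_left]
        simpa using hw
      have := (hh (c + w) hcw).differentiableAt
      exact (this.comp w (by fun_prop : DifferentiableAt ℂ (fun w => c + w) w)).differentiableWithinAt
    have h2 : MapsTo (fun w => h (c + w)) (ball 0 R1) {z | z.re ≤ Λ} := by
      intro w hw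
      have hcw : c + w ∈ ball c R1 := by
        rw [mem_ball, dist_eq_norm, add_sub_cancel_left]
        simpa using hw
      exact hre _ hcw
    have h3 : z - c ∈ ball (0:ℂ) R1 := by
      rw [mem_ball, dist_zero_right]
      linarith
    have h4 := Complex.borelCaratheodory_zero hΛ0 h1 h2 hR1 h3 (by simp [hc0])
    simp only [add_sub_cancel] at h4
    refine h4.trans ?_
    have h5 : 0 < R1 - ‖z - c‖ := by linarith
    have h6 : 0 < R1 - r' := by linarith
    gcongr
  refine ⟨L, G, hL1, hL2, hG, hGK, hFG, ?_, ?_⟩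
  · have h1 : (R2 / R1) ^ n ≤ M / ‖F c‖ := by
      rw [le_div_iff₀ hFc0, div_pow]
      calc R2 ^ n / R1 ^ n * ‖F c‖ ≤ R2 ^ n / R1 ^ n * (R1 ^ n * ‖G c‖) := by gcongr
        _ = R2 ^ n * ‖G c‖ := by field_simp
        _ ≤ M := hcount
    have h2 := Real.log_le_log (by positivity) h1
    rwa [Real.log_pow] at h2
  · intro z hz
    rw [mem_closedBall, dist_eq_norm] at hz
    have hzb : z ∈ ball c R1 := by
      rw [mem_ball, dist_eq_norm]; linarith
    rw [← (hh z hzb).deriv]
    have hδ : 0 < (R1 - r) / 2 := by linarith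
    have h1 : DiffContOnCl ℂ h (ball z ((R1 - r) / 2)) := by
      refine DifferentiableOn.diffContOnCl ?_
      rw [closure_ball _ hδ.ne']
      intro w hw
      rw [mem_closedBall, dist_eq_norm] at hw
      have : w ∈ ball c R1 := by
        rw [mem_ball, dist_eq_norm]
        have := norm_add_le (w - z) (z - c)
        rw [sub_add_sub_cancel] at this
        linarith
      exact (hh w this).differentiableAt.differentiableWithinAt
    have h2 : ∀ w ∈ sphere z ((R1 - r) / 2), ‖h w‖ ≤ 2 * Λ * r' / (R1 - r') := by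
      intro w hw
      rw [mem_sphere, dist_eq_norm] at hw
      refine hbc w ?_
      rw [mem_closedBall, dist_eq_norm]
      have := norm_add_le (w - z) (z - c)
      rw [sub_add_sub_cancel] at this
      rw [hr']
      linarith
    refine (Complex.norm_deriv_le_of_forall_mem_sphere_norm_le hδ h1 h2).trans ?_
    have e : R1 - r' = (R1 - r) / 2 := by rw [hr']; ring
    rw [e]
    have hpos : 0 < R1 - r := by linarith
    have e2 : 2 * Λ * r' / ((R1 - r) / 2) / ((R1 - r) / 2) = 8 * r' / (R1 - r) ^ 2 * Λ := by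
      field_simp
      ring
    rw [e2]
    gcongr


lemma xlog_tangent {x A : ℝ} (hx : 0 ≤ x) (hA : 0 < A) :
    x * Real.log A + x - A ≤ x * Real.log x := by
  rcases hx.eq_or_lt with h | h
  · rw [← h]; simp; linarith
  · have h1 := Real.log_le_sub_one_of_pos (div_pos hA h)
    rw [Real.log_div hA.ne' h.ne'] at h1
    have h2 := mul_le_mul_of_nonneg_left h1 h.le
    have h3 : x * (A / x - 1) = A - x := by field_simp
    nlinarith

lemma xlog_diff {v l : ℝ} (hl : 0 < l) :
    l * Real.log (l / 2) ≤ (v + l) * Real.log (v + l) - v * Real.log v := by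
  have hl2 : 0 < l / 2 := by positivity
  have key : ∀ v : ℝ, 0 ≤ v → l * Real.log (l / 2) ≤ (v + l) * Real.log (v + l) - v * Real.log v := by
    intro v hv
    have h1 : v * Real.log v ≤ v * Real.log (v + l) := by
      rcases hv.eq_or_lt with h | h
      · rw [← h]; simp
      · exact mul_le_mul_of_nonneg_left (Real.log_le_log h (by linarith)) hv
    have h2 : Real.log (l / 2) ≤ Real.log (v + l) := Real.log_le_log hl2 (by linarith)
    nlinarith
  rcases le_total 0 v with hv | hv
  · exact key v hv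
  · rcases le_total 0 (v + l) with hu | hu
    · have h1 := xlog_tangent (x := -v) (by linarith) hl2
      have h2 := xlog_tangent hu hl2
      rw [Real.log_neg_eq_log] at h1
      nlinarith
    · have h1 := key (-(v + l)) (by linarith)
      have e : -(v + l) + l = -v := by ring
      rw [e, Real.log_neg_eq_log, Real.log_neg_eq_log] at h1
      linarith

lemma int_log_lower (r : ℝ) {a b : ℝ} (hab : a < b) :
    IntervalIntegrable (fun x => Real.log |x - r|) volume a b ∧
    (b - a) * (Real.log ((b - a) / 2) - 1) ≤ ∫ x in a..b, Real.log |x - r| := by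
  have e : (fun x : ℝ => Real.log |x - r|) = fun x => Real.log (x - r) := by
    funext x; rw [Real.log_abs]
  rw [e]
  constructor
  · have := (intervalIntegral.intervalIntegrable_log' (a := a - r) (b := b - r))
    exact this.comp_sub_right r |>.mono_set (by simp)
  · rw [intervalIntegral.integral_comp_sub_right (fun x => Real.log x) r, integral_log]
    have h := xlog_diff (v := a - r) (l := b - a) (by linarith)
    have e2 : a - r + (b - a) = b - r := by ring
    rw [e2] at h
    linarith

lemma good_radius (L : List ℝ) {a b : ℝ} (hab : a < b) :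
    ∃ x ∈ Icc a b, (∀ r ∈ L, x ≠ r) ∧
      ((b - a) / 16) ^ L.length ≤ (L.map (fun r => |x - r|)).prod := by
  have hint : ∀ L : List ℝ, IntervalIntegrable (fun x => (L.map (fun r => Real.log |x - r|)).sum)
      volume a b ∧ (L.length : ℝ) * ((b - a) * (Real.log ((b - a) / 2) - 1)) ≤
        ∫ x in a..b, (L.map (fun r => Real.log |x - r|)).sum := by
    intro L
    induction L with
    | nil => simp
    | cons r L ih =>
      obtain ⟨h1, h2⟩ := int_log_lower r hab
      obtain ⟨h3, h4⟩ := ih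
      simp only [List.map_cons, List.sum_cons, List.length_cons]
      refine ⟨h1.add h3, ?_⟩
      rw [intervalIntegral.integral_add h1 h3]
      push_cast
      linarith
  have hba : 0 < b - a := by linarith
  by_contra hcon
  push Not at hcon
  rcases Nat.eq_zero_or_pos L.length with h0 | hn
  · have : L = [] := List.length_eq_zero_iff.1 h0
    subst this
    have := hcon a ⟨le_rfl, hab.le⟩ (by simp)
    simp at this
  obtain ⟨h1, h2⟩ := hint L
  have hn' : (0 : ℝ) < L.length := by exact_mod_cast hn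
  have hfin : ({x : ℝ | x ∈ L}).Finite := List.finite_toSet L
  have hae : ∀ᵐ x ∂(volume.restrict (Ioc a b)), (L.map (fun r => Real.log |x - r|)).sum ≤
      L.length * Real.log ((b - a) / 16) := by
    have hz : ∀ᵐ x ∂(volume.restrict (Ioc a b)), x ∉ {x : ℝ | x ∈ L} :=
      (measure_eq_zero_iff_ae_notMem.1 (measure_mono_null (le_refl _)
        (by
          have := hfin.measure_zero (volume.restrict (Ioc a b))
          exact this)))
    filter_upwards [hz, ae_restrict_mem measurableSet_Ioc] with x hx hxI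
    have hne : ∀ r ∈ L, x ≠ r := fun r hr h => hx (h ▸ hr)
    have h3 := hcon x ⟨hxI.1.le, hxI.2⟩ hne
    have h4 : (L.map (fun r => Real.log |x - r|)).sum = Real.log (L.map (fun r => |x - r|)).prod := by
      clear h3 h2 h1 hn hn' hcon hfin hz hx
      induction L with
      | nil => simp
      | cons r L ih =>
        simp only [List.map_cons, List.sum_cons, List.prod_cons]
        have hr : |x - r| ≠ 0 := abs_ne_zero.2 (sub_ne_zero.2 (hne r (List.mem_cons_self)))
        have hP : (L.map (fun r => |x - r|)).prod ≠ 0 := by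
          rw [Ne, List.prod_eq_zero_iff]
          intro h
          obtain ⟨s, hs, hs0⟩ := List.mem_map.1 h
          exact hne s (List.mem_cons_of_mem _ hs) (sub_eq_zero.1 (abs_eq_zero.1 hs0))
        rw [Real.log_mul hr hP, ih (fun s hs => hne s (List.mem_cons_of_mem _ hs))]
    rw [h4, ← Real.log_pow]
    have hP0 : 0 < (L.map (fun r => |x - r|)).prod := by
      refine List.prod_pos ?_
      intro s hs
      obtain ⟨r, hr, rfl⟩ := List.mem_map.1 hs
      exact abs_pos.2 (sub_ne_zero.2 (hne r hr))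
    exact Real.log_le_log hP0 h3.le
  have h5 : ∫ x in a..b, (L.map (fun r => Real.log |x - r|)).sum ≤
      ∫ x in a..b, (L.length : ℝ) * Real.log ((b - a) / 16) := by
    rw [intervalIntegral.integral_of_le hab.le, intervalIntegral.integral_of_le hab.le]
    refine integral_mono_ae ?_ ?_ hae
    · exact (intervalIntegrable_iff_integrableOn_Ioc_of_le hab.le).1 h1
    · exact integrable_const _
  rw [intervalIntegral.integral_const, smul_eq_mul] at h5
  have h6 : Real.log ((b - a) / 16) = Real.log ((b - a) / 2) - Real.log 8 := by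
    rw [← Real.log_div (by positivity) (by norm_num)]
    congr 1; ring
  have h7 : 1 < Real.log 8 := by
    rw [Real.lt_log_iff_exp_lt (by norm_num)]
    linarith [Real.exp_one_lt_d9]
  rw [h6] at h5
  have h8 : 0 < (L.length : ℝ) * (b - a) := by positivity
  nlinarith

lemma circ_one (c ρ : ℂ) {R : ℝ} (hR : 0 < R) (h : ρ ∉ sphere c R) :
    CircleIntegrable (fun z => (z - ρ)⁻¹) c R ∧ ∃ k : ℕ, (∮ z in C(c, R), (z - ρ)⁻¹) =
      k * (2 * Real.pi * Complex.I) ∧ (ρ ∈ ball c R → 1 ≤ k) := by
  constructor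
  · rw [circleIntegrable_sub_inv_iff]
    right
    rwa [abs_of_pos hR]
  · by_cases hb : ρ ∈ ball c R
    · exact ⟨1, by rw [circleIntegral.integral_sub_inv_of_mem_ball hb]; simp, fun _ => le_rfl⟩
    · refine ⟨0, ?_, fun h' => absurd h' hb⟩
      have hcl : ρ ∉ closedBall c R := by
        intro h'
        rcases (mem_closedBall.1 h').eq_or_lt with h1 | h1
        · exact h (mem_sphere.2 h1)
        · exact hb (mem_ball.2 h1)
      rw [Complex.circleIntegral_eq_zero_of_differentiable_on_off_countable hR.le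
        countable_empty]
      · simp
      · apply ContinuousOn.inv₀
        · fun_prop
        · intro z hz h0
          exact hcl (by rw [← sub_eq_zero.1 h0]; exact hz)
      · intro z hz
        apply DifferentiableAt.inv
        · fun_prop
        · intro h0
          exact hb (by rw [← sub_eq_zero.1 h0]; exact hz.1)

lemma circ_list (L : List ℂ) (c : ℂ) {R : ℝ} (hR : 0 < R) (hL : ∀ ρ ∈ L, ρ ∉ sphere c R) :
    CircleIntegrable (fun z => (L.map (fun ρ => (z - ρ)⁻¹)).sum) c R ∧
    ∃ k : ℕ, (∮ z in C(c, R), (L.map (fun ρ => (z - ρ)⁻¹)).sum) =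
      k * (2 * Real.pi * Complex.I) ∧ ((∃ ρ ∈ L, ρ ∈ ball c R) → 1 ≤ k) := by
  induction L with
  | nil =>
    refine ⟨?_, 0, ?_, ?_⟩
    · simp
    · simp [circleIntegral]
    · rintro ⟨ρ, h, _⟩
      simp at h
  | cons a L ih =>
    obtain ⟨h1, k1, h2, h3⟩ := circ_one c a hR (hL a List.mem_cons_self)
    obtain ⟨h4, k2, h5, h6⟩ := ih (fun ρ hρ => hL ρ (List.mem_cons_of_mem _ hρ))
    simp only [List.map_cons, List.sum_cons]
    refine ⟨h1.add h4, k1 + k2, ?_, ?_⟩
    · rw [circleIntegral.integral_add h1 h4, h2, h5]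
      push_cast
      ring
    · rintro ⟨ρ, h7, h8⟩
      rcases List.mem_cons.1 h7 with h9 | h9
      · rw [h9] at h8
        have := h3 h8
        omega
      · have := h6 ⟨ρ, h9, h8⟩
        omega

lemma list_prod_diff (L : List ℂ) : Differentiable ℂ (fun v : ℂ => (L.map (fun r => v - r)).prod) := by
  induction L with
  | nil => simp
  | cons a L ih =>
    simp only [List.map_cons, List.prod_cons]
    exact (differentiable_id.sub_const a).mul ih

/-- zeros are detected by a small disc (unit scale) -/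
theorem unit_scale : ∃ θ : ℝ, 0 < θ ∧ θ < 1 ∧ ∀ (F Q : ℂ → ℂ) (c : ℂ) (M B μ : ℝ),
    Differentiable ℂ F → F c ≠ 0 → (∀ z ∈ closedBall c 7, ‖F z‖ ≤ M) →
    DifferentiableOn ℂ Q (ball c 6) → (∀ z ∈ ball c 6, ‖Q z‖ ≤ B) → 1 ≤ B → 0 < μ → μ ≤ 1 →
    (∀ z ∈ closedBall c (1 / 2), F z ≠ 0 ∧ ‖deriv F z / F z + Q z‖ ≤ μ) →
    Real.exp (90 * (Real.log (M / ‖F c‖) + 1)) * B * μ ^ (1 - θ) < 1 / 5 →
    ∀ z ∈ closedBall c 4, F z ≠ 0 := by
  obtain ⟨θ, hθ0, hθ1, h3c⟩ := Pool.Agent.H296R2.LE.three_circles (r := 1 / 2) (ρ := 5) (R := 6)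
    (by norm_num) (by norm_num) (by norm_num)
  refine ⟨θ, hθ0, hθ1, ?_⟩
  intro F Q c M B μ hF hFc hM hQd hQ hB hμ hμ1 hnear hfin z₀ hz₀ hFz₀
  have hFc0 : 0 < ‖F c‖ := norm_pos_iff.2 hFc
  have hMc : ‖F c‖ ≤ M := hM c (mem_closedBall_self (by norm_num))
  set Λ := Real.log (M / ‖F c‖) with hΛ
  have hΛ0 : 0 ≤ Λ := Real.log_nonneg ((one_le_div hFc0).2 hMc)
  obtain ⟨L, G, hL1, hL2, hG, hGK, hFG, hcnt, hGb⟩ := landau' F hF c (r := 6) (R1 := 13 / 2)
    (R2 := 7) (by norm_num) (by norm_num) (by norm_num) hFc hM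
  rw [← hΛ] at hcnt hGb
  set n := L.length with hn
  -- the count
  have hlog1 : (1 : ℝ) / 14 ≤ Real.log (7 / (13 / 2)) := by
    have := Real.one_sub_inv_le_log_of_pos (x := (7 : ℝ) / (13 / 2)) (by norm_num)
    norm_num at this ⊢
    linarith
  have hn14 : (n : ℝ) ≤ 14 * Λ := by
    have h1 : (n : ℝ) * (1 / 14) ≤ n * Real.log (7 / (13 / 2)) :=
      mul_le_mul_of_nonneg_left hlog1 (Nat.cast_nonneg _)
    linarith
  have hlog2 : |Real.log (13 / 2 / (7 - 13 / 2))| ≤ 3 := by
    have e : (13 : ℝ) / 2 / (7 - 13 / 2) = 13 := by norm_num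
    rw [e, abs_of_nonneg (Real.log_nonneg (by norm_num)), Real.log_le_iff_le_exp (by norm_num)]
    have h1 : (2.7 : ℝ) ≤ Real.exp 1 := by linarith [Real.exp_one_gt_d9]
    have h2 : Real.exp 3 = Real.exp 1 ^ 3 := by rw [← Real.exp_nat_mul]; norm_num
    rw [h2]
    calc (13 : ℝ) ≤ 2.7 ^ 3 := by norm_num
      _ ≤ Real.exp 1 ^ 3 := by gcongr
  set E0 := 208 * (Λ + n * 3 + 1) with hE0
  have hGb' : ∀ z ∈ closedBall c 6, ‖deriv G z / G z‖ ≤ E0 := by
    intro z hz
    refine (hGb z hz).trans ?_
    have e : (8 : ℝ) * (13 / 2) / (13 / 2 - 6) ^ 2 = 208 := by norm_num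
    rw [e, hE0]
    have : (n : ℝ) * |Real.log (13 / 2 / (7 - 13 / 2))| ≤ n * 3 :=
      mul_le_mul_of_nonneg_left hlog2 (Nat.cast_nonneg _)
    linarith
  have hE00 : 0 ≤ E0 := by positivity
  -- the auxiliary function
  set p : ℂ → ℂ := fun v => (L.map (fun r => v - r)).prod with hp
  have hpd : Differentiable ℂ p := list_prod_diff L
  set K : ℂ → ℂ := fun z => deriv p z + p z * (deriv G z / G z + Q z) with hK
  have hpn : ∀ v, ‖p v‖ = (L.map (fun r => ‖v - r‖)).prod := by
    intro v
    simp only [hp]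
    rw [norm_list_prod, List.map_map]
    rfl
  have hpb : ∀ v ∈ closedBall c 7, ‖p v‖ ≤ 14 ^ n := by
    intro v hv
    rw [hpn]
    refine (list_prod_le_pow L _ 14 (fun _ _ => norm_nonneg _) ?_).1
    intro r hr
    have h1 := (hL1 r hr).2
    rw [mem_closedBall, dist_eq_norm] at h1 hv
    have := norm_sub_le_norm_sub_add_norm_sub v c r
    rw [norm_sub_rev c r] at this
    linarith
  have hFne : ∀ z, F z ≠ 0 → p z ≠ 0 := by
    intro z hz h0
    apply hz
    rw [hFG z]
    simp only [hp] at h0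
    rw [h0, zero_mul]
  have hKeq : ∀ z, F z ≠ 0 → K z = p z * (deriv F z / F z + Q z) := by
    intro z hz
    have hpz := hFne z hz
    have hGz : G z ≠ 0 := by
      intro h0
      apply hz
      rw [hFG z, h0, mul_zero]
    have h1 : deriv F z = deriv p z * G z + p z * deriv G z := by
      have h2 : F = fun v => p v * G v := funext hFG
      rw [h2]
      exact ((hpd z).hasDerivAt.mul (hG z).hasDerivAt).deriv
    have h2 : F z = p z * G z := hFG z
    simp only [hK]
    rw [h1, h2]
    field_simp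
    ring
  have hdp : ∀ z ∈ ball c 6, ‖deriv p z‖ ≤ 14 ^ n := by
    intro z hz
    have h1 : ∀ w ∈ sphere z 1, ‖p w‖ ≤ 14 ^ n := by
      intro w hw
      apply hpb
      rw [mem_closedBall, dist_eq_norm]
      rw [mem_sphere, dist_eq_norm] at hw
      rw [mem_ball, dist_eq_norm] at hz
      have := norm_sub_le_norm_sub_add_norm_sub w z c
      linarith
    have h2 := Complex.norm_deriv_le_of_forall_mem_sphere_norm_le one_pos
      (hpd.diffContOnCl (s := ball z 1)) h1
    simpa using h2
  have hKd : DifferentiableOn ℂ K (ball c 6) := by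
    intro z hz
    have hGz := hGK z (by
      rw [mem_closedBall]; rw [mem_ball] at hz; linarith)
    have h1 : DifferentiableAt ℂ (deriv G) z := (hG.analyticAt z).deriv.differentiableAt
    have h2 : DifferentiableAt ℂ (deriv p) z := (hpd.analyticAt z).deriv.differentiableAt
    have h3 : DifferentiableAt ℂ Q z := (hQd z hz).differentiableAt (isOpen_ball.mem_nhds hz)
    exact (h2.add ((hpd z).mul ((h1.div (hG z) hGz).add h3))).differentiableWithinAt
  have hKb : ∀ z ∈ ball c 6, ‖K z‖ ≤ 14 ^ n * (1 + E0 + B) := by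
    intro z hz
    have h1 := hdp z hz
    have h2 := hpb z (ball_subset_closedBall (ball_subset_ball (by norm_num) hz))
    have h3 := hGb' z (ball_subset_closedBall hz)
    have h4 := hQ z hz
    calc ‖K z‖ ≤ ‖deriv p z‖ + ‖p z‖ * (‖deriv G z / G z‖ + ‖Q z‖) := by
          refine (norm_add_le _ _).trans ?_
          rw [norm_mul]
          gcongr
          exact norm_add_le _ _
      _ ≤ 14 ^ n + 14 ^ n * (E0 + B) := by gcongr
      _ = _ := by ring
  have hKs : ∀ z ∈ closedBall c (1 / 2), ‖K z‖ ≤ 14 ^ n * μ := by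
    intro z hz
    obtain ⟨h1, h2⟩ := hnear z hz
    rw [hKeq z h1, norm_mul]
    have h3 := hpb z (closedBall_subset_closedBall (by norm_num) hz)
    gcongr
  have h14 : (0 : ℝ) < 14 ^ n := by positivity
  have hK5 := h3c K c (14 ^ n * μ) (14 ^ n * (1 + E0 + B)) (by positivity)
    (by
      apply mul_le_mul_of_nonneg_left _ h14.le
      linarith) hKd hKs hKb
  have hK5' : ∀ z ∈ closedBall c 5, ‖K z‖ ≤ 14 ^ n * (μ ^ (1 - θ) * (1 + E0 + B)) := by
    intro z hz
    refine (hK5 z hz).trans ?_
    have hpos : (0 : ℝ) < 1 + E0 + B := by linarith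
    rw [Real.mul_rpow h14.le hμ.le, Real.mul_rpow h14.le hpos.le]
    have e1 : ((14 : ℝ) ^ n) ^ (1 - θ) * ((14 : ℝ) ^ n) ^ θ = 14 ^ n := by
      rw [← Real.rpow_add h14]; simp
    have e2 : (1 + E0 + B) ^ θ ≤ 1 + E0 + B := by
      calc (1 + E0 + B) ^ θ ≤ (1 + E0 + B) ^ (1 : ℝ) :=
            Real.rpow_le_rpow_of_exponent_le (by linarith) hθ1.le
        _ = _ := Real.rpow_one _
    calc ((14 : ℝ) ^ n) ^ (1 - θ) * μ ^ (1 - θ) * (((14 : ℝ) ^ n) ^ θ * (1 + E0 + B) ^ θ)
        = (((14 : ℝ) ^ n) ^ (1 - θ) * ((14 : ℝ) ^ n) ^ θ) * (μ ^ (1 - θ) * (1 + E0 + B) ^ θ) := by ring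
      _ ≤ 14 ^ n * (μ ^ (1 - θ) * (1 + E0 + B)) := by
          rw [e1]
          gcongr
  -- the circle
  obtain ⟨x, hxI, hxne, hxp⟩ := good_radius (L.map (fun r => ‖r - c‖)) (a := 9 / 2) (b := 5)
    (by norm_num)
  have hx0 : 0 < x := by linarith [hxI.1]
  have hsph : ∀ ρ ∈ L, ρ ∉ sphere c x := by
    intro ρ hρ h
    rw [mem_sphere, dist_eq_norm] at h
    exact hxne ‖ρ - c‖ (List.mem_map.2 ⟨ρ, hρ, rfl⟩) h.symm
  have hplow : ∀ z ∈ sphere c x, (1 / 32 : ℝ) ^ n ≤ ‖p z‖ := by
    intro z hz
    rw [hpn]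
    rw [List.length_map, List.map_map] at hxp
    have e : ((5 : ℝ) - 9 / 2) / 16 = 1 / 32 := by norm_num
    rw [e] at hxp
    refine hxp.trans ?_
    have hle : ∀ L' : List ℂ, (L'.map ((fun r => |x - r|) ∘ fun r => ‖r - c‖)).prod ≤
        (L'.map (fun r => ‖z - r‖)).prod := by
      intro L'
      induction L' with
      | nil => simp
      | cons a L' ih =>
        simp only [List.map_cons, List.prod_cons]
        have h1 : |x - ‖a - c‖| ≤ ‖z - a‖ := by
          rw [mem_sphere, dist_eq_norm] at hz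
          rw [← hz]
          have := abs_norm_sub_norm_le (z - c) (a - c)
          rwa [sub_sub_sub_cancel_right] at this
        have h2 : 0 ≤ (L'.map ((fun r => |x - r|) ∘ fun r => ‖r - c‖)).prod := by
          refine List.prod_nonneg ?_
          intro s hs
          obtain ⟨r, _, rfl⟩ := List.mem_map.1 hs
          exact abs_nonneg _
        exact mul_le_mul h1 ih h2 (norm_nonneg _)
    exact hle L
  have hFne' : ∀ z ∈ sphere c x, F z ≠ 0 := by
    intro z hz h0
    have hzL := hL2 z (by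
      rw [mem_closedBall, mem_sphere.1 hz]; linarith [hxI.2]) h0
    exact hsph z hzL hz
  -- bound on the circle
  have hfinal : ∀ z ∈ sphere c x, ‖deriv F z / F z + Q z‖ ≤
      Real.exp (90 * (Λ + 1)) * B * μ ^ (1 - θ) := by
    intro z hz
    have h1 := hK5' z (by rw [mem_closedBall, mem_sphere.1 hz]; exact hxI.2)
    rw [hKeq z (hFne' z hz), norm_mul] at h1
    have h2 := hplow z hz
    have h32 : (0 : ℝ) < (1 / 32) ^ n := by positivity
    have hμθ : 0 < μ ^ (1 - θ) := Real.rpow_pos_of_pos hμ _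
    have h3 : (1 / 32 : ℝ) ^ n * ‖deriv F z / F z + Q z‖ ≤ 14 ^ n * (μ ^ (1 - θ) * (1 + E0 + B)) :=
      (mul_le_mul_of_nonneg_right h2 (norm_nonneg _)).trans h1
    have h4 : ‖deriv F z / F z + Q z‖ ≤ 448 ^ n * (μ ^ (1 - θ) * (1 + E0 + B)) := by
      have e : (448 : ℝ) ^ n = 14 ^ n / (1 / 32) ^ n := by
        rw [← div_pow]; norm_num
      rw [e, div_mul_eq_mul_div, le_div_iff₀ h32]
      linarith
    refine h4.trans ?_
    have h5 : (448 : ℝ) ^ n ≤ Real.exp (87.5 * Λ) := by
      have h6 : Real.log 448 ≤ 6.25 := by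
        rw [Real.log_le_iff_le_exp (by norm_num)]
        have h7 : (2.7182 : ℝ) ≤ Real.exp 1 := by linarith [Real.exp_one_gt_d9]
        have h8 : Real.exp 6.25 = Real.exp 1 ^ 6 * Real.exp (0.25) := by
          rw [← Real.exp_nat_mul, ← Real.exp_add]; norm_num
        rw [h8]
        have h9 : (1.25 : ℝ) ≤ Real.exp 0.25 := by
          have := Real.add_one_le_exp (0.25 : ℝ)
          linarith
        calc (448 : ℝ) ≤ 2.7182 ^ 6 * 1.25 := by norm_num
          _ ≤ Real.exp 1 ^ 6 * Real.exp 0.25 := by gcongr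
      have h7 : (448 : ℝ) ^ n = Real.exp (n * Real.log 448) := by
        rw [Real.exp_nat_mul, Real.exp_log (by norm_num)]
      rw [h7]
      apply Real.exp_le_exp.2
      have h8 : (0:ℝ) ≤ Real.log 448 := Real.log_nonneg (by norm_num)
      calc (n : ℝ) * Real.log 448 ≤ (14 * Λ) * 6.25 := by gcongr
        _ = 87.5 * Λ := by ring
    have h6 : 1 + E0 + B ≤ Real.exp (Λ + 10) * B := by
      have h7 : E0 ≤ 8944 * (Λ + 1) := by
        rw [hE0]
        nlinarith
      have h8 : Λ + 1 ≤ Real.exp Λ := Real.add_one_le_exp Λ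
      have h9 : (8946 : ℝ) ≤ Real.exp 10 := by
        have h7 : (2.7 : ℝ) ≤ Real.exp 1 := by linarith [Real.exp_one_gt_d9]
        have h8 : Real.exp 10 = Real.exp 1 ^ 10 := by
          rw [← Real.exp_nat_mul]; norm_num
        rw [h8]
        calc (8946 : ℝ) ≤ 2.7 ^ 10 := by norm_num
          _ ≤ Real.exp 1 ^ 10 := by gcongr
      have h10 : 1 ≤ Real.exp Λ := Real.one_le_exp hΛ0
      rw [Real.exp_add]
      calc 1 + E0 + B ≤ Real.exp Λ * B + 8944 * (Real.exp Λ * B) + Real.exp Λ * B := by
            have h11 : 1 ≤ Real.exp Λ * B := by nlinarith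
            have h12 : B ≤ Real.exp Λ * B := by nlinarith
            have h13 : Λ + 1 ≤ Real.exp Λ * B := by nlinarith
            linarith
        _ = 8946 * (Real.exp Λ * B) := by ring
        _ ≤ Real.exp 10 * (Real.exp Λ * B) := by
            apply mul_le_mul_of_nonneg_right h9
            positivity
        _ = Real.exp Λ * Real.exp 10 * B := by ring
    calc (448 : ℝ) ^ n * (μ ^ (1 - θ) * (1 + E0 + B))
        ≤ Real.exp (87.5 * Λ) * (μ ^ (1 - θ) * (Real.exp (Λ + 10) * B)) := by gcongr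
      _ = Real.exp (87.5 * Λ + (Λ + 10)) * B * μ ^ (1 - θ) := by
          rw [Real.exp_add (87.5 * Λ) (Λ + 10)]; ring
      _ ≤ Real.exp (90 * (Λ + 1)) * B * μ ^ (1 - θ) := by
          gcongr
          linarith
  -- the integral
  obtain ⟨hci, k, hk, hk1⟩ := circ_list L c hx0 hsph
  have hz₀L : z₀ ∈ L := hL2 z₀ (closedBall_subset_closedBall (by norm_num) hz₀) hFz₀
  have hk2 : 1 ≤ k := hk1 ⟨z₀, hz₀L, by
    rw [mem_ball]; rw [mem_closedBall] at hz₀; linarith [hxI.1]⟩
  have hanal : ∀ z ∈ closedBall c x, DifferentiableAt ℂ (fun z => deriv G z / G z + Q z) z := by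
    intro z hz
    rw [mem_closedBall] at hz
    have hGz := hGK z (by rw [mem_closedBall]; linarith [hxI.2])
    have h1 : DifferentiableAt ℂ (deriv G) z := (hG.analyticAt z).deriv.differentiableAt
    have hzb : z ∈ ball c 6 := by rw [mem_ball]; linarith [hxI.2]
    have h3 : DifferentiableAt ℂ Q z := (hQd z hzb).differentiableAt (isOpen_ball.mem_nhds hzb)
    exact (h1.div (hG z) hGz).add h3
  have hI0 : (∮ z in C(c, x), (deriv G z / G z + Q z)) = 0 := by
    refine Complex.circleIntegral_eq_zero_of_differentiable_on_off_countable hx0.le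
      countable_empty ?_ ?_
    · intro z hz
      exact (hanal z hz).continuousAt.continuousWithinAt
    · intro z hz
      exact hanal z (ball_subset_closedBall hz.1)
  have hci2 : CircleIntegrable (fun z => deriv G z / G z + Q z) c x := by
    apply ContinuousOn.circleIntegrable hx0.le
    intro z hz
    exact (hanal z (sphere_subset_closedBall hz)).continuousAt.continuousWithinAt
  have hItot : (∮ z in C(c, x), (deriv F z / F z + Q z)) = k * (2 * Real.pi * Complex.I) := by
    have e : (∮ z in C(c, x), (deriv F z / F z + Q z)) =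
        ∮ z in C(c, x), ((L.map (fun ρ => (z - ρ)⁻¹)).sum + (deriv G z / G z + Q z)) := by
      apply circleIntegral.integral_congr hx0.le
      intro z hz
      simp only
      rw [logDeriv_factor L F G hG hFG (hFne' z hz)]
      ring
    rw [e, circleIntegral.integral_add hci hci2, hI0, hk, add_zero]
  have hnorm := circleIntegral.norm_integral_le_of_norm_le_const hx0.le hfinal
  rw [hItot] at hnorm
  rw [norm_mul, Complex.norm_natCast, norm_mul, Complex.norm_I, mul_one, norm_mul] at hnorm
  have hpi : 0 < Real.pi := Real.pi_pos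
  rw [Complex.norm_real, Real.norm_of_nonneg hpi.le, Complex.norm_ofNat] at hnorm
  have hk3 : (1 : ℝ) ≤ k := by exact_mod_cast hk2
  have h5 : 2 * Real.pi * x * (Real.exp (90 * (Λ + 1)) * B * μ ^ (1 - θ)) < 2 * Real.pi * x * (1 / 5) := by
    apply mul_lt_mul_of_pos_left hfin
    positivity
  have h6 : x ≤ 5 := hxI.2
  have h7 : 2 * Real.pi * x * (1 / 5) ≤ 2 * Real.pi := by nlinarith
  have h8 : 2 * Real.pi ≤ k * (2 * Real.pi) := by nlinarith
  linarith

/-- zeros are detected by a small disc (any scale) -/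
theorem any_scale : ∃ θ : ℝ, 0 < θ ∧ θ < 1 ∧ ∀ (F Q : ℂ → ℂ) (c : ℂ) (κ M B μ : ℝ),
    0 < κ → κ ≤ 1 →
    Differentiable ℂ F → F c ≠ 0 → (∀ z ∈ closedBall c (7 * κ), ‖F z‖ ≤ M) →
    DifferentiableOn ℂ Q (ball c (6 * κ)) → (∀ z ∈ ball c (6 * κ), ‖Q z‖ ≤ B) → 1 ≤ B → 0 < μ →
    μ ≤ 1 → (∀ z ∈ closedBall c (κ / 2), F z ≠ 0 ∧ ‖deriv F z / F z + Q z‖ ≤ μ) →
    Real.exp (90 * (Real.log (M / ‖F c‖) + 1)) * B * μ ^ (1 - θ) < 1 / 5 →
    ∀ z ∈ closedBall c (4 * κ), F z ≠ 0 := by
  obtain ⟨θ, h0, h1, h⟩ := unit_scale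
  refine ⟨θ, h0, h1, ?_⟩
  intro F Q c κ M B μ hκ hκ1 hF hFc hM hQd hQ hB hμ hμ1 hnear hfin z hz
  have hκc : (κ : ℂ) ≠ 0 := by exact_mod_cast hκ.ne'
  have hmem : ∀ (w : ℂ) (R : ℝ), w ∈ closedBall (0 : ℂ) R → c + κ * w ∈ closedBall c (R * κ) := by
    intro w R hw
    rw [mem_closedBall, dist_zero_right] at hw
    rw [mem_closedBall, dist_eq_norm, add_sub_cancel_left, norm_mul, Complex.norm_real,
      Real.norm_of_nonneg hκ.le]
    nlinarith
  have hmem' : ∀ (w : ℂ) (R : ℝ), w ∈ ball (0 : ℂ) R → c + κ * w ∈ ball c (R * κ) := by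
    intro w R hw
    rw [mem_ball, dist_zero_right] at hw
    rw [mem_ball, dist_eq_norm, add_sub_cancel_left, norm_mul, Complex.norm_real,
      Real.norm_of_nonneg hκ.le]
    nlinarith
  have haff : ∀ w : ℂ, HasDerivAt (fun w : ℂ => c + κ * w) (κ : ℂ) w := by
    intro w
    simpa using ((hasDerivAt_id w).const_mul (κ : ℂ)).const_add c
  have hFt : Differentiable ℂ (fun w => F (c + κ * w)) := by
    intro w
    exact (hF (c + κ * w)).comp w (haff w).differentiableAt
  have hder : ∀ w, deriv (fun w => F (c + κ * w)) w = deriv F (c + κ * w) * κ := by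
    intro w
    exact ((hF (c + κ * w)).hasDerivAt.comp w (haff w)).deriv
  have key := h (fun w => F (c + κ * w)) (fun w => κ * Q (c + κ * w)) 0 M B μ hFt
    (by simpa using hFc)
    (fun w hw => hM _ (hmem w 7 hw))
    (by
      intro w hw
      have h2 := (hQd _ (hmem' w 6 hw)).differentiableAt (isOpen_ball.mem_nhds (hmem' w 6 hw))
      exact ((h2.comp w (haff w).differentiableAt).const_mul _).differentiableWithinAt)
    (by
      intro w hw
      rw [norm_mul, Complex.norm_real, Real.norm_of_nonneg hκ.le]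
      have h2 := hQ _ (hmem' w 6 hw)
      have h3 := norm_nonneg (Q (c + κ * w))
      nlinarith)
    hB hμ hμ1
    (by
      intro w hw
      have h2 := hnear _ (by
        have := hmem w (1 / 2) hw
        rwa [show (1 / 2 : ℝ) * κ = κ / 2 by ring] at this)
      refine ⟨h2.1, ?_⟩
      rw [hder]
      have e : deriv F (c + κ * w) * κ / F (c + κ * w) + κ * Q (c + κ * w) =
          κ * (deriv F (c + κ * w) / F (c + κ * w) + Q (c + κ * w)) := by ring
      rw [e, norm_mul, Complex.norm_real, Real.norm_of_nonneg hκ.le]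
      have h3 := h2.2
      have h4 := norm_nonneg (deriv F (c + κ * w) / F (c + κ * w) + Q (c + κ * w))
      nlinarith)
    (by simpa using hfin)
    ((z - c) / κ)
    (by
      rw [mem_closedBall, dist_zero_right, norm_div, Complex.norm_real, Real.norm_of_nonneg hκ.le,
        div_le_iff₀ hκ, ← dist_eq_norm]
      exact hz)
  have e : c + κ * ((z - c) / κ) = z := by field_simp; ring
  rwa [e] at key

end Pool.Agent.L5helper77.Edge
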