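import Mathlib

/-!
Truncated Euler products: elementary bounds.
-/

set_option autoImplicit false

open MeasureTheory Filter Topology Set Metric

namespace Pool.Agent.L5helper77.Edge

/-- the truncated Euler product over the primes `p < N` -/
noncomputable def P (N : ℕ) (s : ℂ) : ℂ := ∏ p ∈ N.primesBelow, (1 - (p : ℂ) ^ (-s))

lemma norm_p {p : ℕ} (hp : 0 < p) (s : ℂ) : ‖(p : ℂ) ^ (-s)‖ = (p : ℝ) ^ (-s.re) := by
  rw [Complex.norm_natCast_cpow_of_pos hp, Complex.neg_re]

lemma factor_diff {p : ℕ} (hp : 0 < p) : Differentiable ℂ (fun s : ℂ => 1 - (p : ℂ) ^ (-s)) := by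
  have hp0 : (p : ℂ) ≠ 0 := by exact_mod_cast hp.ne'
  intro s
  exact (DifferentiableAt.const_cpow differentiableAt_id.neg (Or.inl hp0)).const_sub 1

lemma factor_ne {p : ℕ} (hp : 1 < p) {s : ℂ} (hs : 0 < s.re) : (1 : ℂ) - (p : ℂ) ^ (-s) ≠ 0 := by
  intro h
  have h1 : (p : ℂ) ^ (-s) = 1 := (sub_eq_zero.1 h).symm
  have h2 := norm_p (by omega : 0 < p) s
  rw [h1, norm_one] at h2
  have h3 : (p : ℝ) ^ (-s.re) < 1 :=
    Real.rpow_lt_one_of_one_lt_of_neg (by exact_mod_cast hp) (by linarith)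
  linarith

lemma P_diff (N : ℕ) : Differentiable ℂ (P N) := by
  unfold P
  have : ∀ S : Finset ℕ, (∀ p ∈ S, 0 < p) →
      Differentiable ℂ (fun s : ℂ => ∏ p ∈ S, (1 - (p : ℂ) ^ (-s))) := by
    intro S hS
    exact Differentiable.fun_finsetProd (fun p hp => factor_diff (hS p hp))
  exact this _ (fun p hp => (Nat.prime_of_mem_primesBelow hp).pos)

lemma P_ne (N : ℕ) {s : ℂ} (hs : 0 < s.re) : P N s ≠ 0 := by
  unfold P
  rw [Finset.prod_ne_zero_iff]
  intro p hp
  exact factor_ne (Nat.prime_of_mem_primesBelow hp).one_lt hs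

lemma P_succ (N : ℕ) (s : ℂ) : P (N + 1) s = if N.Prime then (1 - (N : ℂ) ^ (-s)) * P N s else P N s := by
  unfold P
  rw [Nat.primesBelow_succ]
  split_ifs with h
  · rw [Finset.prod_insert (Nat.notMem_primesBelow N)]
  · rfl

lemma p_le_inv {p : ℕ} (hp : 0 < p) {s : ℂ} (hs : 1 ≤ s.re) : ‖(p : ℂ) ^ (-s)‖ ≤ 1 / p := by
  rw [norm_p hp]
  have hp' : (1 : ℝ) ≤ p := by exact_mod_cast hp
  calc (p : ℝ) ^ (-s.re) ≤ (p : ℝ) ^ (-1 : ℝ) := Real.rpow_le_rpow_of_exponent_le hp' (by linarith)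
    _ = 1 / p := by rw [Real.rpow_neg_one, one_div]

lemma P_le {N : ℕ} (hN : 1 ≤ N) {s : ℂ} (hs : 1 ≤ s.re) : ‖P N s‖ ≤ N := by
  induction N, hN using Nat.le_induction with
  | base =>
    have h : Nat.primesBelow 1 = ∅ := by decide
    simp [P, h]
  | succ N hN ih =>
    have hN' : (0 : ℝ) < N := by exact_mod_cast hN
    rw [P_succ]
    push_cast
    split_ifs with h
    · rw [norm_mul]
      have h1 : ‖(1 : ℂ) - (N : ℂ) ^ (-s)‖ ≤ 1 + 1 / N := by
        refine (norm_sub_le _ _).trans ?_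
        rw [norm_one]
        linarith [p_le_inv hN hs]
      calc _ ≤ (1 + 1 / (N : ℝ)) * N := by gcongr
        _ = N + 1 := by field_simp
    · linarith

lemma P_ge {N : ℕ} (hN : 2 ≤ N) {s : ℂ} (hs : 1 ≤ s.re) : 1 ≤ (N - 1 : ℝ) * ‖P N s‖ := by
  induction N, hN using Nat.le_induction with
  | base =>
    have h : Nat.primesBelow 2 = ∅ := by decide
    simp [P, h]
    norm_num
  | succ N hN ih =>
    have hN' : (2 : ℝ) ≤ N := by exact_mod_cast hN
    rw [P_succ]
    push_cast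
    have h0 : 0 ≤ ‖P N s‖ := norm_nonneg _
    split_ifs with h
    · rw [norm_mul]
      have h1 : 1 - 1 / (N : ℝ) ≤ ‖(1 : ℂ) - (N : ℂ) ^ (-s)‖ := by
        have := norm_sub_norm_le (1 : ℂ) ((N : ℂ) ^ (-s))
        rw [norm_one] at this
        linarith [p_le_inv (by omega : 0 < N) hs]
      calc (1 : ℝ) ≤ (N - 1) * ‖P N s‖ := ih
        _ = (N + 1 - 1) * ((1 - 1 / (N : ℝ)) * ‖P N s‖) := by field_simp; ring
        _ ≤ _ := by
          apply mul_le_mul_of_nonneg_left _ (by linarith)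
          exact mul_le_mul_of_nonneg_right h1 h0
    · nlinarith

lemma tail_sq {N : ℕ} (hN : 1 ≤ N) :
    Summable (fun n : ℕ => if N ≤ n then ((n : ℝ) ^ 2)⁻¹ else 0) ∧
    ∑' n : ℕ, (if N ≤ n then ((n : ℝ) ^ 2)⁻¹ else 0) ≤ 2 / N := by
  have h0 : ∀ n : ℕ, 0 ≤ (if N ≤ n then ((n : ℝ) ^ 2)⁻¹ else 0) := by
    intro n; split_ifs <;> positivity
  have h1 : ∀ n : ℕ, ∑ i ∈ Finset.range n, (if N ≤ i then ((i : ℝ) ^ 2)⁻¹ else 0) ≤ 2 / N := by
    intro n
    rw [← Finset.sum_filter]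
    have h2 : (Finset.range n).filter (fun i => N ≤ i) = Finset.Ioo (N - 1) n := by
      ext i
      simp only [Finset.mem_filter, Finset.mem_range, Finset.mem_Ioo]
      omega
    rw [h2]
    have h3 := sum_Ioo_inv_sq_le (α := ℝ) (N - 1) n
    refine h3.trans (le_of_eq ?_)
    have : ((N - 1 : ℕ) : ℝ) + 1 = N := by
      have : N - 1 + 1 = N := by omega
      exact_mod_cast congrArg (Nat.cast : ℕ → ℝ) this
    rw [this]
  have hs := summable_of_sum_range_le h0 h1
  exact ⟨hs, hs.tsum_le_of_sum_range_le h1⟩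

lemma zeta_sub_inv {N : ℕ} (hN : 1 ≤ N) {s : ℂ} (hs : 2 ≤ s.re) :
    ‖riemannZeta s - (P N s)⁻¹‖ ≤ 2 / N := by
  have hs1 : 1 < s.re := by linarith
  have hs0 := Complex.ne_zero_of_one_lt_re hs1
  set f : ℕ →*₀ ℂ := riemannZetaSummandHom hs0 with hf
  have hsn : Summable (fun n => ‖f n‖) := summable_riemannZetaSummand hs1
  have hsum : Summable f := hsn.of_norm
  have hfz : ∑' n, f n = riemannZeta s := tsum_riemannZetaSummand hs1
  have hfa : ∀ n : ℕ, f n = (n : ℂ) ^ (-s) := fun n => rfl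
  have hP : (P N s)⁻¹ = ∑' m : N.smoothNumbers, f m := by
    have h0 : (P N s)⁻¹ = ∏ p ∈ N.primesBelow, (1 - f p)⁻¹ := by
      unfold P
      rw [Finset.prod_inv_distrib]
      rfl
    rw [h0]
    exact EulerProduct.prod_primesBelow_geometric_eq_tsum_smoothNumbers (f := f.toMonoidHom) hsum N
  have h1 := hsum.tsum_subtype_add_tsum_subtype_compl N.smoothNumbers
  rw [hfz] at h1
  have h2 : riemannZeta s - (P N s)⁻¹ = ∑' m : ↑((N.smoothNumbers)ᶜ : Set ℕ), f m := by
    rw [hP, ← h1]; ring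
  rw [h2]
  obtain ⟨t1, t2⟩ := tail_sq hN
  have h3 : Summable (fun m : ↑((N.smoothNumbers)ᶜ : Set ℕ) => ‖f m‖) := hsn.subtype _
  refine (norm_tsum_le_tsum_norm h3).trans ?_
  rw [tsum_subtype ((N.smoothNumbers)ᶜ : Set ℕ) (fun m => ‖f m‖)]
  refine le_trans ?_ t2
  refine Summable.tsum_le_tsum ?_ (hsn.indicator _) t1
  intro n
  by_cases hn : n ∈ ((N.smoothNumbers)ᶜ : Set ℕ)
  · rw [indicator_of_mem hn]
    rcases Nat.eq_zero_or_pos n with h4 | h4
    · rw [h4, map_zero, norm_zero]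
      split_ifs <;> positivity
    · have h5 : N ≤ n := by
        by_contra hlt
        exact hn (Nat.mem_smoothNumbers_of_lt h4 (by omega))
      rw [if_pos h5, hfa, norm_p h4]
      have h6 : (1 : ℝ) ≤ n := by exact_mod_cast h4
      calc (n : ℝ) ^ (-s.re) ≤ (n : ℝ) ^ (-2 : ℝ) :=
            Real.rpow_le_rpow_of_exponent_le h6 (by linarith)
        _ = ((n : ℝ) ^ 2)⁻¹ := by
            rw [Real.rpow_neg (by linarith)]
            norm_num
  · rw [indicator_of_notMem hn]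
    split_ifs <;> positivity

lemma harm (N : ℕ) : ∑ n ∈ Finset.Icc 1 N, 1 / (n : ℝ) ≤ 1 + Real.log N := by
  have h := harmonic_le_one_add_log N
  rw [harmonic_eq_sum_Icc] at h
  push_cast at h
  simpa [one_div] using h

lemma Q_bound {N : ℕ} (hN : 1 ≤ N) {a : ℝ} (ha0 : 0 ≤ a) (ha : a ≤ 1 / 2) {s : ℂ}
    (hs : 1 - a ≤ s.re) :
    ‖deriv (P N) s / P N s‖ ≤ 4 * (1 + Real.log N) ^ 2 * (N : ℝ) ^ a := by
  have hN' : (1 : ℝ) ≤ N := by exact_mod_cast hN
  have hlogN : 0 ≤ Real.log N := Real.log_nonneg hN'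
  have hs0 : 0 < s.re := by linarith
  have hld : deriv (P N) s / P N s = ∑ p ∈ N.primesBelow,
      (Real.log p * (p : ℂ) ^ (-s)) / (1 - (p : ℂ) ^ (-s)) := by
    have h1 : logDeriv (P N) s = ∑ p ∈ N.primesBelow, logDeriv (fun s : ℂ => 1 - (p : ℂ) ^ (-s)) s := by
      have := logDeriv_prod (ι := ℕ) (s := N.primesBelow) (f := fun p (s : ℂ) => 1 - (p : ℂ) ^ (-s))
        (x := s)
        (fun p hp => factor_ne (Nat.prime_of_mem_primesBelow hp).one_lt hs0)
        (fun p hp => factor_diff (Nat.prime_of_mem_primesBelow hp).pos s)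
      convert this using 1
      rfl
    rw [← logDeriv_apply, h1]
    refine Finset.sum_congr rfl fun p hp => ?_
    have hp0 : (p : ℂ) ≠ 0 := by exact_mod_cast (Nat.prime_of_mem_primesBelow hp).ne_zero
    rw [logDeriv_apply]
    congr 1
    have h2 : HasDerivAt (fun s : ℂ => (p : ℂ) ^ (-s)) ((p : ℂ) ^ (-s) * Complex.log p * (-1)) s :=
      HasDerivAt.const_cpow ((hasDerivAt_id s).neg) (Or.inl hp0)
    rw [(h2.const_sub 1).deriv, ← Complex.natCast_log]
    ring
  rw [hld]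
  calc ‖∑ p ∈ N.primesBelow, (Real.log p * (p : ℂ) ^ (-s)) / (1 - (p : ℂ) ^ (-s))‖
      ≤ ∑ p ∈ N.primesBelow, ‖(Real.log p * (p : ℂ) ^ (-s)) / (1 - (p : ℂ) ^ (-s))‖ := norm_sum_le _ _
    _ ≤ ∑ p ∈ N.primesBelow, 4 * (1 + Real.log N) * (N : ℝ) ^ a * (1 / p) := by
        refine Finset.sum_le_sum fun p hp => ?_
        have hpp := Nat.prime_of_mem_primesBelow hp
        have hpN : p < N := Nat.lt_of_mem_primesBelow hp
        have hp1 : (2 : ℝ) ≤ p := by exact_mod_cast hpp.two_le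
        have hpN' : (p : ℝ) ≤ N := by exact_mod_cast hpN.le
        have hlogp : 0 ≤ Real.log p := Real.log_nonneg (by linarith)
        have hn := norm_p hpp.pos s
        have hhalf : ‖(p : ℂ) ^ (-s)‖ ≤ 3 / 4 := by
          rw [hn]
          calc (p : ℝ) ^ (-s.re) ≤ (p : ℝ) ^ (-(1 / 2) : ℝ) :=
                Real.rpow_le_rpow_of_exponent_le (by linarith) (by linarith)
            _ ≤ (2 : ℝ) ^ (-(1 / 2) : ℝ) :=
                Real.rpow_le_rpow_of_nonpos (by norm_num) hp1 (by norm_num)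
            _ ≤ 3 / 4 := by
                rw [Real.rpow_neg (by norm_num), ← Real.sqrt_eq_rpow]
                have h1 : (4 / 3 : ℝ) ≤ √2 := by
                  rw [show (4 / 3 : ℝ) = √((4 / 3) ^ 2) by rw [Real.sqrt_sq (by norm_num)]]
                  exact Real.sqrt_le_sqrt (by norm_num)
                calc (√2)⁻¹ ≤ (4 / 3 : ℝ)⁻¹ := inv_anti₀ (by norm_num) h1
                  _ = 3 / 4 := by norm_num
        have hden : 1 / 4 ≤ ‖(1 : ℂ) - (p : ℂ) ^ (-s)‖ := by
          have := norm_sub_norm_le (1 : ℂ) ((p : ℂ) ^ (-s))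
          rw [norm_one] at this
          linarith
        have hpow : ‖(p : ℂ) ^ (-s)‖ ≤ (N : ℝ) ^ a * (1 / p) := by
          rw [hn]
          calc (p : ℝ) ^ (-s.re) ≤ (p : ℝ) ^ (a + (-1)) :=
                Real.rpow_le_rpow_of_exponent_le (by linarith) (by linarith)
            _ = (p : ℝ) ^ a * (1 / p) := by
                rw [Real.rpow_add (by linarith), Real.rpow_neg_one, one_div]
            _ ≤ _ := by
                apply mul_le_mul_of_nonneg_right _ (by positivity)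
                exact Real.rpow_le_rpow (by linarith) hpN' ha0
        rw [norm_div, norm_mul, Complex.norm_real, Real.norm_of_nonneg hlogp, div_le_iff₀ (by linarith)]
        have hlogpN : Real.log p ≤ 1 + Real.log N := by
          have := Real.log_le_log (by linarith) hpN'
          linarith
        have hNa : 0 ≤ (N : ℝ) ^ a * (1 / p) := by positivity
        calc Real.log p * ‖(p : ℂ) ^ (-s)‖ ≤ (1 + Real.log N) * ((N : ℝ) ^ a * (1 / p)) := by
              gcongr
          _ = 4 * (1 + Real.log N) * (N : ℝ) ^ a * (1 / p) * (1 / 4) := by ring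
          _ ≤ _ := by gcongr
    _ = 4 * (1 + Real.log N) * (N : ℝ) ^ a * ∑ p ∈ N.primesBelow, (1 / (p : ℝ)) := by
        rw [Finset.mul_sum]
    _ ≤ 4 * (1 + Real.log N) * (N : ℝ) ^ a * (1 + Real.log N) := by
        apply mul_le_mul_of_nonneg_left _ (by positivity)
        refine le_trans ?_ (harm N)
        refine Finset.sum_le_sum_of_subset_of_nonneg ?_ (fun _ _ _ => by positivity)
        intro p hp
        have := (Nat.prime_of_mem_primesBelow hp).pos
        have := Nat.lt_of_mem_primesBelow hp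
        rw [Finset.mem_Icc]
        omega
    _ = _ := by ring

end Pool.Agent.L5helper77.Edge
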