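import Mathlib

/-!
A one-sided bound on a long segment gives a small logarithmic derivative next to its midpoint.
-/

set_option autoImplicit false

open MeasureTheory Filter Topology Set Metric

namespace Pool.Agent.L5helper77.Edge

open Complex (I)

/-- localised maximum principle in a rectangle -/
lemma rect_max {g : ℂ → ℂ} {γ U ν A w : ℝ} (hU : 0 < U) (hw : 0 < w) (hν : 0 ≤ ν)
    (hd : ∀ s : ℂ, 1 ≤ s.re → s.re ≤ 3 → |s.im - γ| ≤ U → DifferentiableAt ℂ g s)
    (left : ∀ s : ℂ, s.re = 1 → |s.im - γ| ≤ U → ‖g s‖ ≤ 1 + ν)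
    (right : ∀ s : ℂ, s.re = 3 → |s.im - γ| ≤ U → ‖g s‖ ≤ 1 + ν)
    (top : ∀ s : ℂ, 1 ≤ s.re → s.re ≤ 3 → |s.im - γ| = U → ‖g s‖ ≤ A)
    (hA : A * Real.exp ((4 - U ^ 2) / w) ≤ 1) {s : ℂ} (h1 : 1 ≤ s.re) (h3 : s.re ≤ 3)
    (hU' : |s.im - γ| ≤ U) (hs1 : |s.im - γ| ≤ 1) :
    ‖g s‖ ≤ (1 + ν) * Real.exp (5 / w) := by
  set s0 : ℂ := 1 + γ * I with hs0
  have hE : ∀ z : ℂ, ‖Complex.exp ((z - s0) ^ 2 / w)‖ =
      Real.exp (((z.re - 1) ^ 2 - (z.im - γ) ^ 2) / w) := by
    intro z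
    rw [Complex.norm_exp]
    congr 1
    have : ((z - s0) ^ 2 / (w : ℂ)) = (((1 / w : ℝ) : ℂ)) * (z - s0) ^ 2 := by
      push_cast; ring
    rw [this, Complex.re_ofReal_mul]
    have h2 : ((z - s0) ^ 2).re = (z.re - 1) ^ 2 - (z.im - γ) ^ 2 := by
      rw [sq, Complex.mul_re]
      simp [hs0]
      ring
    rw [h2]; ring
  set R : Set ℂ := (Ioo (1 : ℝ) 3) ×ℂ (Ioo (γ - U) (γ + U)) with hR
  have hbd : Bornology.IsBounded R := (isBounded_Ioo _ _).reProdIm (isBounded_Ioo _ _)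
  have hcl : closure R = (Icc (1 : ℝ) 3) ×ℂ (Icc (γ - U) (γ + U)) := by
    rw [hR, Complex.closure_reProdIm, closure_Ioo (by norm_num), closure_Ioo (by linarith)]
  have hopen : IsOpen R := isOpen_Ioo.reProdIm isOpen_Ioo
  have hmem : ∀ z ∈ closure R, 1 ≤ z.re ∧ z.re ≤ 3 ∧ |z.im - γ| ≤ U := by
    intro z hz
    rw [hcl, Complex.mem_reProdIm] at hz
    refine ⟨hz.1.1, hz.1.2, abs_le.2 ⟨by linarith [hz.2.1], by linarith [hz.2.2]⟩⟩
  have hdiff : DiffContOnCl ℂ (fun z => g z * Complex.exp ((z - s0) ^ 2 / w)) R := by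
    apply DifferentiableOn.diffContOnCl
    intro z hz
    obtain ⟨a, b, c⟩ := hmem z hz
    exact ((hd z a b c).mul (by fun_prop)).differentiableWithinAt
  have hfr : ∀ z ∈ frontier R, ‖g z * Complex.exp ((z - s0) ^ 2 / w)‖ ≤ (1 + ν) * Real.exp (4 / w) := by
    intro z hz
    have hzc : z ∈ closure R := frontier_subset_closure hz
    have hznot : z ∉ R := by
      rw [hopen.frontier_eq] at hz
      exact hz.2
    obtain ⟨a, b, c⟩ := hmem z hzc
    rw [norm_mul, hE]
    have hexp0 : 0 ≤ Real.exp (((z.re - 1) ^ 2 - (z.im - γ) ^ 2) / w) := (Real.exp_pos _).le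
    have h4w : 1 ≤ Real.exp (4 / w) := Real.one_le_exp (by positivity)
    by_cases hc : |z.im - γ| = U
    · have e1 : (z.im - γ) ^ 2 = U ^ 2 := by rw [← sq_abs, hc]
      have e2 : Real.exp (((z.re - 1) ^ 2 - (z.im - γ) ^ 2) / w) ≤ Real.exp ((4 - U ^ 2) / w) := by
        apply Real.exp_le_exp.2
        rw [e1]
        apply div_le_div_of_nonneg_right _ hw.le
        nlinarith
      calc ‖g z‖ * Real.exp (((z.re - 1) ^ 2 - (z.im - γ) ^ 2) / w)
          ≤ A * Real.exp ((4 - U ^ 2) / w) :=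
            mul_le_mul (top z a b hc) e2 hexp0 ((norm_nonneg _).trans (top z a b hc))
        _ ≤ 1 := hA
        _ ≤ (1 + ν) * Real.exp (4 / w) := by nlinarith
    · have hlt : |z.im - γ| < U := lt_of_le_of_ne c hc
      have hre : z.re = 1 ∨ z.re = 3 := by
        by_contra hcon
        push Not at hcon
        apply hznot
        rw [hR, Complex.mem_reProdIm]
        have h5 := abs_lt.1 hlt
        exact ⟨⟨lt_of_le_of_ne a (Ne.symm hcon.1), lt_of_le_of_ne b hcon.2⟩,
          ⟨by linarith [h5.1], by linarith [h5.2]⟩⟩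
      have e3 : Real.exp (((z.re - 1) ^ 2 - (z.im - γ) ^ 2) / w) ≤ Real.exp (4 / w) := by
        apply Real.exp_le_exp.2
        apply div_le_div_of_nonneg_right _ hw.le
        nlinarith [sq_nonneg (z.im - γ)]
      have e4 : ‖g z‖ ≤ 1 + ν := by
        rcases hre with h | h
        · exact left z h c
        · exact right z h c
      exact mul_le_mul e4 e3 hexp0 (by linarith)
  have hsR : s ∈ closure R := by
    rw [hcl, Complex.mem_reProdIm]
    have h5 := abs_le.1 hU'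
    exact ⟨⟨h1, h3⟩, ⟨by linarith [h5.1], by linarith [h5.2]⟩⟩
  have hmain := Complex.norm_le_of_forall_mem_frontier_norm_le hbd hdiff hfr hsR
  rw [norm_mul, hE] at hmain
  have hlow : Real.exp (-(1 / w)) ≤ Real.exp (((s.re - 1) ^ 2 - (s.im - γ) ^ 2) / w) := by
    apply Real.exp_le_exp.2
    rw [← neg_div]
    apply div_le_div_of_nonneg_right _ hw.le
    have : (s.im - γ) ^ 2 ≤ 1 := by
      rw [← sq_abs]
      nlinarith [abs_nonneg (s.im - γ)]
    nlinarith [sq_nonneg (s.re - 1)]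
  have h6 : ‖g s‖ * Real.exp (-(1 / w)) ≤ (1 + ν) * Real.exp (4 / w) :=
    (mul_le_mul_of_nonneg_left hlow (norm_nonneg _)).trans hmain
  have h7 : Real.exp (5 / w) = Real.exp (4 / w) * Real.exp (1 / w) := by
    rw [← Real.exp_add]; congr 1; ring
  have h8 : Real.exp (-(1 / w)) * Real.exp (1 / w) = 1 := by rw [← Real.exp_add]; simp
  calc ‖g s‖ = (‖g s‖ * Real.exp (-(1 / w))) * Real.exp (1 / w) := by rw [mul_assoc, h8, mul_one]
    _ ≤ ((1 + ν) * Real.exp (4 / w)) * Real.exp (1 / w) :=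
        mul_le_mul_of_nonneg_right h6 (Real.exp_pos _).le
    _ = _ := by rw [h7]; ring

/-- smallness of the logarithmic derivative in a disc -/
lemma disc_log {g : ℂ → ℂ} {c₁ : ℂ} {κ ν w : ℝ} (hκ : 0 < κ) (hκ1 : κ ≤ 1 / 4) (hw : 0 < w)
    (hν : 0 ≤ ν) (hν2 : ν ≤ 1 / 2)
    (hd : ∀ s ∈ ball c₁ 1, DifferentiableAt ℂ g s) (hne : ∀ s ∈ ball c₁ 1, g s ≠ 0)
    (hb : ∀ s ∈ ball c₁ 1, ‖g s‖ ≤ (1 + ν) * Real.exp (5 / w)) (hc : 1 - ν ≤ ‖g c₁‖) :
    ∀ s ∈ closedBall c₁ (1 - 2 * κ), ‖deriv g s / g s‖ ≤ 2 * (3 * ν + 5 / w) / κ ^ 2 := by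
  have hgd : DifferentiableOn ℂ g (ball c₁ 1) := fun s hs => (hd s hs).differentiableWithinAt
  have hqd : DifferentiableOn ℂ (fun z => deriv g z / g z) (ball c₁ 1) := by
    intro z hz
    have h1 : DifferentiableAt ℂ (deriv g) z :=
      ((hgd.analyticAt (isOpen_ball.mem_nhds hz)).deriv).differentiableAt
    exact (h1.div (hd z hz) (hne z hz)).differentiableWithinAt
  obtain ⟨h, hc0, hh⟩ := hqd.isExactOn_ball.with_val_at c₁ 0
  have hc1 : c₁ ∈ ball c₁ 1 := mem_ball_self one_pos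
  have hexp : ∀ z ∈ ball c₁ 1, g z = g c₁ * Complex.exp (h z) := by
    have hconst : ∀ z ∈ ball c₁ 1, g z * Complex.exp (-h z) = g c₁ * Complex.exp (-h c₁) := by
      intro z hz
      have hd' : ∀ w ∈ ball c₁ 1, HasDerivAt (fun w => g w * Complex.exp (-h w)) 0 w := by
        intro w hw
        have h1 : HasDerivAt (fun w => g w * Complex.exp (-h w))
            (deriv g w * Complex.exp (-h w) + g w * (Complex.exp (-h w) * -(deriv g w / g w))) w :=
          (hd w hw).hasDerivAt.mul (hh w hw).neg.cexp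
        have hGw := hne w hw
        have h2 : deriv g w * Complex.exp (-h w) + g w * (Complex.exp (-h w) * -(deriv g w / g w)) = 0 := by
          field_simp
          ring
        rw [h2] at h1
        exact h1
      exact isOpen_ball.is_const_of_deriv_eq_zero (isConnected_ball one_pos).isPreconnected
        (fun w hw => (hd' w hw).differentiableAt.differentiableWithinAt)
        (fun w hw => (hd' w hw).deriv) hz hc1
    intro z hz
    have h1 := hconst z hz
    rw [hc0, neg_zero, Complex.exp_zero, mul_one] at h1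
    rw [← h1, mul_assoc, ← Complex.exp_add]
    simp
  have hgc : 0 < ‖g c₁‖ := by linarith
  set Λ : ℝ := 3 * ν + 5 / w with hΛ
  have hΛ0 : 0 < Λ := by positivity
  have hre : ∀ z ∈ ball c₁ 1, (h z).re ≤ Λ := by
    intro z hz
    have h1 : Real.exp ((h z).re) = ‖g z‖ / ‖g c₁‖ := by
      rw [hexp z hz, norm_mul, Complex.norm_exp, mul_div_cancel_left₀ _ hgc.ne']
    have h2 : ‖g z‖ / ‖g c₁‖ ≤ Real.exp Λ := by
      rw [div_le_iff₀ hgc]
      have h3 : Real.exp ν ≥ 1 + ν := by linarith [Real.add_one_le_exp ν]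
      have h4 : 1 ≤ Real.exp (2 * ν) * (1 - ν) := by
        have h5 : 1 + 2 * ν ≤ Real.exp (2 * ν) := by linarith [Real.add_one_le_exp (2 * ν)]
        calc (1 : ℝ) ≤ (1 + 2 * ν) * (1 - ν) := by nlinarith
          _ ≤ _ := mul_le_mul_of_nonneg_right h5 (by linarith)
      have e : Real.exp Λ = Real.exp ν * Real.exp (2 * ν) * Real.exp (5 / w) := by
        rw [hΛ, ← Real.exp_add, ← Real.exp_add]; congr 1; ring
      have h6 : 1 ≤ Real.exp (2 * ν) * ‖g c₁‖ :=
        h4.trans (mul_le_mul_of_nonneg_left hc (Real.exp_pos _).le)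
      calc ‖g z‖ ≤ (1 + ν) * Real.exp (5 / w) := hb z hz
        _ ≤ Real.exp ν * Real.exp (5 / w) := by gcongr
        _ = Real.exp ν * Real.exp (5 / w) * 1 := by ring
        _ ≤ Real.exp ν * Real.exp (5 / w) * (Real.exp (2 * ν) * ‖g c₁‖) := by gcongr
        _ = _ := by rw [e]; ring
    exact Real.exp_le_exp.1 (h1 ▸ h2)
  have hbc : ∀ z ∈ closedBall c₁ (1 - κ), ‖h z‖ ≤ 2 * Λ / κ := by
    intro z hz
    rw [mem_closedBall, dist_eq_norm] at hz
    have h1 : DifferentiableOn ℂ (fun w => h (c₁ + w)) (ball 0 1) := by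
      intro w hw
      have hcw : c₁ + w ∈ ball c₁ 1 := by
        rw [mem_ball, dist_eq_norm, add_sub_cancel_left]
        simpa using hw
      have := (hh (c₁ + w) hcw).differentiableAt
      exact (this.comp w (by fun_prop : DifferentiableAt ℂ (fun w => c₁ + w) w)).differentiableWithinAt
    have h2 : MapsTo (fun w => h (c₁ + w)) (ball 0 1) {z | z.re ≤ Λ} := by
      intro w hw
      have hcw : c₁ + w ∈ ball c₁ 1 := by
        rw [mem_ball, dist_eq_norm, add_sub_cancel_left]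
        simpa using hw
      exact hre _ hcw
    have h3 : z - c₁ ∈ ball (0:ℂ) 1 := by
      rw [mem_ball, dist_zero_right]
      linarith
    have h4 := Complex.borelCaratheodory_zero hΛ0 h1 h2 one_pos h3 (by simp [hc0])
    simp only [add_sub_cancel] at h4
    refine h4.trans ?_
    have h5 : κ ≤ 1 - ‖z - c₁‖ := by linarith
    have h6 : ‖z - c₁‖ ≤ 1 := by linarith
    have h7 : 0 ≤ ‖z - c₁‖ := norm_nonneg _
    have h8 : 0 < 1 - ‖z - c₁‖ := by linarith
    rw [div_le_div_iff₀ h8 hκ]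
    have h9 : 2 * Λ * ‖z - c₁‖ ≤ 2 * Λ := by nlinarith
    nlinarith
  intro s hs
  rw [mem_closedBall, dist_eq_norm] at hs
  have hsb : s ∈ ball c₁ 1 := by rw [mem_ball, dist_eq_norm]; linarith
  rw [← (hh s hsb).deriv]
  have hdc : DiffContOnCl ℂ h (ball s κ) := by
    refine DifferentiableOn.diffContOnCl ?_
    rw [closure_ball _ hκ.ne']
    intro w hw
    rw [mem_closedBall, dist_eq_norm] at hw
    have : w ∈ ball c₁ 1 := by
      rw [mem_ball, dist_eq_norm]
      have := norm_sub_le_norm_sub_add_norm_sub w s c₁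
      linarith
    exact (hh w this).differentiableAt.differentiableWithinAt
  have h2 : ∀ w ∈ sphere s κ, ‖h w‖ ≤ 2 * Λ / κ := by
    intro w hw
    rw [mem_sphere, dist_eq_norm] at hw
    refine hbc w ?_
    rw [mem_closedBall, dist_eq_norm]
    have := norm_sub_le_norm_sub_add_norm_sub w s c₁
    linarith
  refine (Complex.norm_deriv_le_of_forall_mem_sphere_norm_le hκ hdc h2).trans (le_of_eq ?_)
  field_simp

end Pool.Agent.L5helper77.Edge
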