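import Pool.Agent.L5helper77.Edge1
import Pool.Agent.L5helper77.Edge2
import Pool.Agent.L5helper77.Edge3
import Pool.Agent.H705R2.MLogC

/-!
One-sided bounds for the truncated Euler product on the line `Re s = 1` give zero-free regions.
-/

set_option autoImplicit false

open MeasureTheory Filter Topology Set Metric

namespace Pool.Agent.L5helper77.Edge

open Complex (I)

lemma z1_eq {s : ℂ} (hs : s ≠ 1) : riemannZeta₁ s = (s - 1) * riemannZeta s := by
  have h : s - 1 ≠ 0 := sub_ne_zero.2 hs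
  rw [riemannZeta_eq_inv_sub_mul hs]
  field_simp

/-- zeta times the truncated Euler product -/
noncomputable def Gf (N : ℕ) (s : ℂ) : ℂ := riemannZeta s * P N s

lemma Gf_diff (N : ℕ) {s : ℂ} (hs : s ≠ 1) : DifferentiableAt ℂ (Gf N) s :=
  (differentiableAt_riemannZeta hs).mul (P_diff N s)

lemma Gf_ne (N : ℕ) {s : ℂ} (hs : 1 ≤ s.re) : Gf N s ≠ 0 :=
  mul_ne_zero (riemannZeta_ne_zero_of_one_le_re hs) (P_ne N (by linarith))

lemma zeta_low2 {s : ℂ} (hs : 2 ≤ s.re) : 2 / 15 ≤ ‖riemannZeta s‖ := by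
  have h := zeta_sub_inv (N := 3) (by norm_num) hs
  have hP : P 3 s = 1 - (2 : ℂ) ^ (-s) := by
    have h3 : Nat.primesBelow 3 = {2} := by decide
    unfold P
    rw [h3]
    simp
  have hP1 : ‖P 3 s‖ ≤ 5 / 4 := by
    rw [hP]
    refine (norm_sub_le _ _).trans ?_
    have h2 := norm_p (p := 2) (by norm_num) s
    push_cast at h2
    rw [h2, norm_one]
    have : (2 : ℝ) ^ (-s.re) ≤ (2 : ℝ) ^ (-2 : ℝ) :=
      Real.rpow_le_rpow_of_exponent_le (by norm_num) (by linarith)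
    have e : (2 : ℝ) ^ (-2 : ℝ) = 1 / 4 := by
      rw [Real.rpow_neg (by norm_num)]; norm_num
    rw [e] at this
    linarith
  have hP0 : P 3 s ≠ 0 := P_ne 3 (by linarith)
  have hP2 : 4 / 5 ≤ ‖(P 3 s)⁻¹‖ := by
    rw [norm_inv]
    have := inv_anti₀ (norm_pos_iff.2 hP0) hP1
    norm_num at this ⊢
    linarith
  have h4 := norm_sub_norm_le ((P 3 s)⁻¹) (riemannZeta s)
  rw [norm_sub_rev] at h4
  push_cast at h
  linarith

lemma Gf_right {N : ℕ} (hN : 30 ≤ N) {s : ℂ} (hs : 2 ≤ s.re) : ‖Gf N s - 1‖ ≤ 30 / N := by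
  have hN' : (30 : ℝ) ≤ N := by exact_mod_cast hN
  have h := zeta_sub_inv (N := N) (by omega) hs
  have hz := zeta_low2 hs
  have hP0 : P N s ≠ 0 := P_ne N (by linarith)
  have hPp : 0 < ‖P N s‖ := norm_pos_iff.2 hP0
  have h1 : 1 / 15 ≤ ‖(P N s)⁻¹‖ := by
    have h4 := norm_sub_norm_le (riemannZeta s) ((P N s)⁻¹)
    have h5 : 2 / (N : ℝ) ≤ 2 / 30 := by gcongr
    linarith
  have h2 : ‖P N s‖ ≤ 15 := by
    rw [norm_inv] at h1
    have := inv_anti₀ (by norm_num) h1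
    rw [inv_inv] at this
    norm_num at this
    exact this
  have e : Gf N s - 1 = P N s * (riemannZeta s - (P N s)⁻¹) := by
    unfold Gf
    field_simp
  rw [e, norm_mul]
  calc ‖P N s‖ * ‖riemannZeta s - (P N s)⁻¹‖ ≤ 15 * (2 / N) := by gcongr
    _ = 30 / N := by ring

lemma combo {g : ℂ → ℂ} {γ U w κ ν A : ℝ} (hγ : 3 ≤ γ) (hU1 : 1 ≤ U) (hw : 0 < w)
    (hκ : 0 < κ) (hκ1 : κ ≤ 1 / 4) (hν : 0 ≤ ν) (hν2 : ν ≤ 1 / 2)
    (hd : ∀ s : ℂ, 1 ≤ s.re → s.re ≤ 3 → |s.im - γ| ≤ U → DifferentiableAt ℂ g s)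
    (hne : ∀ s : ℂ, 1 ≤ s.re → g s ≠ 0)
    (left : ∀ s : ℂ, s.re = 1 → |s.im - γ| ≤ U → ‖g s‖ ≤ 1 + ν)
    (right : ∀ s : ℂ, s.re = 3 → |s.im - γ| ≤ U → ‖g s‖ ≤ 1 + ν)
    (top : ∀ s : ℂ, 1 ≤ s.re → s.re ≤ 3 → |s.im - γ| = U → ‖g s‖ ≤ A)
    (hA : A * Real.exp ((4 - U ^ 2) / w) ≤ 1) (hc : 1 - ν ≤ ‖g (2 + γ * I)‖) :
    ∀ s ∈ closedBall (2 + γ * I : ℂ) (1 - 2 * κ),
      ‖deriv g s / g s‖ ≤ 2 * (3 * ν + 5 / w) / κ ^ 2 := by
  have hball : ∀ s ∈ ball (2 + γ * I : ℂ) 1, 1 < s.re ∧ s.re < 3 ∧ |s.im - γ| < 1 := by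
    intro s hs
    rw [mem_ball, dist_eq_norm] at hs
    have h1 := (Complex.abs_re_le_norm (s - (2 + γ * I))).trans_lt hs
    have h2 := (Complex.abs_im_le_norm (s - (2 + γ * I))).trans_lt hs
    simp at h1 h2
    have h3 := abs_lt.1 h1
    exact ⟨by linarith [h3.1], by linarith [h3.2], h2⟩
  refine disc_log (w := w) hκ hκ1 hw hν hν2 ?_ ?_ ?_ hc
  · intro s hs
    obtain ⟨a, b, c⟩ := hball s hs
    exact hd s a.le b.le (by linarith)
  · intro s hs
    obtain ⟨a, b, c⟩ := hball s hs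
    exact hne s a.le
  · intro s hs
    obtain ⟨a, b, c⟩ := hball s hs
    exact rect_max (by linarith) hw hν hd left right top hA a.le b.le (by linarith) c.le

lemma poly_exp (C a : ℝ) {η : ℝ} (hη : 0 < η) : ∀ᶠ γ : ℝ in atTop,
    (C * γ ^ a) * Real.exp ((4 - (γ ^ η) ^ 2) / γ ^ η) ≤ 1 := by
  have h0 : Tendsto (fun γ : ℝ => γ ^ η) atTop atTop := tendsto_rpow_atTop hη
  have h1 := ((tendsto_rpow_mul_exp_neg_mul_atTop_nhds_zero (a / η) 1 one_pos).comp h0).const_mul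
    (|C| * Real.exp 4)
  rw [mul_zero] at h1
  filter_upwards [h1.eventually_le_const (show (0 : ℝ) < 1 by norm_num), eventually_ge_atTop 1]
    with γ h2 h3
  have hγ0 : 0 < γ := by linarith
  have hX : 1 ≤ γ ^ η := Real.one_le_rpow h3 hη.le
  have h4 : Real.exp ((4 - (γ ^ η) ^ 2) / γ ^ η) ≤ Real.exp 4 * Real.exp (-1 * γ ^ η) := by
    rw [← Real.exp_add]
    apply Real.exp_le_exp.2
    rw [div_le_iff₀ (by linarith)]
    nlinarith
  have h5 : (γ ^ η) ^ (a / η) = γ ^ a := by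
    rw [← Real.rpow_mul hγ0.le]
    congr 1
    field_simp
  simp only [Function.comp_apply] at h2
  rw [h5] at h2
  calc (C * γ ^ a) * Real.exp ((4 - (γ ^ η) ^ 2) / γ ^ η)
      ≤ (|C| * γ ^ a) * (Real.exp 4 * Real.exp (-1 * γ ^ η)) := by
        gcongr
        exact le_abs_self C
    _ = |C| * Real.exp 4 * (γ ^ a * Real.exp (-1 * γ ^ η)) := by ring
    _ ≤ 1 := h2

lemma im_big {γ : ℝ} (hγ : 3 ≤ γ) {s : ℂ} (hs : |s.im - γ| ≤ γ / 3) : 2 * γ / 3 ≤ s.im ∧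
    s.im ≤ 2 * (2 * γ / 3) ∧ s ≠ 1 ∧ 1 ≤ ‖s - 1‖ ∧ |s.im| ≤ 2 * γ := by
  have h1 := abs_le.1 hs
  have h2 : 2 * γ / 3 ≤ s.im := by linarith [h1.1]
  have h3 : s.im ≤ 2 * (2 * γ / 3) := by linarith [h1.2]
  refine ⟨h2, h3, ?_, ?_, ?_⟩
  · intro h
    rw [h] at h2
    simp at h2
    linarith
  · have := Complex.abs_im_le_norm (s - 1)
    simp at this
    have h4 := le_abs_self s.im
    linarith
  · rw [abs_le]; constructor <;> linarith

lemma tend_neg {δ : ℝ} (hδ : 0 < δ) (K : ℝ) {η : ℝ} (hη : 0 < η) :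
    ∀ᶠ γ : ℝ in atTop, K * γ ^ (-δ) ≤ η := by
  have h := (tendsto_rpow_neg_atTop hδ).const_mul K
  rw [mul_zero] at h
  exact h.eventually_le_const hη

lemma window {η : ℝ} (hη : 0 < η) (hη1 : η < 1) : ∀ᶠ γ : ℝ in atTop, 3 ≤ γ ∧ 4 ≤ γ ^ η ∧
    γ ^ η ≤ γ / 3 := by
  have h0 : Tendsto (fun γ : ℝ => γ ^ η) atTop atTop := tendsto_rpow_atTop hη
  have h1 : Tendsto (fun γ : ℝ => γ ^ (1 - η)) atTop atTop := tendsto_rpow_atTop (by linarith)
  filter_upwards [eventually_ge_atTop 3, h0.eventually_ge_atTop 4, h1.eventually_ge_atTop 3]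
    with γ a b c
  refine ⟨a, b, ?_⟩
  have hγ : 0 < γ := by linarith
  have e : γ = γ ^ η * γ ^ (1 - η) := by
    rw [← Real.rpow_add hγ]; simp
  have h2 : γ ^ η * 3 ≤ γ ^ η * γ ^ (1 - η) := by gcongr
  rw [← e] at h2
  linarith

/-- upper bounds on the line -/
theorem near_upper {ε A η δ : ℝ} (hε : 0 < ε) (hη : 0 < η) (hη1 : η < 1) (hδ : 0 < δ)
    (hδε : δ ≤ ε) (hδη : δ ≤ η) {κ : ℝ} (hκ : 0 < κ) (hκ1 : κ ≤ 1 / 4) :
    ∀ᶠ γ : ℝ in atTop, ∀ N : ℕ, γ ^ ε ≤ N → (N : ℝ) ≤ 2 * γ ^ A →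
      (∀ t : ℝ, |t - γ| ≤ γ ^ η → ‖riemannZeta (1 + t * I) * P N (1 + t * I)‖ ≤ 1 + γ ^ (-δ)) →
      ∀ s ∈ closedBall (2 + γ * I : ℂ) (1 - 2 * κ),
        ‖deriv (Gf N) s / Gf N s‖ ≤ 370 / κ ^ 2 * γ ^ (-δ) := by
  obtain ⟨C, hC, hup⟩ := Pool.Agent.H705R2.MSW.zeta_up (ε := 1) one_pos le_rfl
  filter_upwards [window hη hη1, (tendsto_rpow_atTop hε).eventually_ge_atTop 30,
    tend_neg hδ 30 (show (0 : ℝ) < 1 / 2 by norm_num), poly_exp (16 * C) (1 + A) hη]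
    with γ hwin hN30 hsmall hpe
  intro N hNlow hNup hγ
  obtain ⟨hγ3, hU4, hU3⟩ := hwin
  have hγ0 : 0 < γ := by linarith
  have hN : 30 ≤ N := by
    have : (30 : ℝ) ≤ N := hN30.trans hNlow
    exact_mod_cast this
  set ν : ℝ := 30 * γ ^ (-δ) with hν
  have hpow0 : 0 < γ ^ (-δ) := Real.rpow_pos_of_pos hγ0 _
  have hν0 : 0 ≤ ν := by positivity
  have hN1 : 1 ≤ N := by omega
  have hright : ∀ s : ℂ, 2 ≤ s.re → ‖Gf N s - 1‖ ≤ ν := by
    intro s hs
    refine (Gf_right hN hs).trans ?_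
    rw [hν, Real.rpow_neg hγ0.le, div_eq_mul_inv]
    have h1 : γ ^ δ ≤ γ ^ ε := Real.rpow_le_rpow_of_exponent_le (by linarith) hδε
    have h2 : 0 < γ ^ δ := by positivity
    gcongr
    linarith
  have hres : ∀ s ∈ closedBall (2 + γ * I : ℂ) (1 - 2 * κ),
      ‖deriv (Gf N) s / Gf N s‖ ≤ 2 * (3 * ν + 5 / γ ^ η) / κ ^ 2 := by
    refine combo (U := γ ^ η) (w := γ ^ η) (A := 16 * C * γ ^ (1 + A)) hγ3 (by linarith)
      (by linarith) hκ hκ1 hν0 hsmall ?_ ?_ ?_ ?_ ?_ hpe ?_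
    · intro s _ _ hs
      exact Gf_diff N (im_big hγ3 (hs.trans hU3)).2.2.1
    · intro s hs
      exact Gf_ne N hs
    · intro s hs1 hs
      have h1 := hγ s.im hs
      have e : (1 : ℂ) + (s.im : ℂ) * I = s := by
        apply Complex.ext <;> simp [hs1]
      rw [e] at h1
      refine h1.trans ?_
      rw [hν]
      linarith
    · intro s hs1 hs
      have h1 := hright s (by linarith)
      have h2 := norm_sub_norm_le (Gf N s) 1
      rw [norm_one] at h2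
      linarith
    · intro s h1 h3 hs
      obtain ⟨a, b, hs1, hn, him⟩ := im_big hγ3 (hs.le.trans hU3)
      have h4 := hup s (by linarith) h3 hs1
      have h5 := P_le hN1 h1
      have h6 : (1 : ℝ) / ‖s - 1‖ ≤ 1 := by
        rw [div_le_one (by linarith)]; exact hn
      unfold Gf
      rw [norm_mul]
      rw [Real.rpow_one] at h4
      calc ‖riemannZeta s‖ * ‖P N s‖ ≤ (C * (|s.im| + 2) * (1 + 1 / ‖s - 1‖)) * N := by gcongr
        _ ≤ (C * (2 * γ + 2) * (1 + 1)) * (2 * γ ^ A) := by gcongr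
        _ ≤ (C * (4 * γ) * (1 + 1)) * (2 * γ ^ A) := by gcongr; linarith
        _ = 16 * C * (γ ^ (1 : ℝ) * γ ^ A) := by rw [Real.rpow_one]; ring
        _ = 16 * C * γ ^ (1 + A) := by rw [Real.rpow_add hγ0]
    · have h1 := hright (2 + γ * I) (by simp)
      have h2 := norm_sub_norm_le 1 (Gf N (2 + γ * I))
      rw [norm_one, norm_sub_rev] at h2
      linarith
  intro s hs
  refine (hres s hs).trans ?_
  have h5 : 5 / γ ^ η ≤ 5 * γ ^ (-δ) := by
    rw [div_eq_mul_inv, ← Real.rpow_neg hγ0.le]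
    gcongr
    linarith
  calc 2 * (3 * ν + 5 / γ ^ η) / κ ^ 2 ≤ 2 * (3 * ν + 5 * γ ^ (-δ)) / κ ^ 2 := by gcongr
    _ = 190 / κ ^ 2 * γ ^ (-δ) := by rw [hν]; ring
    _ ≤ 370 / κ ^ 2 * γ ^ (-δ) := by gcongr; norm_num

/-- lower bounds on the line -/
theorem near_lower {ε A η δ : ℝ} (hε : 0 < ε) (hA0 : 0 ≤ A) (hη : 0 < η) (hη1 : η < 1)
    (hδ : 0 < δ) (hδε : δ ≤ ε) (hδη : δ ≤ η) {κ : ℝ} (hκ : 0 < κ) (hκ1 : κ ≤ 1 / 4) :
    ∀ᶠ γ : ℝ in atTop, ∀ N : ℕ, γ ^ ε ≤ N → (N : ℝ) ≤ 2 * γ ^ A →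
      (∀ t : ℝ, |t - γ| ≤ γ ^ η →
        1 - γ ^ (-δ) ≤ ‖riemannZeta (1 + t * I) * P N (1 + t * I)‖) →
      ∀ s ∈ closedBall (2 + γ * I : ℂ) (1 - 2 * κ),
        ‖deriv (Gf N) s / Gf N s‖ ≤ 370 / κ ^ 2 * γ ^ (-δ) := by
  obtain ⟨c, hc, hc1, hlow⟩ := Pool.Agent.H705R2.MSW.zeta_low (ε := 1) one_pos le_rfl
  filter_upwards [window hη hη1, (tendsto_rpow_atTop hε).eventually_ge_atTop 30,
    tend_neg hδ 60 (show (0 : ℝ) < 1 / 2 by norm_num), poly_exp (2 * (256 / c + 8)) (4 + A) hη]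
    with γ hwin hN30 hsmall hpe
  intro N hNlow h7 hγ
  obtain ⟨hγ3, hU4, hU3⟩ := hwin
  have hγ0 : 0 < γ := by linarith
  have hN : 30 ≤ N := by
    have : (30 : ℝ) ≤ N := hN30.trans hNlow
    exact_mod_cast this
  set x : ℝ := γ ^ (-δ) with hx
  have hpow0 : 0 < x := Real.rpow_pos_of_pos hγ0 _
  have hN1 : 2 ≤ N := by omega
  have hright : ∀ s : ℂ, 2 ≤ s.re → ‖Gf N s - 1‖ ≤ 30 * x := by
    intro s hs
    refine (Gf_right hN hs).trans ?_
    rw [hx, Real.rpow_neg hγ0.le, div_eq_mul_inv]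
    have h1 : γ ^ δ ≤ γ ^ ε := Real.rpow_le_rpow_of_exponent_le (by linarith) hδε
    have h2 : 0 < γ ^ δ := by positivity
    gcongr
    linarith
  have hinv : ∀ y : ℝ, 0 ≤ y → y ≤ 1 / 2 → ∀ a : ℝ, 1 - y ≤ a → a⁻¹ ≤ 1 + 2 * y := by
    intro y hy0 hy a ha
    have ha0 : 0 < a := by linarith
    rw [inv_le_iff_one_le_mul₀' ha0]
    nlinarith
  have hleft : ∀ s : ℂ, s.re = 1 → |s.im - γ| ≤ γ ^ η → ‖(Gf N s)⁻¹‖ ≤ 1 + 60 * x := by
    intro s hs1 hs
    have h1 := hγ s.im hs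
    have e : (1 : ℂ) + (s.im : ℂ) * I = s := by
      apply Complex.ext <;> simp [hs1]
    rw [e] at h1
    have h3 : 1 - 30 * x ≤ ‖Gf N s‖ := by
      refine le_trans ?_ h1
      linarith
    rw [norm_inv]
    have := hinv (30 * x) (by linarith) (by linarith) _ h3
    linarith
  have hres : ∀ s ∈ closedBall (2 + γ * I : ℂ) (1 - 2 * κ),
      ‖deriv (fun s => (Gf N s)⁻¹) s / (Gf N s)⁻¹‖ ≤ 2 * (3 * (60 * x) + 5 / γ ^ η) / κ ^ 2 := by
    refine combo (g := fun s => (Gf N s)⁻¹) (U := γ ^ η) (w := γ ^ η)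
      (A := 2 * (256 / c + 8) * γ ^ (4 + A)) hγ3 (by linarith) (by linarith) hκ hκ1
      (by linarith) hsmall ?_ ?_ hleft ?_ ?_ hpe ?_
    · intro s h1 _ hs
      exact (Gf_diff N (im_big hγ3 (hs.trans hU3)).2.2.1).inv (Gf_ne N h1)
    · intro s hs
      exact inv_ne_zero (Gf_ne N hs)
    · intro s hs1 hs
      have h1 := hright s (by linarith)
      have h2 := norm_sub_norm_le 1 (Gf N s)
      rw [norm_one, norm_sub_rev] at h2
      rw [norm_inv]
      have := hinv (30 * x) (by linarith) (by linarith) ‖Gf N s‖ (by linarith)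
      linarith
    · intro s h1 h3 hs
      obtain ⟨a, b, hs1, hn, him⟩ := im_big hγ3 (hs.le.trans hU3)
      have h8 : 1 ≤ γ ^ A := Real.one_le_rpow (by linarith) hA0
      have h9 : 1 ≤ γ ^ (4 : ℝ) := Real.one_le_rpow (by linarith) (by norm_num)
      have h10 : γ ^ (4 + A) = γ ^ (4 : ℝ) * γ ^ A := Real.rpow_add hγ0 _ _
      have hc' : 0 < 256 / c := by positivity
      rcases h1.eq_or_lt with h11 | h11
      · refine (hleft s h11.symm hs.le).trans ?_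
        rw [h10]
        have h12 : 1 ≤ γ ^ (4 : ℝ) * γ ^ A := by nlinarith
        nlinarith
      · have hP := P_ge hN1 h1
        have hP0 : 0 < ‖P N s‖ := norm_pos_iff.2 (P_ne N (by linarith))
        have hPi : ‖P N s‖⁻¹ ≤ 2 * γ ^ A := by
          rw [inv_le_iff_one_le_mul₀' hP0]
          refine hP.trans ?_
          rw [mul_comm]
          apply mul_le_mul_of_nonneg_left _ hP0.le
          linarith
        have hz0 : 0 < ‖riemannZeta s‖ :=
          norm_pos_iff.2 (riemannZeta_ne_zero_of_one_le_re h1)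
        have hz : ‖riemannZeta s‖⁻¹ ≤ (256 / c + 8) * γ ^ (4 : ℝ) := by
          rcases le_total s.re 2 with h12 | h12
          · have h13 := hlow (s.re - 1) s.im (by linarith) (by linarith) (by
              rw [abs_of_nonneg (by linarith)]; linarith)
            have e : (1 : ℂ) + ((s.re - 1 : ℝ) : ℂ) + I * (s.im : ℂ) = s := by
              apply Complex.ext <;> simp
            rw [e] at h13
            have h14 : (4 * γ) ^ (-(4 * 1) : ℝ) ≤ (|s.im| + 2) ^ (-(4 * 1) : ℝ) := by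
              apply Real.rpow_le_rpow_of_nonpos (by positivity) (by linarith) (by norm_num)
            have h15 : c * (4 * γ) ^ (-(4 * 1) : ℝ) ≤ ‖riemannZeta s‖ :=
              (mul_le_mul_of_nonneg_left h14 hc.le).trans h13
            have h16 : 0 < c * (4 * γ) ^ (-(4 * 1) : ℝ) := by positivity
            refine (inv_anti₀ h16 h15).trans ?_
            have e1 : (4 * γ) ^ (-(4 * 1) : ℝ) = (256 * γ ^ (4 : ℝ))⁻¹ := by
              rw [show (-(4 * 1) : ℝ) = -(4 : ℝ) by norm_num, Real.rpow_neg (by positivity),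
                Real.mul_rpow (by norm_num) hγ0.le]
              congr 2
              norm_num
            have hX : 0 ≤ γ ^ (4 : ℝ) := by positivity
            rw [e1, mul_inv, inv_inv]
            have e2 : c⁻¹ * (256 * γ ^ (4 : ℝ)) = 256 / c * γ ^ (4 : ℝ) := by ring
            rw [e2]
            nlinarith
          · have h13 := zeta_low2 h12
            refine (inv_anti₀ (by norm_num) h13).trans ?_
            norm_num at h9 ⊢
            nlinarith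
        unfold Gf
        rw [mul_inv, norm_mul, norm_inv, norm_inv, h10]
        calc ‖riemannZeta s‖⁻¹ * ‖P N s‖⁻¹ ≤ ((256 / c + 8) * γ ^ (4 : ℝ)) * (2 * γ ^ A) := by
              apply mul_le_mul hz hPi (by positivity) (by positivity)
          _ = _ := by ring
    · have h1 := hright (2 + γ * I) (by simp)
      have h2 := norm_sub_norm_le (Gf N (2 + γ * I)) 1
      rw [norm_one] at h2
      have hpos : 0 < ‖Gf N (2 + γ * I)‖ := norm_pos_iff.2 (Gf_ne N (by simp))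
      have h3 : ‖Gf N (2 + γ * I)‖ ≤ 1 + 30 * x := by linarith
      rw [norm_inv]
      refine le_trans ?_ (inv_anti₀ hpos h3)
      have h4 : 0 < 1 + 30 * x := by linarith
      have h5 : (1 - 60 * x) * (1 + 30 * x) ≤ 1 := by nlinarith
      rw [← one_div, le_div_iff₀ h4]
      exact h5
  intro s hs
  have hsre : 1 < s.re ∧ s.re < 3 ∧ |s.im - γ| < 1 := by
    rw [mem_closedBall, dist_eq_norm] at hs
    have h1 := (Complex.abs_re_le_norm (s - (2 + γ * I))).trans hs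
    have h2 := (Complex.abs_im_le_norm (s - (2 + γ * I))).trans hs
    simp at h1 h2
    have h3 := abs_le.1 h1
    exact ⟨by linarith [h3.1], by linarith [h3.2], by linarith⟩
  have hs1 : s ≠ 1 := (im_big hγ3 (by linarith [hsre.2.2] : |s.im - γ| ≤ γ / 3)).2.2.1
  have hne := Gf_ne N (s := s) hsre.1.le
  have hder : deriv (fun s => (Gf N s)⁻¹) s / (Gf N s)⁻¹ = -(deriv (Gf N) s / Gf N s) := by
    have h1 : deriv (fun s => (Gf N s)⁻¹) s = -deriv (Gf N) s / Gf N s ^ 2 :=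
      ((Gf_diff N hs1).hasDerivAt.inv hne).deriv
    rw [h1]
    field_simp
  have h6 := hres s hs
  rw [hder, norm_neg] at h6
  refine h6.trans ?_
  have h5 : 5 / γ ^ η ≤ 5 * x := by
    rw [div_eq_mul_inv, ← Real.rpow_neg hγ0.le, hx]
    gcongr
    linarith
  calc 2 * (3 * (60 * x) + 5 / γ ^ η) / κ ^ 2 ≤ 2 * (3 * (60 * x) + 5 * x) / κ ^ 2 := by gcongr
    _ = 370 / κ ^ 2 * x := by ring

lemma logder_rel (N : ℕ) {s : ℂ} (hs : 1 ≤ s.re) (hs1 : s ≠ 1) :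
    deriv riemannZeta₁ s / riemannZeta₁ s + deriv (P N) s / P N s =
      deriv (Gf N) s / Gf N s + 1 / (s - 1) := by
  have hz : riemannZeta s ≠ 0 := riemannZeta_ne_zero_of_one_le_re hs
  have hP : P N s ≠ 0 := P_ne N (by linarith)
  have h1 : s - 1 ≠ 0 := sub_ne_zero.2 hs1
  have hzd : HasDerivAt riemannZeta (deriv riemannZeta s) s :=
    (differentiableAt_riemannZeta hs1).hasDerivAt
  have hPd : HasDerivAt (P N) (deriv (P N) s) s := (P_diff N s).hasDerivAt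
  have e1 : deriv riemannZeta₁ s = riemannZeta s + (s - 1) * deriv riemannZeta s := by
    have h2 : riemannZeta₁ =ᶠ[𝓝 s] fun z => (z - 1) * riemannZeta z := by
      filter_upwards [isOpen_ne.mem_nhds hs1] with z hz
      exact z1_eq hz
    rw [h2.deriv_eq]
    have h3 : HasDerivAt (fun z : ℂ => z - 1) 1 s := (hasDerivAt_id s).sub_const 1
    have h4 := h3.mul hzd
    rw [one_mul] at h4
    exact h4.deriv
  have e2 : deriv (Gf N) s = deriv riemannZeta s * P N s + riemannZeta s * deriv (P N) s :=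
    (hzd.mul hPd).deriv
  rw [e1, e2, z1_eq hs1]
  unfold Gf
  field_simp
  ring

lemma B_bound {N : ℕ} (hN : 1 ≤ N) {κ : ℝ} (hκ : 0 < κ) :
    4 * (1 + Real.log N) ^ 2 * (N : ℝ) ^ (3 * κ) ≤ 4 * (1 + 2 / κ) ^ 2 * (N : ℝ) ^ (4 * κ) := by
  have hN' : (1 : ℝ) ≤ N := by exact_mod_cast hN
  have hN0 : (0 : ℝ) < N := by linarith
  have h1 : Real.log N ≤ (N : ℝ) ^ (κ / 2) / (κ / 2) := Real.log_le_rpow_div hN0.le (by positivity)
  have h2 : 1 ≤ (N : ℝ) ^ (κ / 2) := Real.one_le_rpow hN' (by positivity)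
  have h3 : 1 + Real.log N ≤ (1 + 2 / κ) * (N : ℝ) ^ (κ / 2) := by
    have e : (N : ℝ) ^ (κ / 2) / (κ / 2) = 2 / κ * (N : ℝ) ^ (κ / 2) := by field_simp
    rw [e] at h1
    linarith
  have h0 : 0 ≤ 1 + Real.log N := by
    have := Real.log_nonneg hN'
    linarith
  have e2 : ((N : ℝ) ^ (κ / 2)) ^ 2 * (N : ℝ) ^ (3 * κ) = (N : ℝ) ^ (4 * κ) := by
    rw [← Real.rpow_natCast ((N : ℝ) ^ (κ / 2)) 2, ← Real.rpow_mul hN0.le, ← Real.rpow_add hN0]
    congr 1
    push_cast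
    ring
  calc 4 * (1 + Real.log N) ^ 2 * (N : ℝ) ^ (3 * κ)
      ≤ 4 * ((1 + 2 / κ) * (N : ℝ) ^ (κ / 2)) ^ 2 * (N : ℝ) ^ (3 * κ) := by gcongr
    _ = 4 * (1 + 2 / κ) ^ 2 * (((N : ℝ) ^ (κ / 2)) ^ 2 * (N : ℝ) ^ (3 * κ)) := by ring
    _ = _ := by rw [e2]

theorem core_end : ∃ c₀ : ℝ, 0 < c₀ ∧ c₀ ≤ 1 / 16 ∧ ∀ A δ : ℝ, 0 < A → 0 < δ → δ ≤ 1 →
    ∀ K : ℝ, ∀ᶠ γ : ℝ in atTop, ∀ N : ℕ, 1 ≤ N → (N : ℝ) ≤ 2 * γ ^ A →
      (∀ s ∈ closedBall (2 + γ * I : ℂ) (1 - 2 * (c₀ * δ / (1 + A))),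
        ‖deriv (Gf N) s / Gf N s‖ ≤ K / (c₀ * δ / (1 + A)) ^ 2 * γ ^ (-δ)) →
      ∀ s : ℂ, s.im = γ → 1 - c₀ * δ / (1 + A) ≤ s.re → riemannZeta s ≠ 0 := by
  obtain ⟨θ, hθ0, hθ1, hscale⟩ := any_scale
  refine ⟨min (1 / 16) ((1 - θ) / 5768), lt_min (by norm_num) (by linarith), min_le_left _ _, ?_⟩
  intro A δ hA hδ hδ1 K0
  set c₀ : ℝ := min (1 / 16) ((1 - θ) / 5768) with hc₀
  have hc₀0 : 0 < c₀ := lt_min (by norm_num) (by linarith)
  have hc₀1 : c₀ ≤ 1 / 16 := min_le_left _ _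
  have hc₀2 : c₀ ≤ (1 - θ) / 5768 := min_le_right _ _
  set κ : ℝ := c₀ * δ / (1 + A) with hκdef
  have hκ : 0 < κ := by positivity
  have hκ16 : κ ≤ 1 / 16 := by
    rw [hκdef, div_le_iff₀ (by linarith)]
    nlinarith
  have hκ2 : (2880 + 4 * A) * κ ≤ (1 - θ) * δ / 2 := by
    have h1 : (1 + A) * κ = c₀ * δ := by rw [hκdef]; field_simp
    have h2 : c₀ * δ ≤ (1 - θ) / 5768 * δ := by gcongr
    nlinarith
  have hnum : 0 < (1 - θ) * δ := mul_pos (by linarith) hδ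
  have hε : 0 < A := hA
  set K : ℝ → ℝ := fun κ => K0 / κ ^ 2 with hKdef
  obtain ⟨C, hC, hup⟩ := Pool.Agent.H705R2.MSW.zeta_up (ε := 16 * κ) (by positivity) (by linarith)
  obtain ⟨c, hc, hc1, hlow⟩ := Pool.Agent.H705R2.MSW.zeta_low (ε := 4 * κ) (by positivity) (by linarith)
  set K' : ℝ := |K κ| + 2 with hK'
  have hK'0 : 0 < K' := by positivity
  set K7 : ℝ := Real.exp 90 * ((4 * C / c) ^ 90 * (2 : ℝ) ^ (2880 * κ)) *
    (4 * (1 + 2 / κ) ^ 2 * 2 ^ (4 * κ)) * K' ^ (1 - θ) with hK7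
  have hC0 : 0 < C := by linarith
  filter_upwards [eventually_ge_atTop 3,
    tend_neg hδ K' one_pos,
    tend_neg (δ := (1 - θ) * δ / 2) (by positivity) K7 (show (0 : ℝ) < 1 / 10 by norm_num)]
    with γ hγ3 hμ1 hfin
  intro N hN1 hNup hn s hsim hsre
  by_cases hs1 : 1 ≤ s.re
  · exact riemannZeta_ne_zero_of_one_le_re hs1
  push Not at hs1
  have hγ0 : 0 < γ := by linarith
  have hN1' : (1 : ℝ) ≤ N := by exact_mod_cast hN1
  set cc : ℂ := 1 + 3 * κ + γ * I with hcc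
  have hccre : cc.re = 1 + 3 * κ := by simp [hcc]
  have hccim : cc.im = γ := by simp [hcc]
  have hball : ∀ (R : ℝ) (z : ℂ), ‖z - cc‖ ≤ R → |z.re - (1 + 3 * κ)| ≤ R ∧ |z.im - γ| ≤ R := by
    intro R z hz
    have h1 := (Complex.abs_re_le_norm (z - cc)).trans hz
    have h2 := (Complex.abs_im_le_norm (z - cc)).trans hz
    rw [Complex.sub_re, hccre] at h1
    rw [Complex.sub_im, hccim] at h2
    exact ⟨h1, h2⟩
  have hne1 : ∀ z : ℂ, 1 ≤ z.im → z ≠ 1 := by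
    intro z hz h
    rw [h] at hz
    simp at hz
    linarith
  have hnorm1 : ∀ z : ℂ, 1 ≤ z.im → 1 ≤ ‖z - 1‖ := by
    intro z hz
    have := Complex.abs_im_le_norm (z - 1)
    simp at this
    exact (hz.trans (le_abs_self _)).trans this
  -- the value at the centre
  have hcc1 : cc ≠ 1 := hne1 cc (by rw [hccim]; linarith)
  have hFc : riemannZeta₁ cc ≠ 0 := by
    rw [z1_eq hcc1]
    exact mul_ne_zero (sub_ne_zero.2 hcc1) (riemannZeta_ne_zero_of_one_le_re (by rw [hccre]; linarith))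
  have hFlow : γ * (c * (2 * γ) ^ (-(16 * κ))) ≤ ‖riemannZeta₁ cc‖ := by
    rw [z1_eq hcc1, norm_mul]
    have h1 : γ ≤ ‖cc - 1‖ := by
      have := Complex.abs_im_le_norm (cc - 1)
      rw [Complex.sub_im, hccim] at this
      simp at this
      exact (le_abs_self γ).trans this
    have h2 := hlow (3 * κ) γ (by positivity) (by linarith) (by rw [abs_of_pos hγ0]; linarith)
    have e : (1 : ℂ) + ((3 * κ : ℝ) : ℂ) + I * (γ : ℂ) = cc := by
      rw [hcc]; push_cast; ring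
    rw [e, abs_of_pos hγ0] at h2
    have h3 : (2 * γ) ^ (-(16 * κ)) ≤ (γ + 2) ^ (-(4 * (4 * κ))) := by
      rw [show -(4 * (4 * κ)) = -(16 * κ) by ring]
      apply Real.rpow_le_rpow_of_nonpos (by positivity) (by linarith) (by linarith)
    have h4 : c * (2 * γ) ^ (-(16 * κ)) ≤ ‖riemannZeta cc‖ :=
      (mul_le_mul_of_nonneg_left h3 hc.le).trans h2
    exact mul_le_mul h1 h4 (by positivity) (norm_nonneg _)
  set M : ℝ := 2 * γ * (C * (2 * γ) ^ (16 * κ) * 2) with hM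
  have hMb : ∀ z ∈ closedBall cc (7 * κ), ‖riemannZeta₁ z‖ ≤ M := by
    intro z hz
    rw [mem_closedBall, dist_eq_norm] at hz
    obtain ⟨h1, h2⟩ := hball _ z hz
    have h1' := abs_le.1 h1
    have h2' := abs_le.1 h2
    have him : 1 ≤ z.im := by linarith [h2'.1]
    have hz1 := hne1 z him
    have h3 := hup z (by linarith [h1'.1]) (by linarith [h1'.2]) hz1
    have h4 := hnorm1 z him
    have h5 : (1 : ℝ) / ‖z - 1‖ ≤ 1 := by
      rw [div_le_one (by linarith)]; exact h4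
    have h6 : ‖z - 1‖ ≤ 2 * γ := by
      refine (Complex.norm_le_abs_re_add_abs_im _).trans ?_
      rw [Complex.sub_re, Complex.sub_im, Complex.one_re, Complex.one_im, sub_zero]
      have h7 : |z.re - 1| ≤ 1 := abs_le.2 ⟨by linarith [h1'.1], by linarith [h1'.2]⟩
      have h8 : |z.im| ≤ γ + 1 := abs_le.2 ⟨by linarith [h2'.1], by linarith [h2'.2]⟩
      linarith
    have h7 : |z.im| + 2 ≤ 2 * γ := by
      rcases abs_cases z.im with ⟨h, _⟩ | ⟨h, _⟩ <;> linarith [h2'.2]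
    rw [z1_eq hz1, norm_mul]
    calc ‖z - 1‖ * ‖riemannZeta z‖ ≤ (2 * γ) * (C * (|z.im| + 2) ^ (16 * κ) * (1 + 1 / ‖z - 1‖)) := by
          gcongr
      _ ≤ (2 * γ) * (C * (2 * γ) ^ (16 * κ) * (1 + 1)) := by gcongr
      _ = M := by rw [hM]; ring
  -- the product
  set B : ℝ := 4 * (1 + Real.log N) ^ 2 * (N : ℝ) ^ (3 * κ) with hB
  have hB1 : 1 ≤ B := by
    have h1 : 0 ≤ Real.log N := Real.log_nonneg hN1'
    have h2 : 1 ≤ (N : ℝ) ^ (3 * κ) := Real.one_le_rpow hN1' (by positivity)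
    have h3 : 1 ≤ (1 + Real.log N) ^ 2 := by nlinarith
    nlinarith
  have hQb : ∀ z ∈ ball cc (6 * κ), ‖deriv (P N) z / P N z‖ ≤ B := by
    intro z hz
    rw [mem_ball, dist_eq_norm] at hz
    obtain ⟨h1, h2⟩ := hball _ z hz.le
    have h1' := abs_le.1 h1
    exact Q_bound hN1 (by positivity) (by linarith) (by linarith [h1'.1])
  have hQd : DifferentiableOn ℂ (fun z => deriv (P N) z / P N z) (ball cc (6 * κ)) := by
    intro z hz
    rw [mem_ball, dist_eq_norm] at hz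
    obtain ⟨h1, h2⟩ := hball _ z hz.le
    have h1' := abs_le.1 h1
    have h3 : DifferentiableAt ℂ (deriv (P N)) z := ((P_diff N).analyticAt z).deriv.differentiableAt
    exact (h3.div (P_diff N z) (P_ne N (by linarith [h1'.1]))).differentiableWithinAt
  set μ : ℝ := K' * γ ^ (-δ) with hμ
  have hpow0 : 0 < γ ^ (-δ) := Real.rpow_pos_of_pos hγ0 _
  have hμ0 : 0 < μ := by positivity
  have hsmall : ∀ z ∈ closedBall cc (κ / 2), riemannZeta₁ z ≠ 0 ∧
      ‖deriv riemannZeta₁ z / riemannZeta₁ z + deriv (P N) z / P N z‖ ≤ μ := by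
    intro z hz
    rw [mem_closedBall, dist_eq_norm] at hz
    obtain ⟨h1, h2⟩ := hball _ z hz
    have h1' := abs_le.1 h1
    have h2' := abs_le.1 h2
    have hzre : 1 ≤ z.re := by linarith [h1'.1]
    have him : 1 ≤ z.im := by linarith [h2'.1]
    have hz1 := hne1 z him
    refine ⟨?_, ?_⟩
    · rw [z1_eq hz1]
      exact mul_ne_zero (sub_ne_zero.2 hz1) (riemannZeta_ne_zero_of_one_le_re hzre)
    · rw [logder_rel N hzre hz1]
      have h3 : z ∈ closedBall (2 + γ * I : ℂ) (1 - 2 * κ) := by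
        rw [mem_closedBall, dist_eq_norm]
        have h4 : ‖cc - (2 + γ * I)‖ = 1 - 3 * κ := by
          have : cc - (2 + γ * I) = ((-(1 - 3 * κ) : ℝ) : ℂ) := by
            rw [hcc]; push_cast; ring
          rw [this, Complex.norm_real, Real.norm_eq_abs, abs_neg, abs_of_nonneg (by linarith)]
        have h5 := norm_sub_le_norm_sub_add_norm_sub z cc (2 + γ * I)
        linarith
      have h4 := hn z h3
      have h5 : ‖(1 : ℂ) / (z - 1)‖ ≤ 2 * γ ^ (-δ) := by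
        rw [norm_div, norm_one]
        have h6 : γ / 2 ≤ ‖z - 1‖ := by
          have := Complex.abs_im_le_norm (z - 1)
          simp at this
          have h7 := le_abs_self z.im
          linarith [h2'.1]
        calc 1 / ‖z - 1‖ ≤ 1 / (γ / 2) := by gcongr
          _ = 2 * γ ^ (-1 : ℝ) := by rw [Real.rpow_neg_one]; field_simp
          _ ≤ 2 * γ ^ (-δ) := by
              gcongr
              linarith
      refine (norm_add_le _ _).trans ?_
      have h6 : K κ * γ ^ (-δ) ≤ |K κ| * γ ^ (-δ) := by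
        gcongr
        exact le_abs_self _
      rw [hμ, hK']
      linarith
  have key := hscale riemannZeta₁ (fun z => deriv (P N) z / P N z) cc κ M B μ hκ (by linarith)
    differentiable_riemannZeta₁ hFc hMb hQd hQb hB1 hμ0 hμ1 hsmall ?_ s ?_
  · have hs1' : s ≠ 1 := hne1 s (by rw [hsim]; linarith)
    rw [z1_eq hs1'] at key
    exact right_ne_zero_of_mul key
  · -- the size condition
    have hFc0 : 0 < ‖riemannZeta₁ cc‖ := norm_pos_iff.2 hFc
    have hM0 : 0 < M := by positivity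
    have h2γ : 0 < 2 * γ := by positivity
    have hX : M / ‖riemannZeta₁ cc‖ ≤ 4 * C / c * (2 * γ) ^ (32 * κ) := by
      have h1 : 0 < γ * (c * (2 * γ) ^ (-(16 * κ))) := by positivity
      calc M / ‖riemannZeta₁ cc‖ ≤ M / (γ * (c * (2 * γ) ^ (-(16 * κ)))) := by gcongr
        _ = 4 * C / c * ((2 * γ) ^ (16 * κ) * (2 * γ) ^ (16 * κ)) := by
            rw [hM, Real.rpow_neg h2γ.le]
            field_simp
            ring
        _ = 4 * C / c * (2 * γ) ^ (32 * κ) := by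
            rw [← Real.rpow_add h2γ]; congr 2; ring
    have hX0 : 0 < M / ‖riemannZeta₁ cc‖ := by positivity
    have e1 : Real.exp (90 * (Real.log (M / ‖riemannZeta₁ cc‖) + 1)) =
        Real.exp 90 * (M / ‖riemannZeta₁ cc‖) ^ 90 := by
      rw [show 90 * (Real.log (M / ‖riemannZeta₁ cc‖) + 1) =
        90 + ((90 : ℕ) : ℝ) * Real.log (M / ‖riemannZeta₁ cc‖) by push_cast; ring, Real.exp_add,
        Real.exp_nat_mul, Real.exp_log hX0]
    have e2 : (M / ‖riemannZeta₁ cc‖) ^ 90 ≤ (4 * C / c) ^ 90 * (2 : ℝ) ^ (2880 * κ) * γ ^ (2880 * κ) := by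
      calc (M / ‖riemannZeta₁ cc‖) ^ 90 ≤ (4 * C / c * (2 * γ) ^ (32 * κ)) ^ 90 := by gcongr
        _ = (4 * C / c) ^ 90 * ((2 * γ) ^ (32 * κ)) ^ 90 := by rw [mul_pow]
        _ = (4 * C / c) ^ 90 * (2 * γ) ^ (2880 * κ) := by
            congr 1
            rw [← Real.rpow_natCast, ← Real.rpow_mul h2γ.le]
            congr 1
            push_cast
            ring
        _ = _ := by rw [Real.mul_rpow (by norm_num) hγ0.le]; ring
    have e3 : B ≤ 4 * (1 + 2 / κ) ^ 2 * 2 ^ (4 * κ) * γ ^ (4 * A * κ) := by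
      refine (B_bound hN1 hκ).trans ?_
      have h1 : (N : ℝ) ^ (4 * κ) ≤ 2 ^ (4 * κ) * γ ^ (4 * A * κ) := by
        calc (N : ℝ) ^ (4 * κ) ≤ (2 * γ ^ A) ^ (4 * κ) := by
              apply Real.rpow_le_rpow (by positivity) hNup (by positivity)
          _ = 2 ^ (4 * κ) * γ ^ (4 * A * κ) := by
              rw [Real.mul_rpow (by norm_num) (by positivity), ← Real.rpow_mul hγ0.le]
              congr 2
              ring
      calc 4 * (1 + 2 / κ) ^ 2 * (N : ℝ) ^ (4 * κ)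
          ≤ 4 * (1 + 2 / κ) ^ 2 * (2 ^ (4 * κ) * γ ^ (4 * A * κ)) := by gcongr
        _ = _ := by ring
    have e4 : μ ^ (1 - θ) = K' ^ (1 - θ) * γ ^ (-((1 - θ) * δ)) := by
      rw [hμ, Real.mul_rpow hK'0.le hpow0.le, ← Real.rpow_mul hγ0.le]
      congr 2
      ring
    rw [e1, e4]
    have e5 : γ ^ (2880 * κ) * γ ^ (4 * A * κ) * γ ^ (-((1 - θ) * δ)) ≤ γ ^ (-((1 - θ) * δ / 2)) := by
      rw [← Real.rpow_add hγ0, ← Real.rpow_add hγ0]
      apply Real.rpow_le_rpow_of_exponent_le (by linarith)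
      linarith
    calc Real.exp 90 * (M / ‖riemannZeta₁ cc‖) ^ 90 * B * (K' ^ (1 - θ) * γ ^ (-((1 - θ) * δ)))
        ≤ Real.exp 90 * ((4 * C / c) ^ 90 * (2 : ℝ) ^ (2880 * κ) * γ ^ (2880 * κ)) *
          (4 * (1 + 2 / κ) ^ 2 * 2 ^ (4 * κ) * γ ^ (4 * A * κ)) *
          (K' ^ (1 - θ) * γ ^ (-((1 - θ) * δ))) := by gcongr
      _ = K7 * (γ ^ (2880 * κ) * γ ^ (4 * A * κ) * γ ^ (-((1 - θ) * δ))) := by
          rw [hK7]; ring
      _ ≤ K7 * γ ^ (-((1 - θ) * δ / 2)) := by gcongr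
      _ ≤ 1 / 10 := hfin
      _ < 1 / 5 := by norm_num
  · rw [mem_closedBall, dist_eq_norm]
    have : s - cc = ((s.re - (1 + 3 * κ) : ℝ) : ℂ) := by
      apply Complex.ext
      · simp [hccre]
      · simp [hccim, hsim]
    rw [this, Complex.norm_real, Real.norm_eq_abs, abs_le]
    constructor <;> linarith

end Pool.Agent.L5helper77.Edge
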