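import Pool.Agent.Helper242.RK.Log
import Pool.Agent.L5helper77.Edge2
import Pool.Agent.H705R2.MLogC

/-!
The prime zeta function and its analytic continuation in zero-free rectangles.
-/

set_option autoImplicit false

open MeasureTheory Filter Topology Set Metric

namespace Pool.Agent.L5helper77.Edge

open Complex (I)

/-- the prime zeta function -/
noncomputable def Dp (s : ℂ) : ℂ := ∑' p : Nat.Primes, ((p : ℕ) : ℂ) ^ (-s)

/-- `-log(1 - p^{-s}) - p^{-s}` -/
noncomputable def gp (p : ℕ) (s : ℂ) : ℂ := -Complex.log (1 - (p : ℂ) ^ (-s)) - (p : ℂ) ^ (-s)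

/-- the contribution of the proper prime powers -/
noncomputable def R2 (s : ℂ) : ℂ := ∑' p : Nat.Primes, gp p s

lemma half_le {p : ℕ} (hp : 2 ≤ p) {s : ℂ} (hs : 3 / 4 ≤ s.re) : ‖(p : ℂ) ^ (-s)‖ ≤ 3 / 5 := by
  rw [norm_p (by omega)]
  have hp' : (2 : ℝ) ≤ p := by exact_mod_cast hp
  calc (p : ℝ) ^ (-s.re) ≤ (p : ℝ) ^ (-(3 / 4) : ℝ) :=
        Real.rpow_le_rpow_of_exponent_le (by linarith) (by linarith)
    _ ≤ (2 : ℝ) ^ (-(3 / 4) : ℝ) :=
        Real.rpow_le_rpow_of_nonpos (by norm_num) hp' (by norm_num)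
    _ ≤ 3 / 5 := by
        have h1 : ((2 : ℝ) ^ (-(3 / 4) : ℝ)) ^ 4 = 1 / 8 := by
          rw [← Real.rpow_natCast, ← Real.rpow_mul (by norm_num)]
          rw [show (-(3 / 4) : ℝ) * ((4 : ℕ) : ℝ) = -(3 : ℕ) by norm_num]
          rw [Real.rpow_neg (by norm_num), Real.rpow_natCast]
          norm_num
        have h2 : (1 / 8 : ℝ) ≤ (3 / 5) ^ 4 := by norm_num
        rw [← h1] at h2
        exact le_of_pow_le_pow_left₀ (by norm_num) (by norm_num) h2

lemma gp_bound {p : ℕ} (hp : 2 ≤ p) {s : ℂ} (hs : 3 / 4 ≤ s.re) :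
    ‖gp p s‖ ≤ 2 * (p : ℝ) ^ (-(2 * s.re)) := by
  have h1 := half_le hp hs
  have h2 := Complex.norm_log_one_add_sub_self_le (z := -((p : ℂ) ^ (-s))) (by
    rw [norm_neg]; linarith)
  rw [norm_neg] at h2
  have e : gp p s = -(Complex.log (1 + -((p : ℂ) ^ (-s))) - -((p : ℂ) ^ (-s))) := by
    unfold gp
    rw [← sub_eq_add_neg]
    ring
  rw [e, norm_neg]
  have h3 : ‖(p : ℂ) ^ (-s)‖ ^ 2 = (p : ℝ) ^ (-(2 * s.re)) := by
    rw [norm_p (by omega), ← Real.rpow_natCast, ← Real.rpow_mul (by positivity)]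
    congr 1
    push_cast
    ring
  rw [h3] at h2
  have h4 : (1 - ‖(p : ℂ) ^ (-s)‖)⁻¹ ≤ 5 / 2 := by
    rw [inv_le_comm₀ (by linarith) (by norm_num)]
    norm_num
    linarith
  have h5 : 0 ≤ (p : ℝ) ^ (-(2 * s.re)) := by positivity
  nlinarith

lemma gp_bound' {p : ℕ} (hp : 2 ≤ p) {s : ℂ} {a : ℝ} (ha : 3 / 4 ≤ a) (hs : a ≤ s.re) :
    ‖gp p s‖ ≤ 2 * (p : ℝ) ^ (-(2 * a)) := by
  refine (gp_bound hp (by linarith)).trans ?_
  have hp' : (1 : ℝ) ≤ p := by exact_mod_cast (by omega : 1 ≤ p)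
  gcongr

lemma sum_rpow {a : ℝ} (ha : a < -1) : Summable (fun p : Nat.Primes => ((p : ℕ) : ℝ) ^ a) :=
  Nat.Primes.summable_rpow.2 ha

lemma gp_diff {p : ℕ} (hp : 2 ≤ p) {s : ℂ} (hs : 0 < s.re) : DifferentiableAt ℂ (gp p) s := by
  have hp0 : (p : ℂ) ≠ 0 := by exact_mod_cast (by omega : p ≠ 0)
  have h1 : DifferentiableAt ℂ (fun s : ℂ => (p : ℂ) ^ (-s)) s :=
    DifferentiableAt.const_cpow differentiableAt_id.neg (Or.inl hp0)
  have h2 : ‖(p : ℂ) ^ (-s)‖ < 1 := by
    rw [norm_p (by omega)]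
    exact Real.rpow_lt_one_of_one_lt_of_neg (by exact_mod_cast (by omega : 1 < p)) (by linarith)
  have h3 : (1 : ℂ) - (p : ℂ) ^ (-s) ∈ Complex.slitPlane := by
    left
    have h4 := (Complex.re_le_norm ((p : ℂ) ^ (-s))).trans_lt h2
    rw [Complex.sub_re, Complex.one_re]
    linarith
  exact ((h1.const_sub 1).clog h3).neg.sub h1

lemma R2_diff : DifferentiableOn ℂ R2 {s : ℂ | 3 / 4 < s.re} := by
  have hopen : IsOpen {s : ℂ | 3 / 4 < s.re} := isOpen_lt continuous_const Complex.continuous_re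
  exact Complex.differentiableOn_tsum_of_summable_norm
    (u := fun p : Nat.Primes => 2 * ((p : ℕ) : ℝ) ^ (-(2 * (3 / 4)) : ℝ))
    ((sum_rpow (by norm_num)).mul_left 2)
    (fun p s hs => (gp_diff p.2.two_le (by
      have : (3 : ℝ) / 4 < s.re := hs
      linarith)).differentiableWithinAt) hopen
    (fun p s hs => gp_bound' p.2.two_le le_rfl (by
      have : (3 : ℝ) / 4 < s.re := hs
      linarith))

lemma gp_summable {s : ℂ} (hs : 3 / 4 ≤ s.re) : Summable (fun p : Nat.Primes => gp p s) :=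
  Summable.of_norm_bounded (g := fun p : Nat.Primes => 2 * ((p : ℕ) : ℝ) ^ (-(2 * (3 / 4)) : ℝ))
    ((sum_rpow (by norm_num)).mul_left 2) (fun p => gp_bound' p.2.two_le le_rfl hs)

lemma R2_bound : ∃ C : ℝ, 0 < C ∧ ∀ s : ℂ, 3 / 4 ≤ s.re → ‖R2 s‖ ≤ C := by
  have hsum := (sum_rpow (a := (-(2 * (3 / 4)) : ℝ)) (by norm_num)).mul_left 2
  refine ⟨(∑' p : Nat.Primes, 2 * ((p : ℕ) : ℝ) ^ (-(2 * (3 / 4)) : ℝ)) + 1, ?_, fun s hs => ?_⟩
  · have : 0 ≤ ∑' p : Nat.Primes, 2 * ((p : ℕ) : ℝ) ^ (-(2 * (3 / 4)) : ℝ) :=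
      tsum_nonneg fun p => by positivity
    linarith
  · unfold R2
    have := tsum_of_norm_bounded hsum.hasSum (fun p : Nat.Primes => gp_bound' p.2.two_le le_rfl hs)
    linarith

lemma Dp_term {p : Nat.Primes} {s : ℂ} : ‖((p : ℕ) : ℂ) ^ (-s)‖ = ((p : ℕ) : ℝ) ^ (-s.re) :=
  norm_p p.2.pos s

lemma Dp_summable {s : ℂ} (hs : 1 < s.re) : Summable (fun p : Nat.Primes => ((p : ℕ) : ℂ) ^ (-s)) := by
  apply Summable.of_norm
  simp_rw [Dp_term]
  exact sum_rpow (by linarith)

lemma Dp_diff : DifferentiableOn ℂ Dp {s : ℂ | 1 < s.re} := by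
  intro s hs
  have hs' : 1 < s.re := hs
  set a : ℝ := (1 + s.re) / 2 with ha
  have ha1 : 1 < a := by rw [ha]; linarith
  have ha2 : a < s.re := by rw [ha]; linarith
  have hopen : IsOpen {s : ℂ | a < s.re} := isOpen_lt continuous_const Complex.continuous_re
  have h : DifferentiableOn ℂ Dp {s : ℂ | a < s.re} := by
    refine Complex.differentiableOn_tsum_of_summable_norm
      (u := fun p : Nat.Primes => ((p : ℕ) : ℝ) ^ (-a)) (sum_rpow (by linarith)) ?_ hopen ?_
    · intro p s _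
      have hp0 : ((p : ℕ) : ℂ) ≠ 0 := by exact_mod_cast p.2.ne_zero
      exact (DifferentiableAt.const_cpow differentiableAt_id.neg (Or.inl hp0)).differentiableWithinAt
    · intro p s hs
      have hs' : a < s.re := hs
      rw [Dp_term]
      have hp' : (1 : ℝ) ≤ (p : ℕ) := by exact_mod_cast p.2.one_lt.le
      exact Real.rpow_le_rpow_of_exponent_le hp' (by linarith)
  exact (h.differentiableAt (hopen.mem_nhds ha2)).differentiableWithinAt

lemma exp_DR {s : ℂ} (hs : 1 < s.re) : Complex.exp (Dp s + R2 s) = riemannZeta s := by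
  rw [← riemannZeta_eulerProduct_exp_log hs]
  congr 1
  unfold Dp R2
  rw [← (Dp_summable hs).tsum_add (gp_summable (by linarith))]
  refine tsum_congr fun p => ?_
  unfold gp
  ring

/-- the rectangle -/
def Om (κ t U : ℝ) : Set ℂ := {s : ℂ | 1 - κ < s.re ∧ |s.im - t| < U}

lemma Om_open (κ t U : ℝ) : IsOpen (Om κ t U) := by
  apply IsOpen.inter
  · exact isOpen_lt continuous_const Complex.continuous_re
  · exact isOpen_lt ((Complex.continuous_im.sub continuous_const).abs) continuous_const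

lemma Om_convex (κ t U : ℝ) : Convex ℝ (Om κ t U) := by
  have h : Om κ t U = {s : ℂ | 1 - κ < s.re} ∩ ({s : ℂ | t - U < s.im} ∩ {s : ℂ | s.im < t + U}) := by
    ext s
    simp only [Om, mem_ofPred_eq, mem_inter_iff, abs_lt]
    constructor
    · rintro ⟨a, b, c⟩; exact ⟨a, by linarith, by linarith⟩
    · rintro ⟨a, b, c⟩; exact ⟨a, by linarith, by linarith⟩
  rw [h]
  exact (convex_halfSpace_re_gt _).inter ((convex_halfSpace_im_gt _).inter (convex_halfSpace_im_lt _))

lemma exists_ell {κ t U : ℝ} (hκ : 0 < κ) (hκ1 : κ ≤ 1 / 4) (hU : 0 < U) (ht : U ≤ t)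
    (hz : ∀ s ∈ Om κ t U, riemannZeta s ≠ 0) :
    ∃ ℓ : ℂ → ℂ, DifferentiableOn ℂ ℓ (Om κ t U) ∧
      (∀ s ∈ Om κ t U, Complex.exp (ℓ s + R2 s) = riemannZeta s) ∧
      ∀ s ∈ Om κ t U, 1 < s.re → ℓ s = Dp s := by
  have hO := Om_open κ t U
  have him : ∀ s ∈ Om κ t U, 0 < s.im := by
    intro s hs
    have := (abs_lt.1 hs.2).1
    linarith
  have hne1 : ∀ s ∈ Om κ t U, s ≠ 1 := by
    intro s hs h
    have := him s hs
    rw [h] at this
    simp at this
  have hs1 : (2 + t * I : ℂ) ∈ Om κ t U := by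
    refine ⟨?_, ?_⟩
    · simp; linarith
    · simp; exact hU
  have hzd : DifferentiableOn ℂ riemannZeta (Om κ t U) := fun s hs =>
    (differentiableAt_riemannZeta (hne1 s hs)).differentiableWithinAt
  obtain ⟨L, hLd, hL⟩ := Pool.Agent.Helper242.RK.exists_log (Om_convex κ t U) hO ⟨_, hs1⟩ hzd hz
  set s1 : ℂ := 2 + t * I with hs1def
  have hRd : ∀ s : ℂ, 3 / 4 < s.re → DifferentiableAt ℂ R2 s := fun s hs =>
    R2_diff.differentiableAt ((isOpen_lt continuous_const Complex.continuous_re).mem_nhds hs)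
  have hDd : ∀ s : ℂ, 1 < s.re → DifferentiableAt ℂ Dp s := fun s hs =>
    Dp_diff.differentiableAt ((isOpen_lt continuous_const Complex.continuous_re).mem_nhds hs)
  have hOre : ∀ s ∈ Om κ t U, 3 / 4 < s.re := by
    intro s hs
    have := hs.1
    linarith
  -- the constant
  have hconst : ∀ s ∈ Om κ t U, 1 < s.re → (Dp s + R2 s) - L s = (Dp s1 + R2 s1) - L s1 := by
    set V : Set ℂ := Om κ t U ∩ {s : ℂ | 1 < s.re} with hV
    have hVo : IsOpen V := hO.inter (isOpen_lt continuous_const Complex.continuous_re)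
    have hVc : Convex ℝ V := (Om_convex κ t U).inter (convex_halfSpace_re_gt _)
    have hd : ∀ s ∈ V, HasDerivAt (fun s => (Dp s + R2 s) - L s) 0 s := by
      rintro s ⟨h1, h2⟩
      have h2' : 1 < s.re := h2
      have a1 : DifferentiableAt ℂ (fun s => Dp s + R2 s) s :=
        (hDd s h2').add (hRd s (by linarith))
      have a2 : DifferentiableAt ℂ L s := hLd.differentiableAt (hO.mem_nhds h1)
      have e1 : deriv (fun s => Dp s + R2 s) s * riemannZeta s = deriv riemannZeta s := by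
        have h3 : (fun s => Complex.exp (Dp s + R2 s)) =ᶠ[𝓝 s] riemannZeta := by
          filter_upwards [(isOpen_lt continuous_const Complex.continuous_re).mem_nhds h2'] with w hw
          exact exp_DR hw
        rw [← h3.deriv_eq, a1.hasDerivAt.cexp.deriv, exp_DR h2']
        ring
      have e2 : deriv L s * riemannZeta s = deriv riemannZeta s := by
        have h3 : (fun s => Complex.exp (L s)) =ᶠ[𝓝 s] riemannZeta := by
          filter_upwards [hO.mem_nhds h1] with w hw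
          exact hL w hw
        rw [← h3.deriv_eq, a2.hasDerivAt.cexp.deriv, hL s h1]
        ring
      have h4 := a1.hasDerivAt.sub a2.hasDerivAt
      have h5 : deriv (fun s => Dp s + R2 s) s - deriv L s = 0 := by
        have := hz s h1
        have h6 : (deriv (fun s => Dp s + R2 s) s - deriv L s) * riemannZeta s = 0 := by
          rw [sub_mul, e1, e2, sub_self]
        exact (mul_eq_zero.1 h6).resolve_right this
      rw [h5] at h4
      exact h4
    intro s hs hs'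
    have hsV : s ∈ V := ⟨hs, hs'⟩
    have hs1V : s1 ∈ V := ⟨hs1, by simp [hs1def]⟩
    exact hVo.is_const_of_deriv_eq_zero hVc.isPreconnected
      (fun w hw => (hd w hw).differentiableAt.differentiableWithinAt)
      (fun w hw => (hd w hw).deriv) hsV hs1V
  have hs1re : 1 < s1.re := by simp [hs1def]
  refine ⟨fun s => L s + ((Dp s1 + R2 s1) - L s1) - R2 s, ?_, ?_, ?_⟩
  · intro s hs
    have a2 : DifferentiableAt ℂ L s := hLd.differentiableAt (hO.mem_nhds hs)
    exact ((a2.add_const _).sub (hRd s (hOre s hs))).differentiableWithinAt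
  · intro s hs
    have e : L s + ((Dp s1 + R2 s1) - L s1) - R2 s + R2 s = L s + (Dp s1 + R2 s1) - L s1 := by ring
    simp only
    rw [e, Complex.exp_sub, Complex.exp_add, exp_DR hs1re, hL s hs, hL s1 hs1]
    have := hz s1 hs1
    field_simp
  · intro s hs hs'
    simp only
    rw [← hconst s hs hs']
    ring

lemma ell_bound {κ : ℝ} (hκ : 0 < κ) (hκ1 : κ ≤ 1 / 4) : ∃ C : ℝ, 1 ≤ C ∧
    ∀ T t U : ℝ, 3 ≤ T → T ≤ t → t ≤ 2 * T → 4 ≤ U → U ≤ T / 2 →
    (∀ s ∈ Om κ t U, riemannZeta s ≠ 0) →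
    ∀ ℓ : ℂ → ℂ, DifferentiableOn ℂ ℓ (Om κ t U) →
      (∀ s ∈ Om κ t U, Complex.exp (ℓ s + R2 s) = riemannZeta s) →
      (∀ s ∈ Om κ t U, 1 < s.re → ℓ s = Dp s) →
    ∀ s : ℂ, 1 - κ / 2 ≤ s.re → s.re ≤ 2 → |s.im - t| ≤ U - 1 → ‖ℓ s‖ ≤ C * Real.log T := by
  obtain ⟨C1, hC1, hup⟩ := Pool.Agent.H705R2.MSW.zeta_up (ε := 4 * κ) (by positivity) (by linarith)
  obtain ⟨CR, hCR, hR⟩ := R2_bound
  set C0 : ℝ := ∑' p : Nat.Primes, ((p : ℕ) : ℝ) ^ (-(3 / 2) : ℝ) with hC0
  have hC00 : 0 ≤ C0 := tsum_nonneg fun p => by positivity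
  set A : ℝ := Real.log (8 * C1) + 1 with hA
  have hA0 : 1 ≤ A := by
    have := Real.log_nonneg (show 1 ≤ 8 * C1 by linarith)
    linarith
  refine ⟨3 * (A + C0 + CR) / κ + (C0 + CR) + CR + 1, ?_, ?_⟩
  · have : 0 ≤ 3 * (A + C0 + CR) / κ := by positivity
    linarith
  intro T t U hT hTt htT hU hUT hz ℓ hℓd hℓe hℓD s hs1 hs2 hs3
  have hlogT : 1 ≤ Real.log T := by
    rw [Real.le_log_iff_exp_le (by linarith)]
    linarith [Real.exp_one_lt_d9]
  set c : ℂ := 3 / 2 + s.im * I with hc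
  have hcre : c.re = 3 / 2 := by simp [hc]
  have hcim : c.im = s.im := by simp [hc]
  set R : ℝ := 1 / 2 + κ with hRdef
  have hmem : ∀ w ∈ ball (0 : ℂ) R, c + w ∈ Om κ t U := by
    intro w hw
    rw [mem_ball, dist_zero_right] at hw
    have h1 := (abs_lt.1 ((Complex.abs_re_le_norm w).trans_lt hw)).1
    have h2 := (Complex.abs_im_le_norm w).trans_lt hw
    refine ⟨?_, ?_⟩
    · rw [Complex.add_re, hcre]; linarith
    · rw [Complex.add_im, hcim]
      have h3 : |s.im + w.im - t| ≤ |s.im - t| + |w.im| := by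
        rw [show s.im + w.im - t = (s.im - t) + w.im by ring]
        exact abs_add_le _ _
      linarith
  set F : ℂ → ℂ := fun w => ℓ (c + w) + R2 (c + w) with hF
  have hc0 : c ∈ Om κ t U := by
    have := hmem 0 (mem_ball_self (by positivity))
    simpa using this
  have hF0 : ‖F 0‖ ≤ C0 + CR := by
    simp only [hF, add_zero]
    rw [hℓD c hc0 (by rw [hcre]; norm_num)]
    refine (norm_add_le _ _).trans (add_le_add ?_ (hR c (by rw [hcre]; norm_num)))
    have hsum := (sum_rpow (a := (-(3 / 2) : ℝ)) (by norm_num)).hasSum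
    refine tsum_of_norm_bounded hsum ?_
    intro p
    rw [Dp_term, hcre]
  have hRd : ∀ s : ℂ, 3 / 4 < s.re → DifferentiableAt ℂ R2 s := fun s hs =>
    R2_diff.differentiableAt ((isOpen_lt continuous_const Complex.continuous_re).mem_nhds hs)
  have hFd : DifferentiableOn ℂ F (ball 0 R) := by
    intro w hw
    have h1 := hmem w hw
    have h2 : DifferentiableAt ℂ ℓ (c + w) := hℓd.differentiableAt ((Om_open κ t U).mem_nhds h1)
    have h3 : DifferentiableAt ℂ R2 (c + w) := hRd _ (by have := h1.1; linarith)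
    have h4 : DifferentiableAt ℂ (fun w => c + w) w := by fun_prop
    exact ((h2.comp w h4).add (h3.comp w h4)).differentiableWithinAt
  set Λ : ℝ := A * Real.log T + (C0 + CR) with hΛ
  have hΛ0 : 0 < Λ := by positivity
  have hFre : ∀ w ∈ ball (0 : ℂ) R, (F w).re ≤ A * Real.log T := by
    intro w hw
    have h1 := hmem w hw
    have h2 : Real.exp ((F w).re) = ‖riemannZeta (c + w)‖ := by
      rw [← hℓe _ h1, Complex.norm_exp]
    have h1re := h1.1
    have h1im := abs_lt.1 h1.2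
    have him1 : 1 ≤ (c + w).im := by linarith [h1im.1]
    have hne : c + w ≠ 1 := by
      intro h
      rw [h] at him1
      simp at him1
      linarith
    have hw' := hw
    rw [mem_ball, dist_zero_right] at hw'
    have h5 := (abs_lt.1 ((Complex.abs_re_le_norm w).trans_lt hw')).2
    have h3 := hup (c + w) (by linarith) (by rw [Complex.add_re, hcre]; linarith) hne
    have h4 : 1 ≤ ‖c + w - 1‖ := by
      have := Complex.abs_im_le_norm (c + w - 1)
      rw [Complex.sub_im, Complex.one_im, sub_zero] at this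
      exact (him1.trans (le_abs_self _)).trans this
    have h6 : (1 : ℝ) / ‖c + w - 1‖ ≤ 1 := by
      rw [div_le_one (by linarith)]; exact h4
    have h7 : |(c + w).im| + 2 ≤ 4 * T := by
      rw [abs_of_nonneg (by linarith)]
      linarith [h1im.2]
    have h8 : (|(c + w).im| + 2) ^ (4 * κ) ≤ 4 * T := by
      calc (|(c + w).im| + 2) ^ (4 * κ) ≤ (4 * T) ^ (4 * κ) := by gcongr
        _ ≤ (4 * T) ^ (1 : ℝ) := Real.rpow_le_rpow_of_exponent_le (by linarith) (by linarith)
        _ = 4 * T := Real.rpow_one _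
    have h9 : ‖riemannZeta (c + w)‖ ≤ 8 * C1 * T := by
      refine h3.trans ?_
      calc C1 * (|(c + w).im| + 2) ^ (4 * κ) * (1 + 1 / ‖c + w - 1‖) ≤ C1 * (4 * T) * (1 + 1) := by
            gcongr
        _ = 8 * C1 * T := by ring
    rw [← h2] at h9
    have h10 : (F w).re ≤ Real.log (8 * C1 * T) := by
      rw [Real.le_log_iff_exp_le (by positivity)]
      exact h9
    rw [Real.log_mul (by positivity) (by positivity)] at h10
    have h11 := Real.log_nonneg (show 1 ≤ 8 * C1 by linarith)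
    rw [hA]
    nlinarith
  have hd1 : DifferentiableOn ℂ (fun w => F w - F 0) (ball 0 R) := hFd.sub_const _
  have hmaps : MapsTo (fun w => F w - F 0) (ball 0 R) {z | z.re ≤ Λ} := by
    intro w hw
    have h1 := hFre w hw
    have h2 := Complex.abs_re_le_norm (F 0)
    have h3 := (abs_le.1 (h2.trans hF0)).1
    show (F w - F 0).re ≤ Λ
    rw [Complex.sub_re]
    linarith
  set w0 : ℂ := ((s.re - 3 / 2 : ℝ) : ℂ) with hw0
  have hw0n : ‖w0‖ ≤ 1 / 2 + κ / 2 := by
    rw [hw0, Complex.norm_real, Real.norm_eq_abs, abs_le]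
    constructor <;> linarith
  have hw0b : w0 ∈ ball (0 : ℂ) R := by
    rw [mem_ball, dist_zero_right]; linarith
  have hcs : c + w0 = s := by
    apply Complex.ext
    · rw [Complex.add_re, hcre, hw0, Complex.ofReal_re]; ring
    · rw [Complex.add_im, hcim, hw0, Complex.ofReal_im]; ring
  have hbc := Complex.borelCaratheodory_zero hΛ0 hd1 hmaps (by positivity) hw0b (by simp)
  have hsimp : 2 * Λ * ‖w0‖ / (R - ‖w0‖) ≤ 3 * Λ / κ := by
    have h1 : κ / 2 ≤ R - ‖w0‖ := by linarith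
    have h2 : 0 < R - ‖w0‖ := by linarith
    rw [div_le_div_iff₀ h2 hκ]
    have h3 : ‖w0‖ ≤ 5 / 8 := by linarith
    have h4 := norm_nonneg w0
    have h5 : 2 * Λ * ‖w0‖ * κ ≤ 2 * Λ * (5 / 8) * κ := by gcongr
    have h6 : 3 * Λ * (κ / 2) ≤ 3 * Λ * (R - ‖w0‖) := by gcongr
    nlinarith
  have hsO : s ∈ Om κ t U := by rw [← hcs]; exact hmem _ hw0b
  have h12 : ‖F w0 - F 0‖ ≤ 3 * Λ / κ := hbc.trans hsimp
  have h13 : F w0 = ℓ s + R2 s := by simp only [hF]; rw [hcs]
  have h14 := hR s (by have := hsO.1; linarith)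
  have h15 : ℓ s = (F w0 - F 0) + F 0 - R2 s := by rw [h13]; ring
  rw [h15]
  have h16 : ‖(F w0 - F 0) + F 0 - R2 s‖ ≤ 3 * Λ / κ + (C0 + CR) + CR := by
    refine (norm_sub_le _ _).trans (add_le_add ((norm_add_le _ _).trans (add_le_add h12 hF0)) h14)
  refine h16.trans ?_
  have h17 : 3 * Λ / κ ≤ 3 * (A + C0 + CR) / κ * Real.log T := by
    rw [div_mul_eq_mul_div]
    apply div_le_div_of_nonneg_right _ hκ.le
    have : C0 + CR ≤ (C0 + CR) * Real.log T := by nlinarith
    rw [hΛ]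
    nlinarith
  have h18 : (C0 + CR) + CR ≤ ((C0 + CR) + CR) * Real.log T := by nlinarith
  nlinarith

end Pool.Agent.L5helper77.Edge
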