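import Pool.Agent.L5helper77.Edge5
import Pool.Agent.W66.PA
set_option autoImplicit false
open MeasureTheory Filter Topology Set Metric
namespace Pool.Agent.L5helper77.Edge
open Complex (I)
open Pool.Agent.H379R2.SW (vert vert_re vert_im vert_ne_zero continuous_vert)
open Pool.Agent.W66 (perron_vert integrable_exp_vert integrable_inv_norm_vert_sq')

/-- the kernel -/
noncomputable def Kk (l h : ℝ) (w : ℂ) : ℂ :=
  (Complex.exp ((l + h : ℝ) * w) - Complex.exp ((l : ℝ) * w)) / (h * w ^ 2)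

/-- the cutoff in the logarithmic scale -/
noncomputable def Wt (l h u : ℝ) : ℝ := (max (l + h - u) 0 - max (l - u) 0) / h

lemma Wt_zero {l h : ℝ} (hl : 0 ≤ l) (hh : 0 < h) : Wt l h 0 = 1 := by
  unfold Wt
  rw [sub_zero, sub_zero, max_eq_left (by linarith), max_eq_left hl]
  field_simp
  ring

lemma Wt_one {l h u : ℝ} (hh : 0 < h) (hu : u ≤ l) : Wt l h u = 1 := by
  unfold Wt
  rw [max_eq_left (by linarith), max_eq_left (by linarith)]
  field_simp
  ring

lemma Wt_out {l h u : ℝ} (hh : 0 < h) (hu : l + h ≤ u) : Wt l h u = 0 := by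
  unfold Wt
  rw [max_eq_right (by linarith), max_eq_right (by linarith)]
  simp

lemma Wt_mem {l h u : ℝ} (hh : 0 < h) : 0 ≤ Wt l h u ∧ Wt l h u ≤ 1 := by
  unfold Wt
  constructor
  · apply div_nonneg _ hh.le
    have := max_le_max (show l - u ≤ l + h - u by linarith) (le_refl (0 : ℝ))
    linarith
  · rw [div_le_one hh]
    have h1 : max (l + h - u) 0 ≤ max (l - u) 0 + h := by
      apply max_le
      · have := le_max_left (l - u) 0
        linarith
      · have := le_max_right (l - u) 0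
        linarith
    linarith

lemma Kk_norm {l h : ℝ} (hh : 0 < h) (hl : 0 ≤ l) {w : ℂ} {c : ℝ} (hc : 0 ≤ c) (hwc : w.re ≤ c) :
    ‖Kk l h w‖ ≤ 2 * Real.exp ((l + h) * c) / h * (‖w‖ ^ 2)⁻¹ := by
  unfold Kk
  rw [norm_div, norm_mul, norm_pow, Complex.norm_real, Real.norm_of_nonneg hh.le]
  have h1 : ‖Complex.exp ((l + h : ℝ) * w) - Complex.exp ((l : ℝ) * w)‖ ≤
      2 * Real.exp ((l + h) * c) := by
    refine (norm_sub_le _ _).trans ?_
    rw [Complex.norm_exp, Complex.norm_exp, Complex.re_ofReal_mul, Complex.re_ofReal_mul]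
    have h2 : Real.exp ((l + h) * w.re) ≤ Real.exp ((l + h) * c) := by
      apply Real.exp_le_exp.2
      exact mul_le_mul_of_nonneg_left hwc (by linarith)
    have h3 : Real.exp (l * w.re) ≤ Real.exp ((l + h) * c) := by
      apply Real.exp_le_exp.2
      have : l * w.re ≤ l * c := mul_le_mul_of_nonneg_left hwc hl
      nlinarith
    linarith
  rw [div_eq_mul_inv, mul_inv]
  calc _ ≤ 2 * Real.exp ((l + h) * c) * (h⁻¹ * (‖w‖ ^ 2)⁻¹) := by gcongr
    _ = _ := by ring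

/-- left of the origin -/
lemma Kk_norm_left {l h : ℝ} (hh : 0 < h) (hl : 0 ≤ l) {w : ℂ} {b : ℝ} (hb : 0 ≤ b)
    (hwb : w.re = -b) : ‖Kk l h w‖ ≤ 2 * Real.exp (-(l * b)) / h * (‖w‖ ^ 2)⁻¹ := by
  unfold Kk
  rw [norm_div, norm_mul, norm_pow, Complex.norm_real, Real.norm_of_nonneg hh.le]
  have h1 : ‖Complex.exp ((l + h : ℝ) * w) - Complex.exp ((l : ℝ) * w)‖ ≤
      2 * Real.exp (-(l * b)) := by
    refine (norm_sub_le _ _).trans ?_
    rw [Complex.norm_exp, Complex.norm_exp, Complex.re_ofReal_mul, Complex.re_ofReal_mul, hwb]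
    have h2 : Real.exp ((l + h) * -b) ≤ Real.exp (-(l * b)) := by
      apply Real.exp_le_exp.2
      nlinarith
    have h3 : Real.exp (l * -b) = Real.exp (-(l * b)) := by congr 1; ring
    linarith
  rw [div_eq_mul_inv, mul_inv]
  calc _ ≤ 2 * Real.exp (-(l * b)) * (h⁻¹ * (‖w‖ ^ 2)⁻¹) := by gcongr
    _ = _ := by ring

lemma Kk_shift {l h : ℝ} (hh : 0 < h) (u : ℝ) (w : ℂ) : Complex.exp (-(w * u)) * Kk l h w =
    (1 / h : ℝ) * (Complex.exp (w * ((l + h - u : ℝ) : ℂ)) / w ^ 2 -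
      Complex.exp (w * ((l - u : ℝ) : ℂ)) / w ^ 2) := by
  unfold Kk
  have e1 : Complex.exp (w * ((l + h - u : ℝ) : ℂ)) = Complex.exp (-(w * u)) *
      Complex.exp ((l + h : ℝ) * w) := by
    rw [← Complex.exp_add]; congr 1; push_cast; ring
  have e2 : Complex.exp (w * ((l - u : ℝ) : ℂ)) = Complex.exp (-(w * u)) *
      Complex.exp ((l : ℝ) * w) := by
    rw [← Complex.exp_add]; congr 1; push_cast; ring
  rw [e1, e2]
  have hhc : (h : ℂ) ≠ 0 := by exact_mod_cast hh.ne'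
  push_cast
  rcases eq_or_ne w 0 with hw | hw
  · simp [hw]
  · field_simp

lemma Kk_int {l h c : ℝ} (hh : 0 < h) (hc : 0 < c) (u : ℝ) :
    Integrable (fun ξ : ℝ => Complex.exp (-(vert c ξ * u)) * Kk l h (vert c ξ)) ∧
    ∫ ξ : ℝ, Complex.exp (-(vert c ξ * u)) * Kk l h (vert c ξ) = (Wt l h u : ℂ) := by
  simp_rw [Kk_shift hh u]
  have i1 := integrable_exp_vert hc (l + h - u)
  have i2 := integrable_exp_vert hc (l - u)
  refine ⟨(i1.sub i2).const_mul _, ?_⟩
  rw [integral_const_mul, integral_sub i1 i2, perron_vert hc, perron_vert hc]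
  unfold Wt
  push_cast
  ring

lemma Kk_cont {l h c : ℝ} (hh : 0 < h) (hc : 0 < c) : Continuous (fun ξ : ℝ => Kk l h (vert c ξ)) := by
  unfold Kk
  have hv := continuous_vert c
  have hhc : (h : ℂ) ≠ 0 := by exact_mod_cast hh.ne'
  refine Continuous.div (by fun_prop) (by fun_prop) ?_
  intro ξ
  exact mul_ne_zero hhc (pow_ne_zero 2 (vert_ne_zero hc ξ))

lemma Dp_perron {l h c : ℝ} (hh : 0 < h) (hl : 0 ≤ l) (hc : 0 < c) {s : ℂ} (hs : s.re = 1) :
    Integrable (fun ξ : ℝ => Dp (s + vert c ξ) * Kk l h (vert c ξ)) ∧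
    ∫ ξ : ℝ, Dp (s + vert c ξ) * Kk l h (vert c ξ) =
      ∑' p : Nat.Primes, ((p : ℕ) : ℂ) ^ (-s) * (Wt l h (Real.log (p : ℕ)) : ℂ) := by
  set F : Nat.Primes → ℝ → ℂ := fun p ξ => ((p : ℕ) : ℂ) ^ (-(s + vert c ξ)) * Kk l h (vert c ξ) with hF
  have hFe : ∀ p ξ, F p ξ = ((p : ℕ) : ℂ) ^ (-s) *
      (Complex.exp (-(vert c ξ * (Real.log (p : ℕ) : ℝ))) * Kk l h (vert c ξ)) := by
    intro p ξ
    simp only [hF]
    have hp0 : ((p : ℕ) : ℂ) ≠ 0 := by exact_mod_cast p.2.ne_zero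
    have e1 : ((p : ℕ) : ℂ) ^ (-(s + vert c ξ)) = ((p : ℕ) : ℂ) ^ (-s) *
        Complex.exp (-(vert c ξ * (Real.log (p : ℕ) : ℝ))) := by
      rw [neg_add, Complex.cpow_add _ _ hp0]
      congr 1
      rw [Complex.cpow_def_of_ne_zero hp0, ← Complex.natCast_log]
      congr 1
      ring
    rw [e1, mul_assoc]
  have hre : ∀ ξ, (s + vert c ξ).re = 1 + c := by
    intro ξ
    rw [Complex.add_re, hs, vert_re]
  have hnorm : ∀ p ξ, ‖F p ξ‖ = ((p : ℕ) : ℝ) ^ (-(1 + c)) * ‖Kk l h (vert c ξ)‖ := by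
    intro p ξ
    simp only [hF]
    rw [norm_mul, Dp_term, hre]
  have hKi : Integrable (fun ξ : ℝ => Kk l h (vert c ξ)) := by
    refine Integrable.mono' ((integrable_inv_norm_vert_sq' hc).const_mul
      (2 * Real.exp ((l + h) * c) / h)) (Kk_cont hh hc).aestronglyMeasurable ?_
    exact Eventually.of_forall fun ξ => Kk_norm hh hl hc.le (by rw [vert_re])
  have hFi : ∀ p, Integrable (F p) := by
    intro p
    have h1 := (Kk_int (l := l) hh hc (Real.log (p : ℕ))).1.const_mul (((p : ℕ) : ℂ) ^ (-s))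
    refine h1.congr (Eventually.of_forall fun ξ => ?_)
    rw [hFe]
  have hFs : Summable (fun p => ∫ ξ, ‖F p ξ‖) := by
    simp_rw [hnorm, integral_const_mul]
    exact (sum_rpow (by linarith)).mul_right _
  have hmain := MeasureTheory.hasSum_integral_of_summable_integral_norm hFi hFs
  have htsum : ∀ ξ, ∑' p, F p ξ = Dp (s + vert c ξ) * Kk l h (vert c ξ) := by
    intro ξ
    simp only [hF]
    rw [tsum_mul_right]
    rfl
  simp_rw [htsum] at hmain
  constructor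
  · have hcont : Continuous (fun ξ : ℝ => Dp (s + vert c ξ)) := by
      rw [continuous_iff_continuousAt]
      intro ξ
      have h1 : 1 < (s + vert c ξ).re := by rw [hre]; linarith
      have h2 : ContinuousAt Dp (s + vert c ξ) :=
        (Dp_diff.differentiableAt ((isOpen_lt continuous_const Complex.continuous_re).mem_nhds
          h1)).continuousAt
      have h3 : ContinuousAt (fun ξ : ℝ => s + vert c ξ) ξ :=
        (continuous_const.add (continuous_vert c)).continuousAt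
      exact ContinuousAt.comp (f := fun ξ : ℝ => s + vert c ξ) (g := Dp) h2 h3
    refine Integrable.mono' (hKi.norm.const_mul (∑' p : Nat.Primes, ((p : ℕ) : ℝ) ^ (-(1 + c))))
      (hcont.mul (Kk_cont hh hc)).aestronglyMeasurable ?_
    refine Eventually.of_forall fun ξ => ?_
    rw [norm_mul]
    apply mul_le_mul_of_nonneg_right _ (norm_nonneg _)
    refine tsum_of_norm_bounded (sum_rpow (by linarith)).hasSum ?_
    intro p
    rw [Dp_term, hre]
  · rw [← hmain.tsum_eq]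
    refine tsum_congr fun p => ?_
    have h1 := (Kk_int (l := l) hh hc (Real.log (p : ℕ))).2
    rw [← h1, ← integral_const_mul]
    congr 1
    funext ξ
    rw [hFe]

lemma tail_int {X : ℝ} (hX : 0 < X) : IntegrableOn (fun ξ : ℝ => (ξ ^ 2)⁻¹) (Icc (-X) X)ᶜ ∧
    ∫ ξ in (Icc (-X) X)ᶜ, (ξ ^ 2)⁻¹ = 2 / X := by
  have e : (Icc (-X) X)ᶜ = Iio (-X) ∪ Ioi X := by
    ext x
    simp only [mem_compl_iff, mem_Icc, mem_union, mem_Iio, mem_Ioi, not_and_or, not_le]
  have h1 : IntegrableOn (fun ξ : ℝ => (ξ ^ 2)⁻¹) (Ioi X) := by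
    have := integrableOn_Ioi_rpow_of_lt (a := -2) (by norm_num) hX
    refine this.congr_fun ?_ measurableSet_Ioi
    intro x hx
    have hx0 : 0 < x := hX.trans hx
    simp only
    rw [Real.rpow_neg hx0.le]
    norm_num
  have h2 : ∫ ξ in Ioi X, (ξ ^ 2)⁻¹ = 1 / X := by
    have := integral_Ioi_rpow_of_lt (a := -2) (by norm_num) hX
    have e2 : ∫ ξ in Ioi X, (ξ ^ 2)⁻¹ = ∫ ξ in Ioi X, ξ ^ (-2 : ℝ) := by
      refine setIntegral_congr_fun measurableSet_Ioi ?_
      intro x hx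
      have hx0 : 0 < x := hX.trans hx
      simp only
      rw [Real.rpow_neg hx0.le]
      norm_num
    rw [e2, this]
    norm_num
    rw [Real.rpow_neg_one]
  have h3 : IntegrableOn (fun ξ : ℝ => (ξ ^ 2)⁻¹) (Iio (-X)) := by
    have h5 : IntegrableOn (fun ξ : ℝ => (1 + (X ^ 2)⁻¹) * (1 + ξ ^ 2)⁻¹) (Iio (-X)) :=
      (integrable_inv_one_add_sq.const_mul _).integrableOn
    refine Integrable.mono' h5 ?_ ?_
    · exact (by fun_prop : Measurable (fun ξ : ℝ => (ξ ^ 2)⁻¹)).aestronglyMeasurable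
    · filter_upwards [ae_restrict_mem measurableSet_Iio] with ξ hξ
      have hξ' : ξ < -X := hξ
      have h6 : X ^ 2 ≤ ξ ^ 2 := by nlinarith
      have h7 : 0 < X ^ 2 := by positivity
      have h8 : 0 < ξ ^ 2 := by linarith
      rw [Real.norm_of_nonneg (by positivity)]
      have h9 : (ξ ^ 2)⁻¹ ≤ (X ^ 2)⁻¹ := inv_anti₀ h7 h6
      have hξ0 : ξ ≠ 0 := (by linarith : ξ < 0).ne
      have h10 : (ξ ^ 2)⁻¹ = (1 + (ξ ^ 2)⁻¹) * (1 + ξ ^ 2)⁻¹ := by
        field_simp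
        ring
      rw [h10]
      gcongr
  have h4 : ∫ ξ in Iio (-X), (ξ ^ 2)⁻¹ = 1 / X := by
    rw [← integral_Iic_eq_integral_Iio, ← integral_comp_neg_Ioi, ← h2]
    simp
  rw [e]
  refine ⟨h3.union h1, ?_⟩
  rw [setIntegral_union _ measurableSet_Ioi h3 h1, h4, h2]
  · ring
  · rw [Set.disjoint_left]
    intro x hx hx'
    have a1 : x < -X := hx
    have a2 : X < x := hx'
    linarith

lemma shift {m : ℂ → ℂ} {V : Set ℂ} (hV : IsOpen V) (hm : DifferentiableOn ℂ m V) (hm0 : m 0 = 0)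
    {l h c b Y M : ℝ} (hh : 0 < h) (hl : 0 ≤ l) (hc : 0 < c) (hb : 0 < b) (hb1 : b ≤ 1)
    (hcb : c + b ≤ 2) (hY : 0 < Y) (hM : 0 ≤ M)
    (hsub : ∀ w : ℂ, -b ≤ w.re → w.re ≤ c → |w.im| ≤ Y → w ∈ V ∧ ‖m w‖ ≤ M) :
    ‖∫ ξ in (-(Y / (2 * Real.pi)))..(Y / (2 * Real.pi)), m (vert c ξ) * Kk l h (vert c ξ)‖ ≤
      M * Real.exp (-(l * b)) / (h * b ^ 2) + 2 * M * Real.exp ((l + h) * c) / (h * Y ^ 2) := by
  have hpi := Real.pi_pos
  have hhc : (h : ℂ) ≠ 0 := by exact_mod_cast hh.ne'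
  set f : ℂ → ℂ := fun w => dslope m 0 w * Complex.exp ((l : ℝ) * w) *
    (dslope (fun w : ℂ => Complex.exp ((h : ℝ) * w)) 0 w / h) with hf
  have h0V : (0 : ℂ) ∈ V := (hsub 0 (by simp; exact hb.le) (by simp; exact hc.le)
    (by simp; exact hY.le)).1
  have hfe : ∀ w : ℂ, w ≠ 0 → f w = m w * Kk l h w := by
    intro w hw
    simp only [hf]
    rw [dslope_of_ne _ hw, dslope_of_ne _ hw, slope_def_field, slope_def_field, hm0]
    unfold Kk
    have e : Complex.exp ((l + h : ℝ) * w) = Complex.exp ((l : ℝ) * w) * Complex.exp ((h : ℝ) * w) := by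
      rw [← Complex.exp_add]; congr 1; push_cast; ring
    rw [e]
    simp only [mul_zero, Complex.exp_zero, sub_zero]
    field_simp
  have hfd : DifferentiableOn ℂ f V := by
    have h1 : DifferentiableOn ℂ (dslope m 0) V :=
      (Complex.differentiableOn_dslope (hV.mem_nhds h0V)).2 hm
    have h2 : DifferentiableOn ℂ (dslope (fun w : ℂ => Complex.exp ((h : ℝ) * w)) 0) V :=
      (Complex.differentiableOn_dslope (hV.mem_nhds h0V)).2 (by fun_prop)
    have h3 : DifferentiableOn ℂ (fun w : ℂ => Complex.exp ((l : ℝ) * w)) V := by fun_prop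
    exact (h1.mul h3).mul (h2.div_const _)
  have hrect := Complex.integral_boundary_rect_eq_zero_of_differentiableOn f ⟨-b, -Y⟩ ⟨c, Y⟩ (by
    refine hfd.mono ?_
    intro w hw
    rw [Complex.mem_reProdIm, uIcc_of_le (by simp; linarith), uIcc_of_le (by simp; linarith)] at hw
    exact (hsub w hw.1.1 hw.1.2 (abs_le.2 hw.2)).1)
  simp only at hrect
  -- the sides
  have hhor : ∀ σ : ℝ, |σ| = Y → ‖∫ x in (-b)..c, f (x + (σ : ℂ) * I)‖ ≤
      2 * M * (2 * Real.exp ((l + h) * c)) / (h * Y ^ 2) := by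
    intro σ hσ
    have hb' : ∀ x ∈ Set.uIoc (-b) c, ‖f (x + (σ : ℂ) * I)‖ ≤
        M * (2 * Real.exp ((l + h) * c) / h * (Y ^ 2)⁻¹) := by
      intro x hx
      rw [uIoc_of_le (by linarith)] at hx
      have hre : ((x : ℂ) + (σ : ℂ) * I).re = x := by simp
      have him : ((x : ℂ) + (σ : ℂ) * I).im = σ := by simp
      have hY' : Y ≤ ‖(x : ℂ) + (σ : ℂ) * I‖ := by
        have := Complex.abs_im_le_norm ((x : ℂ) + (σ : ℂ) * I)
        rwa [him, hσ] at this
      have hne : (x : ℂ) + (σ : ℂ) * I ≠ 0 := by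
        intro h0
        rw [h0, norm_zero] at hY'
        linarith
      obtain ⟨_, h2⟩ := hsub ((x : ℂ) + (σ : ℂ) * I) (by rw [hre]; exact hx.1.le)
        (by rw [hre]; exact hx.2) (by rw [him, hσ])
      rw [hfe _ hne, norm_mul]
      have h3 := Kk_norm (l := l) hh hl hc.le (w := (x : ℂ) + (σ : ℂ) * I) (c := c)
        (by rw [hre]; exact hx.2)
      have h4 : (‖(x : ℂ) + (σ : ℂ) * I‖ ^ 2)⁻¹ ≤ (Y ^ 2)⁻¹ := by
        apply inv_anti₀ (by positivity)
        gcongr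
      calc ‖m _‖ * ‖Kk l h _‖ ≤ M * (2 * Real.exp ((l + h) * c) / h * (‖(x : ℂ) + (σ : ℂ) * I‖ ^ 2)⁻¹) := by
            gcongr
        _ ≤ _ := by gcongr
    refine (intervalIntegral.norm_integral_le_of_norm_le_const hb').trans ?_
    rw [abs_of_nonneg (by linarith)]
    have h5 : 0 ≤ M * (2 * Real.exp ((l + h) * c) / h * (Y ^ 2)⁻¹) := by positivity
    calc M * (2 * Real.exp ((l + h) * c) / h * (Y ^ 2)⁻¹) * (c - -b)
        ≤ M * (2 * Real.exp ((l + h) * c) / h * (Y ^ 2)⁻¹) * 2 := by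
          apply mul_le_mul_of_nonneg_left _ h5
          linarith
      _ = _ := by field_simp
  have hleft : ‖∫ y in (-Y)..Y, f (((-b : ℝ) : ℂ) + (y : ℂ) * I)‖ ≤
      M * (2 * Real.exp (-(l * b)) / h) * (b ^ 2)⁻¹ * Real.pi := by
    have h1 : ‖∫ y in (-Y)..Y, f (((-b : ℝ) : ℂ) + (y : ℂ) * I)‖ ≤
        ∫ y in (-Y)..Y, M * (2 * Real.exp (-(l * b)) / h) * (b ^ 2)⁻¹ * (1 + y ^ 2)⁻¹ := by
      refine intervalIntegral.norm_integral_le_of_norm_le (by linarith) ?_ ?_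
      · refine Eventually.of_forall fun y hy => ?_
        have hre : (((-b : ℝ) : ℂ) + (y : ℂ) * I).re = -b := by simp
        have him : (((-b : ℝ) : ℂ) + (y : ℂ) * I).im = y := by simp
        have hne : ((-b : ℝ) : ℂ) + (y : ℂ) * I ≠ 0 := by
          intro h0
          rw [h0] at hre
          simp at hre
          exact hb.ne' hre
        obtain ⟨_, h2⟩ := hsub (((-b : ℝ) : ℂ) + (y : ℂ) * I) (by rw [hre]) (by rw [hre]; linarith)
          (by rw [him]; exact abs_le.2 ⟨hy.1.le, hy.2⟩)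
        rw [hfe _ hne, norm_mul]
        have h3 := Kk_norm_left (l := l) hh hl hb.le hre
        have h4 : (‖((-b : ℝ) : ℂ) + (y : ℂ) * I‖ ^ 2)⁻¹ ≤ (b ^ 2)⁻¹ * (1 + y ^ 2)⁻¹ := by
          rw [← mul_inv]
          apply inv_anti₀ (by positivity)
          rw [Complex.sq_norm, Complex.normSq_apply, hre, him]
          have : b ^ 2 ≤ 1 := by nlinarith
          nlinarith [sq_nonneg y]
        calc ‖m _‖ * ‖Kk l h _‖ ≤ M * (2 * Real.exp (-(l * b)) / h *
              (‖((-b : ℝ) : ℂ) + (y : ℂ) * I‖ ^ 2)⁻¹) := by gcongr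
          _ ≤ M * (2 * Real.exp (-(l * b)) / h * ((b ^ 2)⁻¹ * (1 + y ^ 2)⁻¹)) := by gcongr
          _ = _ := by ring
      · apply Continuous.intervalIntegrable
        have : ∀ y : ℝ, 1 + y ^ 2 ≠ 0 := fun y => by positivity
        fun_prop (disch := assumption)
    refine h1.trans ?_
    rw [intervalIntegral.integral_const_mul, integral_inv_one_add_sq]
    apply mul_le_mul_of_nonneg_left _ (by positivity)
    rw [Real.arctan_neg]
    linarith [Real.arctan_lt_pi_div_two Y]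
  -- change of variables
  have hcv : ∫ ξ in (-(Y / (2 * Real.pi)))..(Y / (2 * Real.pi)), m (vert c ξ) * Kk l h (vert c ξ) =
      (2 * Real.pi : ℝ)⁻¹ • ∫ y in (-Y)..Y, f ((c : ℂ) + (y : ℂ) * I) := by
    have h1 := intervalIntegral.integral_comp_mul_left (a := -(Y / (2 * Real.pi)))
      (b := Y / (2 * Real.pi)) (fun y : ℝ => f ((c : ℂ) + (y : ℂ) * I))
      (c := 2 * Real.pi) (by positivity)
    have e1 : 2 * Real.pi * -(Y / (2 * Real.pi)) = -Y := by field_simp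
    have e2 : 2 * Real.pi * (Y / (2 * Real.pi)) = Y := by field_simp
    rw [e1, e2] at h1
    rw [← h1]
    apply intervalIntegral.integral_congr
    intro ξ _
    simp only
    have e3 : (c : ℂ) + ((2 * Real.pi * ξ : ℝ) : ℂ) * I = vert c ξ := rfl
    rw [e3, hfe _ (vert_ne_zero hc ξ)]
  rw [hcv, norm_smul, Real.norm_of_nonneg (by positivity)]
  -- combine
  have e4 : I • (∫ y in (-Y)..Y, f ((c : ℂ) + (y : ℂ) * I)) =
      I • (∫ y in (-Y)..Y, f (((-b : ℝ) : ℂ) + (y : ℂ) * I)) -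
      (∫ x in (-b)..c, f (x + ((-Y : ℝ) : ℂ) * I)) + ∫ x in (-b)..c, f (x + (Y : ℂ) * I) := by
    linear_combination hrect
  have h6 : ‖∫ y in (-Y)..Y, f ((c : ℂ) + (y : ℂ) * I)‖ ≤
      M * (2 * Real.exp (-(l * b)) / h) * (b ^ 2)⁻¹ * Real.pi +
      2 * M * (2 * Real.exp ((l + h) * c)) / (h * Y ^ 2) +
      2 * M * (2 * Real.exp ((l + h) * c)) / (h * Y ^ 2) := by
    have h7 : ‖∫ y in (-Y)..Y, f ((c : ℂ) + (y : ℂ) * I)‖ =
        ‖I • (∫ y in (-Y)..Y, f ((c : ℂ) + (y : ℂ) * I))‖ := by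
      rw [norm_smul, Complex.norm_I, one_mul]
    rw [h7, e4]
    refine (norm_add_le _ _).trans (add_le_add ((norm_sub_le _ _).trans (add_le_add ?_ ?_)) ?_)
    · rw [norm_smul, Complex.norm_I, one_mul]
      exact hleft
    · exact hhor (-Y) (by rw [abs_neg, abs_of_pos hY])
    · exact hhor Y (abs_of_pos hY)
  calc (2 * Real.pi)⁻¹ * ‖∫ y in (-Y)..Y, f ((c : ℂ) + (y : ℂ) * I)‖
      ≤ (2 * Real.pi)⁻¹ * (M * (2 * Real.exp (-(l * b)) / h) * (b ^ 2)⁻¹ * Real.pi +
      2 * M * (2 * Real.exp ((l + h) * c)) / (h * Y ^ 2) +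
      2 * M * (2 * Real.exp ((l + h) * c)) / (h * Y ^ 2)) := by gcongr
    _ = M * Real.exp (-(l * b)) / (h * b ^ 2) +
        (4 / Real.pi) * (M * Real.exp ((l + h) * c) / (h * Y ^ 2)) := by
        field_simp
        ring
    _ ≤ M * Real.exp (-(l * b)) / (h * b ^ 2) +
        2 * (M * Real.exp ((l + h) * c) / (h * Y ^ 2)) := by
        gcongr
        rw [div_le_iff₀ hpi]
        linarith [Real.pi_gt_three]
    _ = _ := by ring

end Pool.Agent.L5helper77.Edge
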