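import Pool.Agent.L5helper77.Edge6
import Pool.Agent.L5helper77.Edge4

/-!
The truncated Euler product on the line `Re s = 1` next to a zero-free rectangle.
-/

set_option autoImplicit false
open MeasureTheory Filter Topology Set Metric
namespace Pool.Agent.L5helper77.Edge
open Complex (I)
open Pool.Agent.H379R2.SW (vert vert_re vert_im vert_ne_zero continuous_vert)

lemma prime_zeta_bound : ∃ C : ℝ, 1 ≤ C ∧ ∀ T c : ℝ, 3 ≤ T → 0 < c → c ≤ 1 → 1 / c ≤ T →
    ∑' p : Nat.Primes, ((p : ℕ) : ℝ) ^ (-(1 + c)) ≤ C * Real.log T := by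
  obtain ⟨C1, hC1, hup⟩ := Pool.Agent.H705R2.MSW.zeta_up (ε := 1) one_pos le_rfl
  obtain ⟨CR, hCR, hR⟩ := R2_bound
  refine ⟨Real.log (4 * C1) + 1 + CR, ?_, ?_⟩
  · have := Real.log_nonneg (show 1 ≤ 4 * C1 by linarith)
    linarith
  intro T c hT hc hc1 hcT
  have hlogT : 1 ≤ Real.log T := by
    rw [Real.le_log_iff_exp_le (by linarith)]
    linarith [Real.exp_one_lt_d9]
  set x : ℂ := ((1 + c : ℝ) : ℂ) with hx
  have hxre : x.re = 1 + c := by simp [hx]
  have hxim : x.im = 0 := by simp [hx]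
  have hx1 : 1 < x.re := by rw [hxre]; linarith
  set A := ∑' p : Nat.Primes, ((p : ℕ) : ℝ) ^ (-(1 + c)) with hA
  have hD : Dp x = (A : ℂ) := by
    unfold Dp
    rw [hA, Complex.ofReal_tsum]
    refine tsum_congr fun p => ?_
    rw [Complex.ofReal_cpow (by positivity)]
    simp [hx]
  have hne : x ≠ 1 := by
    intro h
    rw [h] at hx1
    simp at hx1
  have hz := hup x (by linarith) (by rw [hxre]; linarith) hne
  have hz2 : ‖riemannZeta x‖ ≤ 4 * C1 * T := by
    refine hz.trans ?_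
    have h1 : ‖x - 1‖ = c := by
      rw [hx]
      have : ((1 + c : ℝ) : ℂ) - 1 = (c : ℂ) := by push_cast; ring
      rw [this, Complex.norm_real, Real.norm_of_nonneg hc.le]
    rw [h1, hxim, abs_zero, Real.rpow_one, zero_add]
    have h2 : 1 + 1 / c ≤ 2 * T := by linarith
    calc C1 * 2 * (1 + 1 / c) ≤ C1 * 2 * (2 * T) := by gcongr
      _ = 4 * C1 * T := by ring
  have h3 := exp_DR hx1
  have h4 : Real.exp (A + (R2 x).re) = ‖riemannZeta x‖ := by
    rw [← h3, Complex.norm_exp, hD]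
    simp
  have h5 : A + (R2 x).re ≤ Real.log (4 * C1 * T) := by
    rw [Real.le_log_iff_exp_le (by positivity), h4]
    exact hz2
  have h6 := (abs_le.1 ((Complex.abs_re_le_norm (R2 x)).trans (hR x (by linarith)))).1
  rw [Real.log_mul (by positivity) (by positivity)] at h5
  have h7 := Real.log_nonneg (show 1 ≤ 4 * C1 by linarith)
  nlinarith

theorem perron_local {κ : ℝ} (hκ : 0 < κ) (hκ1 : κ ≤ 1 / 4) : ∃ C : ℝ, 1 ≤ C ∧
    ∀ T t U : ℝ, 3 ≤ T → T ≤ t → t ≤ 2 * T → 4 ≤ U → U ≤ T / 2 →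
    (∀ s ∈ Om κ t U, riemannZeta s ≠ 0) →
    ∀ ℓ : ℂ → ℂ, DifferentiableOn ℂ ℓ (Om κ t U) →
      (∀ s ∈ Om κ t U, Complex.exp (ℓ s + R2 s) = riemannZeta s) →
      (∀ s ∈ Om κ t U, 1 < s.re → ℓ s = Dp s) →
    ∀ l h : ℝ, 1 ≤ l → l ≤ T → 0 < h → h ≤ 1 →
    ‖(∑' p : Nat.Primes, ((p : ℕ) : ℂ) ^ (-(1 + t * I)) * (Wt l h (Real.log (p : ℕ)) : ℂ)) -
      ℓ (1 + t * I)‖ ≤ C * Real.log T * (1 / (h * U) + Real.exp (-(l * (κ / 2))) / h) := by
  obtain ⟨CA, hCA, hA⟩ := prime_zeta_bound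
  obtain ⟨CE, hCE, hE⟩ := ell_bound hκ hκ1
  refine ⟨8 * (CA + CE) + 8 * CE / κ ^ 2 + 48 * CE, ?_, ?_⟩
  · have : 0 ≤ 8 * CE / κ ^ 2 := by positivity
    linarith
  intro T t U hT hTt htT hU hUT hz ℓ hℓd hℓe hℓD l h hl1 hlT hh hh1
  have hpi := Real.pi_pos
  have hlogT : 1 ≤ Real.log T := by
    rw [Real.le_log_iff_exp_le (by linarith)]
    linarith [Real.exp_one_lt_d9]
  have hE' := hE T t U hT hTt htT hU hUT hz ℓ hℓd hℓe hℓD
  set s : ℂ := 1 + t * I with hs
  have hsre : s.re = 1 := by simp [hs]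
  have hsim : s.im = t := by simp [hs]
  set c : ℝ := 1 / l with hc
  have hl0 : 0 < l := by linarith
  have hc0 : 0 < c := by positivity
  have hc1 : c ≤ 1 := by rw [hc, div_le_one hl0]; exact hl1
  have hcT : 1 / c ≤ T := by rw [hc, one_div_one_div]; exact hlT
  set A := ∑' p : Nat.Primes, ((p : ℕ) : ℝ) ^ (-(1 + c)) with hAdef
  have hAb : A ≤ CA * Real.log T := hA T c hT hc0 hc1 hcT
  have hA0 : 0 ≤ A := tsum_nonneg fun p => by positivity
  have hDb : ∀ ξ : ℝ, ‖Dp (s + vert c ξ)‖ ≤ A := by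
    intro ξ
    refine tsum_of_norm_bounded (sum_rpow (by linarith)).hasSum ?_
    intro p
    rw [Dp_term, Complex.add_re, hsre, vert_re]
  have hℓs : ‖ℓ s‖ ≤ CE * Real.log T := hE' s (by rw [hsre]; linarith) (by rw [hsre]; norm_num)
    (by rw [hsim, sub_self, abs_zero]; linarith)
  obtain ⟨i1, e1⟩ := Dp_perron (l := l) hh hl0.le hc0 hsre
  obtain ⟨i2, e2⟩ := Kk_int (l := l) hh hc0 0
  simp only [Complex.ofReal_zero, mul_zero, neg_zero, Complex.exp_zero, one_mul] at i2 e2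
  rw [Wt_zero hl0.le hh, Complex.ofReal_one] at e2
  have hkey : (∑' p : Nat.Primes, ((p : ℕ) : ℂ) ^ (-s) * (Wt l h (Real.log (p : ℕ)) : ℂ)) - ℓ s =
      ∫ ξ : ℝ, (Dp (s + vert c ξ) - ℓ s) * Kk l h (vert c ξ) := by
    simp_rw [sub_mul]
    rw [integral_sub i1 (i2.const_mul _), integral_const_mul, e2, e1, mul_one]
  rw [hkey]
  set Y : ℝ := U - 1 with hY
  have hY3 : 3 ≤ Y := by linarith
  have hYU : 3 / 4 * U ≤ Y := by rw [hY]; linarith
  set X : ℝ := Y / (2 * Real.pi) with hX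
  have hX0 : 0 < X := by positivity
  have hint : Integrable (fun ξ : ℝ => (Dp (s + vert c ξ) - ℓ s) * Kk l h (vert c ξ)) := by
    simp_rw [sub_mul]
    exact i1.sub (i2.const_mul _)
  rw [← integral_add_compl measurableSet_Icc (s := Icc (-X) X) hint]
  have hexp : Real.exp ((l + h) * c) ≤ 8 := by
    have h1 : (l + h) * c ≤ 2 := by
      rw [hc, mul_one_div, div_le_iff₀ hl0]
      linarith
    calc Real.exp ((l + h) * c) ≤ Real.exp 2 := Real.exp_le_exp.2 h1
      _ = Real.exp 1 ^ 2 := by rw [← Real.exp_nat_mul]; norm_num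
      _ ≤ 2.7182818286 ^ 2 := by gcongr; exact Real.exp_one_lt_d9.le
      _ ≤ 8 := by norm_num
  -- the tail
  have htail : ‖∫ ξ in (Icc (-X) X)ᶜ, (Dp (s + vert c ξ) - ℓ s) * Kk l h (vert c ξ)‖ ≤
      8 * (CA + CE) * Real.log T * (1 / (h * U)) := by
    obtain ⟨j1, j2⟩ := tail_int hX0
    set B : ℝ := (A + ‖ℓ s‖) * (2 * 8 / h) * (4 * Real.pi ^ 2)⁻¹ with hB
    have h1 : ‖∫ ξ in (Icc (-X) X)ᶜ, (Dp (s + vert c ξ) - ℓ s) * Kk l h (vert c ξ)‖ ≤
        ∫ ξ in (Icc (-X) X)ᶜ, B * (ξ ^ 2)⁻¹ := by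
      refine norm_integral_le_of_norm_le (j1.const_mul B) ?_
      filter_upwards [ae_restrict_mem measurableSet_Icc.compl] with ξ hξ
      have hξ0 : ξ ≠ 0 := by
        intro h0
        apply hξ
        rw [h0]
        exact ⟨by linarith, hX0.le⟩
      have hξ2 : 0 < ξ ^ 2 := by positivity
      rw [norm_mul]
      have h2 : ‖Dp (s + vert c ξ) - ℓ s‖ ≤ A + ‖ℓ s‖ :=
        (norm_sub_le _ _).trans (add_le_add_left (hDb ξ) _)
      have h3 := Kk_norm (l := l) hh hl0.le hc0.le (w := vert c ξ) (c := c) (by rw [vert_re])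
      have h4 : (‖vert c ξ‖ ^ 2)⁻¹ ≤ (4 * Real.pi ^ 2)⁻¹ * (ξ ^ 2)⁻¹ := by
        rw [← mul_inv]
        apply inv_anti₀ (by positivity)
        rw [Complex.sq_norm, Complex.normSq_apply, vert_re, vert_im]
        nlinarith [sq_nonneg c]
      calc ‖Dp (s + vert c ξ) - ℓ s‖ * ‖Kk l h (vert c ξ)‖
          ≤ (A + ‖ℓ s‖) * (2 * Real.exp ((l + h) * c) / h * (‖vert c ξ‖ ^ 2)⁻¹) := by gcongr
        _ ≤ (A + ‖ℓ s‖) * (2 * 8 / h * ((4 * Real.pi ^ 2)⁻¹ * (ξ ^ 2)⁻¹)) := by gcongr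
        _ = B * (ξ ^ 2)⁻¹ := by rw [hB]; ring
    refine h1.trans ?_
    rw [integral_const_mul, j2, hB, hX]
    have hsum : A + ‖ℓ s‖ ≤ (CA + CE) * Real.log T := by linarith
    calc (A + ‖ℓ s‖) * (2 * 8 / h) * (4 * Real.pi ^ 2)⁻¹ * (2 / (Y / (2 * Real.pi)))
        = (A + ‖ℓ s‖) * (16 / Real.pi) * (1 / (h * Y)) := by field_simp; ring
      _ ≤ ((CA + CE) * Real.log T) * 6 * (1 / (h * (3 / 4 * U))) := by
          gcongr
          rw [div_le_iff₀ hpi]
          linarith [Real.pi_gt_three]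
      _ = 8 * (CA + CE) * Real.log T * (1 / (h * U)) := by field_simp; ring
  -- the main part
  have hmainpart : ‖∫ ξ in Icc (-X) X, (Dp (s + vert c ξ) - ℓ s) * Kk l h (vert c ξ)‖ ≤
      8 * CE / κ ^ 2 * Real.log T * (Real.exp (-(l * (κ / 2))) / h) +
        48 * CE * Real.log T * (1 / (h * U)) := by
    set m : ℂ → ℂ := fun w => ℓ (s + w) - ℓ s with hm
    set V : Set ℂ := {w : ℂ | s + w ∈ Om κ t U} with hV
    have hVo : IsOpen V := (Om_open κ t U).preimage (by fun_prop)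
    have hmd : DifferentiableOn ℂ m V := by
      intro w hw
      have h1 : DifferentiableAt ℂ ℓ (s + w) := hℓd.differentiableAt ((Om_open κ t U).mem_nhds hw)
      exact ((h1.comp w (by fun_prop : DifferentiableAt ℂ (fun w => s + w) w)).sub_const _).differentiableWithinAt
    have hsub : ∀ w : ℂ, -(κ / 2) ≤ w.re → w.re ≤ c → |w.im| ≤ Y → w ∈ V ∧ ‖m w‖ ≤ 2 * CE * Real.log T := by
      intro w h1 h2 h3
      have hre : (s + w).re = 1 + w.re := by rw [Complex.add_re, hsre]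
      have him : (s + w).im - t = w.im := by rw [Complex.add_im, hsim]; ring
      refine ⟨⟨by rw [hre]; linarith, by rw [him]; linarith⟩, ?_⟩
      have h4 := hE' (s + w) (by rw [hre]; linarith) (by rw [hre]; linarith) (by rw [him]; exact h3)
      have := norm_sub_le (ℓ (s + w)) (ℓ s)
      simp only [hm]
      linarith
    have hsh := shift hVo hmd (by simp [hm]) (l := l) (h := h) (c := c) (b := κ / 2) (Y := Y)
      (M := 2 * CE * Real.log T) hh hl0.le hc0 (by positivity) (by linarith) (by linarith)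
      (by linarith) (by positivity) hsub
    have e3 : ∫ ξ in Icc (-X) X, (Dp (s + vert c ξ) - ℓ s) * Kk l h (vert c ξ) =
        ∫ ξ in (-X)..X, m (vert c ξ) * Kk l h (vert c ξ) := by
      rw [intervalIntegral.integral_of_le (by linarith), integral_Icc_eq_integral_Ioc]
      refine setIntegral_congr_fun measurableSet_Ioc ?_
      intro ξ hξ
      simp only [hm]
      have hY' : |(vert c ξ).im| ≤ Y := by
        rw [vert_im, abs_le]
        have e : 2 * Real.pi * X = Y := by rw [hX]; field_simp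
        constructor
        · nlinarith [hξ.1]
        · nlinarith [hξ.2]
      have hin : s + vert c ξ ∈ Om κ t U :=
        (hsub (vert c ξ) (by rw [vert_re]; linarith) (by rw [vert_re]) hY').1
      rw [hℓD _ hin (by rw [Complex.add_re, hsre, vert_re]; linarith)]
    rw [e3]
    refine hsh.trans (add_le_add (le_of_eq ?_) ?_)
    · field_simp
      ring
    · have hY2 : h * (3 / 4 * U) ≤ h * Y ^ 2 := by
        apply mul_le_mul_of_nonneg_left _ hh.le
        nlinarith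
      have hpos : 0 < h * (3 / 4 * U) := by positivity
      calc 2 * (2 * CE * Real.log T) * Real.exp ((l + h) * c) / (h * Y ^ 2)
          ≤ 2 * (2 * CE * Real.log T) * 8 / (h * (3 / 4 * U)) := by gcongr
        _ = (128 / 3) * CE * Real.log T * (1 / (h * U)) := by field_simp; ring
        _ ≤ 48 * CE * Real.log T * (1 / (h * U)) := by gcongr; norm_num
  refine (norm_add_le _ _).trans ((add_le_add hmainpart htail).trans ?_)
  have g1 : 0 ≤ 1 / (h * U) := by positivity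
  have g2 : 0 ≤ Real.exp (-(l * (κ / 2))) / h := by positivity
  have g3 : 0 ≤ 8 * CE / κ ^ 2 := by positivity
  have g4 : 0 ≤ (8 * (CA + CE) + 48 * CE) * Real.log T * (Real.exp (-(l * (κ / 2))) / h) := by
    positivity
  have g5 : 0 ≤ 8 * CE / κ ^ 2 * Real.log T * (1 / (h * U)) := by positivity
  nlinarith

lemma primes_tsum (f : ℕ → ℂ) : ∑' p : Nat.Primes, f p = ∑' n : ℕ, (if n.Prime then f n else 0) := by
  have h := tsum_subtype {n : ℕ | n.Prime} f
  have e : ({n : ℕ | n.Prime} : Set ℕ).indicator f = fun n => if n.Prime then f n else 0 := by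
    funext n
    by_cases hn : n.Prime
    · rw [indicator_of_mem (show n ∈ {n : ℕ | n.Prime} from hn), if_pos hn]
    · rw [indicator_of_notMem (show n ∉ {n : ℕ | n.Prime} from hn), if_neg hn]
  rw [e] at h
  exact h

lemma sum_range_prime (f : ℕ → ℂ) (N : ℕ) :
    ∑ n ∈ Finset.range N, (if n.Prime then f n else 0) = ∑ p ∈ N.primesBelow, f p := by
  rw [← Finset.sum_filter]
  rfl

lemma R2_tail {N : ℕ} (hN : 1 ≤ N) {s : ℂ} (hs : 1 ≤ s.re) :
    ‖R2 s - ∑ p ∈ N.primesBelow, gp p s‖ ≤ 4 / N := by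
  set F : ℕ → ℂ := fun n => if n.Prime then gp n s else 0 with hF
  have hb : ∀ n : ℕ, ‖F n‖ ≤ 2 * ((n : ℝ) ^ 2)⁻¹ := by
    intro n
    simp only [hF]
    split_ifs with h
    · have h1 := gp_bound' h.two_le (s := s) (a := 1) (by norm_num) hs
      have h2 : (n : ℝ) ^ (-(2 * 1) : ℝ) = ((n : ℝ) ^ 2)⁻¹ := by
        rw [Real.rpow_neg (Nat.cast_nonneg _)]
        norm_num
      rwa [h2] at h1
    · rw [norm_zero]; positivity
  have hFs : Summable F := by
    apply Summable.of_norm_bounded (g := fun n : ℕ => 2 * ((n : ℝ) ^ 2)⁻¹) _ hb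
    apply Summable.mul_left
    have := Real.summable_nat_pow_inv.2 (show 1 < 2 by norm_num)
    exact this
  have h1 : R2 s = ∑' n, F n := primes_tsum (fun n => gp n s)
  have h2 := hFs.sum_add_tsum_nat_add N
  rw [sum_range_prime] at h2
  rw [h1, ← h2, add_sub_cancel_left]
  obtain ⟨t1, t2⟩ := tail_sq hN
  have h3 := t1.sum_add_tsum_nat_add N
  have h4 : ∑ n ∈ Finset.range N, (if N ≤ n then ((n : ℝ) ^ 2)⁻¹ else 0) = 0 := by
    apply Finset.sum_eq_zero
    intro n hn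
    rw [Finset.mem_range] at hn
    rw [if_neg (by omega)]
  rw [h4, zero_add] at h3
  have h5 : Summable (fun n : ℕ => 2 * (if N ≤ n + N then (((n + N : ℕ) : ℝ) ^ 2)⁻¹ else 0)) :=
    ((summable_nat_add_iff N).2 t1).mul_left 2
  have h6 : ‖∑' n, F (n + N)‖ ≤
      ∑' n : ℕ, 2 * (if N ≤ n + N then (((n + N : ℕ) : ℝ) ^ 2)⁻¹ else 0) := by
    refine tsum_of_norm_bounded h5.hasSum ?_
    intro n
    rw [if_pos (by omega)]
    exact hb (n + N)
  refine h6.trans ?_
  rw [tsum_mul_left, h3]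
  calc 2 * ∑' n : ℕ, (if N ≤ n then ((n : ℝ) ^ 2)⁻¹ else 0) ≤ 2 * (2 / N) := by gcongr
    _ = 4 / N := by ring

lemma P_exp (N : ℕ) {s : ℂ} (hs : 3 / 4 ≤ s.re) :
    P N s = Complex.exp (-(∑ p ∈ N.primesBelow, ((p : ℂ) ^ (-s) + gp p s))) := by
  unfold P
  rw [← Finset.sum_neg_distrib, Complex.exp_sum]
  refine Finset.prod_congr rfl fun p hp => ?_
  have hpp := Nat.prime_of_mem_primesBelow hp
  have h1 : (1 : ℂ) - (p : ℂ) ^ (-s) ≠ 0 := factor_ne hpp.one_lt (by linarith)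
  unfold gp
  rw [← Complex.exp_log h1]
  congr 1
  rw [Complex.exp_log h1]
  ring

lemma smooth_diff {l h : ℝ} (hl : 0 ≤ l) (hh : 0 < h) (hh1 : h ≤ 1) {s : ℂ} (hs : s.re = 1) :
    ‖(∑' p : Nat.Primes, ((p : ℕ) : ℂ) ^ (-s) * (Wt l h (Real.log (p : ℕ)) : ℂ)) -
      ∑ p ∈ (⌊Real.exp l⌋₊ + 1).primesBelow, (p : ℂ) ^ (-s)‖ ≤ 3 * h + Real.exp (-l) := by
  set N := ⌊Real.exp l⌋₊ + 1 with hN
  set M := ⌊Real.exp (l + h)⌋₊ + 1 with hM
  have hNM : N ≤ M := by
    rw [hN, hM]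
    have := Nat.floor_le_floor (Real.exp_le_exp.2 (show l ≤ l + h by linarith))
    omega
  have hel : 0 < Real.exp l := Real.exp_pos _
  have hNl : Real.exp l < N := by
    rw [hN]; push_cast; exact Nat.lt_floor_add_one _
  have hMl : Real.exp (l + h) < M := by
    rw [hM]; push_cast; exact Nat.lt_floor_add_one _
  set f : ℕ → ℂ := fun n => (n : ℂ) ^ (-s) * (Wt l h (Real.log n) : ℂ) with hf
  have h1 : ∑' p : Nat.Primes, ((p : ℕ) : ℂ) ^ (-s) * (Wt l h (Real.log (p : ℕ)) : ℂ) =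
      ∑ p ∈ M.primesBelow, f p := by
    rw [primes_tsum f, ← sum_range_prime]
    apply tsum_eq_sum
    intro n hn
    rw [Finset.mem_range, not_lt] at hn
    split_ifs with hp
    · have h2 : (M : ℝ) ≤ n := by exact_mod_cast hn
      have h3 : l + h ≤ Real.log n := by
        rw [Real.le_log_iff_exp_le (by linarith [Real.exp_pos (l + h)])]
        linarith
      simp only [hf]
      rw [Wt_out hh h3]
      simp
    · rfl
  have h2 : ∑ p ∈ N.primesBelow, (p : ℂ) ^ (-s) = ∑ p ∈ N.primesBelow, f p := by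
    refine Finset.sum_congr rfl fun p hp => ?_
    have hpN := Nat.lt_of_mem_primesBelow hp
    have hpp := Nat.prime_of_mem_primesBelow hp
    have h3 : (p : ℝ) ≤ Real.exp l := by
      have : p ≤ ⌊Real.exp l⌋₊ := by omega
      exact (Nat.cast_le.2 this).trans (Nat.floor_le hel.le)
    have hp0 : (0 : ℝ) < p := by exact_mod_cast hpp.pos
    have h4 : Real.log p ≤ l := by
      rw [Real.log_le_iff_le_exp hp0]; exact h3
    simp only [hf]
    rw [Wt_one hh h4]
    simp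
  have hsub : N.primesBelow ⊆ M.primesBelow := by
    intro p hp
    rw [Nat.mem_primesBelow] at hp ⊢
    exact ⟨by omega, hp.2⟩
  rw [h1, h2, ← Finset.sum_sdiff hsub, add_sub_cancel_right]
  have hterm : ∀ p ∈ M.primesBelow \ N.primesBelow, ‖f p‖ ≤ Real.exp (-l) := by
    intro p hp
    rw [Finset.mem_sdiff, Nat.mem_primesBelow, Nat.mem_primesBelow] at hp
    have hpp := hp.1.2
    have hpN : N ≤ p := by
      by_contra hlt
      exact hp.2 ⟨by omega, hpp⟩
    have h3 : (N : ℝ) ≤ p := by exact_mod_cast hpN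
    simp only [hf]
    rw [norm_mul, norm_p hpp.pos, hs, Complex.norm_real, Real.rpow_neg_one]
    obtain ⟨w1, w2⟩ := Wt_mem (l := l) (h := h) (u := Real.log p) hh
    rw [Real.norm_of_nonneg w1]
    have h4 : (p : ℝ)⁻¹ ≤ Real.exp (-l) := by
      rw [Real.exp_neg]
      exact inv_anti₀ hel (by linarith)
    calc (p : ℝ)⁻¹ * Wt l h (Real.log p) ≤ (p : ℝ)⁻¹ * 1 := by gcongr
      _ ≤ _ := by rw [mul_one]; exact h4
  have hcard : ((M.primesBelow \ N.primesBelow).card : ℝ) ≤ Real.exp (l + h) - Real.exp l + 1 := by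
    have h3 : (M.primesBelow \ N.primesBelow) ⊆ Finset.Ico N M := by
      intro p hp
      rw [Finset.mem_sdiff, Nat.mem_primesBelow, Nat.mem_primesBelow] at hp
      rw [Finset.mem_Ico]
      refine ⟨?_, hp.1.1⟩
      by_contra hlt
      exact hp.2 ⟨by omega, hp.1.2⟩
    have h4 := Finset.card_le_card h3
    rw [Nat.card_Ico] at h4
    have h5 : ((M - N : ℕ) : ℝ) = M - N := by
      rw [Nat.cast_sub hNM]
    have h6 : (M : ℝ) ≤ Real.exp (l + h) + 1 := by
      rw [hM]; push_cast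
      have := Nat.floor_le (Real.exp_pos (l + h)).le
      linarith
    calc ((M.primesBelow \ N.primesBelow).card : ℝ) ≤ ((M - N : ℕ) : ℝ) := by exact_mod_cast h4
      _ = M - N := h5
      _ ≤ _ := by linarith
  calc ‖∑ p ∈ M.primesBelow \ N.primesBelow, f p‖
      ≤ ∑ p ∈ M.primesBelow \ N.primesBelow, ‖f p‖ := norm_sum_le _ _
    _ ≤ (M.primesBelow \ N.primesBelow).card • Real.exp (-l) := Finset.sum_le_card_nsmul _ _ _ hterm
    _ = ((M.primesBelow \ N.primesBelow).card : ℝ) * Real.exp (-l) := by rw [nsmul_eq_mul]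
    _ ≤ (Real.exp (l + h) - Real.exp l + 1) * Real.exp (-l) := by gcongr
    _ = (Real.exp h - 1) + Real.exp (-l) := by
        rw [Real.exp_add, Real.exp_neg]
        field_simp
    _ ≤ 3 * h + Real.exp (-l) := by
        have h7 : 1 - h ≤ Real.exp (-h) := by linarith [Real.add_one_le_exp (-h)]
        have h8 : Real.exp h * Real.exp (-h) = 1 := by rw [← Real.exp_add]; simp
        have h9 : Real.exp h ≤ 3 := by
          have := Real.exp_le_exp.2 hh1
          linarith [Real.exp_one_lt_d9]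
        have h10 : 0 < Real.exp h := Real.exp_pos h
        have h11 : Real.exp h * (1 - h) ≤ 1 := by
          have h12 := mul_le_mul_of_nonneg_left h7 h10.le
          linarith
        nlinarith

/-- the truncated Euler product next to a zero-free rectangle -/
theorem local_approx {κ : ℝ} (hκ : 0 < κ) (hκ1 : κ ≤ 1 / 4) : ∃ C : ℝ, 1 ≤ C ∧
    ∀ T t U : ℝ, 3 ≤ T → T ≤ t → t ≤ 2 * T → 4 ≤ U → U ≤ T / 2 →
    (∀ s ∈ Om κ t U, riemannZeta s ≠ 0) →
    ∀ l h : ℝ, 1 ≤ l → l ≤ T → 0 < h → h ≤ 1 →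
    C * Real.log T * (1 / (h * U) + Real.exp (-(l * (κ / 2))) / h + h) ≤ 1 →
    ‖riemannZeta (1 + t * I) * P (⌊Real.exp l⌋₊ + 1) (1 + t * I) - 1‖ ≤
      2 * (C * Real.log T * (1 / (h * U) + Real.exp (-(l * (κ / 2))) / h + h)) := by
  obtain ⟨C, hC, hmain⟩ := perron_local hκ hκ1
  refine ⟨C + 5, by linarith, ?_⟩
  intro T t U hT hTt htT hU hUT hz l h hl1 hlT hh hh1 hE1
  have hlogT : 1 ≤ Real.log T := by
    rw [Real.le_log_iff_exp_le (by linarith)]
    linarith [Real.exp_one_lt_d9]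
  obtain ⟨ℓ, hℓd, hℓe, hℓD⟩ := exists_ell hκ hκ1 (by linarith : 0 < U) (by linarith) hz
  have h1 := hmain T t U hT hTt htT hU hUT hz ℓ hℓd hℓe hℓD l h hl1 hlT hh hh1
  set s : ℂ := 1 + t * I with hs
  have hsre : s.re = 1 := by simp [hs]
  have hsim : s.im = t := by simp [hs]
  have hsO : s ∈ Om κ t U := ⟨by rw [hsre]; linarith, by rw [hsim]; simp; linarith⟩
  have h2 := smooth_diff (l := l) (by linarith) hh hh1 hsre
  set N := ⌊Real.exp l⌋₊ + 1 with hN
  have hN1 : 1 ≤ N := by omega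
  have hNl : Real.exp l ≤ N := by
    rw [hN]; push_cast; exact (Nat.lt_floor_add_one _).le
  have h3 := R2_tail hN1 (s := s) (by rw [hsre])
  set z : ℂ := (ℓ s - ∑ p ∈ N.primesBelow, (p : ℂ) ^ (-s)) + (R2 s - ∑ p ∈ N.primesBelow, gp p s) with hz'
  have hζ : riemannZeta s * P N s = Complex.exp z := by
    rw [P_exp N (by rw [hsre]; norm_num), ← hℓe s hsO, ← Complex.exp_add, Finset.sum_add_distrib]
    congr 1
    rw [hz']
    ring
  set E := (C + 5) * Real.log T * (1 / (h * U) + Real.exp (-(l * (κ / 2))) / h + h) with hEdef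
  have hzn : ‖z‖ ≤ E := by
    have h4 : ‖ℓ s - ∑ p ∈ N.primesBelow, (p : ℂ) ^ (-s)‖ ≤
        C * Real.log T * (1 / (h * U) + Real.exp (-(l * (κ / 2))) / h) + (3 * h + Real.exp (-l)) := by
      have e : ℓ s - ∑ p ∈ N.primesBelow, (p : ℂ) ^ (-s) =
          ((∑' p : Nat.Primes, ((p : ℕ) : ℂ) ^ (-s) * (Wt l h (Real.log (p : ℕ)) : ℂ)) -
            ∑ p ∈ N.primesBelow, (p : ℂ) ^ (-s)) -
          ((∑' p : Nat.Primes, ((p : ℕ) : ℂ) ^ (-s) * (Wt l h (Real.log (p : ℕ)) : ℂ)) - ℓ s) := by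
        ring
      rw [e]
      refine (norm_sub_le _ _).trans ?_
      linarith
    have h5 : 4 / (N : ℝ) ≤ 4 * Real.exp (-l) := by
      rw [Real.exp_neg, div_eq_mul_inv]
      gcongr
    have h6 : Real.exp (-l) ≤ Real.exp (-(l * (κ / 2))) / h := by
      have h7 : Real.exp (-l) ≤ Real.exp (-(l * (κ / 2))) := by
        apply Real.exp_le_exp.2
        nlinarith
      refine h7.trans ?_
      rw [le_div_iff₀ hh]
      have := Real.exp_pos (-(l * (κ / 2)))
      nlinarith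
    have h8 : ‖z‖ ≤ _ := norm_add_le (ℓ s - ∑ p ∈ N.primesBelow, (p : ℂ) ^ (-s))
      (R2 s - ∑ p ∈ N.primesBelow, gp p s)
    refine h8.trans ?_
    have g1 : 0 ≤ 1 / (h * U) := by positivity
    have g2 : 0 ≤ Real.exp (-(l * (κ / 2))) / h := by positivity
    have g3 : C * Real.log T * (1 / (h * U) + Real.exp (-(l * (κ / 2))) / h) ≤
        C * Real.log T * (1 / (h * U) + Real.exp (-(l * (κ / 2))) / h + h) := by
      apply mul_le_mul_of_nonneg_left _ (by positivity)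
      linarith
    have g4 : 3 * h + 5 * (Real.exp (-(l * (κ / 2))) / h) ≤
        5 * Real.log T * (1 / (h * U) + Real.exp (-(l * (κ / 2))) / h + h) := by
      have : 5 * (1 / (h * U) + Real.exp (-(l * (κ / 2))) / h + h) ≤
          5 * Real.log T * (1 / (h * U) + Real.exp (-(l * (κ / 2))) / h + h) := by
        apply mul_le_mul_of_nonneg_right _ (by positivity)
        linarith
      linarith
    rw [hEdef]
    linarith
  rw [hζ]
  refine (Complex.norm_exp_sub_one_le (hzn.trans hE1)).trans ?_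
  linarith

end Pool.Agent.L5helper77.Edge
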