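import Pool.Agent.L5helper77.Edge7

/-! # Truncated Euler products on the line `Re s = 1`: the direct and the converse theorem -/

set_option autoImplicit false
set_option maxHeartbeats 4000000

open Complex Filter Topology Set Metric MeasureTheory

namespace Pool.Agent.L5helper77.Edge

/-- direct theorem -/
theorem direct {κ ε η : ℝ} (hκ : 0 < κ) (hκ1 : κ ≤ 1 / 4) (hε : 0 < ε) (hε1 : ε ≤ 1) (hη : 0 < η)
    (hη1 : η < 1) :
    ∀ᶠ t : ℝ in atTop, (∀ s : ℂ, 1 - κ ≤ s.re → |s.im - t| ≤ t ^ η → riemannZeta s ≠ 0) →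
      ∀ y : ℝ, t ^ ε ≤ y → y ≤ Real.exp t →
        ‖riemannZeta (1 + t * I) * P (⌊y⌋₊ + 1) (1 + t * I) - 1‖ ≤ t ^ (-(ε * η * κ / 8)) := by
  obtain ⟨C, hC, hmain⟩ := local_approx hκ hκ1
  set δ : ℝ := ε * η * κ / 8 with hδdef
  have hδ : 0 < δ := by positivity
  have hlog : ∀ᶠ t : ℝ in atTop, 6 * C * Real.log t ≤ t ^ δ := by
    have h1 := (isLittleO_log_rpow_atTop hδ).def (show (0 : ℝ) < 1 / (6 * C) by positivity)
    filter_upwards [h1, eventually_ge_atTop 1] with t h2 h3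
    rw [Real.norm_of_nonneg (Real.log_nonneg h3), Real.norm_of_nonneg (by positivity)] at h2
    have h4 : 6 * C * Real.log t ≤ 6 * C * (1 / (6 * C) * t ^ δ) := by gcongr
    rwa [← mul_assoc, mul_one_div_cancel (by positivity), one_mul] at h4
  have hlt : ∀ᶠ t : ℝ in atTop, 2 * t ^ η ≤ t := by
    filter_upwards [window hη hη1] with t ht
    obtain ⟨h1, _, h3⟩ := ht
    linarith
  filter_upwards [hlog, hlt, eventually_ge_atTop 3,
    (tendsto_rpow_atTop hη).eventually_ge_atTop 4,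
    (tendsto_rpow_atTop hε).eventually_ge_atTop (Real.exp 1)] with t hlog hlt ht3 hU4 hte hzf
  intro y hy1 hy2
  have ht0 : 0 < t := by linarith
  have ht1 : 1 ≤ t := by linarith
  have hy0 : 0 < y := lt_of_lt_of_le (Real.rpow_pos_of_pos ht0 _) hy1
  set l := Real.log y with hl
  have hel : Real.exp l = y := Real.exp_log hy0
  have hl1 : 1 ≤ l := by
    rw [hl, Real.le_log_iff_exp_le hy0]
    exact hte.trans hy1
  have hlt' : l ≤ t := by
    rw [hl, Real.log_le_iff_le_exp hy0]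
    exact hy2
  set h : ℝ := t ^ (-(2 * δ)) with hh
  have hh0 : 0 < h := Real.rpow_pos_of_pos ht0 _
  have hh1 : h ≤ 1 := Real.rpow_le_one_of_one_le_of_nonpos ht1 (by linarith)
  have hzf' : ∀ s ∈ Om κ t (t ^ η), riemannZeta s ≠ 0 := by
    intro s hs
    exact hzf s hs.1.le hs.2.le
  have hκε : κ * ε ≤ 1 / 4 := by nlinarith
  have hB1 : 1 / (h * t ^ η) ≤ t ^ (-(2 * δ)) := by
    rw [hh, ← Real.rpow_add ht0, one_div, ← Real.rpow_neg ht0.le]
    apply Real.rpow_le_rpow_of_exponent_le ht1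
    rw [hδdef]
    nlinarith
  have hB2 : Real.exp (-(l * (κ / 2))) / h ≤ t ^ (-(2 * δ)) := by
    have e1 : Real.exp (-(l * (κ / 2))) = y ^ (-(κ / 2)) := by
      rw [Real.rpow_def_of_pos hy0, ← hl]
      congr 1
      ring
    have h2 : y ^ (-(κ / 2)) ≤ (t ^ ε) ^ (-(κ / 2)) :=
      Real.rpow_le_rpow_of_nonpos (Real.rpow_pos_of_pos ht0 _) hy1 (by linarith)
    rw [e1, hh, div_le_iff₀ (Real.rpow_pos_of_pos ht0 _)]
    refine h2.trans ?_
    rw [← Real.rpow_mul ht0.le, ← Real.rpow_add ht0]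
    apply Real.rpow_le_rpow_of_exponent_le ht1
    rw [hδdef]
    have h3 : ε * η * κ ≤ ε * 1 * κ := by gcongr
    nlinarith
  have hsum : 1 / (h * t ^ η) + Real.exp (-(l * (κ / 2))) / h + h ≤ 3 * t ^ (-(2 * δ)) := by
    linarith
  have hlog0 : 0 ≤ Real.log t := Real.log_nonneg ht1
  have htot : C * Real.log t * (1 / (h * t ^ η) + Real.exp (-(l * (κ / 2))) / h + h) ≤
      t ^ (-δ) / 2 := by
    calc C * Real.log t * (1 / (h * t ^ η) + Real.exp (-(l * (κ / 2))) / h + h)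
        ≤ C * Real.log t * (3 * t ^ (-(2 * δ))) := by gcongr
      _ = (6 * C * Real.log t) * (t ^ (-(2 * δ)) / 2) := by ring
      _ ≤ t ^ δ * (t ^ (-(2 * δ)) / 2) := by gcongr
      _ = t ^ (-δ) / 2 := by
          rw [mul_div_assoc', ← Real.rpow_add ht0]
          congr 2
          ring
  have hle1 : t ^ (-δ) ≤ 1 := Real.rpow_le_one_of_one_le_of_nonpos ht1 (by linarith)
  have hfin := hmain t t (t ^ η) ht3 le_rfl (by linarith) hU4 (by linarith) hzf' l h hl1 hlt' hh0 hh1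
    (by linarith)
  rw [hel] at hfin
  linarith

/-- converse theorem: one one-sided inequality is enough -/
theorem converse : ∃ c : ℝ, 0 < c ∧ c ≤ 1 / 16 ∧ ∀ ε A η δ : ℝ, 0 < ε → ε ≤ A → 0 < η → η < 1 →
    0 < δ → ∀ᶠ γ : ℝ in atTop, ∀ y : ℝ, γ ^ ε ≤ y → y ≤ γ ^ A →
      ((∀ t : ℝ, |t - γ| ≤ γ ^ η →
          ‖riemannZeta (1 + t * I) * P (⌊y⌋₊ + 1) (1 + t * I)‖ ≤ 1 + γ ^ (-δ)) ∨
       (∀ t : ℝ, |t - γ| ≤ γ ^ η →
          1 - γ ^ (-δ) ≤ ‖riemannZeta (1 + t * I) * P (⌊y⌋₊ + 1) (1 + t * I)‖)) →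
      ∀ s : ℂ, s.im = γ → 1 - c * min δ (min ε η) / (1 + A) ≤ s.re → riemannZeta s ≠ 0 := by
  obtain ⟨c, hc, hc1, hcore⟩ := core_end
  refine ⟨c, hc, hc1, ?_⟩
  intro ε A η δ0 hε hεA hη hη1 hδ0
  have hA : 0 < A := by linarith
  set δ : ℝ := min δ0 (min ε η) with hδdef
  have hδ : 0 < δ := lt_min hδ0 (lt_min hε hη)
  have hδδ : δ ≤ δ0 := min_le_left _ _
  have hδε : δ ≤ ε := (min_le_right _ _).trans (min_le_left _ _)
  have hδη : δ ≤ η := (min_le_right _ _).trans (min_le_right _ _)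
  have hδ1 : δ ≤ 1 := by linarith
  set κ : ℝ := c * δ / (1 + A) with hκdef
  have hκ : 0 < κ := by positivity
  have hκ16 : κ ≤ 1 / 16 := by
    rw [hκdef, div_le_iff₀ (by linarith)]
    nlinarith
  filter_upwards [near_upper (A := A) hε hη hη1 hδ hδε hδη hκ (by linarith),
    near_lower (A := A) hε hA.le hη hη1 hδ hδε hδη hκ (by linarith),
    hcore A δ hA hδ hδ1 370, eventually_ge_atTop 1] with γ hu hlo hco hγ1
  intro y hy1 hy2 hor s hs1 hs2
  have hγ0 : 0 < γ := by linarith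
  have hy0 : 0 ≤ y := (Real.rpow_nonneg hγ0.le _).trans hy1
  have hN1 : γ ^ ε ≤ ((⌊y⌋₊ + 1 : ℕ) : ℝ) := by
    push_cast
    exact hy1.trans (Nat.lt_floor_add_one y).le
  have h1A : 1 ≤ γ ^ A := Real.one_le_rpow hγ1 hA.le
  have hN2 : ((⌊y⌋₊ + 1 : ℕ) : ℝ) ≤ 2 * γ ^ A := by
    push_cast
    have := Nat.floor_le hy0
    linarith
  have hle : γ ^ (-δ0) ≤ γ ^ (-δ) := Real.rpow_le_rpow_of_exponent_le hγ1 (by linarith)
  refine hco (⌊y⌋₊ + 1) (by omega) hN2 ?_ s hs1 hs2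
  rcases hor with h | h
  · exact hu (⌊y⌋₊ + 1) hN1 hN2 fun t ht => (h t ht).trans (by linarith)
  · exact hlo (⌊y⌋₊ + 1) hN1 hN2 fun t ht => le_trans (by linarith) (h t ht)

end Pool.Agent.L5helper77.Edge
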