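import Pool.Agent.L5helper77.Edge8
import Pool.Agent.W190.C3

/-! # Zero-free half-planes and truncated Euler products on the line `Re s = 1` -/

set_option autoImplicit false
set_option maxHeartbeats 4000000

open Complex Filter Topology Set Metric MeasureTheory

namespace Pool.Agent.L5helper77.Edge

/-- from a zero-free strip at large heights to a zero-free half-plane -/
lemma half_plane {κ γ0 : ℝ} (hκ : 0 < κ) (hκ1 : κ ≤ 1 / 4)
    (h : ∀ s : ℂ, γ0 ≤ s.im → 1 - κ ≤ s.re → riemannZeta s ≠ 0) :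
    ∃ σ0 : ℝ, 1 / 2 < σ0 ∧ σ0 < 1 ∧ ∀ s : ℂ, σ0 ≤ s.re → riemannZeta s ≠ 0 := by
  have hfin := H353.zeros_finite (Icc (1 / 2) 1 ×ℂ Icc (-|γ0|) |γ0|)
    (isCompact_Icc.reProdIm isCompact_Icc)
  set S := {ρ : ℂ | H353.FF ρ = 0 ∧ ρ ∈ Icc (1 / 2 : ℝ) 1 ×ℂ Icc (-|γ0|) |γ0|} with hS
  have hfin' : S.Finite := hfin
  have h1 : ∀ᶠ σ : ℝ in 𝓝[<] 1, ∀ ρ ∈ S, ρ.re < σ := by
    rw [hfin'.eventually_all]
    intro ρ hρ
    have h2 : ρ.re < 1 := by
      by_contra hcon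
      push Not at hcon
      by_cases h3 : ρ = 1
      · have h4 := hρ.1
        rw [h3] at h4
        have : H353.FF 1 = 1 := ZU.J_g2b.FF_one
        rw [this] at h4
        exact one_ne_zero h4
      · have h4 := hρ.1
        rw [show H353.FF ρ = (ρ - 1) * riemannZeta ρ from ZU.J_g2b.FF_ne h3] at h4
        exact mul_ne_zero (sub_ne_zero.2 h3) (riemannZeta_ne_zero_of_one_le_re hcon) h4
    filter_upwards [Ioo_mem_nhdsLT h2] with σ hσ using hσ.1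
  have h2 : ∀ᶠ σ : ℝ in 𝓝[<] 1, 1 - κ < σ ∧ σ < 1 := by
    filter_upwards [Ioo_mem_nhdsLT (show 1 - κ < 1 by linarith)] with σ hσ using hσ
  obtain ⟨σ, hσ1, hσ2, hσ3⟩ := (h1.and h2).exists
  refine ⟨σ, by linarith, hσ3, ?_⟩
  have hpos : ∀ s : ℂ, σ ≤ s.re → 0 ≤ s.im → riemannZeta s ≠ 0 := by
    intro s hs him h0
    by_cases hs1 : 1 ≤ s.re
    · exact riemannZeta_ne_zero_of_one_le_re hs1 h0
    push Not at hs1
    rcases le_total γ0 s.im with h3 | h3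
    · exact h s h3 (by linarith) h0
    · have hne : s ≠ 1 := by
        intro h4
        rw [h4] at hs1
        simp at hs1
      have hmem : s ∈ S := by
        refine ⟨?_, ?_⟩
        · rw [show H353.FF s = (s - 1) * riemannZeta s from ZU.J_g2b.FF_ne hne, h0, mul_zero]
        · rw [Complex.mem_reProdIm]
          refine ⟨⟨by linarith, by linarith⟩, ⟨?_, ?_⟩⟩
          · have := abs_nonneg γ0
            linarith
          · exact h3.trans (le_abs_self _)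
      linarith [hσ1 s hmem]
  intro s hs h0
  rcases le_total 0 s.im with h3 | h3
  · exact hpos s hs h3 h0
  · have h4 := hpos (starRingEnd ℂ s) (by simpa using hs) (by simpa using h3)
    rw [riemannZeta_conj, h0, map_zero] at h4
    exact h4 rfl

/-- `P` at `⌊y⌋ + 1` as a product over the primes up to `y` -/
noncomputable def E (y : ℝ) (s : ℂ) : ℂ := P (⌊y⌋₊ + 1) s

lemma exp_le_of (ε : ℝ) : ∀ᶠ γ : ℝ in atTop, γ ^ ε ≤ Real.exp (γ / 2) := by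
  have h := (isLittleO_rpow_exp_pos_mul_atTop ε (show (0 : ℝ) < 1 / 2 by norm_num)).def one_pos
  filter_upwards [h, eventually_ge_atTop 0] with γ h1 h2
  rw [Real.norm_of_nonneg (by positivity), Real.norm_of_nonneg (by positivity), one_mul] at h1
  rw [show γ / 2 = 1 / 2 * γ by ring]
  exact h1

lemma half_pow {δ : ℝ} (hδ : 0 < δ) : ∀ᶠ γ : ℝ in atTop, ∀ t : ℝ, γ / 2 ≤ t →
    t ^ (-δ) ≤ γ ^ (-(δ / 2)) := by
  filter_upwards [tend_neg (δ := δ / 2) (by positivity) (2 ^ δ) one_pos, eventually_gt_atTop 0]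
    with γ h1 h2 t ht
  have h3 : t ^ (-δ) ≤ (γ / 2) ^ (-δ) := Real.rpow_le_rpow_of_nonpos (by positivity) ht (by linarith)
  have h4 : (γ / 2) ^ (-δ) = (2 ^ δ * γ ^ (-(δ / 2))) * γ ^ (-(δ / 2)) := by
    rw [Real.div_rpow h2.le (by norm_num), Real.rpow_neg (by norm_num : (0 : ℝ) ≤ 2), div_inv_eq_mul,
      mul_assoc, ← Real.rpow_add h2, mul_comm]
    congr 2
    ring
  rw [h4] at h3
  have h5 : 0 < γ ^ (-(δ / 2)) := by positivity
  nlinarith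

/-- the four equivalent statements -/
theorem tfae {ε A η : ℝ} (hε : 0 < ε) (hεA : ε ≤ A) (hη : 0 < η) (hη1 : η < 1) :
    List.TFAE [
      ∃ σ0 : ℝ, 1 / 2 < σ0 ∧ σ0 < 1 ∧ ∀ s : ℂ, σ0 ≤ s.re → riemannZeta s ≠ 0,
      ∃ δ : ℝ, 0 < δ ∧ ∃ t0 : ℝ, ∀ t : ℝ, t0 ≤ t → ∀ y : ℝ, t ^ ε ≤ y → y ≤ Real.exp t →
        ‖riemannZeta (1 + t * I) * E y (1 + t * I) - 1‖ ≤ t ^ (-δ),
      ∃ δ : ℝ, 0 < δ ∧ ∃ γ0 : ℝ, ∀ γ : ℝ, γ0 ≤ γ → ∃ y : ℝ, γ ^ ε ≤ y ∧ y ≤ γ ^ A ∧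
        ∀ t : ℝ, |t - γ| ≤ γ ^ η → ‖riemannZeta (1 + t * I) * E y (1 + t * I)‖ ≤ 1 + γ ^ (-δ),
      ∃ δ : ℝ, 0 < δ ∧ ∃ γ0 : ℝ, ∀ γ : ℝ, γ0 ≤ γ → ∃ y : ℝ, γ ^ ε ≤ y ∧ y ≤ γ ^ A ∧
        ∀ t : ℝ, |t - γ| ≤ γ ^ η → 1 - γ ^ (-δ) ≤ ‖riemannZeta (1 + t * I) * E y (1 + t * I)‖] := by
  -- the direct theorem for a zero-free half-plane
  have hdir : (∃ σ0 : ℝ, 1 / 2 < σ0 ∧ σ0 < 1 ∧ ∀ s : ℂ, σ0 ≤ s.re → riemannZeta s ≠ 0) →
      ∀ ε' : ℝ, 0 < ε' → ∃ δ : ℝ, 0 < δ ∧ ∀ᶠ t : ℝ in atTop, ∀ y : ℝ, t ^ ε' ≤ y →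
        y ≤ Real.exp t → ‖riemannZeta (1 + t * I) * E y (1 + t * I) - 1‖ ≤ t ^ (-δ) := by
    rintro ⟨σ0, h1, h2, h3⟩ ε' hε'
    set κ : ℝ := min (1 - σ0) (1 / 4) with hκ
    have hκ0 : 0 < κ := lt_min (by linarith) (by norm_num)
    have hκ1 : κ ≤ 1 / 4 := min_le_right _ _
    have hκ2 : κ ≤ 1 - σ0 := min_le_left _ _
    have he : 0 < min ε' 1 := lt_min hε' one_pos
    refine ⟨min ε' 1 * (1 / 2) * κ / 8, by positivity, ?_⟩
    filter_upwards [direct (η := 1 / 2) hκ0 hκ1 he (min_le_right _ _) (by norm_num) (by norm_num),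
      eventually_ge_atTop 1] with t ht ht1 y hy1 hy2
    refine ht (fun s hs _ => h3 s (by linarith)) y ?_ hy2
    exact (Real.rpow_le_rpow_of_exponent_le ht1 (min_le_left _ _)).trans hy1
  have hdir2 : (∃ σ0 : ℝ, 1 / 2 < σ0 ∧ σ0 < 1 ∧ ∀ s : ℂ, σ0 ≤ s.re → riemannZeta s ≠ 0) →
      ∃ δ : ℝ, 0 < δ ∧ ∃ γ0 : ℝ, ∀ γ : ℝ, γ0 ≤ γ → ∃ y : ℝ, γ ^ ε ≤ y ∧ y ≤ γ ^ A ∧
        ∀ t : ℝ, |t - γ| ≤ γ ^ η → ‖riemannZeta (1 + t * I) * E y (1 + t * I) - 1‖ ≤ γ ^ (-δ) := by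
    intro h
    obtain ⟨δ, hδ, hd⟩ := hdir h (ε / 2) (by positivity)
    obtain ⟨t1, ht1⟩ := eventually_atTop.1 hd
    refine ⟨δ / 2, by positivity, ?_⟩
    rw [← eventually_atTop]
    filter_upwards [half_pow hδ, exp_le_of ε, window hη hη1, eventually_ge_atTop (2 * t1)]
      with γ h1 h2 h3 h4
    obtain ⟨h5, h6, h7⟩ := h3
    refine ⟨γ ^ ε, le_rfl, Real.rpow_le_rpow_of_exponent_le (by linarith) hεA, ?_⟩
    intro t ht
    have h8 := abs_le.1 ht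
    have h9 : γ / 2 ≤ t := by linarith [h8.1]
    have h10 : t ≤ 2 * γ := by linarith [h8.2]
    refine (ht1 t (by linarith) (γ ^ ε) ?_ ?_).trans (h1 t h9)
    · calc t ^ (ε / 2) ≤ (γ ^ (2 : ℝ)) ^ (ε / 2) := by
            apply Real.rpow_le_rpow (by linarith) _ (by positivity)
            rw [Real.rpow_two]
            nlinarith
        _ = γ ^ ε := by
            rw [← Real.rpow_mul (by linarith)]
            congr 1
            ring
    · exact h2.trans (Real.exp_le_exp.2 h9)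
  -- the converse
  obtain ⟨c, hc, hc1, hconv⟩ := converse
  have hcon : ∀ ε' A' η' δ : ℝ, 0 < ε' → ε' ≤ A' → 0 < η' → η' < 1 → 0 < δ →
      (∀ᶠ γ : ℝ in atTop, ∃ y : ℝ, γ ^ ε' ≤ y ∧ y ≤ γ ^ A' ∧
        ((∀ t : ℝ, |t - γ| ≤ γ ^ η' →
            ‖riemannZeta (1 + t * I) * E y (1 + t * I)‖ ≤ 1 + γ ^ (-δ)) ∨
         (∀ t : ℝ, |t - γ| ≤ γ ^ η' →
            1 - γ ^ (-δ) ≤ ‖riemannZeta (1 + t * I) * E y (1 + t * I)‖))) →
      ∃ σ0 : ℝ, 1 / 2 < σ0 ∧ σ0 < 1 ∧ ∀ s : ℂ, σ0 ≤ s.re → riemannZeta s ≠ 0 := by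
    intro ε' A' η' δ hε' hεA' hη' hη1' hδ h
    have hmin : 0 < min δ (min ε' η') := lt_min hδ (lt_min hε' hη')
    have hA' : 0 < A' := by linarith
    have hmin1 : min δ (min ε' η') ≤ 1 := by
      have := (min_le_right δ (min ε' η')).trans (min_le_right ε' η')
      linarith
    obtain ⟨γ0, hγ0⟩ := eventually_atTop.1 (h.and (hconv ε' A' η' δ hε' hεA' hη' hη1' hδ))
    refine half_plane (κ := c * min δ (min ε' η') / (1 + A')) (γ0 := γ0) (by positivity) ?_ ?_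
    · rw [div_le_iff₀ (by linarith)]
      nlinarith
    · intro s hs1 hs2
      obtain ⟨⟨y, h1, h2, h3⟩, h4⟩ := hγ0 s.im hs1
      exact h4 y h1 h2 h3 s rfl hs2
  tfae_have 1 → 2
  | h => by
    obtain ⟨δ, hδ, hd⟩ := hdir h ε hε
    obtain ⟨t0, ht0⟩ := eventually_atTop.1 hd
    exact ⟨δ, hδ, t0, ht0⟩
  tfae_have 2 → 1
  | ⟨δ, hδ, t0, ht0⟩ => by
    refine hcon (2 * ε) (2 * ε) (1 / 2) (δ / 2) (by positivity) le_rfl (by norm_num) (by norm_num)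
      (by positivity) ?_
    filter_upwards [half_pow hδ, exp_le_of (2 * ε), window (η := 1 / 2) (by norm_num) (by norm_num),
      eventually_ge_atTop (2 * t0)] with γ h1 h2 h3 h4
    obtain ⟨h5, h6, h7⟩ := h3
    refine ⟨γ ^ (2 * ε), le_rfl, le_rfl, Or.inl ?_⟩
    intro t ht
    have h8 := abs_le.1 ht
    have h9 : γ / 2 ≤ t := by linarith [h8.1]
    have h10 : t ≤ 2 * γ := by linarith [h8.2]
    have h11 := (ht0 t (by linarith) (γ ^ (2 * ε)) (by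
      calc t ^ ε ≤ (γ ^ (2 : ℝ)) ^ ε := by
            apply Real.rpow_le_rpow (by linarith) _ (by positivity)
            rw [Real.rpow_two]
            nlinarith
        _ = γ ^ (2 * ε) := by rw [← Real.rpow_mul (by linarith)])
      (h2.trans (Real.exp_le_exp.2 h9))).trans (h1 t h9)
    have h12 := norm_sub_norm_le (riemannZeta (1 + t * I) * E (γ ^ (2 * ε)) (1 + t * I)) 1
    rw [norm_one] at h12
    linarith
  tfae_have 1 → 3
  | h => by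
    obtain ⟨δ, hδ, γ0, hd⟩ := hdir2 h
    refine ⟨δ, hδ, γ0, fun γ hγ => ?_⟩
    obtain ⟨y, h1, h2, h3⟩ := hd γ hγ
    refine ⟨y, h1, h2, fun t ht => ?_⟩
    have h12 := norm_sub_norm_le (riemannZeta (1 + t * I) * E y (1 + t * I)) 1
    rw [norm_one] at h12
    linarith [h3 t ht]
  tfae_have 1 → 4
  | h => by
    obtain ⟨δ, hδ, γ0, hd⟩ := hdir2 h
    refine ⟨δ, hδ, γ0, fun γ hγ => ?_⟩
    obtain ⟨y, h1, h2, h3⟩ := hd γ hγ
    refine ⟨y, h1, h2, fun t ht => ?_⟩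
    have h12 := norm_sub_norm_le 1 (riemannZeta (1 + t * I) * E y (1 + t * I))
    rw [norm_one, norm_sub_rev] at h12
    linarith [h3 t ht]
  tfae_have 3 → 1
  | ⟨δ, hδ, γ0, hd⟩ => by
    refine hcon ε A η δ hε hεA hη hη1 hδ ?_
    filter_upwards [eventually_ge_atTop γ0] with γ hγ
    obtain ⟨y, h1, h2, h3⟩ := hd γ hγ
    exact ⟨y, h1, h2, Or.inl h3⟩
  tfae_have 4 → 1
  | ⟨δ, hδ, γ0, hd⟩ => by
    refine hcon ε A η δ hε hεA hη hη1 hδ ?_
    filter_upwards [eventually_ge_atTop γ0] with γ hγ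
    obtain ⟨y, h1, h2, h3⟩ := hd γ hγ
    exact ⟨y, h1, h2, Or.inr h3⟩
  tfae_finish

/-- few exceptions, unconditionally -/
theorem few {ε η : ℝ} (hε : 0 < ε) (hη : 0 < η) : ∃ δ : ℝ, 0 < δ ∧ ∃ C : ℝ, 0 < C ∧ ∀ T : ℝ, 1 ≤ T →
    volume {t : ℝ | T ≤ t ∧ t ≤ 2 * T ∧ ∃ y : ℝ, t ^ ε ≤ y ∧ y ≤ Real.exp t ∧
      t ^ (-δ) < ‖riemannZeta (1 + t * I) * E y (1 + t * I) - 1‖} ≤ ENNReal.ofReal (C * T ^ η) := by
  set η1 : ℝ := min η 1 with hη1def
  have hη10 : 0 < η1 := lt_min hη one_pos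
  have hη11 : η1 ≤ 1 := min_le_right _ _
  have hη1η : η1 ≤ η := min_le_left _ _
  set ε1 : ℝ := min ε 1 with hε1def
  have hε10 : 0 < ε1 := lt_min hε one_pos
  have hε11 : ε1 ≤ 1 := min_le_right _ _
  set κ : ℝ := η1 / 10 with hκ
  have hκ0 : 0 < κ := by positivity
  have hκ1 : κ ≤ 1 / 10 := by rw [hκ]; linarith
  obtain ⟨C1, hC1, hdens⟩ := Pool.Agent.W190.carlson (1 - κ) κ (by linarith) (by linarith) hκ0
  obtain ⟨t0, ht0⟩ := eventually_atTop.1 ((direct (κ := κ) (ε := ε1) (η := η1 / 4) hκ0 (by linarith)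
    hε10 hε11 (by positivity) (by linarith)).and (eventually_ge_atTop 1))
  set T0 : ℝ := max t0 1 with hT0
  have hT01 : 1 ≤ T0 := le_max_right _ _
  refine ⟨ε1 * (η1 / 4) * κ / 8, by positivity, C1 * 4 * 2 ^ (η1 / 2) * 4 * 2 + T0, by positivity, ?_⟩
  intro T hT
  have hT0' : 0 < T := by linarith
  set δ : ℝ := ε1 * (η1 / 4) * κ / 8 with hδ
  set S : Set ℝ := {t : ℝ | T ≤ t ∧ t ≤ 2 * T ∧ ∃ y : ℝ, t ^ ε ≤ y ∧ y ≤ Real.exp t ∧
      t ^ (-δ) < ‖riemannZeta (1 + t * I) * E y (1 + t * I) - 1‖} with hS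
  have hTη : 1 ≤ T ^ η := Real.one_le_rpow hT hη.le
  rcases le_total T T0 with h | h
  · have h1 : S ⊆ Icc T (2 * T) := fun t ht => ⟨ht.1, ht.2.1⟩
    refine (measure_mono h1).trans ?_
    rw [Real.volume_Icc]
    apply ENNReal.ofReal_le_ofReal
    have h2 : 0 ≤ C1 * 4 * 2 ^ (η1 / 2) * 4 * 2 := by positivity
    nlinarith
  · -- the zeros
    have hW : (2 * T) ^ (η1 / 4) ≤ 2 * T := by
      calc (2 * T) ^ (η1 / 4) ≤ (2 * T) ^ (1 : ℝ) :=
            Real.rpow_le_rpow_of_exponent_le (by linarith) (by linarith)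
        _ = 2 * T := Real.rpow_one _
    have hfin := H353.zeros_finite (Icc (1 - κ) 1 ×ℂ Icc (-(4 * T)) (4 * T))
      (isCompact_Icc.reProdIm isCompact_Icc)
    set Z : Finset ℂ := hfin.toFinset with hZ
    have hmemZ : ∀ ρ, ρ ∈ Z ↔ H353.FF ρ = 0 ∧ ρ ∈ Icc (1 - κ) 1 ×ℂ Icc (-(4 * T)) (4 * T) := by
      intro ρ
      rw [hZ, Set.Finite.mem_toFinset]
      rfl
    have hcard : (Z.card : ℝ) ≤ C1 * (4 * T) ^ (4 * (1 - κ) * (1 - (1 - κ)) + κ) := by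
      have h1 := hdens (4 * T) (by linarith) Z (fun ρ hρ => by
        have h2 := (hmemZ ρ).1 hρ
        rw [Complex.mem_reProdIm] at h2
        exact ⟨h2.1, h2.2.1.1, abs_le.2 h2.2.2⟩)
      refine le_trans ?_ h1
      rw [Finset.card_eq_sum_ones]
      push_cast
      refine Finset.sum_le_sum fun ρ hρ => ?_
      have := H353.mu_pos ρ ((hmemZ ρ).1 hρ).1
      exact_mod_cast this
    have hexp : 4 * (1 - κ) * (1 - (1 - κ)) + κ ≤ η1 / 2 := by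
      rw [hκ]
      nlinarith
    have hcard' : (Z.card : ℝ) ≤ C1 * (4 * 2 ^ (η1 / 2) * T ^ (η1 / 2)) := by
      refine hcard.trans ?_
      have h1 : (4 * T) ^ (4 * (1 - κ) * (1 - (1 - κ)) + κ) ≤ (4 * T) ^ (η1 / 2) :=
        Real.rpow_le_rpow_of_exponent_le (by linarith) hexp
      have h2 : (4 * T) ^ (η1 / 2) = 2 ^ (η1 / 2) * 2 ^ (η1 / 2) * T ^ (η1 / 2) := by
        rw [← Real.mul_rpow (by norm_num) (by norm_num), ← Real.mul_rpow (by norm_num) hT0'.le]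
        congr 1
        ring
      have h3 : (2 : ℝ) ^ (η1 / 2) ≤ 2 := by
        calc (2 : ℝ) ^ (η1 / 2) ≤ 2 ^ (1 : ℝ) :=
              Real.rpow_le_rpow_of_exponent_le (by norm_num) (by linarith)
          _ = 2 := by norm_num
      rw [h2] at h1
      have h4 : 0 < (2 : ℝ) ^ (η1 / 2) := by positivity
      have h5 : 0 < T ^ (η1 / 2) := by positivity
      have h6 : (2 : ℝ) ^ (η1 / 2) * 2 ^ (η1 / 2) * T ^ (η1 / 2) ≤
          4 * 2 ^ (η1 / 2) * T ^ (η1 / 2) := by gcongr; linarith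
      have h7 := h1.trans h6
      gcongr
    have hsub : S ⊆ ⋃ ρ ∈ Z, Icc (ρ.im - (2 * T) ^ (η1 / 4)) (ρ.im + (2 * T) ^ (η1 / 4)) := by
      intro t ht
      obtain ⟨h1, h2, y, h3, h4, h5⟩ := ht
      have ht1 : 1 ≤ t := by linarith
      obtain ⟨hd, _⟩ := ht0 t ((le_max_left _ _).trans (h.trans h1))
      by_contra hcon
      rw [mem_iUnion₂] at hcon
      push Not at hcon
      have h6 := hd (fun s hs1 hs2 h0 => by
        have hsne : s ≠ 1 := by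
          intro h7
          rw [h7] at h0
          exact riemannZeta_ne_zero_of_one_le_re (s := 1) (by simp) h0
        have hre : s.re < 1 := by
          by_contra h7
          push Not at h7
          exact riemannZeta_ne_zero_of_one_le_re h7 h0
        have hle : t ^ (η1 / 4) ≤ (2 * T) ^ (η1 / 4) :=
          Real.rpow_le_rpow (by linarith) h2 (by positivity)
        have hab := abs_le.1 (hs2.trans hle)
        have hsZ : s ∈ Z := by
          rw [hmemZ]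
          refine ⟨?_, ?_⟩
          · rw [show H353.FF s = (s - 1) * riemannZeta s from ZU.J_g2b.FF_ne hsne, h0, mul_zero]
          · rw [Complex.mem_reProdIm]
            exact ⟨⟨hs1, hre.le⟩, ⟨by linarith [hab.1], by linarith [hab.2]⟩⟩
        exact hcon s hsZ ⟨by linarith [hab.2], by linarith [hab.1]⟩) y
        ((Real.rpow_le_rpow_of_exponent_le ht1 (min_le_left _ _)).trans h3) h4
      exact absurd h5 (not_lt.2 h6)
    refine (measure_mono hsub).trans ((measure_biUnion_finset_le _ _).trans ?_)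
    have hvol : ∀ ρ ∈ Z, volume (Icc (ρ.im - (2 * T) ^ (η1 / 4)) (ρ.im + (2 * T) ^ (η1 / 4))) =
        ENNReal.ofReal (2 * (2 * T) ^ (η1 / 4)) := by
      intro ρ _
      rw [Real.volume_Icc]
      congr 1
      ring
    rw [Finset.sum_congr rfl hvol, Finset.sum_const, nsmul_eq_mul, ← ENNReal.ofReal_natCast,
      ← ENNReal.ofReal_mul (Nat.cast_nonneg _)]
    apply ENNReal.ofReal_le_ofReal
    have h8 : (2 * T) ^ (η1 / 4) ≤ 2 * T ^ (η1 / 4) := by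
      rw [Real.mul_rpow (by norm_num) hT0'.le]
      have h3 : (2 : ℝ) ^ (η1 / 4) ≤ 2 := by
        calc (2 : ℝ) ^ (η1 / 4) ≤ 2 ^ (1 : ℝ) :=
              Real.rpow_le_rpow_of_exponent_le (by norm_num) (by linarith)
          _ = 2 := by norm_num
      gcongr
    calc (Z.card : ℝ) * (2 * (2 * T) ^ (η1 / 4))
        ≤ (C1 * (4 * 2 ^ (η1 / 2) * T ^ (η1 / 2))) * (2 * (2 * T ^ (η1 / 4))) := by gcongr
      _ = (C1 * 4 * 2 ^ (η1 / 2) * 4) * (T ^ (η1 / 2) * T ^ (η1 / 4)) := by ring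
      _ ≤ (C1 * 4 * 2 ^ (η1 / 2) * 4) * T ^ η := by
          gcongr
          rw [← Real.rpow_add hT0']
          exact Real.rpow_le_rpow_of_exponent_le hT (by linarith)
      _ ≤ (C1 * 4 * 2 ^ (η1 / 2) * 4 * 2 + T0) * T ^ η := by
          gcongr
          have : 0 < C1 * 4 * 2 ^ (η1 / 2) * 4 := by positivity
          linarith

end Pool.Agent.L5helper77.Edge
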