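import Pool.Agent.H809R2.GI.CUpper4

/-!
Factorisation of matrices bounded in the injective norm, from Grothendieck's inequality.
-/

set_option autoImplicit false

namespace Pool.Agent.L5helper77.Inj

open Finset
open scoped ComplexConjugate
open Pool.Agent.H809R2.GI

noncomputable section

/-- a constant in Grothendieck's inequality over `ℂ` -/
def K : ℝ := Real.exp (1 - Real.eulerMascheroniConstant)

lemma hK : IsGrothendieckBound ℂ K := pisier

lemma K_pos : 0 < K := Real.exp_pos _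

variable {n : ℕ}

/-- sup norm bound of a bilinear form -/
def SB (γ : Fin n → Fin n → ℂ) (B : ℝ) : Prop := ∀ x y : Fin n → ℂ, (∀ i, ‖x i‖ ≤ 1) →
  (∀ j, ‖y j‖ ≤ 1) → ‖∑ i, ∑ j, γ i j * x i * y j‖ ≤ B

/-- squared norms of vectors -/
def nu {ι : Type} [Fintype ι] (u : Fin n → ι → ℂ) (i : Fin n) : ℝ := ∑ k, ‖u i k‖ ^ 2

/-- value of the form on vectors -/
def bil (γ : Fin n → Fin n → ℂ) {ι : Type} [Fintype ι] (u v : Fin n → ι → ℂ) : ℂ :=
  ∑ i, ∑ j, γ i j * ∑ k, u i k * v j k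

/-- bound on Hilbert space vectors -/
def HB (γ : Fin n → Fin n → ℂ) (C : ℝ) : Prop := ∀ (ι : Type) [Fintype ι] (u v : Fin n → ι → ℂ),
  (∀ i, nu u i ≤ 1) → (∀ j, nu v j ≤ 1) → ‖bil γ u v‖ ≤ C

lemma nu_nonneg {ι : Type} [Fintype ι] (u : Fin n → ι → ℂ) (i : Fin n) : 0 ≤ nu u i :=
  Finset.sum_nonneg fun _ _ => by positivity

lemma SB.hb {γ : Fin n → Fin n → ℂ} {B : ℝ} (h : SB γ B) : HB γ (K * B) := by
  intro ι _ u v hu hv
  have hsn : signNorm (Matrix.of γ) ≤ B := by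
    unfold signNorm
    refine csSup_le ⟨_, fun _ => 1, fun _ => 1, fun _ => by simp, fun _ => by simp, rfl⟩ ?_
    rintro r ⟨p, q, hp, hq, rfl⟩
    exact h p q (fun i => (hp i).le) (fun j => (hq j).le)
  set U : Fin n → EuclideanSpace ℂ (ι ⊕ Fin 2) := fun i => WithLp.toLp 2
    (Sum.elim (fun k => conj (u i k)) ![((Real.sqrt (1 - nu u i) : ℝ) : ℂ), 0]) with hU
  set V : Fin n → EuclideanSpace ℂ (ι ⊕ Fin 2) := fun j => WithLp.toLp 2
    (Sum.elim (v j) ![0, ((Real.sqrt (1 - nu v j) : ℝ) : ℂ)]) with hV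
  have hU1 : ∀ i, ‖U i‖ = 1 := by
    intro i
    rw [EuclideanSpace.norm_eq, Fintype.sum_sum_type, Fin.sum_univ_two]
    have h1 : ‖((Real.sqrt (1 - nu u i) : ℝ) : ℂ)‖ ^ 2 = 1 - nu u i := by
      rw [Complex.norm_real, Real.norm_of_nonneg (Real.sqrt_nonneg _),
        Real.sq_sqrt (by linarith [hu i])]
    simp only [hU, Sum.elim_inl, Sum.elim_inr, Matrix.cons_val_zero, Matrix.cons_val_one,
      norm_zero, RCLike.norm_conj]
    rw [h1]
    have h2 : ∑ x, ‖u i x‖ ^ 2 = nu u i := rfl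
    rw [h2]
    norm_num
  have hV1 : ∀ j, ‖V j‖ = 1 := by
    intro j
    rw [EuclideanSpace.norm_eq, Fintype.sum_sum_type, Fin.sum_univ_two]
    have h1 : ‖((Real.sqrt (1 - nu v j) : ℝ) : ℂ)‖ ^ 2 = 1 - nu v j := by
      rw [Complex.norm_real, Real.norm_of_nonneg (Real.sqrt_nonneg _),
        Real.sq_sqrt (by linarith [hv j])]
    simp only [hV, Sum.elim_inl, Sum.elim_inr, Matrix.cons_val_zero, Matrix.cons_val_one,
      norm_zero]
    rw [h1]
    have h2 : ∑ x, ‖v j x‖ ^ 2 = nu v j := rfl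
    rw [h2]
    norm_num
  have hin : ∀ i j, inner ℂ (U i) (V j) = ∑ k, u i k * v j k := by
    intro i j
    rw [PiLp.inner_apply, Fintype.sum_sum_type, Fin.sum_univ_two]
    simp only [hU, hV, Sum.elim_inl, Sum.elim_inr, Matrix.cons_val_zero, Matrix.cons_val_one,
      RCLike.inner_apply, zero_mul, mul_zero, map_zero, add_zero, Complex.conj_conj]
    exact Finset.sum_congr rfl fun k _ => mul_comm _ _
  have := hK.2 n n (Matrix.of γ) (EuclideanSpace ℂ (ι ⊕ Fin 2)) U V hU1 hV1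
  simp only [hin, Matrix.of_apply] at this
  refine this.trans ?_
  have := K_pos
  gcongr

lemma bil_smul (γ : Fin n → Fin n → ℂ) {ι : Type} [Fintype ι] (u v : Fin n → ι → ℂ) (a b : ℂ) :
    bil γ (fun i k => a * u i k) (fun j k => b * v j k) = a * b * bil γ u v := by
  unfold bil
  rw [Finset.mul_sum]
  refine Finset.sum_congr rfl fun i _ => ?_
  rw [Finset.mul_sum]
  refine Finset.sum_congr rfl fun j _ => ?_
  have : ∑ k, a * u i k * (b * v j k) = a * b * ∑ k, u i k * v j k := by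
    rw [Finset.mul_sum]
    exact Finset.sum_congr rfl fun k _ => by ring
  rw [this]
  ring

lemma nu_smul {ι : Type} [Fintype ι] (u : Fin n → ι → ℂ) (a : ℂ) (i : Fin n) :
    nu (fun i k => a * u i k) i = ‖a‖ ^ 2 * nu u i := by
  unfold nu
  rw [Finset.mul_sum]
  exact Finset.sum_congr rfl fun k _ => by rw [norm_mul, mul_pow]

lemma bil_sum (γ : Fin n → Fin n → ℂ) {ι κ : Type} [Fintype ι] [Fintype κ] (u v : Fin n → ι → ℂ)
    (u' v' : Fin n → κ → ℂ) :
    bil γ (fun i => Sum.elim (u i) (u' i)) (fun j => Sum.elim (v j) (v' j)) =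
      bil γ u v + bil γ u' v' := by
  unfold bil
  rw [← Finset.sum_add_distrib]
  refine Finset.sum_congr rfl fun i _ => ?_
  rw [← Finset.sum_add_distrib]
  refine Finset.sum_congr rfl fun j _ => ?_
  rw [Fintype.sum_sum_type, ← mul_add]
  rfl

lemma nu_sum {ι κ : Type} [Fintype ι] [Fintype κ] (u : Fin n → ι → ℂ) (u' : Fin n → κ → ℂ)
    (i : Fin n) : nu (fun i => Sum.elim (u i) (u' i)) i = nu u i + nu u' i := by
  unfold nu
  rw [Fintype.sum_sum_type]
  rfl

lemma HB.nonneg {γ : Fin n → Fin n → ℂ} {C : ℝ} (h : HB γ C) : 0 ≤ C :=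
  (norm_nonneg _).trans (h Unit (fun _ _ => 0) (fun _ _ => 0) (by simp [nu]) (by simp [nu]))

/-- homogeneous form of the Hilbert bound -/
lemma HB.hom {γ : Fin n → Fin n → ℂ} {C : ℝ} (h : HB γ C) {ι : Type} [Fintype ι]
    (u v : Fin n → ι → ℂ) {s r : ℝ} (hs : 0 < s) (hr : 0 < r) (hu : ∀ i, nu u i ≤ s)
    (hv : ∀ j, nu v j ≤ r) : ‖bil γ u v‖ ≤ C / 2 * (s + r) := by
  set a : ℝ := (Real.sqrt s)⁻¹ with ha
  set b : ℝ := (Real.sqrt r)⁻¹ with hb
  have hss : 0 < Real.sqrt s := Real.sqrt_pos.2 hs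
  have hrr : 0 < Real.sqrt r := Real.sqrt_pos.2 hr
  have ha2 : ‖(a : ℂ)‖ ^ 2 = s⁻¹ := by
    rw [Complex.norm_real, Real.norm_of_nonneg (by positivity), ha, inv_pow, Real.sq_sqrt hs.le]
  have hb2 : ‖(b : ℂ)‖ ^ 2 = r⁻¹ := by
    rw [Complex.norm_real, Real.norm_of_nonneg (by positivity), hb, inv_pow, Real.sq_sqrt hr.le]
  have h1 := h ι (fun i k => (a : ℂ) * u i k) (fun j k => (b : ℂ) * v j k)
    (fun i => by
      rw [nu_smul, ha2, inv_mul_le_iff₀ hs, mul_one]; exact hu i)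
    (fun j => by
      rw [nu_smul, hb2, inv_mul_le_iff₀ hr, mul_one]; exact hv j)
  rw [bil_smul, norm_mul, norm_mul, Complex.norm_real, Complex.norm_real,
    Real.norm_of_nonneg (by positivity : 0 ≤ a), Real.norm_of_nonneg (by positivity : 0 ≤ b)] at h1
  have h2 : ‖bil γ u v‖ ≤ C * (Real.sqrt s * Real.sqrt r) := by
    have e : a * b * ‖bil γ u v‖ = ‖bil γ u v‖ / (Real.sqrt s * Real.sqrt r) := by
      rw [ha, hb]; field_simp
    rw [e, div_le_iff₀ (by positivity)] at h1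
    exact h1
  refine h2.trans ?_
  have h3 : Real.sqrt s * Real.sqrt r ≤ (s + r) / 2 := by
    have e1 := Real.sq_sqrt hs.le
    have e2 := Real.sq_sqrt hr.le
    nlinarith [sq_nonneg (Real.sqrt s - Real.sqrt r)]
  have := h.nonneg
  calc C * (Real.sqrt s * Real.sqrt r) ≤ C * ((s + r) / 2) := by gcongr
    _ = C / 2 * (s + r) := by ring

/-- the cone of functions in the separation argument -/
def FF (γ : Fin n → Fin n → ℂ) (C : ℝ) : Set (Fin n × Fin n → ℝ) :=
  {f | ∃ (ι : Type) (_ : Fintype ι) (u v : Fin n → ι → ℂ),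
    f = fun ω => C / 2 * (nu u ω.1 + nu v ω.2) - (bil γ u v).re}

lemma convex_FF (γ : Fin n → Fin n → ℂ) (C : ℝ) : Convex ℝ (FF γ C) := by
  rintro f ⟨ι, _, u, v, rfl⟩ g ⟨κ, _, u', v', rfl⟩ a b ha hb hab
  refine ⟨ι ⊕ κ, inferInstance,
    fun i => Sum.elim (fun k => ((Real.sqrt a : ℝ) : ℂ) * u i k) (fun k => ((Real.sqrt b : ℝ) : ℂ) * u' i k),
    fun i => Sum.elim (fun k => ((Real.sqrt a : ℝ) : ℂ) * v i k) (fun k => ((Real.sqrt b : ℝ) : ℂ) * v' i k), ?_⟩
  have ea : ‖((Real.sqrt a : ℝ) : ℂ)‖ ^ 2 = a := by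
    rw [Complex.norm_real, Real.norm_of_nonneg (Real.sqrt_nonneg _), Real.sq_sqrt ha]
  have eb : ‖((Real.sqrt b : ℝ) : ℂ)‖ ^ 2 = b := by
    rw [Complex.norm_real, Real.norm_of_nonneg (Real.sqrt_nonneg _), Real.sq_sqrt hb]
  have ea2 : ((Real.sqrt a : ℝ) : ℂ) * ((Real.sqrt a : ℝ) : ℂ) = (a : ℂ) := by
    rw [← Complex.ofReal_mul, Real.mul_self_sqrt ha]
  have eb2 : ((Real.sqrt b : ℝ) : ℂ) * ((Real.sqrt b : ℝ) : ℂ) = (b : ℂ) := by
    rw [← Complex.ofReal_mul, Real.mul_self_sqrt hb]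
  funext ω
  simp only [Pi.add_apply, Pi.smul_apply, smul_eq_mul]
  rw [nu_sum (fun i k => ((Real.sqrt a : ℝ) : ℂ) * u i k) (fun i k => ((Real.sqrt b : ℝ) : ℂ) * u' i k),
    nu_sum (fun i k => ((Real.sqrt a : ℝ) : ℂ) * v i k) (fun i k => ((Real.sqrt b : ℝ) : ℂ) * v' i k),
    bil_sum γ (fun i k => ((Real.sqrt a : ℝ) : ℂ) * u i k) (fun i k => ((Real.sqrt a : ℝ) : ℂ) * v i k)
      (fun i k => ((Real.sqrt b : ℝ) : ℂ) * u' i k) (fun i k => ((Real.sqrt b : ℝ) : ℂ) * v' i k),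
    nu_smul, nu_smul, nu_smul, nu_smul, bil_smul, bil_smul, ea, eb, ea2, eb2, Complex.add_re,
    Complex.re_ofReal_mul, Complex.re_ofReal_mul]
  ring

lemma exists_nonneg {γ : Fin n → Fin n → ℂ} {C : ℝ} (h : HB γ C) (hn : 0 < n)
    {f : Fin n × Fin n → ℝ} (hf : f ∈ FF γ C) : ∃ ω, 0 ≤ f ω := by
  obtain ⟨ι, _, u, v, rfl⟩ := hf
  have : Nonempty (Fin n) := ⟨⟨0, hn⟩⟩
  obtain ⟨i0, hi0⟩ := Finite.exists_max (nu u)
  obtain ⟨j0, hj0⟩ := Finite.exists_max (nu v)
  refine ⟨(i0, j0), ?_⟩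
  simp only
  have hC := h.nonneg
  have key : ∀ ε : ℝ, 0 < ε → (bil γ u v).re ≤ C / 2 * (nu u i0 + nu v j0) + C * ε := by
    intro ε hε
    have h1 := nu_nonneg u i0
    have h2 := nu_nonneg v j0
    have h3 := h.hom u v (s := nu u i0 + ε) (r := nu v j0 + ε) (by positivity) (by positivity)
      (fun i => by linarith [hi0 i]) (fun j => by linarith [hj0 j])
    have h4 := Complex.re_le_norm (bil γ u v)
    linarith
  have : (bil γ u v).re ≤ C / 2 * (nu u i0 + nu v j0) := by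
    refine le_of_forall_pos_le_add fun δ hδ => ?_
    have h5 := key (δ / (C + 1)) (by positivity)
    have h6 : C * (δ / (C + 1)) ≤ δ := by
      rw [mul_div_assoc', div_le_iff₀ (by positivity)]
      nlinarith
    linarith
  linarith

/-- Domination by a product of weighted `ℓ²` norms. -/
def Dom (γ : Fin n → Fin n → ℂ) (C : ℝ) (p q : Fin n → ℝ) : Prop :=
  (∀ i, 0 ≤ p i) ∧ (∀ j, 0 ≤ q j) ∧ ∑ i, p i ≤ 1 ∧ ∑ j, q j ≤ 1 ∧
  ∀ x y : Fin n → ℂ, ‖∑ i, ∑ j, γ i j * x i * y j‖ ≤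
    C * Real.sqrt (∑ i, p i * ‖x i‖ ^ 2) * Real.sqrt (∑ j, q j * ‖y j‖ ^ 2)

lemma HB.dom {γ : Fin n → Fin n → ℂ} {C : ℝ} (h : HB γ C) : ∃ p q, Dom γ C p q := by
  have hC := h.nonneg
  rcases Nat.eq_zero_or_pos n with hn | hn
  · subst hn
    refine ⟨fun _ => 0, fun _ => 0, fun _ => le_rfl, fun _ => le_rfl, by simp, by simp, fun x y => ?_⟩
    simp
  classical
  set N : Set (Fin n × Fin n → ℝ) := {f | ∀ ω, f ω < 0} with hN
  have hNo : IsOpen N := by
    rw [hN]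
    simp only [Set.ofPred_forall]
    exact isOpen_iInter_of_finite fun ω => isOpen_lt (continuous_apply ω) continuous_const
  have hNc : Convex ℝ N := by
    intro f hf g hg a b ha hb hab ω
    have h1 := hf ω
    have h2 := hg ω
    show a * f ω + b * g ω < 0
    rcases ha.eq_or_lt with h0 | h0
    · have : b = 1 := by linarith
      rw [← h0, this]; linarith
    · nlinarith [mul_neg_of_pos_of_neg h0 h1]
  have hdisj : Disjoint N (FF γ C) := by
    rw [Set.disjoint_left]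
    intro f hf hf2
    obtain ⟨ω, hω⟩ := exists_nonneg h hn hf2
    exact absurd (hf ω) (not_lt.2 hω)
  obtain ⟨φ, c, h1, h2⟩ := geometric_hahn_banach_open hNc hNo (convex_FF γ C) hdisj
  set m : Fin n × Fin n → ℝ := fun ω => φ (Pi.single ω 1) with hm
  have hφ : ∀ f : Fin n × Fin n → ℝ, φ f = ∑ ω, m ω * f ω := by
    intro f
    have e : f = ∑ ω, f ω • (Pi.single ω (1 : ℝ) : Fin n × Fin n → ℝ) := by
      funext ω
      rw [Finset.sum_apply]
      simp [Pi.single_apply]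
    conv_lhs => rw [e]
    rw [map_sum]
    refine Finset.sum_congr rfl fun ω _ => ?_
    rw [map_smul, smul_eq_mul, mul_comm]
  set M : ℝ := ∑ ω, m ω with hM
  have hc0 : 0 ≤ c := by
    have h3 : ∀ t : ℝ, 0 < t → -(t * M) < c := by
      intro t ht
      have h4 := h1 (fun _ => -t) (fun ω => by linarith)
      rw [hφ] at h4
      rw [← Finset.sum_mul] at h4
      linarith
    refine le_of_forall_pos_lt_add fun ε hε => ?_
    have h5 := h3 (ε / (|M| + 1)) (by positivity)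
    have h6 : ε / (|M| + 1) * M ≤ ε := by
      rw [div_mul_eq_mul_div, div_le_iff₀ (by positivity)]
      nlinarith [le_abs_self M]
    linarith
  have hc1 : c ≤ 0 := by
    have h3 := h2 (fun _ => 0) ⟨Unit, inferInstance, fun _ _ => 0, fun _ _ => 0, by
      funext ω; simp [nu, bil]⟩
    rw [hφ] at h3
    simpa using h3
  have hM0 : 0 < M := by
    have h4 := h1 (fun _ => -1) (fun ω => by norm_num)
    rw [hφ, ← Finset.sum_mul] at h4
    linarith
  have hmn : ∀ ω, 0 ≤ m ω := by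
    intro ω
    have h3 : ∀ t : ℝ, 0 < t → -(m ω) - t * M < 0 := by
      intro t ht
      have h4 := h1 (fun ω' => -(Pi.single ω (1 : ℝ) : Fin n × Fin n → ℝ) ω' - t) (fun ω' => by
        by_cases hω : ω' = ω
        · subst hω; simp; linarith
        · simp [hω]; exact ht)
      rw [hφ] at h4
      have e : ∑ ω', m ω' * (-(Pi.single ω (1 : ℝ) : Fin n × Fin n → ℝ) ω' - t) = -(m ω) - t * M := by
        simp only [mul_sub, Finset.sum_sub_distrib, ← Finset.sum_mul]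
        rw [← hM]
        simp [Pi.single_apply]
        ring
      rw [e] at h4
      linarith
    by_contra hcon
    rw [not_le] at hcon
    have h5 := h3 (-(m ω) / M) (div_pos (by linarith) hM0)
    rw [div_mul_cancel₀ _ hM0.ne'] at h5
    linarith
  set p : Fin n → ℝ := fun i => (∑ j, m (i, j)) / M with hp
  set q : Fin n → ℝ := fun j => (∑ i, m (i, j)) / M with hq
  have hps : ∑ i, p i = 1 := by
    simp only [hp]
    rw [← Finset.sum_div, ← Fintype.sum_prod_type (f := m)]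
    exact div_self hM0.ne'
  have hqs : ∑ j, q j = 1 := by
    simp only [hq]
    rw [← Finset.sum_div, Finset.sum_comm, ← Fintype.sum_prod_type (f := m)]
    exact div_self hM0.ne'
  have key : ∀ (x y : Fin n → ℂ), (∑ i, ∑ j, γ i j * x i * y j).re ≤
      C / 2 * (∑ i, p i * ‖x i‖ ^ 2 + ∑ j, q j * ‖y j‖ ^ 2) := by
    intro x y
    have h3 := h2 _ ⟨Unit, inferInstance, fun i _ => x i, fun j _ => y j, rfl⟩
    rw [hφ] at h3
    have e1 : bil γ (fun i (_ : Unit) => x i) (fun j (_ : Unit) => y j) =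
        ∑ i, ∑ j, γ i j * x i * y j := by
      unfold bil
      refine Finset.sum_congr rfl fun i _ => Finset.sum_congr rfl fun j _ => ?_
      simp [mul_assoc]
    have e2 : ∀ z : Fin n → ℂ, ∀ i, nu (fun i (_ : Unit) => z i) i = ‖z i‖ ^ 2 := by
      intro z i; simp [nu]
    simp only [e1, e2] at h3
    have e3 : ∑ ω : Fin n × Fin n, m ω * (C / 2 * (‖x ω.1‖ ^ 2 + ‖y ω.2‖ ^ 2) -
        (∑ i, ∑ j, γ i j * x i * y j).re) =
        M * (C / 2 * (∑ i, p i * ‖x i‖ ^ 2 + ∑ j, q j * ‖y j‖ ^ 2) -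
          (∑ i, ∑ j, γ i j * x i * y j).re) := by
      have f1 : ∑ i, p i * ‖x i‖ ^ 2 = (∑ ω : Fin n × Fin n, m ω * ‖x ω.1‖ ^ 2) / M := by
        rw [Fintype.sum_prod_type, Finset.sum_div]
        refine Finset.sum_congr rfl fun i _ => ?_
        simp only [hp]
        rw [← Finset.sum_mul]
        ring
      have f2 : ∑ j, q j * ‖y j‖ ^ 2 = (∑ ω : Fin n × Fin n, m ω * ‖y ω.2‖ ^ 2) / M := by
        rw [Fintype.sum_prod_type, Finset.sum_comm, Finset.sum_div]
        refine Finset.sum_congr rfl fun i _ => ?_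
        simp only [hq]
        rw [← Finset.sum_mul]
        ring
      rw [f1, f2, hM]
      rw [← hM]
      have f3 : M * (C / 2 * ((∑ ω : Fin n × Fin n, m ω * ‖x ω.1‖ ^ 2) / M +
          (∑ ω : Fin n × Fin n, m ω * ‖y ω.2‖ ^ 2) / M) - (∑ i, ∑ j, γ i j * x i * y j).re) =
          C / 2 * ((∑ ω : Fin n × Fin n, m ω * ‖x ω.1‖ ^ 2) +
          (∑ ω : Fin n × Fin n, m ω * ‖y ω.2‖ ^ 2)) - M * (∑ i, ∑ j, γ i j * x i * y j).re := by
        field_simp
      rw [f3, hM, Finset.sum_mul, ← Finset.sum_add_distrib, Finset.mul_sum, ← Finset.sum_sub_distrib]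
      exact Finset.sum_congr rfl fun ω _ => by ring
    rw [e3] at h3
    have h4 : 0 ≤ M * (C / 2 * (∑ i, p i * ‖x i‖ ^ 2 + ∑ j, q j * ‖y j‖ ^ 2) -
          (∑ i, ∑ j, γ i j * x i * y j).re) := hc0.trans h3
    have h5 := (mul_nonneg_iff_of_pos_left hM0).1 h4
    linarith
  have hpn : ∀ i, 0 ≤ p i := fun i => div_nonneg (Finset.sum_nonneg fun _ _ => hmn _) hM0.le
  have hqn : ∀ j, 0 ≤ q j := fun j => div_nonneg (Finset.sum_nonneg fun _ _ => hmn _) hM0.le
  refine ⟨p, q, hpn, hqn, hps.le, hqs.le, fun x y => ?_⟩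
  set P := ∑ i, p i * ‖x i‖ ^ 2 with hP
  set Q := ∑ j, q j * ‖y j‖ ^ 2 with hQ
  have hP0 : 0 ≤ P := Finset.sum_nonneg fun i _ => mul_nonneg (hpn i) (by positivity)
  have hQ0 : 0 ≤ Q := Finset.sum_nonneg fun i _ => mul_nonneg (hqn i) (by positivity)
  set Z := ∑ i, ∑ j, γ i j * x i * y j with hZ
  -- scaling and rotation
  have hsc : ∀ t : ℝ, 0 < t → ‖Z‖ ≤ C / 2 * (t ^ 2 * P + Q / t ^ 2) := by
    intro t ht
    obtain ⟨w, hw1, hw2⟩ : ∃ w : ℂ, ‖w‖ = 1 ∧ w * Z = (‖Z‖ : ℂ) := by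
      by_cases h0 : Z = 0
      · exact ⟨1, by simp, by simp [h0]⟩
      · have hz : (‖Z‖ : ℂ) ≠ 0 := by
          exact_mod_cast (norm_ne_zero_iff.2 h0)
        refine ⟨(‖Z‖ : ℂ) / Z, ?_, by field_simp⟩
        rw [norm_div, Complex.norm_real, norm_norm]
        exact div_self (norm_ne_zero_iff.2 h0)
    have h3 := key (fun i => (t : ℂ) * w * x i) (fun j => (t : ℂ)⁻¹ * y j)
    have htc : (t : ℂ) ≠ 0 := by exact_mod_cast ht.ne'
    have e1 : ∑ i, ∑ j, γ i j * ((t : ℂ) * w * x i) * ((t : ℂ)⁻¹ * y j) = w * Z := by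
      rw [hZ, Finset.mul_sum]
      refine Finset.sum_congr rfl fun i _ => ?_
      rw [Finset.mul_sum]
      refine Finset.sum_congr rfl fun j _ => ?_
      field_simp
    have e2 : ∑ i, p i * ‖(t : ℂ) * w * x i‖ ^ 2 = t ^ 2 * P := by
      rw [hP, Finset.mul_sum]
      refine Finset.sum_congr rfl fun i _ => ?_
      rw [norm_mul, norm_mul, hw1, Complex.norm_real, Real.norm_of_nonneg ht.le]
      ring
    have e3 : ∑ j, q j * ‖(t : ℂ)⁻¹ * y j‖ ^ 2 = Q / t ^ 2 := by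
      rw [hQ, Finset.sum_div]
      refine Finset.sum_congr rfl fun i _ => ?_
      rw [norm_mul, norm_inv, Complex.norm_real, Real.norm_of_nonneg ht.le]
      field_simp
    rw [e1, e2, e3, hw2, Complex.ofReal_re] at h3
    exact h3
  -- optimisation
  have hopt : ∀ ε : ℝ, 0 < ε → ‖Z‖ ≤ C * Real.sqrt (P + ε) * Real.sqrt (Q + ε) := by
    intro ε hε
    set a := Real.sqrt (P + ε) with ha
    set b := Real.sqrt (Q + ε) with hb
    have ha0 : 0 < a := Real.sqrt_pos.2 (by positivity)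
    have hb0 : 0 < b := Real.sqrt_pos.2 (by positivity)
    have ha2 : a ^ 2 = P + ε := Real.sq_sqrt (by positivity)
    have hb2 : b ^ 2 = Q + ε := Real.sq_sqrt (by positivity)
    have h3 := hsc (Real.sqrt (b / a)) (Real.sqrt_pos.2 (by positivity))
    rw [Real.sq_sqrt (by positivity)] at h3
    refine h3.trans ?_
    have h4 : b / a * P ≤ a * b := by
      rw [div_mul_eq_mul_div, div_le_iff₀ ha0]
      nlinarith
    have h5 : Q / (b / a) ≤ a * b := by
      rw [div_div_eq_mul_div, div_le_iff₀ hb0]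
      nlinarith
    calc C / 2 * (b / a * P + Q / (b / a)) ≤ C / 2 * (a * b + a * b) := by gcongr
      _ = C * a * b := by ring
  have hlim : Filter.Tendsto (fun ε : ℝ => C * Real.sqrt (P + ε) * Real.sqrt (Q + ε))
      (nhdsWithin 0 (Set.Ioi 0)) (nhds (C * Real.sqrt (P + 0) * Real.sqrt (Q + 0))) := by
    have : Continuous fun ε : ℝ => C * Real.sqrt (P + ε) * Real.sqrt (Q + ε) := by fun_prop
    exact this.continuousWithinAt
  rw [add_zero, add_zero] at hlim
  refine ge_of_tendsto hlim ?_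
  filter_upwards [self_mem_nhdsWithin] with ε hε
  exact hopt ε hε

/-- The tensor product estimate. -/
lemma Dom.tensor {N : ℕ} {γ : Fin n → Fin n → ℂ} {δ : Fin N → Fin N → ℂ} {C D : ℝ}
    {p q : Fin n → ℝ} {p' q' : Fin N → ℝ} (hC : 0 ≤ C) (hD : 0 ≤ D) (h1 : Dom γ C p q)
    (h2 : Dom δ D p' q')
    (X : Fin n → Fin N → ℂ) (Y : Fin n → Fin N → ℂ) (hX : ∀ a i, ‖X a i‖ ≤ 1)
    (hY : ∀ b j, ‖Y b j‖ ≤ 1) :
    ‖∑ a, ∑ b, ∑ i, ∑ j, γ a b * δ i j * X a i * Y b j‖ ≤ C * D := by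
  obtain ⟨hp, hq, hps, hqs, hdom⟩ := h1
  obtain ⟨hp', hq', hps', hqs', hdom'⟩ := h2
  set Z : Fin n → Fin N → ℂ := fun b i => ∑ a, γ a b * X a i with hZ
  -- bound of the columns of Z
  have hZb : ∀ i, ∑ b, ‖Z b i‖ ^ 2 / q b ≤ C ^ 2 := by
    intro i
    set S := ∑ b, ‖Z b i‖ ^ 2 / q b with hS
    have hS0 : 0 ≤ S := Finset.sum_nonneg fun b _ => div_nonneg (by positivity) (hq b)
    have h3 := hdom (fun a => X a i) (fun b => conj (Z b i) / (q b : ℂ))
    have e1 : ∑ a, ∑ b, γ a b * X a i * (conj (Z b i) / (q b : ℂ)) = (S : ℂ) := by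
      rw [Finset.sum_comm, hS, Complex.ofReal_sum]
      refine Finset.sum_congr rfl fun b _ => ?_
      rw [← Finset.sum_mul]
      have : ∑ a, γ a b * X a i = Z b i := rfl
      rw [this, mul_div_assoc', Complex.mul_conj, Complex.normSq_eq_norm_sq]
      push_cast
      rfl
    have e2 : ∑ b, q b * ‖conj (Z b i) / (q b : ℂ)‖ ^ 2 = S := by
      rw [hS]
      refine Finset.sum_congr rfl fun b _ => ?_
      rw [norm_div, RCLike.norm_conj, Complex.norm_real, Real.norm_of_nonneg (hq b)]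
      by_cases h0 : q b = 0
      · simp [h0]
      · field_simp
    have e3 : ∑ a, p a * ‖X a i‖ ^ 2 ≤ 1 := by
      refine le_trans (Finset.sum_le_sum fun a _ => ?_) hps
      calc p a * ‖X a i‖ ^ 2 ≤ p a * 1 := by
            have := hX a i
            have h4 : ‖X a i‖ ^ 2 ≤ 1 := pow_le_one₀ (norm_nonneg _) this
            exact mul_le_mul_of_nonneg_left h4 (hp a)
        _ = p a := mul_one _
    rw [e1, e2, Complex.norm_real, Real.norm_of_nonneg hS0] at h3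
    have e4 : Real.sqrt (∑ a, p a * ‖X a i‖ ^ 2) ≤ 1 := by
      rw [Real.sqrt_le_iff]; exact ⟨zero_le_one, by rw [one_pow]; exact e3⟩
    have h5 : S ≤ C * Real.sqrt S := by
      calc S ≤ C * Real.sqrt (∑ a, p a * ‖X a i‖ ^ 2) * Real.sqrt S := h3
        _ ≤ C * 1 * Real.sqrt S := by gcongr
        _ = _ := by ring
    have h6 := Real.sq_sqrt hS0
    have h7 := Real.sqrt_nonneg S
    rcases h7.eq_or_lt with h8 | h8
    · rw [← h8] at h6
      nlinarith
    · have h9 : Real.sqrt S ≤ C := by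
        by_contra hcon
        rw [not_le] at hcon
        nlinarith
      nlinarith
  -- columns with `q b = 0` vanish
  have hZ0 : ∀ b, q b = 0 → ∀ i, Z b i = 0 := by
    intro b hb i
    have h3 := hdom (fun a => X a i) (Pi.single b 1)
    have e1 : ∑ a, ∑ b', γ a b' * X a i * (Pi.single b (1 : ℂ) : Fin n → ℂ) b' = Z b i := by
      simp only [hZ]
      refine Finset.sum_congr rfl fun a _ => ?_
      rw [Finset.sum_eq_single b]
      · simp
      · intro b' _ hb'; simp [hb']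
      · intro h; exact absurd (Finset.mem_univ b) h
    have e2 : ∑ b', q b' * ‖(Pi.single b (1 : ℂ) : Fin n → ℂ) b'‖ ^ 2 = 0 := by
      refine Finset.sum_eq_zero fun b' _ => ?_
      by_cases hbb : b' = b
      · subst hbb; rw [hb, zero_mul]
      · simp [hbb]
    rw [e1, e2, Real.sqrt_zero, mul_zero] at h3
    exact norm_le_zero_iff.1 h3
  -- rewrite the sum
  have e0 : ∑ a, ∑ b, ∑ i, ∑ j, γ a b * δ i j * X a i * Y b j =
      ∑ b, ∑ i, ∑ j, δ i j * Z b i * Y b j := by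
    rw [Finset.sum_comm]
    refine Finset.sum_congr rfl fun b _ => ?_
    rw [Finset.sum_comm]
    refine Finset.sum_congr rfl fun i _ => ?_
    rw [Finset.sum_comm]
    refine Finset.sum_congr rfl fun j _ => ?_
    simp only [hZ]
    rw [Finset.mul_sum, Finset.sum_mul]
    exact Finset.sum_congr rfl fun a _ => by ring
  rw [e0]
  set F : Fin n → ℝ := fun b => ∑ i, p' i * ‖Z b i‖ ^ 2 with hF
  have hF0 : ∀ b, 0 ≤ F b := fun b => Finset.sum_nonneg fun i _ => mul_nonneg (hp' i) (by positivity)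
  have hb : ∀ b, ‖∑ i, ∑ j, δ i j * Z b i * Y b j‖ ≤ D * Real.sqrt (F b) := by
    intro b
    refine (hdom' (Z b) (Y b)).trans ?_
    have h3 : Real.sqrt (∑ j, q' j * ‖Y b j‖ ^ 2) ≤ 1 := by
      rw [Real.sqrt_le_iff, one_pow]
      refine ⟨zero_le_one, le_trans (Finset.sum_le_sum fun j _ => ?_) hqs'⟩
      calc q' j * ‖Y b j‖ ^ 2 ≤ q' j * 1 :=
            mul_le_mul_of_nonneg_left (pow_le_one₀ (norm_nonneg _) (hY b j)) (hq' j)
        _ = q' j := mul_one _
    calc D * Real.sqrt (F b) * Real.sqrt (∑ j, q' j * ‖Y b j‖ ^ 2) ≤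
          D * Real.sqrt (F b) * 1 := by gcongr
      _ = _ := mul_one _
  have hFs : ∑ b, F b / q b ≤ C ^ 2 := by
    have e1 : ∑ b, F b / q b = ∑ i, p' i * ∑ b, ‖Z b i‖ ^ 2 / q b := by
      simp only [hF, Finset.sum_div]
      rw [Finset.sum_comm]
      refine Finset.sum_congr rfl fun i _ => ?_
      rw [Finset.mul_sum]
      exact Finset.sum_congr rfl fun b _ => by ring
    rw [e1]
    calc ∑ i, p' i * ∑ b, ‖Z b i‖ ^ 2 / q b ≤ ∑ i, p' i * C ^ 2 :=
          Finset.sum_le_sum fun i _ => mul_le_mul_of_nonneg_left (hZb i) (hp' i)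
      _ = (∑ i, p' i) * C ^ 2 := by rw [Finset.sum_mul]
      _ ≤ 1 * C ^ 2 := by gcongr
      _ = C ^ 2 := one_mul _
  have hFs' : ∑ b, Real.sqrt (F b) ≤ C := by
    have h3 : ∀ b, Real.sqrt (F b) = Real.sqrt (F b / q b) * Real.sqrt (q b) := by
      intro b
      by_cases h0 : q b = 0
      · have : F b = 0 := by
          simp only [hF]
          refine Finset.sum_eq_zero fun i _ => ?_
          rw [hZ0 b h0 i]; simp
        rw [this, h0]; simp
      · rw [← Real.sqrt_mul (div_nonneg (hF0 b) (hq b)), div_mul_cancel₀ _ h0]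
    calc ∑ b, Real.sqrt (F b) = ∑ b, Real.sqrt (F b / q b) * Real.sqrt (q b) :=
          Finset.sum_congr rfl fun b _ => h3 b
      _ ≤ Real.sqrt (∑ b, F b / q b) * Real.sqrt (∑ b, q b) := by
          have := Real.sum_mul_le_sqrt_mul_sqrt Finset.univ
            (fun b => Real.sqrt (F b / q b)) (fun b => Real.sqrt (q b))
          simp only [Real.sq_sqrt (div_nonneg (hF0 _) (hq _)), Real.sq_sqrt (hq _)] at this
          exact this
      _ ≤ C * 1 := by
          gcongr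
          · rw [Real.sqrt_le_left hC]; exact hFs
          · rw [Real.sqrt_le_iff, one_pow]; exact ⟨zero_le_one, hqs⟩
      _ = C := mul_one _
  calc ‖∑ b, ∑ i, ∑ j, δ i j * Z b i * Y b j‖ ≤ ∑ b, ‖∑ i, ∑ j, δ i j * Z b i * Y b j‖ :=
        norm_sum_le _ _
    _ ≤ ∑ b, D * Real.sqrt (F b) := Finset.sum_le_sum fun b _ => hb b
    _ = D * ∑ b, Real.sqrt (F b) := by rw [Finset.mul_sum]
    _ ≤ D * C := by gcongr
    _ = C * D := mul_comm _ _

/-- Tensor products of bounded bilinear forms. -/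
lemma SB.tensor {N : ℕ} {γ : Fin n → Fin n → ℂ} {δ : Fin N → Fin N → ℂ} {B D : ℝ}
    (h1 : SB γ B) (h2 : SB δ D)
    (X : Fin n → Fin N → ℂ) (Y : Fin n → Fin N → ℂ) (hX : ∀ a i, ‖X a i‖ ≤ 1)
    (hY : ∀ b j, ‖Y b j‖ ≤ 1) :
    ‖∑ a, ∑ b, ∑ i, ∑ j, γ a b * δ i j * X a i * Y b j‖ ≤ K ^ 2 * B * D := by
  obtain ⟨p, q, hd⟩ := h1.hb.dom
  obtain ⟨p', q', hd'⟩ := h2.hb.dom
  refine (Dom.tensor h1.hb.nonneg h2.hb.nonneg hd hd' X Y hX hY).trans (le_of_eq ?_)
  ring

end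

end Pool.Agent.L5helper77.Inj
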