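import Pool.Agent.L5helper77.Inj1
import Pool.Agent.Results.MP_20ef18_an.OpAlg

/-!
The convolution of matrices in the injective tensor product and the algebra `𝓛`.
-/

set_option autoImplicit false

namespace Pool.Agent.L5helper77.Inj

open Finset
open scoped ComplexConjugate
open Pool.Agent.Results.MP_20ef18_an.OpAlg

noncomputable section

lemma sb_of_injBound {γ : ℕ → ℕ → ℂ} {B : ℝ} (h : InjBound γ B) (M : ℕ) :
    SB (fun i j : Fin M => γ i j) B := by
  intro x y hx hy
  have h1 := h (fun m => if hm : m < M then x ⟨m, hm⟩ else 0)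
    (fun m => if hm : m < M then y ⟨m, hm⟩ else 0)
    (fun m => by split_ifs with hm; exacts [hx _, by simp])
    (fun m => by split_ifs with hm; exacts [hy _, by simp]) M
  rw [Finset.sum_range] at h1
  simp only [Finset.sum_range, Fin.is_lt, dite_true, Fin.eta] at h1
  exact h1

/-- convolution of matrices -/
def conv (γ δ : ℕ → ℕ → ℂ) (m k : ℕ) : ℂ :=
  ∑ p ∈ antidiagonal m, ∑ r ∈ antidiagonal k, γ p.1 r.1 * δ p.2 r.2

lemma conv_bound {γ δ : ℕ → ℕ → ℂ} {B D : ℝ} (h1 : InjBound γ B) (h2 : InjBound δ D) :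
    InjBound (conv γ δ) (K ^ 2 * B * D) := by
  intro x y hx hy M
  set X : ℕ → ℕ → ℂ := fun a i => if a + i < M then x (a + i) else 0 with hX
  set Y : ℕ → ℕ → ℂ := fun a i => if a + i < M then y (a + i) else 0 with hY
  have hX1 : ∀ a i, ‖X a i‖ ≤ 1 := fun a i => by
    simp only [hX]; split_ifs; exacts [hx _, by simp]
  have hY1 : ∀ a i, ‖Y a i‖ ≤ 1 := fun a i => by
    simp only [hY]; split_ifs; exacts [hy _, by simp]
  have hX0 : ∀ a i, M ≤ a + i → X a i = 0 := fun a i h => by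
    simp only [hX]; rw [if_neg (not_lt.2 h)]
  have hY0 : ∀ a i, M ≤ a + i → Y a i = 0 := fun a i h => by
    simp only [hY]; rw [if_neg (not_lt.2 h)]
  have e1 : ∑ m ∈ range M, ∑ k ∈ range M, conv γ δ m k * x m * y k =
      ∑ m ∈ range M, ∑ p ∈ antidiagonal m, ∑ k ∈ range M, ∑ r ∈ antidiagonal k,
        γ p.1 r.1 * δ p.2 r.2 * X p.1 p.2 * Y r.1 r.2 := by
    refine Finset.sum_congr rfl fun m hm => ?_
    rw [Finset.sum_comm]
    refine Finset.sum_congr rfl fun k hk => ?_
    unfold conv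
    rw [Finset.sum_mul, Finset.sum_mul]
    refine Finset.sum_congr rfl fun p hp => ?_
    rw [Finset.sum_mul, Finset.sum_mul]
    refine Finset.sum_congr rfl fun r hr => ?_
    rw [HasAntidiagonal.mem_antidiagonal] at hp hr
    rw [mem_range] at hm hk
    simp only [hX, hY]
    rw [hp, hr, if_pos hm, if_pos hk]
  have e2 : ∀ a i, ∑ k ∈ range M, ∑ r ∈ antidiagonal k,
      γ a r.1 * δ i r.2 * X a i * Y r.1 r.2 =
      ∑ j ∈ range M, ∑ b ∈ range M, γ a b * δ i j * X a i * Y b j := fun a i =>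
    antidiag_sum (fun b j => γ a b * δ i j * X a i * Y b j) M
      (fun b j hbj => by rw [hY0 b j hbj, mul_zero])
  have e3 : ∑ m ∈ range M, ∑ p ∈ antidiagonal m, ∑ k ∈ range M, ∑ r ∈ antidiagonal k,
        γ p.1 r.1 * δ p.2 r.2 * X p.1 p.2 * Y r.1 r.2 =
      ∑ i ∈ range M, ∑ a ∈ range M, ∑ j ∈ range M, ∑ b ∈ range M,
        γ a b * δ i j * X a i * Y b j := by
    rw [antidiag_sum (fun a i => ∑ k ∈ range M, ∑ r ∈ antidiagonal k,
      γ a r.1 * δ i r.2 * X a i * Y r.1 r.2) M (fun a i hai => by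
        simp only [hX0 a i hai, mul_zero, zero_mul, Finset.sum_const_zero])]
    simp only [e2]
  rw [e1, e3]
  have h3 := SB.tensor (sb_of_injBound h1 M) (sb_of_injBound h2 M)
    (fun a i : Fin M => X a i) (fun a i : Fin M => Y a i) (fun a i => hX1 _ _) (fun a i => hY1 _ _)
  simp only [Finset.sum_range]
  refine le_trans (le_of_eq ?_) h3
  congr 1
  rw [Finset.sum_comm]
  refine Finset.sum_congr rfl fun a _ => ?_
  have h4 : ∀ i : Fin M, ∑ j : Fin M, ∑ b : Fin M, γ a b * δ i j * X a i * Y b j =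
      ∑ b : Fin M, ∑ j : Fin M, γ a b * δ i j * X a i * Y b j := fun i => Finset.sum_comm
  simp only [h4]
  rw [Finset.sum_comm]

end

end Pool.Agent.L5helper77.Inj
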