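import Pool.Agent.L5helper77.Inj2

/-!
The algebra `𝓛` is closed under products, with a norm estimate; it is complete.
-/

set_option autoImplicit false

namespace Pool.Agent.L5helper77.Inj

open Finset
open scoped ComplexConjugate
open Pool.Agent.Results.MP_20ef18_an.OpAlg

noncomputable section

lemma InjBound.mono {γ : ℕ → ℕ → ℂ} {B C : ℝ} (h : InjBound γ B) (hBC : B ≤ C) : InjBound γ C :=
  fun x y hx hy M => (h x y hx hy M).trans hBC

lemma InjBound.congr {γ δ : ℕ → ℕ → ℂ} {B : ℝ} (h : InjBound γ B) (e : ∀ m k, γ m k = δ m k) :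
    InjBound δ B := by
  have : γ = δ := funext fun m => funext fun k => e m k
  rwa [← this]

lemma InjBound.sub {γ γ' : ℕ → ℕ → ℂ} {B B' : ℝ} (h : InjBound γ B) (h' : InjBound γ' B') :
    InjBound (fun m k => γ m k - γ' m k) (B + B') := by
  have h2 := h.add (h'.smul (-1))
  simp only [norm_neg, norm_one, one_mul] at h2
  exact InjBound.congr h2 fun m k => by ring

lemma conv_sub_left (γ γ' δ : ℕ → ℕ → ℂ) (m k : ℕ) :
    conv (fun m k => γ m k - γ' m k) δ m k = conv γ δ m k - conv γ' δ m k := by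
  unfold conv
  rw [← Finset.sum_sub_distrib]
  refine Finset.sum_congr rfl fun p _ => ?_
  rw [← Finset.sum_sub_distrib]
  exact Finset.sum_congr rfl fun r _ => by ring

lemma conv_sub_right (γ δ δ' : ℕ → ℕ → ℂ) (m k : ℕ) :
    conv γ (fun m k => δ m k - δ' m k) m k = conv γ δ m k - conv γ δ' m k := by
  unfold conv
  rw [← Finset.sum_sub_distrib]
  refine Finset.sum_congr rfl fun p _ => ?_
  rw [← Finset.sum_sub_distrib]
  exact Finset.sum_congr rfl fun r _ => by ring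

lemma conv_finite {γ δ : ℕ → ℕ → ℂ} (h1 : ∃ M, ∀ m k, M ≤ m ∨ M ≤ k → γ m k = 0)
    (h2 : ∃ M, ∀ m k, M ≤ m ∨ M ≤ k → δ m k = 0) :
    ∃ M, ∀ m k, M ≤ m ∨ M ≤ k → conv γ δ m k = 0 := by
  obtain ⟨M, hM⟩ := h1
  obtain ⟨N, hN⟩ := h2
  refine ⟨M + N, fun m k hmk => ?_⟩
  unfold conv
  refine Finset.sum_eq_zero fun p hp => Finset.sum_eq_zero fun r hr => ?_
  rw [HasAntidiagonal.mem_antidiagonal] at hp hr
  by_cases h : M ≤ p.1 ∨ M ≤ r.1
  · rw [hM _ _ h, zero_mul]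
  · rw [hN _ _ (by omega), mul_zero]

lemma K_sq_pos : 0 < K ^ 2 := pow_pos K_pos 2

lemma conv_inInjective {γ δ : ℕ → ℕ → ℂ} {B D : ℝ} (h1 : InjBound γ B) (h2 : InjBound δ D)
    (h3 : InInjective γ) (h4 : InInjective δ) : InInjective (conv γ δ) := by
  intro ε hε
  have hB := h1.nonneg
  have hD := h2.nonneg
  set C : ℝ := K ^ 2 * (B + D + 1) with hC
  have hC0 : 0 < C := mul_pos K_sq_pos (by linarith)
  set η : ℝ := min 1 (ε / C) with hη
  have hη0 : 0 < η := lt_min one_pos (div_pos hε hC0)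
  have hη1 : η ≤ 1 := min_le_left _ _
  have hη2 : η * C ≤ ε := by
    have : η ≤ ε / C := min_le_right _ _
    rwa [le_div_iff₀ hC0] at this
  obtain ⟨γ', hγf, hγ⟩ := h3 η hη0
  obtain ⟨δ', hδf, hδ⟩ := h4 η hη0
  have hγ' : InjBound γ' (B + η) := InjBound.congr (InjBound.sub h1 hγ) fun m k => by ring
  refine ⟨conv γ' δ', conv_finite hγf hδf, ?_⟩
  have h5 := (conv_bound hγ h2).add (conv_bound hγ' hδ)
  refine InjBound.congr (InjBound.mono h5 ?_) fun m k => ?_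
  · calc K ^ 2 * η * D + K ^ 2 * (B + η) * η = η * (K ^ 2 * (B + D + η)) := by ring
      _ ≤ η * C := by
        rw [hC]
        have := K_sq_pos.le
        gcongr
      _ ≤ ε := hη2
  · rw [conv_sub_left, conv_sub_right]; ring

lemma conv_represents {γ δ : ℕ → ℕ → ℂ} {φ ψ : PowerSeries ℂ} (h1 : Represents γ φ)
    (h2 : Represents δ ψ) : Represents (conv γ δ) (φ * ψ) := by
  intro n
  rw [PowerSeries.coeff_mul]
  have e1 : ∑ p ∈ antidiagonal n, conv γ δ p.1 p.2 =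
      ∑ x ∈ antidiagonal n, ∑ q ∈ antidiagonal x.1 ×ˢ antidiagonal x.2,
        γ q.1.1 q.2.1 * δ q.1.2 q.2.2 := by
    refine Finset.sum_congr rfl fun x _ => ?_
    unfold conv
    rw [Finset.sum_product]
  have e2 : ∑ x ∈ antidiagonal n, PowerSeries.coeff x.1 φ * PowerSeries.coeff x.2 ψ =
      ∑ x ∈ antidiagonal n, ∑ q ∈ antidiagonal x.1 ×ˢ antidiagonal x.2,
        γ q.1.1 q.1.2 * δ q.2.1 q.2.2 := by
    refine Finset.sum_congr rfl fun x _ => ?_
    rw [← h1 x.1, ← h2 x.2, Finset.sum_mul_sum, Finset.sum_product]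
  rw [e1, e2, Finset.sum_sigma', Finset.sum_sigma']
  refine Finset.sum_bij'
    (fun (z : (_ : ℕ × ℕ) × ((ℕ × ℕ) × (ℕ × ℕ))) _ =>
      (⟨(z.2.1.1 + z.2.2.1, z.2.1.2 + z.2.2.2), ((z.2.1.1, z.2.2.1), (z.2.1.2, z.2.2.2))⟩ :
        (_ : ℕ × ℕ) × ((ℕ × ℕ) × (ℕ × ℕ))))
    (fun (z : (_ : ℕ × ℕ) × ((ℕ × ℕ) × (ℕ × ℕ))) _ =>
      (⟨(z.2.1.1 + z.2.2.1, z.2.1.2 + z.2.2.2), ((z.2.1.1, z.2.2.1), (z.2.1.2, z.2.2.2))⟩ :
        (_ : ℕ × ℕ) × ((ℕ × ℕ) × (ℕ × ℕ)))) ?_ ?_ ?_ ?_ ?_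
  · rintro ⟨⟨m, k⟩, ⟨⟨a, c⟩, ⟨b, d⟩⟩⟩ h
    simp only [mem_sigma, HasAntidiagonal.mem_antidiagonal, mem_product] at h ⊢
    obtain ⟨h1, h2, h3⟩ := h
    subst h2 h3
    exact ⟨by omega, trivial, trivial⟩
  · rintro ⟨⟨m, k⟩, ⟨⟨a, c⟩, ⟨b, d⟩⟩⟩ h
    simp only [mem_sigma, HasAntidiagonal.mem_antidiagonal, mem_product] at h ⊢
    obtain ⟨h1, h2, h3⟩ := h
    subst h2 h3
    exact ⟨by omega, trivial, trivial⟩
  · rintro ⟨⟨m, k⟩, ⟨⟨a, c⟩, ⟨b, d⟩⟩⟩ h
    simp only [mem_sigma, HasAntidiagonal.mem_antidiagonal, mem_product] at h ⊢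
    obtain ⟨h1, h2, h3⟩ := h
    subst h2 h3
    rfl
  · rintro ⟨⟨m, k⟩, ⟨⟨a, c⟩, ⟨b, d⟩⟩⟩ h
    simp only [mem_sigma, HasAntidiagonal.mem_antidiagonal, mem_product] at h ⊢
    obtain ⟨h1, h2, h3⟩ := h
    subst h2 h3
    rfl
  · rintro ⟨⟨m, k⟩, ⟨⟨a, c⟩, ⟨b, d⟩⟩⟩ h
    rfl

/-- the norms of the representing matrices -/
def normSet (φ : PowerSeries ℂ) : Set ℝ := {B | ∃ γ, InInjective γ ∧ InjBound γ B ∧ Represents γ φ}

lemma normSet_bdd (φ : PowerSeries ℂ) : BddBelow (normSet φ) := by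
  refine ⟨0, ?_⟩
  rintro s ⟨γ, _, h, _⟩
  exact h.nonneg

lemma normSet_nonempty {φ : PowerSeries ℂ} (h : φ ∈ spaceL) : (normSet φ).Nonempty := by
  obtain ⟨γ, B, h1, h2, h3⟩ := h
  exact ⟨B, γ, h1, h2, h3⟩

lemma normL_le {φ : PowerSeries ℂ} {γ : ℕ → ℕ → ℂ} {B : ℝ} (h1 : InInjective γ)
    (h2 : InjBound γ B) (h3 : Represents γ φ) : normL φ ≤ B :=
  csInf_le (normSet_bdd φ) ⟨γ, h1, h2, h3⟩

lemma exists_of_lt {φ : PowerSeries ℂ} (h : φ ∈ spaceL) {s : ℝ} (hs : normL φ < s) :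
    ∃ γ, InInjective γ ∧ InjBound γ s ∧ Represents γ φ := by
  obtain ⟨B, ⟨γ, h1, h2, h3⟩, hB⟩ := exists_lt_of_csInf_lt (normSet_nonempty h) hs
  exact ⟨γ, h1, InjBound.mono h2 hB.le, h3⟩

theorem mul_mem {φ ψ : PowerSeries ℂ} (hφ : φ ∈ spaceL) (hψ : ψ ∈ spaceL) : φ * ψ ∈ spaceL := by
  obtain ⟨γ, B, h1, h2, h3⟩ := hφ
  obtain ⟨δ, D, h1', h2', h3'⟩ := hψ
  exact ⟨conv γ δ, _, conv_inInjective h2 h2' h1 h1', conv_bound h2 h2', conv_represents h3 h3'⟩

theorem normL_mul_le {φ ψ : PowerSeries ℂ} (hφ : φ ∈ spaceL) (hψ : ψ ∈ spaceL) :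
    normL (φ * ψ) ≤ K ^ 2 * normL φ * normL ψ := by
  have key : ∀ ε : ℝ, 0 < ε → normL (φ * ψ) ≤ K ^ 2 * (normL φ + ε) * (normL ψ + ε) := by
    intro ε hε
    obtain ⟨γ, h1, h2, h3⟩ := exists_of_lt hφ (lt_add_of_pos_right _ hε)
    obtain ⟨δ, h1', h2', h3'⟩ := exists_of_lt hψ (lt_add_of_pos_right _ hε)
    exact normL_le (conv_inInjective h2 h2' h1 h1') (conv_bound h2 h2') (conv_represents h3 h3')
  have hlim : Filter.Tendsto (fun ε : ℝ => K ^ 2 * (normL φ + ε) * (normL ψ + ε))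
      (nhdsWithin 0 (Set.Ioi 0)) (nhds (K ^ 2 * (normL φ + 0) * (normL ψ + 0))) := by
    have hc : Continuous (fun ε : ℝ => K ^ 2 * (normL φ + ε) * (normL ψ + ε)) := by fun_prop
    exact (hc.tendsto 0).mono_left nhdsWithin_le_nhds
  rw [add_zero, add_zero] at hlim
  refine ge_of_tendsto hlim ?_
  filter_upwards [self_mem_nhdsWithin] with ε hε
  exact key ε hε

theorem one_mem : (1 : PowerSeries ℂ) ∈ spaceL := by
  obtain ⟨γ, h⟩ := pow_mem_L 0
  rw [pow_zero] at h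
  exact ⟨γ, 1, h⟩

/-- entries of a bounded matrix -/
lemma entry_le {γ : ℕ → ℕ → ℂ} {B : ℝ} (h : InjBound γ B) (m k : ℕ) : ‖γ m k‖ ≤ B := by
  have h1 := h (fun i => if i = m then 1 else 0) (fun i => if i = k then 1 else 0)
    (fun i => by split_ifs <;> simp) (fun i => by split_ifs <;> simp) (max m k + 1)
  have h2 : ∑ i ∈ range (max m k + 1), ∑ j ∈ range (max m k + 1),
      γ i j * (if i = m then 1 else 0) * (if j = k then 1 else 0) = γ m k := by
    simp only [mul_ite, mul_one, mul_zero]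
    rw [Finset.sum_eq_single m]
    · rw [Finset.sum_eq_single k]
      · simp
      · intro j _ hj; simp [hj]
      · intro hk; exact absurd (mem_range.2 (by omega)) hk
    · intro i _ hi
      simp [hi]
    · intro hm; exact absurd (mem_range.2 (by omega)) hm
  rw [h2] at h1
  exact h1

lemma coeff_le_of {γ : ℕ → ℕ → ℂ} {B : ℝ} {φ : PowerSeries ℂ} (h : InjBound γ B)
    (h2 : Represents γ φ) (n : ℕ) : ‖PowerSeries.coeff n φ‖ ≤ (n + 1) * B := by
  rw [← h2 n]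
  refine (norm_sum_le _ _).trans ?_
  refine (Finset.sum_le_sum fun p _ => entry_le h p.1 p.2).trans ?_
  rw [Finset.sum_const, Finset.Nat.card_antidiagonal, nsmul_eq_mul]
  push_cast
  exact le_refl _

lemma coeff_le {φ : PowerSeries ℂ} (hφ : φ ∈ spaceL) (n : ℕ) :
    ‖PowerSeries.coeff n φ‖ ≤ (n + 1) * normL φ := by
  have hn : (0 : ℝ) < n + 1 := by positivity
  rw [← div_le_iff₀' hn]
  refine le_csInf (normSet_nonempty hφ) ?_
  rintro B ⟨γ, _, h2, h3⟩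
  rw [div_le_iff₀' hn]
  exact coeff_le_of h2 h3 n

theorem eq_zero_of_normL {φ : PowerSeries ℂ} (hφ : φ ∈ spaceL) (h : normL φ = 0) : φ = 0 := by
  ext n
  have := coeff_le hφ n
  rw [h, mul_zero] at this
  simpa using this

lemma add_mem {φ ψ : PowerSeries ℂ} (hφ : φ ∈ spaceL) (hψ : ψ ∈ spaceL) : φ + ψ ∈ spaceL :=
  submoduleL.add_mem hφ hψ

lemma smul_mem {φ : PowerSeries ℂ} (c : ℂ) (hφ : φ ∈ spaceL) : c • φ ∈ spaceL :=
  submoduleL.smul_mem c hφ

lemma sub_mem {φ ψ : PowerSeries ℂ} (hφ : φ ∈ spaceL) (hψ : ψ ∈ spaceL) : φ - ψ ∈ spaceL :=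
  submoduleL.sub_mem hφ hψ

lemma sum_mem {φ : ℕ → PowerSeries ℂ} (hφ : ∀ n, φ n ∈ spaceL) (N : ℕ) :
    ∑ n ∈ range N, φ n ∈ spaceL :=
  submoduleL.sum_mem fun n _ => hφ n

theorem normL_add_le {φ ψ : PowerSeries ℂ} (hφ : φ ∈ spaceL) (hψ : ψ ∈ spaceL) :
    normL (φ + ψ) ≤ normL φ + normL ψ := by
  refine le_of_forall_pos_le_add fun ε hε => ?_
  obtain ⟨γ, h1, h2, h3⟩ := exists_of_lt hφ (lt_add_of_pos_right _ (half_pos hε))
  obtain ⟨δ, h1', h2', h3'⟩ := exists_of_lt hψ (lt_add_of_pos_right _ (half_pos hε))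
  refine (normL_le (h1.add h1') (h2.add h2') (h3.add h3')).trans (le_of_eq ?_)
  ring

lemma normL_smul_le (c : ℂ) {φ : PowerSeries ℂ} (hφ : φ ∈ spaceL) :
    normL (c • φ) ≤ ‖c‖ * normL φ := by
  refine le_of_forall_pos_le_add fun ε hε => ?_
  have hc : 0 < ‖c‖ + 1 := by positivity
  obtain ⟨γ, h1, h2, h3⟩ := exists_of_lt hφ (lt_add_of_pos_right _ (div_pos hε hc))
  refine (normL_le (h1.smul c) (h2.smul c) (h3.smul c)).trans ?_
  rw [mul_add]
  have : ‖c‖ * (ε / (‖c‖ + 1)) ≤ ε := by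
    rw [mul_div_assoc', div_le_iff₀ hc]; nlinarith
  linarith

theorem normL_smul (c : ℂ) {φ : PowerSeries ℂ} (hφ : φ ∈ spaceL) :
    normL (c • φ) = ‖c‖ * normL φ := by
  refine le_antisymm (normL_smul_le c hφ) ?_
  rcases eq_or_ne c 0 with rfl | hc
  · simp only [norm_zero, zero_mul]; exact normL_nonneg _
  · have h1 := normL_smul_le c⁻¹ (smul_mem c hφ)
    rw [smul_smul, inv_mul_cancel₀ hc, one_smul, norm_inv] at h1
    have hc' : 0 < ‖c‖ := norm_pos_iff.2 hc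
    calc ‖c‖ * normL φ ≤ ‖c‖ * (‖c‖⁻¹ * normL (c • φ)) := by gcongr
      _ = normL (c • φ) := by field_simp

lemma normL_neg {φ : PowerSeries ℂ} (hφ : φ ∈ spaceL) : normL (-φ) = normL φ := by
  have := normL_smul (-1) hφ
  simpa using this

/-! ## completeness -/

lemma InInjective.congr {γ δ : ℕ → ℕ → ℂ} (h : InInjective γ) (e : ∀ m k, γ m k = δ m k) :
    InInjective δ := by
  have : γ = δ := funext fun m => funext fun k => e m k
  rwa [← this]

lemma InInjective.sum {γ : ℕ → ℕ → ℕ → ℂ} (h : ∀ n, InInjective (γ n)) (N : ℕ) :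
    InInjective (fun m k => ∑ n ∈ range N, γ n m k) := by
  induction N with
  | zero => simp only [range_zero, sum_empty]; exact InInjective.zero
  | succ N ih =>
    refine InInjective.congr (ih.add (h N)) fun m k => ?_
    rw [Finset.sum_range_succ]

lemma Represents.sum {γ : ℕ → ℕ → ℕ → ℂ} {φ : ℕ → PowerSeries ℂ}
    (h : ∀ n, Represents (γ n) (φ n)) (N : ℕ) :
    Represents (fun m k => ∑ n ∈ range N, γ n m k) (∑ n ∈ range N, φ n) := by
  induction N with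
  | zero => simp only [range_zero, sum_empty]; exact Represents.zero
  | succ N ih =>
    have h1 := ih.add (h N)
    rw [Finset.sum_range_succ]
    convert h1 using 4
    rw [Finset.sum_range_succ]

/-- a series of matrices with summable bounds -/
lemma tsum_bound {γ : ℕ → ℕ → ℕ → ℂ} {b : ℕ → ℝ} (h : ∀ n, InjBound (γ n) (b n))
    (hb : Summable b) : InjBound (fun m k => ∑' n, γ n m k) (∑' n, b n) := by
  have hb0 : ∀ n, 0 ≤ b n := fun n => (h n).nonneg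
  have hs : ∀ m k, Summable fun n => γ n m k := fun m k =>
    Summable.of_norm_bounded hb fun n => entry_le (h n) m k
  intro x y hx hy M
  have e : ∑ m ∈ range M, ∑ k ∈ range M, (∑' n, γ n m k) * x m * y k =
      ∑' n, ∑ m ∈ range M, ∑ k ∈ range M, γ n m k * x m * y k := by
    rw [Summable.tsum_finsetSum]
    · refine Finset.sum_congr rfl fun m _ => ?_
      rw [Summable.tsum_finsetSum]
      · refine Finset.sum_congr rfl fun k _ => ?_
        rw [tsum_mul_right, tsum_mul_right]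
      · intro k _
        exact ((hs m k).mul_right _).mul_right _
    · intro m _
      exact summable_sum fun k _ => ((hs m k).mul_right _).mul_right _
  rw [e]
  exact tsum_of_norm_bounded hb.hasSum fun n => h n x y hx hy M

lemma tsum_inInjective {γ : ℕ → ℕ → ℕ → ℂ} {b : ℕ → ℝ} (h : ∀ n, InjBound (γ n) (b n))
    (hb : Summable b) (h2 : ∀ n, InInjective (γ n)) : InInjective (fun m k => ∑' n, γ n m k) := by
  have hs : ∀ m k, Summable fun n => γ n m k := fun m k =>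
    Summable.of_norm_bounded hb fun n => entry_le (h n) m k
  intro ε hε
  have ht := (tendsto_sum_nat_add b)
  obtain ⟨N, hN⟩ := (ht.eventually (gt_mem_nhds (half_pos hε))).exists
  obtain ⟨δ, hδ1, hδ2⟩ := InInjective.sum h2 N (ε / 2) (half_pos hε)
  refine ⟨δ, hδ1, ?_⟩
  have h3 : InjBound (fun m k => ∑' n, γ (n + N) m k) (∑' n, b (n + N)) :=
    tsum_bound (fun n => h (n + N)) ((summable_nat_add_iff N).2 hb)
  refine InjBound.congr (InjBound.mono (h3.add hδ2) (by linarith)) fun m k => ?_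
  have h4 := (hs m k).sum_add_tsum_nat_add N
  simp only
  rw [← h4]
  ring

theorem series {φ : ℕ → PowerSeries ℂ} {b : ℕ → ℝ} (hφ : ∀ n, φ n ∈ spaceL)
    (h : ∀ n, normL (φ n) < b n) (hb : Summable b) :
    ∃ ψ ∈ spaceL, Filter.Tendsto (fun N => normL (ψ - ∑ n ∈ range N, φ n)) Filter.atTop
      (nhds 0) := by
  choose γ h1 h2 h3 using fun n => exists_of_lt (hφ n) (h n)
  set ψ : PowerSeries ℂ := PowerSeries.mk fun n => ∑ p ∈ antidiagonal n, ∑' l, γ l p.1 p.2 with hψ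
  have hr : Represents (fun m k => ∑' n, γ n m k) ψ := by
    intro n
    rw [hψ, PowerSeries.coeff_mk]
  have hs : ∀ m k, Summable fun n => γ n m k := fun m k =>
    Summable.of_norm_bounded hb fun n => entry_le (h2 n) m k
  refine ⟨ψ, ⟨_, _, tsum_inInjective h2 hb h1, tsum_bound h2 hb, hr⟩, ?_⟩
  have key : ∀ N, normL (ψ - ∑ n ∈ range N, φ n) ≤ ∑' n, b (n + N) := by
    intro N
    have hsum : ∀ m k, ∑' n, γ (n + N) m k = (∑' n, γ n m k) - ∑ n ∈ range N, γ n m k := by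
      intro m k
      rw [← (hs m k).sum_add_tsum_nat_add N]
      ring
    refine normL_le (tsum_inInjective (fun n => h2 (n + N)) ((summable_nat_add_iff N).2 hb)
      (fun n => h1 (n + N))) (tsum_bound (fun n => h2 (n + N)) ((summable_nat_add_iff N).2 hb)) ?_
    intro n
    simp only [hsum]
    rw [Finset.sum_sub_distrib, map_sub, hr n, (Represents.sum h3 N) n]
  exact squeeze_zero (fun N => normL_nonneg _) key (tendsto_sum_nat_add b)

theorem complete {f : ℕ → PowerSeries ℂ} (hf : ∀ n, f n ∈ spaceL)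
    (hc : ∀ ε > 0, ∃ N, ∀ m ≥ N, ∀ n ≥ N, normL (f m - f n) < ε) :
    ∃ g ∈ spaceL, Filter.Tendsto (fun n => normL (f n - g)) Filter.atTop (nhds 0) := by
  choose N hN using fun k : ℕ => hc ((1 / 2) ^ k) (by positivity)
  set u : ℕ → ℕ := fun k => k + ∑ i ∈ range (k + 1), N i with hu
  have hu0 : ∀ k, k ≤ u k := fun k => Nat.le_add_right _ _
  have hu1 : ∀ k, N k ≤ u k := fun k => by
    rw [hu]
    simp only
    rw [Finset.sum_range_succ]
    omega
  have hu2 : ∀ k, u k ≤ u (k + 1) := fun k => by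
    rw [hu]
    simp only
    rw [Finset.sum_range_succ (n := k + 1)]
    omega
  have h1 : ∀ k, normL (f (u (k + 1)) - f (u k)) < (1 / 2) ^ k := fun k =>
    hN k _ ((hu1 k).trans (hu2 k)) _ (hu1 k)
  obtain ⟨ψ, hψ, hlim⟩ := series (φ := fun k => f (u (k + 1)) - f (u k)) (b := fun k => (1 / 2) ^ k)
    (fun k => sub_mem (hf _) (hf _)) h1 (summable_geometric_of_lt_one (by norm_num) (by norm_num))
  refine ⟨ψ + f (u 0), add_mem hψ (hf _), ?_⟩
  have h2 : ∀ n, ∑ k ∈ range n, (f (u (k + 1)) - f (u k)) = f (u n) - f (u 0) := fun n =>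
    Finset.sum_range_sub (fun k => f (u k)) n
  simp only [h2] at hlim
  rw [Metric.tendsto_atTop]
  intro ε hε
  obtain ⟨N1, hN1⟩ := hc (ε / 2) (half_pos hε)
  obtain ⟨N2, hN2⟩ := (Metric.tendsto_atTop.1 hlim) (ε / 2) (half_pos hε)
  refine ⟨N1, fun n hn => ?_⟩
  set k := max N1 N2 with hk
  rw [Real.dist_eq, sub_zero, abs_of_nonneg (normL_nonneg _)]
  have h3 := hN2 k (le_max_right _ _)
  rw [Real.dist_eq, sub_zero, abs_of_nonneg (normL_nonneg _)] at h3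
  have h4 := hN1 n hn (u k) ((le_max_left N1 N2).trans (hu0 k))
  have h5 : f n - (ψ + f (u 0)) = (f n - f (u k)) + -(ψ - (f (u k) - f (u 0))) := by ring
  have hm : ψ - (f (u k) - f (u 0)) ∈ spaceL := sub_mem hψ (sub_mem (hf _) (hf _))
  rw [h5]
  refine lt_of_le_of_lt (normL_add_le (sub_mem (hf _) (hf _)) (submoduleL.neg_mem hm)) ?_
  rw [normL_neg hm]
  linarith

end

end Pool.Agent.L5helper77.Inj
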