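import Mathlib

/-!
Geometry of the unit sphere of `ℂ²`: separated nets, peaking polynomials and their overlap.
-/

set_option autoImplicit false

namespace Pool.Agent.L5helper77.RealPart

open MeasureTheory Set Filter Topology
open scoped ComplexConjugate NNReal ENNReal

noncomputable section

abbrev E := Fin 2 → ℂ

/-- squared euclidean norm -/
def q (z : E) : ℝ := ∑ i, ‖z i‖ ^ 2

/-- the unit sphere -/
def S : Set E := {z | q z = 1}

/-- hermitian product -/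
def ip (z w : E) : ℂ := ∑ i, z i * conj (w i)

lemma q_nonneg (z : E) : 0 ≤ q z := Finset.sum_nonneg fun _ _ => by positivity

lemma continuous_q : Continuous q := by unfold q; fun_prop

lemma isClosed_S : IsClosed S := isClosed_eq continuous_q continuous_const

lemma norm_sq_le_q (z : E) : ‖z‖ ^ 2 ≤ q z := by
  have h : ‖z‖ ≤ Real.sqrt (q z) := by
    rw [pi_norm_le_iff_of_nonneg (Real.sqrt_nonneg _)]
    intro i
    apply Real.le_sqrt_of_sq_le
    exact Finset.single_le_sum (f := fun i => ‖z i‖ ^ 2) (fun _ _ => by positivity) (Finset.mem_univ i)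
  calc ‖z‖ ^ 2 ≤ (Real.sqrt (q z)) ^ 2 := by gcongr
    _ = q z := Real.sq_sqrt (q_nonneg z)

lemma q_le_norm_sq (z : E) : q z ≤ 2 * ‖z‖ ^ 2 := by
  unfold q
  rw [Fin.sum_univ_two]
  have h0 := norm_le_pi_norm z 0
  have h1 := norm_le_pi_norm z 1
  have e0 : ‖z 0‖ ^ 2 ≤ ‖z‖ ^ 2 := by gcongr
  have e1 : ‖z 1‖ ^ 2 ≤ ‖z‖ ^ 2 := by gcongr
  linarith

lemma isCompact_S : IsCompact S := by
  refine Metric.isCompact_of_isClosed_isBounded isClosed_S ?_
  refine (Metric.isBounded_closedBall (x := (0 : E)) (r := 1)).subset fun z hz => ?_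
  rw [mem_closedBall_zero_iff]
  have h1 := norm_sq_le_q z
  have h2 : q z = 1 := hz
  nlinarith [norm_nonneg z]

lemma q_sub_smul (z w : E) (c : ℂ) :
    q (z - c • w) = q z - 2 * (conj c * ip z w).re + ‖c‖ ^ 2 * q w := by
  unfold q ip
  simp only [Fin.sum_univ_two, Pi.sub_apply, Pi.smul_apply, smul_eq_mul]
  simp only [← Complex.normSq_eq_norm_sq, Complex.normSq_apply, Complex.sub_re, Complex.sub_im,
    Complex.mul_re, Complex.mul_im, Complex.add_re, Complex.add_im, Complex.conj_re,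
    Complex.conj_im]
  ring

lemma norm_ip_le {z w : E} (hz : z ∈ S) (hw : w ∈ S) : ‖ip z w‖ ≤ 1 := by
  have h := q_sub_smul z w (ip z w)
  have h1 : q z = 1 := hz
  have h2 : q w = 1 := hw
  have h3 : (conj (ip z w) * ip z w).re = ‖ip z w‖ ^ 2 := by
    rw [← Complex.normSq_eq_norm_sq, mul_comm, Complex.mul_conj]; simp
  have h4 := q_nonneg (z - ip z w • w)
  rw [h, h1, h2, h3] at h4
  nlinarith [norm_nonneg (ip z w)]

lemma re_ip {z w : E} (hz : z ∈ S) (hw : w ∈ S) : (ip z w).re = 1 - q (z - w) / 2 := by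
  have h := q_sub_smul z w 1
  have h1 : q z = 1 := hz
  have h2 : q w = 1 := hw
  simp only [map_one, one_mul, norm_one, one_pow, one_smul, h1, h2] at h
  linarith

lemma norm_half_sq_le {z w : E} (hz : z ∈ S) (hw : w ∈ S) :
    ‖(1 + ip z w) / 2‖ ^ 2 ≤ 1 - q (z - w) / 4 := by
  have h1 := norm_ip_le hz hw
  have h2 := re_ip hz hw
  have h3 : ‖(1 + ip z w) / 2‖ ^ 2 = (1 + 2 * (ip z w).re + ‖ip z w‖ ^ 2) / 4 := by
    rw [norm_div, div_pow, ← Complex.normSq_eq_norm_sq, ← Complex.normSq_eq_norm_sq (ip z w),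
      Complex.normSq_apply, Complex.normSq_apply]
    simp only [Complex.add_re, Complex.one_re, Complex.add_im, Complex.one_im, Complex.norm_ofNat]
    ring
  rw [h3]
  nlinarith [norm_nonneg (ip z w)]

lemma le_norm_half {z w : E} (hz : z ∈ S) (hw : w ∈ S) :
    1 - q (z - w) / 4 ≤ ‖(1 + ip z w) / 2‖ := by
  have h2 := re_ip hz hw
  calc 1 - q (z - w) / 4 = ((1 + ip z w) / 2).re := by
        have : ((1 + ip z w) / 2).re = (1 + (ip z w).re) / 2 := by
          rw [show ((2 : ℂ)) = ((2 : ℝ) : ℂ) by norm_num, Complex.div_ofReal_re]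
          simp
        rw [this, h2]; ring
    _ ≤ _ := Complex.re_le_norm _

/-- evaluation of the bump -/
def bv (L : ℕ) (ζ z : E) : ℂ := ip z ζ * ((1 + ip z ζ) / 2) ^ (8 * L)

lemma one_sub_pow_le {x : ℝ} (h0 : 0 ≤ x) (h1 : x ≤ 1) (L : ℕ) :
    (1 - x) ^ L ≤ 1 / (1 + L * x) := by
  have h2 : 0 < 1 + (L : ℝ) * x := by positivity
  rw [le_div_iff₀ h2]
  have h3 : 1 + (L : ℝ) * x ≤ (1 + x) ^ L := by
    have := one_add_mul_le_pow (a := x) (by linarith) L
    simpa using this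
  calc (1 - x) ^ L * (1 + L * x) ≤ (1 - x) ^ L * (1 + x) ^ L := by
        have : 0 ≤ (1 - x) ^ L := pow_nonneg (by linarith) _
        gcongr
    _ = (1 - x ^ 2) ^ L := by rw [← mul_pow]; ring
    _ ≤ 1 := pow_le_one₀ (by nlinarith) (by nlinarith)

lemma norm_bv_le {L : ℕ} {ζ z : E} (hz : z ∈ S) (hζ : ζ ∈ S) :
    ‖bv L ζ z‖ ≤ (1 / (1 + L * (‖z - ζ‖ ^ 2 / 4))) ^ 4 := by
  unfold bv
  rw [norm_mul, norm_pow]
  have h1 := norm_ip_le hz hζ
  have h2 := norm_half_sq_le hz hζ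
  have h3 : 0 ≤ ‖(1 + ip z ζ) / 2‖ ^ 2 := by positivity
  have h4 : q (z - ζ) / 4 ≤ 1 := by linarith
  have h5 := q_nonneg (z - ζ)
  have h6 := norm_sq_le_q (z - ζ)
  calc ‖ip z ζ‖ * ‖(1 + ip z ζ) / 2‖ ^ (8 * L)
      ≤ 1 * ‖(1 + ip z ζ) / 2‖ ^ (8 * L) := by gcongr
    _ = ((‖(1 + ip z ζ) / 2‖ ^ 2) ^ L) ^ 4 := by
        rw [one_mul, ← pow_mul, ← pow_mul]; congr 1; ring
    _ ≤ ((1 - q (z - ζ) / 4) ^ L) ^ 4 := by gcongr
    _ ≤ ((1 - ‖z - ζ‖ ^ 2 / 4) ^ L) ^ 4 := by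
        have : 0 ≤ 1 - q (z - ζ) / 4 := by linarith
        gcongr
    _ ≤ _ := by
        have h7 : 0 ≤ 1 - ‖z - ζ‖ ^ 2 / 4 := by linarith
        gcongr
        exact one_sub_pow_le (by positivity) (by linarith) L

lemma le_norm_bv {L : ℕ} (hL : 1 ≤ L) {ζ z : E} (hz : z ∈ S) (hζ : ζ ∈ S)
    (h : 8 * L * ‖z - ζ‖ ^ 2 ≤ 1) : 1 / 4 ≤ ‖bv L ζ z‖ := by
  unfold bv
  rw [norm_mul, norm_pow]
  have h2 := le_norm_half hz hζ
  have h3 := re_ip hz hζ
  have h4 := Complex.re_le_norm (ip z ζ)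
  have h5 := q_le_norm_sq (z - ζ)
  have h6 := q_nonneg (z - ζ)
  have hL' : (1 : ℝ) ≤ L := by exact_mod_cast hL
  have h7 : 8 * ‖z - ζ‖ ^ 2 ≤ 1 := by nlinarith [sq_nonneg ‖z - ζ‖]
  have h8 : 1 / 2 ≤ ‖ip z ζ‖ := by linarith
  have h9 : 0 ≤ 1 - q (z - ζ) / 4 := by linarith
  have h10 : (1 / 2 : ℝ) ≤ ‖(1 + ip z ζ) / 2‖ ^ (8 * L) := by
    have b := one_add_mul_le_pow (a := -(q (z - ζ) / 4)) (by linarith) (8 * L)
    have c : (1 + -(q (z - ζ) / 4)) ^ (8 * L) ≤ ‖(1 + ip z ζ) / 2‖ ^ (8 * L) := by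
      have e : 1 + -(q (z - ζ) / 4) = 1 - q (z - ζ) / 4 := by ring
      rw [e]; gcongr
    refine le_trans ?_ (b.trans c)
    push_cast
    nlinarith
  nlinarith [norm_nonneg (ip z ζ)]

/-- the bump as a polynomial -/
def bp (L : ℕ) (ζ : E) : MvPolynomial (Fin 2) ℂ :=
  (∑ i, MvPolynomial.C (conj (ζ i)) * MvPolynomial.X i) *
    (MvPolynomial.C (1 / 2) * (1 + ∑ i, MvPolynomial.C (conj (ζ i)) * MvPolynomial.X i)) ^ (8 * L)

lemma eval_bp (L : ℕ) (ζ z : E) : MvPolynomial.eval z (bp L ζ) = bv L ζ z := by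
  unfold bp bv ip
  simp only [map_mul, map_sum, map_pow, MvPolynomial.eval_C, MvPolynomial.eval_X, map_add, map_one]
  congr 1
  · exact Finset.sum_congr rfl fun i _ => mul_comm _ _
  · congr 1
    rw [one_div, inv_mul_eq_div]
    congr 2
    exact Finset.sum_congr rfl fun i _ => mul_comm _ _

lemma constantCoeff_bp (L : ℕ) (ζ : E) : MvPolynomial.constantCoeff (bp L ζ) = 0 := by
  unfold bp
  simp

/-- A finite maximal `δ`-separated subset of the sphere. -/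
lemma exists_net {δ : ℝ} (hδ : 0 < δ) : ∃ T : Finset E, (∀ x ∈ T, x ∈ S) ∧
    (∀ x ∈ T, ∀ y ∈ T, x ≠ y → δ ≤ ‖x - y‖) ∧ ∀ z ∈ S, ∃ x ∈ T, ‖z - x‖ ≤ δ := by
  set ε : ℝ≥0 := ⟨δ, hδ.le⟩ with hε
  have hpack : Metric.packingNumber ε S ≠ ⊤ := by
    obtain ⟨N, hNS, hNf, hN⟩ := Metric.exists_finite_isCover_of_isCompact (ε := ε / 2)
      (by
        have : (0 : ℝ≥0) < ε / 2 := by
          have : (0 : ℝ≥0) < ε := hδ
          positivity
        exact this.ne') isCompact_S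
    have h1 : Metric.packingNumber (2 * (ε / 2)) S ≤ Metric.externalCoveringNumber (ε / 2) S :=
      Metric.packingNumber_two_mul_le_externalCoveringNumber _ _
    have h2 := hN.externalCoveringNumber_le_encard
    have h3 : N.encard ≠ ⊤ := Set.encard_ne_top_iff.2 hNf
    have e : 2 * (ε / 2) = ε := by
      rw [mul_div_cancel₀]; norm_num
    rw [e] at h1
    exact ne_top_of_le_ne_top h3 (h1.trans h2)
  have hfin : (Metric.maximalSeparatedSet ε S).Finite := by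
    rw [← Set.encard_ne_top_iff, Metric.encard_maximalSeparatedSet hpack]
    exact hpack
  refine ⟨hfin.toFinset, fun x hx => ?_, fun x hx y hy hxy => ?_, fun z hz => ?_⟩
  · exact Metric.maximalSeparatedSet_subset ((Set.Finite.mem_toFinset _).1 hx)
  · have := Metric.isSeparated_maximalSeparatedSet ((Set.Finite.mem_toFinset _).1 hx)
      ((Set.Finite.mem_toFinset _).1 hy) hxy
    change (ε : ℝ≥0∞) < edist x y at this
    rw [edist_dist, dist_eq_norm] at this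
    have h2 : (ε : ℝ≥0∞) = ENNReal.ofReal δ := (ENNReal.ofReal_eq_coe_nnreal hδ.le).symm
    rw [h2, ENNReal.ofReal_lt_ofReal_iff_of_nonneg hδ.le] at this
    exact this.le
  · obtain ⟨x, hx, hzx⟩ := Metric.isCover_maximalSeparatedSet hpack hz
    refine ⟨x, (Set.Finite.mem_toFinset _).2 hx, ?_⟩
    have hzx' : edist z x ≤ (ε : ℝ≥0∞) := hzx
    rw [edist_dist, dist_eq_norm] at hzx'
    have h2 : (ε : ℝ≥0∞) = ENNReal.ofReal δ := (ENNReal.ofReal_eq_coe_nnreal hδ.le).symm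
    rw [h2, ENNReal.ofReal_le_ofReal_iff hδ.le] at hzx'
    exact hzx'

/-- Overlap bound by volume comparison. -/
lemma exists_overlap : ∃ C0 : ℝ, 0 < C0 ∧ ∀ (T : Finset E) (z : E) (s : ℝ), 0 < s →
    (∀ x ∈ T, ∀ y ∈ T, x ≠ y → 1 ≤ s * ‖x - y‖) →
    ∑ x ∈ T, (1 + s * ‖z - x‖) ^ (-(5 : ℝ)) ≤ C0 := by
  set G : E → ℝ := fun y => (1 + ‖y‖) ^ (-(5 : ℝ)) with hG
  have hGi : Integrable G := by
    refine integrable_one_add_norm ?_
    simp [Module.finrank_pi_fintype]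
    norm_num
  set V : ℝ := (volume (Metric.ball (0 : E) (1 / 2))).toReal with hV
  have hV0 : 0 < V := ENNReal.toReal_pos (Metric.measure_ball_pos _ _ (by norm_num)).ne'
    measure_ball_lt_top.ne
  have hGnn : ∀ y, 0 ≤ G y := fun y => by simp only [hG]; positivity
  refine ⟨(3 / 2) ^ (5 : ℝ) / V * (∫ y, G y) + 1, by
    have : 0 ≤ ∫ y, G y := integral_nonneg hGnn
    positivity, fun T z s hs hsep => ?_⟩
  have hdisj : Set.Pairwise (T : Set E) fun x y =>
      Disjoint (Metric.ball (s • x) (1 / 2)) (Metric.ball (s • y) (1 / 2)) := by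
    intro x hx y hy hxy
    refine Metric.ball_disjoint_ball ?_
    have h1 := hsep x hx y hy hxy
    rw [dist_eq_norm, ← smul_sub, norm_smul, Real.norm_of_nonneg hs.le]
    linarith
  have hint : Integrable (fun y => G (s • z - y)) := hGi.comp_sub_left (s • z)
  have key : ∀ x ∈ T, (1 + s * ‖z - x‖) ^ (-(5 : ℝ)) ≤
      (3 / 2) ^ (5 : ℝ) / V * ∫ y in Metric.ball (s • x) (1 / 2), G (s • z - y) := by
    intro x _
    have h1 : ∀ y ∈ Metric.ball (s • x) (1 / 2 : ℝ),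
        (3 / 2 : ℝ) ^ (-(5 : ℝ)) * (1 + s * ‖z - x‖) ^ (-(5 : ℝ)) ≤ G (s • z - y) := by
      intro y hy
      rw [mem_ball_iff_norm] at hy
      have h2 : ‖s • z - y‖ ≤ s * ‖z - x‖ + 1 / 2 := by
        calc ‖s • z - y‖ = ‖s • (z - x) - (y - s • x)‖ := by rw [smul_sub]; congr 1; abel
          _ ≤ ‖s • (z - x)‖ + ‖y - s • x‖ := norm_sub_le _ _
          _ ≤ s * ‖z - x‖ + 1 / 2 := by
            rw [norm_smul, Real.norm_of_nonneg hs.le]; linarith
      have h3 : 0 ≤ s * ‖z - x‖ := by positivity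
      rw [← Real.mul_rpow (by norm_num) (by positivity)]
      simp only [hG]
      apply Real.rpow_le_rpow_of_nonpos (by positivity) _ (by norm_num)
      linarith
    have h4 : ∫ y in Metric.ball (s • x) (1 / 2),
        (3 / 2 : ℝ) ^ (-(5 : ℝ)) * (1 + s * ‖z - x‖) ^ (-(5 : ℝ)) ≤
        ∫ y in Metric.ball (s • x) (1 / 2), G (s • z - y) := by
      refine setIntegral_mono_on ?_ hint.integrableOn measurableSet_ball h1
      exact integrableOn_const (measure_ball_lt_top.ne)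
    rw [setIntegral_const, measureReal_def, Measure.addHaar_ball_center, ← hV, smul_eq_mul] at h4
    have e : (3 / 2 : ℝ) ^ (-(5 : ℝ)) = ((3 / 2 : ℝ) ^ (5 : ℝ))⁻¹ :=
      Real.rpow_neg (by norm_num) _
    rw [e] at h4
    have h5 : (0 : ℝ) < (3 / 2) ^ (5 : ℝ) := by positivity
    rw [div_mul_eq_mul_div, le_div_iff₀ hV0]
    calc (1 + s * ‖z - x‖) ^ (-(5 : ℝ)) * V
        = (3 / 2) ^ (5 : ℝ) * (V * (((3 / 2 : ℝ) ^ (5 : ℝ))⁻¹ *
            (1 + s * ‖z - x‖) ^ (-(5 : ℝ)))) := by field_simp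
      _ ≤ _ := by gcongr
  calc ∑ x ∈ T, (1 + s * ‖z - x‖) ^ (-(5 : ℝ))
      ≤ ∑ x ∈ T, (3 / 2) ^ (5 : ℝ) / V * ∫ y in Metric.ball (s • x) (1 / 2), G (s • z - y) :=
        Finset.sum_le_sum key
    _ = (3 / 2) ^ (5 : ℝ) / V * ∑ x ∈ T, ∫ y in Metric.ball (s • x) (1 / 2), G (s • z - y) := by
        rw [Finset.mul_sum]
    _ = (3 / 2) ^ (5 : ℝ) / V *
          ∫ y in ⋃ x ∈ T, Metric.ball (s • x) (1 / 2), G (s • z - y) := by
        rw [integral_biUnion_finset T (fun _ _ => measurableSet_ball) hdisj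
          (fun _ _ => hint.integrableOn)]
    _ ≤ (3 / 2) ^ (5 : ℝ) / V * ∫ y, G (s • z - y) := by
        refine mul_le_mul_of_nonneg_left ?_ (by positivity)
        exact setIntegral_le_integral hint (Eventually.of_forall fun y => hGnn _)
    _ = (3 / 2) ^ (5 : ℝ) / V * ∫ y, G y := by
        rw [integral_sub_left_eq_self G volume (s • z)]
    _ ≤ _ := by linarith

end

end Pool.Agent.L5helper77.RealPart
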