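import Pool.Agent.L5helper77.RealPart1

/-!
Sums of peaking polynomials dominated by a given positive function, and the growth step.
-/

set_option autoImplicit false

namespace Pool.Agent.L5helper77.RealPart

open MeasureTheory Set Filter Topology
open scoped ComplexConjugate NNReal ENNReal

noncomputable section

abbrev P := MvPolynomial (Fin 2) ℂ

lemma S_nonempty : S.Nonempty := by
  refine ⟨![1, 0], ?_⟩
  simp [S, q, Fin.sum_univ_two]

lemma exists_family : ∃ c : ℝ, 0 < c ∧ ∀ h : E → ℝ, ContinuousOn h S → (∀ z ∈ S, 0 < h z) →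
    ∃ (T : Finset E) (g : E → P),
      (∀ x ∈ T, MvPolynomial.constantCoeff (g x) = 0) ∧
      (∀ z ∈ S, ∑ x ∈ T, ‖MvPolynomial.eval z (g x)‖ ≤ h z) ∧
      (∀ z ∈ S, c * h z ^ 2 ≤ ∑ x ∈ T, ‖MvPolynomial.eval z (g x)‖ ^ 2) := by
  obtain ⟨C0, hC0, hover⟩ := exists_overlap
  set C1 : ℝ := 64 ^ 3 * C0 with hC1
  have hC1p : 0 < C1 := by positivity
  refine ⟨(1 / (24 * C1)) ^ 2, by positivity, fun h hcont hpos => ?_⟩
  obtain ⟨zm, hzm, hmin⟩ := isCompact_S.exists_isMinOn S_nonempty hcont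
  obtain ⟨zM, hzM, hmax⟩ := isCompact_S.exists_isMaxOn S_nonempty hcont
  set η := h zm with hη
  have hη0 : 0 < η := hpos zm hzm
  set H := h zM with hH
  have hH0 : 0 < H := hpos zM hzM
  have hminz : ∀ z ∈ S, η ≤ h z := fun z hz => hmin hz
  have hmaxz : ∀ z ∈ S, h z ≤ H := fun z hz => hmax hz
  have huc := isCompact_S.uniformContinuousOn_of_continuous hcont
  rw [Metric.uniformContinuousOn_iff] at huc
  obtain ⟨r, hr, huc⟩ := huc η hη0
  have hnear : ∀ z ∈ S, ∀ w ∈ S, ‖z - w‖ < r → h w ≤ 2 * h z := by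
    intro z hz w hw hzw
    have h1 := huc w hw z hz (by rw [dist_comm, dist_eq_norm]; exact hzw)
    rw [Real.dist_eq, abs_lt] at h1
    have h2 := hminz z hz
    linarith [h1.2]
  obtain ⟨L, hL⟩ := exists_nat_ge (max 1 (max (4 * H / (η * r ^ 2)) (1 / (8 * r ^ 2) + 1)))
  have hL1 : (1 : ℝ) ≤ L := (le_max_left _ _).trans hL
  have hL2 : 4 * H / (η * r ^ 2) ≤ L := (le_max_left _ _).trans ((le_max_right _ _).trans hL)
  have hL3 : 1 / (8 * r ^ 2) + 1 ≤ L := (le_max_right _ _).trans ((le_max_right _ _).trans hL)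
  have hL1' : 1 ≤ L := by exact_mod_cast hL1
  set s : ℝ := Real.sqrt (8 * L) with hs
  have hs2 : s ^ 2 = 8 * L := Real.sq_sqrt (by positivity)
  have hs0 : 0 < s := Real.sqrt_pos.2 (by positivity)
  obtain ⟨T, hTS, hTsep, hTcov⟩ := exists_net (δ := 1 / s) (by positivity)
  have hsep' : ∀ x ∈ T, ∀ y ∈ T, x ≠ y → 1 ≤ s * ‖x - y‖ := by
    intro x hx y hy hxy
    have := hTsep x hx y hy hxy
    rw [div_le_iff₀ hs0] at this
    linarith
  -- the decay function
  set A : E → E → ℝ := fun x z => 1 / (1 + L * (‖z - x‖ ^ 2 / 4)) with hA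
  have hA0 : ∀ x z, 0 < A x z := fun x z => by simp only [hA]; positivity
  have hA1 : ∀ x z, A x z ≤ 1 := fun x z => by
    simp only [hA]
    rw [div_le_one (by positivity)]
    have : 0 ≤ (L : ℝ) * (‖z - x‖ ^ 2 / 4) := by positivity
    linarith
  have hA3 : ∀ x z, A x z ^ 3 ≤ 64 ^ 3 * (1 + s * ‖z - x‖) ^ (-(5 : ℝ)) := by
    intro x z
    have h1 : 0 ≤ s * ‖z - x‖ := by positivity
    set B : ℝ := 1 / (1 + s * ‖z - x‖) with hB
    have hB0 : 0 < B := by positivity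
    have hB1 : B ≤ 1 := by rw [hB, div_le_one (by positivity)]; linarith
    have e : (1 + s * ‖z - x‖) ^ (-(5 : ℝ)) = B ^ 5 := by
      rw [Real.rpow_neg (by positivity), hB, one_div, inv_pow]
      norm_cast
    rw [e]
    have h2 : A x z ≤ 64 * B ^ 2 := by
      simp only [hA, hB]
      rw [one_div_pow, mul_one_div, div_le_div_iff₀ (by positivity) (by positivity)]
      have h3 : (s * ‖z - x‖) ^ 2 = 8 * L * ‖z - x‖ ^ 2 := by rw [mul_pow, hs2]
      nlinarith [sq_nonneg (1 - s * ‖z - x‖)]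
    calc A x z ^ 3 ≤ (64 * B ^ 2) ^ 3 := by have := (hA0 x z).le; gcongr
      _ = 64 ^ 3 * (B ^ 5 * B) := by ring
      _ ≤ 64 ^ 3 * (B ^ 5 * 1) := by gcongr
      _ = _ := by ring
  have hsumA : ∀ z, ∑ x ∈ T, A x z ^ 3 ≤ C1 := by
    intro z
    calc ∑ x ∈ T, A x z ^ 3 ≤ ∑ x ∈ T, 64 ^ 3 * (1 + s * ‖z - x‖) ^ (-(5 : ℝ)) :=
          Finset.sum_le_sum fun x _ => hA3 x z
      _ = 64 ^ 3 * ∑ x ∈ T, (1 + s * ‖z - x‖) ^ (-(5 : ℝ)) := by rw [Finset.mul_sum]
      _ ≤ 64 ^ 3 * C0 := by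
        have := hover T z s hs0 hsep'
        gcongr
  have hfar : ∀ x z, r ≤ ‖z - x‖ → H * A x z ≤ η := by
    intro x z hxz
    simp only [hA]
    rw [mul_one_div, div_le_iff₀ (by positivity)]
    have h1 : r ^ 2 ≤ ‖z - x‖ ^ 2 := by gcongr
    have h2 : 4 * H ≤ L * (η * r ^ 2) := by
      rw [div_le_iff₀ (by positivity)] at hL2; exact hL2
    have h3 : (L : ℝ) * (η * r ^ 2) ≤ L * (η * ‖z - x‖ ^ 2) := by gcongr
    nlinarith
  have hterm : ∀ z ∈ S, ∀ x ∈ T, h x * ‖bv L x z‖ ≤ 3 * h z * A x z ^ 3 := by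
    intro z hz x hx
    have hb := norm_bv_le (L := L) hz (hTS x hx)
    have hb' : ‖bv L x z‖ ≤ A x z ^ 4 := hb
    have h0 := hA0 x z
    have h1 := hA1 x z
    have hpz := hpos z hz
    have hpx := hpos x (hTS x hx)
    by_cases hc : ‖z - x‖ < r
    · have h2 := hnear z hz x (hTS x hx) hc
      calc h x * ‖bv L x z‖ ≤ (2 * h z) * A x z ^ 4 := by gcongr
        _ = 2 * h z * (A x z ^ 3 * A x z) := by ring
        _ ≤ 2 * h z * (A x z ^ 3 * 1) := by gcongr
        _ ≤ 3 * h z * A x z ^ 3 := by nlinarith [mul_pos hpz (pow_pos h0 3)]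
    · have h2 := hfar x z (not_lt.1 hc)
      calc h x * ‖bv L x z‖ ≤ H * A x z ^ 4 := by
            have := hmaxz x (hTS x hx)
            gcongr
        _ = (H * A x z) * A x z ^ 3 := by ring
        _ ≤ η * A x z ^ 3 := by gcongr
        _ ≤ h z * A x z ^ 3 := by
            have := hminz z hz
            gcongr
        _ ≤ 3 * h z * A x z ^ 3 := by nlinarith [mul_pos hpz (pow_pos h0 3)]
  refine ⟨T, fun x => MvPolynomial.C ((h x / (3 * C1) : ℝ) : ℂ) * bp L x, fun x _ => ?_,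
    fun z hz => ?_, fun z hz => ?_⟩
  · rw [map_mul, constantCoeff_bp, mul_zero]
  · calc ∑ x ∈ T, ‖MvPolynomial.eval z (MvPolynomial.C ((h x / (3 * C1) : ℝ) : ℂ) * bp L x)‖
        = ∑ x ∈ T, (1 / (3 * C1)) * (h x * ‖bv L x z‖) := by
          refine Finset.sum_congr rfl fun x hx => ?_
          have hpx := hpos x (hTS x hx)
          rw [map_mul, MvPolynomial.eval_C, eval_bp, norm_mul, Complex.norm_real,
            Real.norm_of_nonneg (by positivity)]
          ring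
      _ ≤ ∑ x ∈ T, (1 / (3 * C1)) * (3 * h z * A x z ^ 3) := by
          refine Finset.sum_le_sum fun x hx => ?_
          have := hterm z hz x hx
          gcongr
      _ = (1 / (3 * C1)) * (3 * h z) * ∑ x ∈ T, A x z ^ 3 := by
          rw [Finset.mul_sum]
          exact Finset.sum_congr rfl fun x _ => by ring
      _ ≤ (1 / (3 * C1)) * (3 * h z) * C1 := by
          have := hsumA z
          have := hpos z hz
          gcongr
      _ = h z := by field_simp
  · obtain ⟨x, hx, hzx⟩ := hTcov z hz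
    have h1 : 8 * L * ‖z - x‖ ^ 2 ≤ 1 := by
      have h2 : ‖z - x‖ ^ 2 ≤ (1 / s) ^ 2 := by gcongr
      rw [one_div_pow, hs2, le_div_iff₀ (by positivity)] at h2
      linarith
    have h2 := le_norm_bv hL1' hz (hTS x hx) h1
    have h3 : ‖x - z‖ < r := by
      rw [norm_sub_rev]
      have h4 : 8 * (L : ℝ) * r ^ 2 > 1 := by
        have : 1 / (8 * r ^ 2) < L := by linarith
        rw [div_lt_iff₀ (by positivity)] at this
        linarith
      by_contra hcon
      rw [not_lt] at hcon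
      have : r ^ 2 ≤ ‖z - x‖ ^ 2 := by gcongr
      nlinarith
    have h4 := hnear x (hTS x hx) z hz h3
    have hpx := hpos x (hTS x hx)
    have hpz := hpos z hz
    refine le_trans ?_ (Finset.single_le_sum (f := fun x => ‖MvPolynomial.eval z
      (MvPolynomial.C ((h x / (3 * C1) : ℝ) : ℂ) * bp L x)‖ ^ 2) (fun _ _ => by positivity) hx)
    rw [map_mul, MvPolynomial.eval_C, eval_bp, norm_mul, Complex.norm_real,
      Real.norm_of_nonneg (by positivity), ← mul_pow]
    have h5 : 1 / (24 * C1) * h z ≤ h x / (3 * C1) * ‖bv L x z‖ := by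
      calc 1 / (24 * C1) * h z ≤ 1 / (24 * C1) * (2 * h x) := by gcongr
        _ = h x / (3 * C1) * (1 / 4) := by field_simp; ring
        _ ≤ _ := by gcongr
    gcongr

/-- Signs. -/
lemma exists_signs (ν : Measure E) [IsFiniteMeasure ν] (w : E → ℝ) (hw : ContinuousOn w S)
    (T : Finset E) (g : E → P) (hg : ∀ x ∈ T, MvPolynomial.constantCoeff (g x) = 0) :
    ∃ p : P, MvPolynomial.constantCoeff p = 0 ∧
      (∀ z, ‖MvPolynomial.eval z p‖ ≤ ∑ x ∈ T, ‖MvPolynomial.eval z (g x)‖) ∧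
      ∫ z in S, (∑ x ∈ T, ‖MvPolynomial.eval z (g x)‖ ^ 2) * w z ∂ν ≤
        ∫ z in S, ‖MvPolynomial.eval z p‖ ^ 2 * w z ∂ν := by
  classical
  have hint : ∀ F : E → ℝ, ContinuousOn F S → IntegrableOn F S ν := fun F hF =>
    hF.integrableOn_compact isCompact_S
  have hev : ∀ p : P, Continuous fun z : E => ‖MvPolynomial.eval z p‖ ^ 2 := fun p =>
    (MvPolynomial.continuous_eval p).norm.pow 2
  have hi : ∀ p : P, IntegrableOn (fun z : E => ‖MvPolynomial.eval z p‖ ^ 2 * w z) S ν := fun p =>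
    hint _ ((hev p).continuousOn.mul hw)
  induction T using Finset.induction_on with
  | empty => exact ⟨0, by simp, by simp, by simp⟩
  | insert a T ha ih =>
    obtain ⟨p, hp0, hple, hpint⟩ := ih fun x hx => hg x (Finset.mem_insert_of_mem hx)
    have hga := hg a (Finset.mem_insert_self _ _)
    have hsum : ∫ z in S, ‖MvPolynomial.eval z (p + g a)‖ ^ 2 * w z ∂ν +
        ∫ z in S, ‖MvPolynomial.eval z (p - g a)‖ ^ 2 * w z ∂ν =
        2 * (∫ z in S, ‖MvPolynomial.eval z p‖ ^ 2 * w z ∂ν +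
          ∫ z in S, ‖MvPolynomial.eval z (g a)‖ ^ 2 * w z ∂ν) := by
      rw [← integral_add (hi _) (hi _), ← integral_add (hi _) (hi _), ← integral_const_mul]
      congr 1
      funext z
      have := parallelogram_law_with_norm ℝ (MvPolynomial.eval z p) (MvPolynomial.eval z (g a))
      rw [map_add, map_sub]
      linear_combination (w z) * this
    have hsplit : ∫ z in S, (∑ x ∈ insert a T, ‖MvPolynomial.eval z (g x)‖ ^ 2) * w z ∂ν =
        ∫ z in S, (∑ x ∈ T, ‖MvPolynomial.eval z (g x)‖ ^ 2) * w z ∂ν +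
          ∫ z in S, ‖MvPolynomial.eval z (g a)‖ ^ 2 * w z ∂ν := by
      have hi2 : IntegrableOn (fun z : E => (∑ x ∈ T, ‖MvPolynomial.eval z (g x)‖ ^ 2) * w z) S ν :=
        hint _ ((continuousOn_finsetSum _ fun x _ => (hev _).continuousOn).mul hw)
      rw [← integral_add hi2 (hi _)]
      congr 1
      funext z
      rw [Finset.sum_insert ha]
      ring
    rcases le_total (∫ z in S, ‖MvPolynomial.eval z (p - g a)‖ ^ 2 * w z ∂ν)
      (∫ z in S, ‖MvPolynomial.eval z (p + g a)‖ ^ 2 * w z ∂ν) with hc | hc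
    · refine ⟨p + g a, by rw [map_add, hp0, hga, add_zero], fun z => ?_, by linarith⟩
      rw [Finset.sum_insert ha, map_add]
      have := norm_add_le (MvPolynomial.eval z p) (MvPolynomial.eval z (g a))
      linarith [hple z]
    · refine ⟨p - g a, by rw [map_sub, hp0, hga, sub_zero], fun z => ?_, by linarith⟩
      rw [Finset.sum_insert ha, map_sub]
      have := norm_sub_le (MvPolynomial.eval z p) (MvPolynomial.eval z (g a))
      linarith [hple z]

lemma two_norm (u : ℂ) (hu : |u.im| ≤ 1) : 2 * (1 + u.im ^ 2 / 3) ≤ ‖1 + u‖ + ‖1 - u‖ := by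
  have h1 : ‖1 - u‖ = ‖1 - conj u‖ := by
    rw [← Complex.norm_conj (1 - u), map_sub, map_one]
  rw [h1]
  have h2 : (1 + u) + (1 - conj u) = 2 * (1 + u.im * Complex.I) := by
    apply Complex.ext
    · simp; norm_num
    · simp; ring
  have h3 := norm_add_le (1 + u) (1 - conj u)
  rw [h2, norm_mul, Complex.norm_ofNat] at h3
  refine le_trans ?_ h3
  have h4 : ‖(1 : ℂ) + u.im * Complex.I‖ ^ 2 = 1 + u.im ^ 2 := by
    rw [← Complex.normSq_eq_norm_sq, Complex.normSq_apply]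
    simp; ring
  have h5 : u.im ^ 2 ≤ 1 := by
    rw [← sq_abs]; exact pow_le_one₀ (abs_nonneg _) hu
  have h6 : 1 + u.im ^ 2 / 3 ≤ ‖(1 : ℂ) + u.im * Complex.I‖ := by
    apply le_of_sq_le_sq _ (norm_nonneg _)
    rw [h4]
    nlinarith [sq_nonneg u.im]
  linarith

lemma four_norm {f p : ℂ} (hf : f ≠ 0) (hp : ‖p‖ ≤ ‖f‖) :
    4 * ‖f‖ + (2 / 3) * (‖p‖ ^ 2 * (1 / ‖f‖)) ≤
      ‖f + p‖ + ‖f - p‖ + (‖f + Complex.I * p‖ + ‖f - Complex.I * p‖) := by
  have hf0 : 0 < ‖f‖ := norm_pos_iff.2 hf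
  set u := p / f with hu
  have hpu : p = f * u := by rw [hu]; field_simp
  have hun : ‖u‖ ≤ 1 := by rw [hu, norm_div, div_le_one hf0]; exact hp
  have h1 := two_norm u ((Complex.abs_im_le_norm u).trans hun)
  have h2 := two_norm (Complex.I * u) ((Complex.abs_im_le_norm _).trans (by
    rw [norm_mul, Complex.norm_I, one_mul]; exact hun))
  have h3 : (Complex.I * u).im = u.re := by simp
  rw [h3] at h2
  have h4 : ‖u‖ ^ 2 = u.re ^ 2 + u.im ^ 2 := by
    rw [← Complex.normSq_eq_norm_sq, Complex.normSq_apply]; ring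
  have e1 : ‖f + p‖ = ‖f‖ * ‖1 + u‖ := by rw [← norm_mul, hpu]; congr 1; ring
  have e2 : ‖f - p‖ = ‖f‖ * ‖1 - u‖ := by rw [← norm_mul, hpu]; congr 1; ring
  have e3 : ‖f + Complex.I * p‖ = ‖f‖ * ‖1 + Complex.I * u‖ := by
    rw [← norm_mul, hpu]; congr 1; ring
  have e4 : ‖f - Complex.I * p‖ = ‖f‖ * ‖1 - Complex.I * u‖ := by
    rw [← norm_mul, hpu]; congr 1; ring
  have e5 : ‖p‖ ^ 2 * (1 / ‖f‖) = ‖f‖ * ‖u‖ ^ 2 := by
    rw [hpu, norm_mul]; field_simp
  rw [e1, e2, e3, e4, e5, h4]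
  nlinarith

end

end Pool.Agent.L5helper77.RealPart
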