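import Pool.Agent.L5helper77.RealPart2

/-!
The growth step and unboundedness of the ratio for a measure on the sphere with the mean value
property for polynomials.
-/

set_option autoImplicit false

namespace Pool.Agent.L5helper77.RealPart

open MeasureTheory Set Filter Topology
open scoped ComplexConjugate NNReal ENNReal

noncomputable section

open MvPolynomial in
/-- Growth step. -/
lemma growth_step (ν : Measure E) [IsFiniteMeasure ν]
    {c : ℝ} (hfam : ∀ h : E → ℝ, ContinuousOn h S → (∀ z ∈ S, 0 < h z) →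
    ∃ (T : Finset E) (g : E → P),
      (∀ x ∈ T, constantCoeff (g x) = 0) ∧
      (∀ z ∈ S, ∑ x ∈ T, ‖eval z (g x)‖ ≤ h z) ∧
      (∀ z ∈ S, c * h z ^ 2 ≤ ∑ x ∈ T, ‖eval z (g x)‖ ^ 2))
    (f : P) (hf1 : constantCoeff f = 1) (hf : ∀ z ∈ S, 0 < (eval z f).re) :
    ∃ f' : P, constantCoeff f' = 1 ∧ (∀ z ∈ S, 0 < (eval z f').re) ∧
      (∫ z in S, ‖eval z f‖ ∂ν) +
        c / 24 * ∫ z in S, (eval z f).re ^ 2 * (1 / ‖eval z f‖) ∂ν ≤
        ∫ z in S, ‖eval z f'‖ ∂ν := by
  have hint : ∀ F : E → ℝ, ContinuousOn F S → IntegrableOn F S ν := fun F hF =>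
    hF.integrableOn_compact isCompact_S
  have hev : ∀ p : P, Continuous fun z : E => eval z p := fun p => continuous_eval p
  have hevr : ∀ p : P, Continuous fun z : E => (eval z p).re := fun p =>
    Complex.continuous_re.comp (hev p)
  have hfn : ∀ z ∈ S, eval z f ≠ 0 := fun z hz h0 => by
    have := hf z hz
    rw [h0] at this
    simp at this
  have hfnp : ∀ z ∈ S, 0 < ‖eval z f‖ := fun z hz => norm_pos_iff.2 (hfn z hz)
  have hwc : ContinuousOn (fun z : E => 1 / ‖eval z f‖) S :=
    continuousOn_const.div (hev f).norm.continuousOn fun z hz => (hfnp z hz).ne'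
  obtain ⟨T, g, hg0, hgle, hgsq⟩ := hfam (fun z => (eval z f).re / 2)
    ((hevr f).div_const 2).continuousOn (fun z hz => by have := hf z hz; positivity)
  obtain ⟨p, hp0, hple, hpint⟩ := exists_signs ν (fun z => 1 / ‖eval z f‖) hwc T g hg0
  have hple2 : ∀ z ∈ S, ‖eval z p‖ ≤ (eval z f).re / 2 := fun z hz => (hple z).trans (hgle z hz)
  have hSm : MeasurableSet S := isClosed_S.measurableSet
  -- lower bound of the quadratic term
  have hq : c / 4 * ∫ z in S, (eval z f).re ^ 2 * (1 / ‖eval z f‖) ∂ν ≤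
      ∫ z in S, ‖eval z p‖ ^ 2 * (1 / ‖eval z f‖) ∂ν := by
    refine le_trans ?_ hpint
    rw [← integral_const_mul]
    refine setIntegral_mono_on ?_ ?_ hSm fun z hz => ?_
    · exact (hint _ (((hevr f).pow 2).continuousOn.mul hwc)).const_mul _
    · exact hint _ ((continuousOn_finsetSum _ fun x _ =>
        ((hev (g x)).norm.pow 2).continuousOn).mul hwc)
    · have h1 := hgsq z hz
      have h2 := hfnp z hz
      calc c / 4 * ((eval z f).re ^ 2 * (1 / ‖eval z f‖))
          = (c * ((eval z f).re / 2) ^ 2) * (1 / ‖eval z f‖) := by ring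
        _ ≤ _ := by gcongr
  -- the four candidates
  have hfour : 4 * (∫ z in S, ‖eval z f‖ ∂ν) +
      (2 / 3) * (∫ z in S, ‖eval z p‖ ^ 2 * (1 / ‖eval z f‖) ∂ν) ≤
      (∫ z in S, ‖eval z (f + p)‖ ∂ν) + (∫ z in S, ‖eval z (f - p)‖ ∂ν) +
      ((∫ z in S, ‖eval z (f + C Complex.I * p)‖ ∂ν) +
        (∫ z in S, ‖eval z (f - C Complex.I * p)‖ ∂ν)) := by
    have i1 : ∀ r : P, IntegrableOn (fun z : E => ‖eval z r‖) S ν := fun r =>
      hint _ (hev r).norm.continuousOn
    have i2 : IntegrableOn (fun z : E => ‖eval z p‖ ^ 2 * (1 / ‖eval z f‖)) S ν :=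
      hint _ (((hev p).norm.pow 2).continuousOn.mul hwc)
    have i3 : ∀ r s : P, IntegrableOn (fun z : E => ‖eval z r‖ + ‖eval z s‖) S ν := fun r s =>
      (i1 r).add (i1 s)
    rw [← integral_add (i1 _) (i1 _), ← integral_add (i1 _) (i1 _), ← integral_const_mul,
      ← integral_const_mul, ← integral_add ((i1 _).const_mul 4) (i2.const_mul _),
      ← integral_add (i3 _ _) (i3 _ _)]
    refine setIntegral_mono_on (((i1 _).const_mul 4).add (i2.const_mul _))
      (((i1 _).add (i1 _)).add ((i1 _).add (i1 _))) hSm fun z hz => ?_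
    have h1 : ‖eval z p‖ ≤ ‖eval z f‖ := by
      have a := hple2 z hz
      have b := Complex.re_le_norm (eval z f)
      have d := hf z hz
      linarith
    have := four_norm (hfn z hz) h1
    simpa only [map_add, map_sub, map_mul, eval_C] using this
  have hgood : ∀ θ : ℂ, ‖θ‖ ≤ 1 → constantCoeff (f + C θ * p) = 1 ∧
      ∀ z ∈ S, 0 < (eval z (f + C θ * p)).re := by
    intro θ hθ
    refine ⟨by rw [map_add, map_mul, hp0, mul_zero, add_zero, hf1], fun z hz => ?_⟩
    rw [map_add, map_mul, eval_C, Complex.add_re]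
    have h1 := hple2 z hz
    have h2 := hf z hz
    have h3 : ‖θ * eval z p‖ ≤ (eval z f).re / 2 := by
      rw [norm_mul]
      calc ‖θ‖ * ‖eval z p‖ ≤ 1 * ‖eval z p‖ := by gcongr
        _ ≤ _ := by linarith
    have h4 := (abs_le.1 ((Complex.abs_re_le_norm (θ * eval z p)).trans h3)).1
    linarith
  have e1 : f + p = f + C 1 * p := by simp
  have e2 : f - p = f + C (-1) * p := by rw [map_neg, map_one]; ring
  have e4 : f - C Complex.I * p = f + C (-Complex.I) * p := by rw [map_neg]; ring
  rw [e1, e2, e4] at hfour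
  by_contra hcon
  push Not at hcon
  have g1 := hgood 1 (by simp)
  have g2 := hgood (-1) (by simp)
  have g3 := hgood Complex.I (by simp)
  have g4 := hgood (-Complex.I) (by simp)
  have k1 := hcon _ g1.1 g1.2
  have k2 := hcon _ g2.1 g2.2
  have k3 := hcon _ g3.1 g3.2
  have k4 := hcon _ g4.1 g4.2
  linarith

open MvPolynomial in
/-- No uniform bound of `∫ |f|` by `∫ |Re f|`. -/
theorem no_bound (ν : Measure E) [IsFiniteMeasure ν] (hν : ν S ≠ 0)
    (hmean : ∀ p : P, constantCoeff p = 0 → ∫ z in S, eval z p ∂ν = 0) (M : ℝ) :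
    ∃ f : P, constantCoeff f = 1 ∧ (∀ z ∈ S, 0 < (eval z f).re) ∧
      M * ∫ z in S, (eval z f).re ∂ν < ∫ z in S, ‖eval z f‖ ∂ν := by
  obtain ⟨c, hc, hfam⟩ := exists_family
  by_contra hcon
  push Not at hcon
  have hint : ∀ F : E → ℝ, ContinuousOn F S → IntegrableOn F S ν := fun F hF =>
    hF.integrableOn_compact isCompact_S
  have hev : ∀ p : P, Continuous fun z : E => eval z p := fun p => continuous_eval p
  have hevr : ∀ p : P, Continuous fun z : E => (eval z p).re := fun p =>
    Complex.continuous_re.comp (hev p)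
  have hSm : MeasurableSet S := isClosed_S.measurableSet
  set m : ℝ := ν.real S with hm
  have hm0 : 0 < m := ENNReal.toReal_pos hν (measure_ne_top _ _)
  -- mean value
  have hre : ∀ f : P, constantCoeff f = 1 → ∫ z in S, (eval z f).re ∂ν = m := by
    intro f hf
    have h1 := hmean (f - 1) (by rw [map_sub, hf, map_one, sub_self])
    have hi : IntegrableOn (fun z : E => eval z f) S ν :=
      (hev f).continuousOn.integrableOn_compact isCompact_S
    have h2 : ∫ z in S, eval z f ∂ν = (m : ℂ) := by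
      have h3 : ∫ z in S, eval z (f - 1) ∂ν = ∫ z in S, eval z f ∂ν - ∫ z in S, (1 : ℂ) ∂ν := by
        rw [← integral_sub hi (integrableOn_const (measure_ne_top _ _))]
        simp only [map_sub, map_one]
      rw [h1] at h3
      rw [← sub_eq_zero, h3]
      congr 1
      simp [hm]
    have h4 := integral_re (𝕜 := ℂ) hi
    have h5 : ∫ z in S, (eval z f).re ∂ν = (∫ z in S, eval z f ∂ν).re := h4
    rw [h5, h2, Complex.ofReal_re]
  -- upper bound
  have hup : ∀ f : P, constantCoeff f = 1 → (∀ z ∈ S, 0 < (eval z f).re) →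
      ∫ z in S, ‖eval z f‖ ∂ν ≤ M * m := fun f h1 h2 => by
    have := hcon f h1 h2
    rwa [hre f h1] at this
  have hM : 0 < M := by
    have h1 := hup 1 (by simp) (fun z _ => by simp)
    have h2 : ∫ z in S, ‖eval z (1 : P)‖ ∂ν = m := by simp [hm]
    rw [h2] at h1
    nlinarith
  set κ : ℝ := c / 24 * (m / M) with hκ
  have hκ0 : 0 < κ := by positivity
  have hstep : ∀ f : P, constantCoeff f = 1 → (∀ z ∈ S, 0 < (eval z f).re) →
      ∃ f' : P, constantCoeff f' = 1 ∧ (∀ z ∈ S, 0 < (eval z f').re) ∧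
        (∫ z in S, ‖eval z f‖ ∂ν) + κ ≤ ∫ z in S, ‖eval z f'‖ ∂ν := by
    intro f hf1 hf
    obtain ⟨f', h1, h2, h3⟩ := growth_step ν hfam f hf1 hf
    refine ⟨f', h1, h2, le_trans ?_ h3⟩
    have hfnp : ∀ z ∈ S, 0 < ‖eval z f‖ := fun z hz => norm_pos_iff.2 fun h0 => by
      have := hf z hz
      rw [h0] at this
      simp at this
    have hwc : ContinuousOn (fun z : E => 1 / ‖eval z f‖) S :=
      continuousOn_const.div (hev f).norm.continuousOn fun z hz => (hfnp z hz).ne'
    have i1 : IntegrableOn (fun z : E => ‖eval z f‖) S ν := hint _ (hev f).norm.continuousOn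
    have i2 : IntegrableOn (fun z : E => (eval z f).re ^ 2 * (1 / ‖eval z f‖)) S ν :=
      hint _ (((hevr f).pow 2).continuousOn.mul hwc)
    have i3 : IntegrableOn (fun z : E => (eval z f).re) S ν := hint _ (hevr f).continuousOn
    have h4 : 2 * (1 / M) * m - (1 / M) ^ 2 * (M * m) ≤
        ∫ z in S, (eval z f).re ^ 2 * (1 / ‖eval z f‖) ∂ν := by
      calc 2 * (1 / M) * m - (1 / M) ^ 2 * (M * m)
          ≤ 2 * (1 / M) * (∫ z in S, (eval z f).re ∂ν) -
            (1 / M) ^ 2 * ∫ z in S, ‖eval z f‖ ∂ν := by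
            rw [hre f hf1]
            have := hup f hf1 hf
            gcongr
        _ = ∫ z in S, (2 * (1 / M) * (eval z f).re - (1 / M) ^ 2 * ‖eval z f‖) ∂ν := by
            rw [integral_sub (i3.const_mul _) (i1.const_mul _), integral_const_mul,
              integral_const_mul]
        _ ≤ _ := by
            refine setIntegral_mono_on ((i3.const_mul _).sub (i1.const_mul _)) i2 hSm
              fun z hz => ?_
            have hn := hfnp z hz
            have : 0 ≤ ((eval z f).re - 1 / M * ‖eval z f‖) ^ 2 * (1 / ‖eval z f‖) := by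
              positivity
            have e : ((eval z f).re - 1 / M * ‖eval z f‖) ^ 2 * (1 / ‖eval z f‖) =
                (eval z f).re ^ 2 * (1 / ‖eval z f‖) -
                  (2 * (1 / M) * (eval z f).re - (1 / M) ^ 2 * ‖eval z f‖) := by
              field_simp
              ring
            linarith
    have h5 : 2 * (1 / M) * m - (1 / M) ^ 2 * (M * m) = m / M := by
      field_simp; ring
    rw [h5] at h4
    rw [hκ]
    gcongr
  have hiter : ∀ N : ℕ, ∃ f : P, constantCoeff f = 1 ∧ (∀ z ∈ S, 0 < (eval z f).re) ∧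
      (N : ℝ) * κ ≤ ∫ z in S, ‖eval z f‖ ∂ν := by
    intro N
    induction N with
    | zero =>
      refine ⟨1, by simp, fun z _ => by simp, ?_⟩
      simp only [Nat.cast_zero, zero_mul]
      positivity
    | succ N ih =>
      obtain ⟨f, h1, h2, h3⟩ := ih
      obtain ⟨f', h4, h5, h6⟩ := hstep f h1 h2
      refine ⟨f', h4, h5, ?_⟩
      push_cast
      linarith
  obtain ⟨N, hN⟩ := exists_nat_gt (M * m / κ)
  obtain ⟨f, h1, h2, h3⟩ := hiter N
  have h4 := hup f h1 h2
  rw [div_lt_iff₀ hκ0] at hN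
  linarith

end

end Pool.Agent.L5helper77.RealPart
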